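import Pool.Agent.Work.MP_510745_lc.Univ3

/-!
Codes of initial parts of the tower sequence `k, 2^k, 2^2^k, …`, shift of coded sets, bounds.
-/

namespace Pool.Agent.BSig.Neg

open Pool.Agent.BSig

theorem tow_zero (k : ℕ) : tow 0 k = k := rfl

theorem tow_succ (n k : ℕ) : tow (n + 1) k = 2 ^ tow n k := rfl

theorem tow_add' (m n k : ℕ) : tow (m + n) k = tow m (tow n k) := by
  induction m with
  | zero => simp [tow]
  | succ m ih => rw [Nat.succ_add, tow, ih, tow]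

theorem tow_lt_succ (n k : ℕ) : tow n k < tow (n + 1) k := Nat.lt_two_pow_self

theorem tow_strictMono (k : ℕ) : StrictMono (fun n => tow n k) :=
  strictMono_nat_of_lt_succ fun n => tow_lt_succ n k

theorem tow_lt {m n : ℕ} (h : m < n) (k : ℕ) : tow m k < tow n k := tow_strictMono k h

theorem tow_lt_iff {m n k : ℕ} : tow m k < tow n k ↔ m < n := (tow_strictMono k).lt_iff_lt

theorem tow_le_iff {m n k : ℕ} : tow m k ≤ tow n k ↔ m ≤ n := (tow_strictMono k).le_iff_le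

theorem tow_inj {m n k : ℕ} (h : tow m k = tow n k) : m = n := (tow_strictMono k).injective h

theorem lt_tow_self (n k : ℕ) : n ≤ tow n k := by
  induction n with
  | zero => exact Nat.zero_le _
  | succ n ih => exact lt_of_le_of_lt ih (tow_lt_succ n k)

theorem tow_two_mul_le (n k : ℕ) (hn : 1 ≤ tow n k) : tow n k + tow n k ≤ tow (n + 1) k := by
  rw [tow_succ]
  generalize tow n k = a at hn
  induction a, hn using Nat.le_induction with
  | base => norm_num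
  | succ a ha ih =>
    have h1 : 2 ≤ 2 ^ a := by
      calc 2 = 2 ^ 1 := by norm_num
        _ ≤ 2 ^ a := Nat.pow_le_pow_right (by norm_num) ha
    rw [pow_succ]; omega

/-- `w` codes the sequence `tow 0 k, …, tow n k`. -/
def TwS (k n w : ℕ) : Prop :=
  Bt w (pr 0 k) ∧ (∀ i, i < n → ∀ t, t < w → Bt w (pr i t) → Bt w (pr (i + 1) (2 ^ t))) ∧
    ∀ i, i < n + 1 → ∀ t, t < w → ∀ u, u < w → Bt w (pr i t) → Bt w (pr i u) → t = u

instance d0_TwS {g0 g1 g2 : (ℕ → ℕ) → ℕ} [DT g0] [DT g1] [DT g2] :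
    D0 (fun v => TwS (g0 v) (g1 v) (g2 v)) := by
  apply D0.s3; unfold TwS; infer_instance

theorem bt_pr_lt {w i t : ℕ} (h : Bt w (pr i t)) : i < w ∧ t < w :=
  ⟨lt_of_le_of_lt (le_pr_left _ _) h.lt, lt_of_le_of_lt (le_pr_right _ _) h.lt⟩

theorem TwS.has {k n w : ℕ} (h : TwS k n w) : ∀ i, i ≤ n → Bt w (pr i (tow i k)) := by
  intro i
  induction i with
  | zero => intro _; exact h.1
  | succ i ih =>
    intro hi
    have h1 := ih (by omega)
    exact h.2.1 i (by omega) _ (bt_pr_lt h1).2 h1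

theorem TwS.iff {k n w : ℕ} (h : TwS k n w) {i : ℕ} (hi : i ≤ n) (t : ℕ) :
    Bt w (pr i t) ↔ t = tow i k := by
  constructor
  · intro h1
    have h2 := h.has i hi
    exact h.2.2 i (by omega) t (bt_pr_lt h1).2 _ (bt_pr_lt h2).2 h1 h2
  · rintro rfl; exact h.has i hi

theorem TwS.tow_lt {k n w i : ℕ} (h : TwS k n w) (hi : i ≤ n) : tow i k < w :=
  (bt_pr_lt (h.has i hi)).2

theorem TwS.lt {k n w : ℕ} (h : TwS k n w) : n < w := (bt_pr_lt (h.has n le_rfl)).1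

theorem TwS.mono {k n m w : ℕ} (h : TwS k n w) (hm : m ≤ n) : TwS k m w :=
  ⟨h.1, fun i hi => h.2.1 i (by omega), fun i hi => h.2.2 i (by omega)⟩

theorem ex_TwS (k n : ℕ) : ∃ w, w < 2 ^ (pr n (tow n k) + 1) ∧ TwS k n w := by
  obtain ⟨w, hw, h⟩ := mk_code' (pr n (tow n k) + 1) (fun z => ∃ i, i ≤ n ∧ z = pr i (tow i k))
    (by
      rintro z ⟨i, hi, rfl⟩
      have := pr_mono hi (tow_mono_left hi k)
      omega)
  refine ⟨w, hw, (h _).2 ⟨0, Nat.zero_le _, rfl⟩, ?_, ?_⟩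
  · intro i hi t _ h1
    obtain ⟨j, hj, h2⟩ := (h _).1 h1
    obtain ⟨rfl, rfl⟩ := pr_inj h2
    exact (h _).2 ⟨i + 1, by omega, rfl⟩
  · intro i hi t _ u _ h1 h2
    obtain ⟨j, hj, h3⟩ := (h _).1 h1
    obtain ⟨j', hj', h4⟩ := (h _).1 h2
    obtain ⟨rfl, rfl⟩ := pr_inj h3
    obtain ⟨rfl, rfl⟩ := pr_inj h4
    rfl

/-! ### Bounds -/

theorem sq_le_two_pow (a : ℕ) (ha : 4 ≤ a) : a * a ≤ 2 ^ a := by
  induction a, ha using Nat.le_induction with
  | base => norm_num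
  | succ a ha ih => rw [pow_succ]; nlinarith

/-- `pr x y < 2 ^ 2 ^ N` when both are at most `N` and `N` is not too small. -/
theorem pr_le_two_pow {x y N : ℕ} (hN : 6 ≤ N) (hx : x ≤ N) (hy : y ≤ N) :
    pr x y < 2 ^ 2 ^ N := by
  have h1 : pr x y ≤ (N + N) * (N + N) + N := by
    unfold pr
    have : (x + y) * (x + y) ≤ (N + N) * (N + N) := Nat.mul_le_mul (by omega) (by omega)
    omega
  have h2 : N * N ≤ 2 ^ N := sq_le_two_pow N (by omega)
  have h3 : 5 * 2 ^ N < 2 ^ 2 ^ N := by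
    have h5 : 64 ≤ 2 ^ N := by
      calc 64 = 2 ^ 6 := by norm_num
        _ ≤ 2 ^ N := Nat.pow_le_pow_right (by norm_num) hN
    have h4 : 2 ^ N * 2 ^ N ≤ 2 ^ 2 ^ N := sq_le_two_pow _ (by omega)
    nlinarith
  have h4 : N ≤ N * N := Nat.le_mul_self N
  nlinarith

/-- The code of the tower sequence lies below the tower four levels up. -/
theorem ex_TwS' (k n : ℕ) (hk : 6 ≤ tow n k) : ∃ w, w < tow (n + 4) k ∧ TwS k n w := by
  obtain ⟨w, hw, h⟩ := ex_TwS k n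
  refine ⟨w, lt_of_lt_of_le hw ?_, h⟩
  have h1 := pr_le_two_pow hk (lt_tow_self n k) le_rfl
  have h2 : tow (n + 2) k = 2 ^ 2 ^ tow n k := rfl
  rw [← h2] at h1
  have h3 : tow (n + 3) k = 2 ^ tow (n + 2) k := rfl
  exact le_trans (Nat.pow_le_pow_right (by norm_num) (by omega : pr n (tow n k) + 1 ≤ tow (n + 2) k))
    (by rw [← h3]; exact tow_le_succ _ _)

/-- `t = tow i a`, with a witness below `B`. -/
def IsT (a i t B : ℕ) : Prop := ∃ w, w < B ∧ (TwS a i w ∧ Bt w (pr i t))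

instance d0_IsT {g0 g1 g2 g3 : (ℕ → ℕ) → ℕ} [DT g0] [DT g1] [DT g2] [DT g3] :
    D0 (fun v => IsT (g0 v) (g1 v) (g2 v) (g3 v)) := by
  apply D0.s4; unfold IsT; infer_instance

theorem IsT.eq {a i t B : ℕ} (h : IsT a i t B) : t = tow i a := by
  obtain ⟨w, _, h1, h2⟩ := h
  exact (h1.iff le_rfl t).1 h2

theorem IsT.mono {a i t B B' : ℕ} (h : IsT a i t B) (hB : B ≤ B') : IsT a i t B' := by
  obtain ⟨w, h0, h1⟩ := h
  exact ⟨w, lt_of_lt_of_le h0 hB, h1⟩

theorem IsT.lt {a i t B : ℕ} (h : IsT a i t B) : t < B := by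
  obtain ⟨w, h0, h1, h2⟩ := h
  exact lt_trans (bt_pr_lt h2).2 h0

theorem IsT.lt' {a i t B : ℕ} (h : IsT a i t B) : i < B := by
  obtain ⟨w, h0, h1, h2⟩ := h
  exact lt_trans (bt_pr_lt h2).1 h0

theorem isT_self {a i n : ℕ} (ha : 6 ≤ a) (hn : i + 4 ≤ n) : IsT a i (tow i a) (tow n a) := by
  obtain ⟨w, hw, h⟩ := ex_TwS' a i (le_trans ha (le_tow i a))
  exact ⟨w, lt_of_lt_of_le hw (tow_mono_left hn a), h, h.has i le_rfl⟩

/-- Membership in the cut of standard numbers, with a witness below `B`: `tow x a` exists. -/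
def IsI (a x B : ℕ) : Prop := ∃ w, w < B ∧ TwS a x w

instance d0_IsI {g0 g1 g2 : (ℕ → ℕ) → ℕ} [DT g0] [DT g1] [DT g2] :
    D0 (fun v => IsI (g0 v) (g1 v) (g2 v)) := by
  apply D0.s3; unfold IsI; infer_instance

theorem IsI.tow_lt {a x B : ℕ} (h : IsI a x B) : tow x a < B := by
  obtain ⟨w, h0, h1⟩ := h
  exact lt_trans (h1.tow_lt le_rfl) h0

theorem IsI.lt {a x n : ℕ} (h : IsI a x (tow n a)) : x < n := tow_lt_iff.1 h.tow_lt

theorem isI_self {a x n : ℕ} (ha : 6 ≤ a) (hn : x + 4 ≤ n) : IsI a x (tow n a) := by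
  obtain ⟨w, hw, h⟩ := ex_TwS' a x (le_trans ha (le_tow x a))
  exact ⟨w, lt_of_lt_of_le hw (tow_mono_left hn a), h⟩

/-! ### Shifts of coded sets -/

theorem bt_shift (K t x : ℕ) : Bt (K * 2 ^ t) x ↔ ∃ y, x = t + y ∧ Bt K y := by
  rw [bt_iff, Nat.testBit_mul_two_pow]
  constructor
  · intro h
    rw [Bool.and_eq_true, decide_eq_true_iff] at h
    exact ⟨x - t, by omega, (bt_iff _ _).2 h.2⟩
  · rintro ⟨y, rfl, h⟩
    rw [Bool.and_eq_true, decide_eq_true_iff]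
    refine ⟨by omega, ?_⟩
    rw [Nat.add_sub_cancel_left]
    exact (bt_iff _ _).1 h

theorem bt_shift_add (K t y : ℕ) : Bt (K * 2 ^ t) (t + y) ↔ Bt K y := by
  rw [bt_shift]
  constructor
  · rintro ⟨z, h1, h2⟩
    have : y = z := by omega
    rw [this]; exact h2
  · intro h; exact ⟨y, rfl, h⟩

theorem bt_two_pow (t x : ℕ) : Bt (2 ^ t) x ↔ x = t := by
  rw [bt_iff, Nat.testBit_two_pow, decide_eq_true_iff]
  exact eq_comm

theorem bt_lt_two_pow {K N : ℕ} : K < 2 ^ N ↔ ∀ z, Bt K z → z < N := by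
  constructor
  · intro h z hz; exact hz.lt_of_lt h
  · intro h
    obtain ⟨w, hw, h1⟩ := mk_code' N (Bt K) h
    rwa [bt_ext h1] at hw

theorem shift_lt {K t N : ℕ} (h : K < 2 ^ N) : K * 2 ^ t < 2 ^ (N + t) := by
  rw [pow_add]
  exact Nat.mul_lt_mul_of_pos_right h (by positivity)

end Pool.Agent.BSig.Neg
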