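import Pool.Agent.Work.MP_510745_lc.Neg.Cond
import Pool.Agent.Work.MP_510745_lc.Neg.Tow

/-!
The cut as a c.e. set, the set `B` obtained from `A` and an array, the approximation `Bh`.
-/

namespace Pool.Agent.BSig.Neg

open Filter

/-! ### Soundness and completeness of a functional -/

/-- No false claims. -/
def Sound (H : Set (ℕ → ℕ)) (Θ : Fn) (e : ℕ → ℕ) (X Y : Ce) : Prop :=
  ∀ K ∈ H, ∀ P ∈ H, ∀ Q ∈ H, ∀ n,
    (∀ᶠ k in Uf, Θ.cl (e k) k n (K k) (P k) (Q k)) → Y.sub P → Y.dis Q → X.dis K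

/-- Enough claims. -/
def Compl (H : Set (ℕ → ℕ)) (Θ : Fn) (e : ℕ → ℕ) (X Y : Ce) : Prop :=
  ∀ K ∈ H, Bd st K → X.dis K → ∃ P ∈ H, ∃ Q ∈ H, ∃ n,
    (∀ᶠ k in Uf, Θ.cl (e k) k n (K k) (P k) (Q k)) ∧ Y.sub P ∧ Y.dis Q

theorem isRed_iff {H : Set (ℕ → ℕ)} {Θ : Fn} {e : ℕ → ℕ} {X Y : Ce} :
    IsRed H Θ e X Y ↔ Sound H Θ e X Y ∧ Compl H Θ e X Y := by
  constructor
  · intro h
    refine ⟨fun K hK P hP Q hQ n h1 h2 h3 => ?_, fun K hK hb hd => (h K hK hb).1 hd⟩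
    exact (h K hK (bd_of_lt (h1.mono fun _ h => h.1))).2 ⟨P, hP, Q, hQ, n, h1, h2, h3⟩
  · rintro ⟨h1, h2⟩ K hK hb
    refine ⟨h2 K hK hb, ?_⟩
    rintro ⟨P, hP, Q, hQ, n, h3, h4, h5⟩
    exact h1 K hK P hP Q hQ n h3 h4 h5

/-! ### The cut -/

/-- The cut of the standard numbers: `x` belongs to it iff the tower sequence of length `x`
exists. -/
def cI : Ce where
  R := fun y x p => TwS p x y
  d0 := inferInstance
  p := fun k => k

theorem cI_lt {k n x : ℕ} (h : cI.at k n x) : x < n := by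
  obtain ⟨_, y, hy, h1⟩ := h
  exact tow_lt_iff.1 (lt_trans (h1.tow_lt le_rfl) hy)

theorem cI_of {k n x : ℕ} (hk : 6 ≤ k) (h : x + 4 ≤ n) : cI.at k n x := by
  obtain ⟨w, hw, h1⟩ := ex_TwS' k x (le_trans hk (le_tow x k))
  exact ⟨lt_of_le_of_lt (lt_tow_self x k) (tow_lt (by omega) k), w,
    lt_of_lt_of_le hw (tow_mono h k), h1⟩

theorem cI_dis {K : ℕ → ℕ} : cI.dis K ↔ ∀ n, ∀ᶠ k in Uf, ∀ x, Bt (K k) x → n ≤ x := by
  constructor
  · intro h n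
    filter_upwards [h (n + 4), ev_ge 6] with k h1 h2 x hx
    by_contra h3
    exact h1 x hx (cI_of h2 (by omega))
  · intro h n
    filter_upwards [h n] with k h1 x hx h2
    exact absurd (cI_lt h2) (not_lt.2 (h1 x hx))

theorem cI_sub {K : ℕ → ℕ} : cI.sub K ↔ ∃ n, ∀ᶠ k in Uf, ∀ x, Bt (K k) x → x < n := by
  constructor
  · rintro ⟨n, h⟩
    exact ⟨n, h.mono fun k h1 x hx => cI_lt (h1 x hx)⟩
  · rintro ⟨n, h⟩
    refine ⟨n + 4, ?_⟩
    filter_upwards [h, ev_ge 6] with k h1 h2 x hx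
    have := h1 x hx
    exact cI_of h2 (by omega)

/-! ### The set `B` -/

/-- The values of `d` at the first `m + 1` points of row `r` are below `n`. -/
def Lo (d r m n : ℕ) : Prop := ∀ j, j < m + 1 → ∃ v, v < n ∧ VL d r j v

/-- Stage `n` of `B`: numbers below `n`, and in row `r < n` the copy, shifted by `tow r a`, of the
numbers below `tow r a` enumerated at a stage `m < n` such that the values of `d` in row `r` up to
`m` are below `n`. -/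
def BSt (R : ℕ → ℕ → ℕ → Prop) (p a d n x : ℕ) : Prop :=
  x < n ∨ ∃ r, r < n ∧ ∃ y, y < tow r a ∧ x = tow r a + y ∧ ∃ m, m < n ∧ St R p a m y ∧ Lo d r m n

/-- The upper approximation of `B`: `F` is the set of the rows which are promised to be real, `n`
is the side of the square, `w` stands for a nonstandard number. -/
def Bh (R : ℕ → ℕ → ℕ → Prop) (p a d F n w x : ℕ) : Prop :=
  x < w ∨ ∃ r, r < n ∧ ∃ y, y < tow r a ∧ x = tow r a + y ∧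
    ((Bt F r ∧ St R p a w y) ∨ (¬ Bt F r ∧ ∃ m, m < n ∧ St R p a m y ∧ Lo d r m w))

/-- The formal version of `BSt`; `w` codes the tower sequence. -/
def BStD (R : ℕ → ℕ → ℕ → Prop) (w p d n x : ℕ) : Prop :=
  x < n ∨ ∃ r, r < n ∧ ∃ t, t < w ∧ (Bt w (pr r t) ∧ ∃ z, z < t ∧ (x = t + z ∧
    ∃ m, m < n ∧ ∃ s, s < w ∧ (Bt w (pr m s) ∧ z < s ∧ (∃ y, y < s ∧ R y z p) ∧ Lo d r m n)))

/-- The matrix of the definition of `B`, with the parameter `u = pr (pr p d) a`. -/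
def BR (R : ℕ → ℕ → ℕ → Prop) (y x u : ℕ) : Prop :=
  ∃ p, p < u + 1 ∧ ∃ d, d < u + 1 ∧ ∃ a, a < u + 1 ∧ (u = pr (pr p d) a ∧
    ∃ w, w < y ∧ ∃ n, n < y ∧ (TwS a n w ∧ BStD R w p d n x))

instance d0_Lo {g0 g1 g2 g3 : (ℕ → ℕ) → ℕ} [DT g0] [DT g1] [DT g2] [DT g3] :
    D0 (fun v => Lo (g0 v) (g1 v) (g2 v) (g3 v)) := by
  apply D0.s4; unfold Lo; infer_instance

theorem d0_BStD {R : ℕ → ℕ → ℕ → Prop} (hR : D0 (fun v => R (v 0) (v 1) (v 2))) :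
    D0 (fun v => BStD R (v 0) (v 1) (v 2) (v 3) (v 4)) := by
  have hR' : ∀ (g0 g1 g2 : (ℕ → ℕ) → ℕ) [DT g0] [DT g1] [DT g2],
      D0 (fun v => R (g0 v) (g1 v) (g2 v)) := fun g0 g1 g2 _ _ _ => D0.s3 hR
  unfold BStD
  infer_instance

theorem d0_BR {R : ℕ → ℕ → ℕ → Prop} (hR : D0 (fun v => R (v 0) (v 1) (v 2))) :
    D0 (fun v => BR R (v 0) (v 1) (v 2)) := by
  have hR' : ∀ (g0 g1 g2 g3 g4 : (ℕ → ℕ) → ℕ) [DT g0] [DT g1] [DT g2] [DT g3] [DT g4],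
      D0 (fun v => BStD R (g0 v) (g1 v) (g2 v) (g3 v) (g4 v)) :=
    fun g0 g1 g2 g3 g4 _ _ _ _ _ => D0.s5 (d0_BStD hR)
  unfold BR
  infer_instance

/-- The c.e. set `B` obtained from the c.e. set `A` and the array `d`. -/
def cB (A : Ce) (d : ℕ → ℕ) : Ce where
  R := BR A.R
  d0 := d0_BR A.d0
  p := fun k => pr (pr (A.p k) (d k)) k

end Pool.Agent.BSig.Neg
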