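import Pool.Agent.Work.MP_510745_lc.Neg.GerSig

/-!
# Any two c.e. cuts have the same degree

In a structure of germs every bounded c.e. set is Turing reducible to every c.e. cut.
-/

namespace Pool.Agent.BSig.Neg

open Filter

variable {M : Type} {S : AStr M} {rp : M → ℕ → ℕ}

section subs
variable {g0 g1 g2 : (ℕ → M) → M} [h0 : Mt S g0] [h1 : Mt S g1] [h2 : Mt S g2]

include h0 in
theorem DP.s1 {P : M → Prop} (h : DP S (fun v => P (v 0))) : DP S (fun v => P (g0 v)) :=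
  DP.sub S h (g := asgM S [g0]) (asgM_mt _ (by simp [*]))

include h0 h1 in
theorem DP.s2 {P : M → M → Prop} (h : DP S (fun v => P (v 0) (v 1))) :
    DP S (fun v => P (g0 v) (g1 v)) :=
  DP.sub S h (g := asgM S [g0, g1]) (asgM_mt _ (by simp [*]))

include h0 h1 h2 in
theorem DP.s3 {P : M → M → M → Prop} (h : DP S (fun v => P (v 0) (v 1) (v 2))) :
    DP S (fun v => P (g0 v) (g1 v) (g2 v)) :=
  DP.sub S h (g := asgM S [g0, g1, g2]) (asgM_mt _ (by simp [*]))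

end subs

/-! ### Comprehension, induction, overspill and collection for bounded relations -/

/-- Bounded relations define coded sets below any bound. -/
theorem dp_code (hL : Los S rp) {R : M → Prop} (hR : DP S (fun v => R (v 0))) (b : M) :
    ∃ w : M, S.lt w (S.pow b) ∧ ∀ x, Elt S x w ↔ (S.lt x b ∧ R x) := by
  obtain ⟨f, c, hf⟩ := hR.ex
  have hD' : D0 (fun v : ℕ → ℕ => f.holds natS (mix (fun _ => v 0) (fun j => v (j + 2 + 1)))) := by
    refine ⟨⟨f.subst (mix (fun _ => .var 0) (fun j => .var (j + 2 + 1))), fun v => ?_⟩⟩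
    rw [Fm.holds_subst, mix_map (fun u : Tm => u.val natS v)]
    simp only [Tm.val]
  have hD : D0 (fun u : ℕ → ℕ => ∀ z, z < u 1 →
      (Bt (u 0) z ↔ f.holds natS (mix (fun _ => z) (fun j => u (j + 2))))) :=
    @d0_all (fun v => v 1)
      (fun z v => (Bt (v 0) z ↔ f.holds natS (mix (fun _ => z) (fun j => v (j + 2))))) _
      (@d0_iff _ _ inferInstance hD')
  obtain ⟨w, hw⟩ := hL.choose hD (S.pow b) (psh b c) (by
    filter_upwards [hL.pow b] with k hk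
    obtain ⟨w, hw, h⟩ := mk_code (rp b k)
      (fun z => f.holds natS (mix (fun _ => z) (fun j => rp (c j) k)))
    exact ⟨w, by rw [hk]; exact hw, fun z hz => (h z).trans ⟨fun h => h.2, fun h => ⟨hz, h⟩⟩⟩)
  refine ⟨w, ?_, fun x => ?_⟩
  · rw [hL.lt]; exact hw.mono fun _ h => h.1
  · have e : R x ↔ ∀ᶠ k in Uf, f.holds natS (mix (fun _ => rp x k) (fun j => rp (c j) k)) := by
      have h1 := hf (fun _ => x)
      rw [h1, hL]
      refine eventually_congr (Eventually.of_forall fun k => ?_)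
      rw [mix_map (fun u => rp u k)]
    rw [hL.elt, hL.lt, e, ← ev_and]
    refine eventually_congr ?_
    filter_upwards [hw, hL.pow b] with k h1 h2
    have h3 : rp w k < 2 ^ rp b k := by rw [← h2]; exact h1.1
    constructor
    · intro h
      have h4 := h.lt_of_lt h3
      exact ⟨h4, (h1.2 _ h4).1 h⟩
    · rintro ⟨h4, h5⟩
      exact (h1.2 _ h4).2 h5

theorem dp_ind (hL : Los S rp) {R : M → Prop} (hR : DP S (fun v => R (v 0))) (h0 : R S.zero)
    (h1 : ∀ x, R x → R (S.add x S.one)) (x : M) : R x := by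
  obtain ⟨f, c, hf⟩ := hR.ex
  have e : ∀ x, R x ↔ (f.subst (mix (fun _ => .var 0) (fun j => .var (j + 1)))).holds S
      (psh x c) := by
    intro x
    rw [Fm.holds_subst, mix_map (fun u : Tm => u.val S (psh x c))]
    exact hf (fun _ => x)
  rw [e]
  exact hL.iDelta0 _ c ((e _).1 h0) (fun x hx => (e _).1 (h1 x ((e x).2 hx))) x

theorem cut_zero (hL : Los S rp) {I : M → Prop} (hI : IsCut S I) : I S.zero := by
  obtain ⟨⟨x, hx⟩, -, hd, -⟩ := hI
  rcases hL.isPA.lt_total S.zero x with h | h | h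
  · exact hd _ _ h hx
  · rw [h]; exact hx
  · exact absurd h (hL.isPA.zero_le x)

/-- A bounded relation that holds on a cut holds somewhere above it. -/
theorem cut_over (hL : Los S rp) {I : M → Prop} (hI : IsCut S I) {R : M → Prop}
    (hR : DP S (fun v => R (v 0))) (h : ∀ i, I i → R i) : ∃ i, ¬ I i ∧ R i := by
  by_contra hc
  push Not at hc
  have e : ∀ i, R i → I i := fun i hi => by
    by_contra hn
    exact hc i hn hi
  have hz := cut_zero hL hI
  obtain ⟨-, ⟨y, hy⟩, -, hs⟩ := hI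
  exact hy (e y (dp_ind hL hR (h _ hz) (fun x hx => h _ (hs x (e x hx))) y))

/-- Elements outside a cut are above its elements. -/
theorem cut_lt (hL : Los S rp) {I : M → Prop} (hI : IsCut S I) {x y : M} (hx : I x)
    (hy : ¬ I y) : S.lt x y := by
  obtain ⟨-, -, hd, -⟩ := hI
  rcases hL.isPA.lt_total x y with h | h | h
  · exact h
  · exact absurd (h ▸ hx) hy
  · exact absurd (hd _ _ h hx) hy

theorem dp_coll (hB : BSigma1 S) {R : M → M → Prop} (hR : DP S (fun v => R (v 0) (v 1))) (a : M)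
    (h : ∀ x, S.lt x a → ∃ y, R x y) : ∃ t, ∀ x, S.lt x a → ∃ y, S.lt y t ∧ R x y := by
  obtain ⟨f, c, hf⟩ := hR.ex
  have e : ∀ x y z, R x y ↔ (f.subst (mix (psh (.var 2) (fun _ => .var 1))
      (fun j => .var (j + 3)))).holds S (psh z (psh y (psh x c))) := by
    intro x y z
    rw [Fm.holds_subst, mix_map (fun u : Tm => u.val S _), psh_map (fun u : Tm => u.val S _)]
    exact hf (psh x (fun _ => y))
  obtain ⟨t, ht⟩ := hB (f.subst (mix (psh (.var 2) (fun _ => .var 1))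
      (fun j => .var (j + 3)))) c a (fun x hx => by
    obtain ⟨y, hy⟩ := h x hx
    exact ⟨y, y, (e x y y).1 hy⟩)
  refine ⟨t, fun x hx => ?_⟩
  obtain ⟨y, hy, z, hz⟩ := ht x hx
  exact ⟨y, hy, (e x y z).2 hz⟩

/-- Stages of a c.e. set. -/
theorem ce_stg (hL : Los S rp) {A : M → Prop} (hA : CE S A) : ∃ G : M → M → Prop,
    DP S (fun v => G (v 0) (v 1)) ∧ (∀ x w w', G x w → S.lt w w' → G x w') ∧
      ∀ x, A x ↔ ∃ w, G x w := by
  obtain ⟨f, c, hf⟩ := hA
  have hD : DP S (fun v : ℕ → M => f.holds S (psh (v 0) (psh (v 1) c))) := by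
    refine ⟨⟨f.subst (psh (.var (2 * 0)) (psh (.var (2 * 1)) (fun j => .var (2 * j + 1)))), c,
      fun v => ?_⟩⟩
    rw [Fm.holds_subst, psh_map (fun u : Tm => u.val S _), psh_map (fun u : Tm => u.val S _)]
    simp only [Tm.val, mix_even, mix_odd]
  refine ⟨fun x w => ∃ y, S.lt y w ∧ f.holds S (psh y (psh x c)), ?_, ?_, ?_⟩
  · exact @dp_ex _ S (fun v => v 1) (fun y v => f.holds S (psh y (psh (v 0) c))) _ hD
  · rintro x w w' ⟨y, h1, h2⟩ h
    exact ⟨y, hL.isPA.lt_trans _ _ _ h1 h, h2⟩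
  · intro x
    rw [hf]
    constructor
    · rintro ⟨y, hy⟩
      obtain ⟨w, hw, _⟩ := hL.dir y y
      exact ⟨w, y, hw, hy⟩
    · rintro ⟨w, y, _, hy⟩
      exact ⟨y, hy⟩

/-! ### Pairs -/

/-- The pairing term. -/
def prG (S : AStr M) (x y : M) : M := S.add (S.mul (S.add x y) (S.add x y)) x

instance mt_prG {g h : (ℕ → M) → M} [hg : Mt S g] [hh : Mt S h] :
    Mt S (fun v => prG S (g v) (h v)) := by
  unfold prG
  infer_instance

theorem rp_prG (hL : Los S rp) (x y : M) : ∀ᶠ k in Uf, rp (prG S x y) k = pr (rp x k) (rp y k) := by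
  filter_upwards [hL.add x y, hL.mul (S.add x y) (S.add x y),
    hL.add (S.mul (S.add x y) (S.add x y)) x] with k h1 h2 h3
  unfold prG pr
  rw [h3, h2, h1]

theorem prG_inj (hL : Los S rp) {x y x' y' : M} (h : prG S x y = prG S x' y') :
    x = x' ∧ y = y' := by
  rw [hL.eq] at h
  have h1 : ∀ᶠ k in Uf, rp x k = rp x' k ∧ rp y k = rp y' k := by
    filter_upwards [h, rp_prG hL x y, rp_prG hL x' y'] with k h1 h2 h3
    rw [h2, h3] at h1
    exact pr_inj h1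
  rw [hL.eq, hL.eq]
  exact ev_and.1 h1

theorem prG_lt (hL : Los S rp) {x y a b : M} (hx : S.lt x a) (hy : S.lt y b) :
    S.lt (prG S x y) (S.add (prG S a b) S.one) := by
  rw [hL.lt] at hx hy ⊢
  filter_upwards [hx, hy, rp_prG hL x y, rp_prG hL a b, hL.add (prG S a b) S.one, hL.one]
    with k h1 h2 h3 h4 h5 h6
  rw [h3, h5, h4, h6]
  have := pr_mono h1.le h2.le
  omega

/-! ### Separation -/

/-- Disjoint bounded `Σ₁` sets of pairs are separated by a coded set. -/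
theorem ex_sep [hG : Ger S rp] {P Q : M → M → M → Prop} (hP : DP S (fun v => P (v 0) (v 1) (v 2)))
    (hQ : DP S (fun v => Q (v 0) (v 1) (v 2)))
    (hd : ∀ w w' i x, P w i x → Q w' i x → False) (a b : M) :
    ∃ T, ∀ i x, S.lt i a → S.lt x b → ((∃ w, P w i x) → Elt S (prG S i x) T) ∧
      ((∃ w, Q w i x) → ¬ Elt S (prG S i x) T) := by
  have hL : Los S rp := hG.los
  have iP : ∀ (g0 g1 g2 : (ℕ → M) → M) [Mt S g0] [Mt S g1] [Mt S g2],
    DP S (fun v => P (g0 v) (g1 v) (g2 v)) := fun g0 g1 g2 _ _ _ => DP.s3 hP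
  have iQ : ∀ (g0 g1 g2 : (ℕ → M) → M) [Mt S g0] [Mt S g1] [Mt S g2],
    DP S (fun v => Q (g0 v) (g1 v) (g2 v)) := fun g0 g1 g2 _ _ _ => DP.s3 hQ
  by_contra hc
  push Not at hc
  have hD : DP S (fun v : ℕ → M => ∃ i, S.lt i a ∧ ∃ x, S.lt x b ∧
      ((P (v 1) i x ∧ ¬ Elt S (prG S i x) (v 0)) ∨ (Q (v 1) i x ∧ Elt S (prG S i x) (v 0)))) :=
    inferInstance
  obtain ⟨t, ht⟩ := dp_coll hG.bs (R := fun T w => ∃ i, S.lt i a ∧ ∃ x, S.lt x b ∧
      ((P w i x ∧ ¬ Elt S (prG S i x) T) ∨ (Q w i x ∧ Elt S (prG S i x) T))) hD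
    (S.pow (S.add (prG S a b) S.one)) (fun T _ => by
      obtain ⟨i, x, hi, hx, h⟩ := hc T
      by_cases h1 : ∃ w, P w i x ∧ ¬ Elt S (prG S i x) T
      · obtain ⟨w, hw⟩ := h1
        exact ⟨w, i, hi, x, hx, Or.inl hw⟩
      · push Not at h1
        obtain ⟨⟨w, hw⟩, h2⟩ := h (fun ⟨w, hw⟩ => h1 w hw)
        exact ⟨w, i, hi, x, hx, Or.inr ⟨hw, h2⟩⟩)
  have hD2 : DP S (fun v : ℕ → M => ∃ i, S.lt i a ∧ ∃ x, S.lt x b ∧
      (v 0 = prG S i x ∧ ∃ w, S.lt w t ∧ P w i x)) := inferInstance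
  obtain ⟨T, hT, hT'⟩ := dp_code hL (R := fun z => ∃ i, S.lt i a ∧ ∃ x, S.lt x b ∧
      (z = prG S i x ∧ ∃ w, S.lt w t ∧ P w i x)) hD2 (S.add (prG S a b) S.one)
  obtain ⟨w, hw, i, hi, x, hx, h⟩ := ht T hT
  rcases h with ⟨h1, h2⟩ | ⟨h1, h2⟩
  · exact h2 ((hT' _).2 ⟨prG_lt hL hi hx, i, hi, x, hx, rfl, w, hw, h1⟩)
  · obtain ⟨-, i', -, x', -, e, w', -, h3⟩ := (hT' _).1 h2
    obtain ⟨rfl, rfl⟩ := prG_inj hL e
    exact hd _ _ _ _ h3 h1

/-! ### Reduction of bounded c.e. sets to c.e. cuts -/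

/-- Every bounded c.e. set is Turing reducible to every c.e. cut. -/
theorem red_cut_of_bdd [hG : Ger S rp] {I J : M → Prop} (hI : IsCut S I) (hIc : CE S I)
    (hJc : CE S J) {b : M} (hb : ∀ x, J x → S.lt x b) : Red S J I := by
  have hL : Los S rp := hG.los
  obtain ⟨A, hA, -, hJA⟩ := ce_stg hL hJc
  obtain ⟨G, hGd, hGm, hIG⟩ := ce_stg hL hIc
  have iA : ∀ (g0 g1 : (ℕ → M) → M) [Mt S g0] [Mt S g1],
    DP S (fun v => A (g0 v) (g1 v)) := fun g0 g1 _ _ => DP.s2 hA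
  have iG : ∀ (g0 g1 : (ℕ → M) → M) [Mt S g0] [Mt S g1],
    DP S (fun v => G (g0 v) (g1 v)) := fun g0 g1 _ _ => DP.s2 hGd
  obtain ⟨c, hc⟩ := hI.2.1
  have hc' : ∀ i, I i → S.lt i c := fun i hi => cut_lt hL hI hi hc
  obtain ⟨T, hT⟩ := ex_sep (S := S) (P := fun w i x => ¬ G i w ∧ A x w)
    (Q := fun w i x => G i w ∧ ∀ w', S.lt w' w → (¬ G i w' → ¬ A x w')) inferInstance inferInstance
    (by
      rintro w w' i x ⟨h1, h2⟩ ⟨h3, h4⟩
      rcases hL.isPA.lt_total w w' with h | h | h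
      · exact h4 w h h1 h2
      · exact h1 (h ▸ h3)
      · exact h1 (hGm _ _ _ h3 h)) c b
  refine red_of_neg hJc ?_
  have hD : DP S (fun v : ℕ → M => S.lt (v 0) c ∧ ∀ y, S.lt y (v 1) → (Elt S y (v 1) →
      S.lt y b → ¬ Elt S (prG S (v 0) y) T)) := inferInstance
  have iD : ∀ (g0 g1 : (ℕ → M) → M) [Mt S g0] [Mt S g1], DP S (fun v => S.lt (g0 v) c ∧
      ∀ y, S.lt y (g1 v) → (Elt S y (g1 v) → S.lt y b → ¬ Elt S (prG S (g0 v) y) T)) :=
    fun g0 g1 _ _ => DP.s2 (P := fun i K => S.lt i c ∧ ∀ y, S.lt y K → (Elt S y K →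
      S.lt y b → ¬ Elt S (prG S i y) T)) hD
  refine SB.congr (R := fun v : ℕ → M => ∃ i, ∃ n, (Elt S i n ∧ Neg S n I) ∧ (S.lt i c ∧
      ∀ y, S.lt y (v 0) → (Elt S y (v 0) → S.lt y b → ¬ Elt S (prG S i y) T))) ?_ fun v => ?_
  · refine @sb_ex _ S rp I hG _ ?_
    refine @sb_ex _ S rp I hG _ ?_
    exact SB.and (SB.and (SB.of_sp hL inferInstance) inferInstance) (SB.of_sp hL inferInstance)
  · constructor
    · rintro ⟨i, n, ⟨hin, hn⟩, hic, h⟩ y hy hJ
      have hyb := hb y hJ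
      obtain ⟨w, hw⟩ := (hJA y).1 hJ
      refine h y (elt_lt hL hy) hy hyb ((hT i y hic hyb).1 ⟨w, fun h1 => ?_, hw⟩)
      exact hn i hin ((hIG i).2 ⟨w, h1⟩)
    · intro hK
      obtain ⟨i, hiI, hic, hi⟩ := cut_over hL hI (R := fun i => S.lt i c ∧ ∀ y, S.lt y (v 0) →
        (Elt S y (v 0) → S.lt y b → ¬ Elt S (prG S i y) T)) inferInstance (fun i hi => by
          refine ⟨hc' i hi, fun y _ hy hyb => (hT i y (hc' i hi) hyb).2 ?_⟩
          obtain ⟨w, hw⟩ := (hIG i).1 hi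
          exact ⟨w, hw, fun w' _ _ h => hK y hy ((hJA y).2 ⟨w', h⟩)⟩)
      obtain ⟨n, -, hn⟩ := dp_code hL (R := fun x => x = i) inferInstance (S.add i S.one)
      refine ⟨i, n, ⟨(hn i).2 ⟨?_, rfl⟩, fun x hx => ?_⟩, hic, hi⟩
      · rw [hL.lt]
        filter_upwards [hL.add i S.one, hL.one] with k h1 h2
        rw [h1, h2]; omega
      · rw [((hn x).1 hx).2]; exact hiI

/-- Any two c.e. cuts have the same degree. -/
theorem red_cut [hG : Ger S rp] {I J : M → Prop} (hI : IsCut S I) (hIc : CE S I)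
    (hJ : IsCut S J) (hJc : CE S J) : Red S J I := by
  obtain ⟨b, hb⟩ := hJ.2.1
  exact red_cut_of_bdd hI hIc hJc (b := b) fun x hx => cut_lt hG.los hJ hx hb

end Pool.Agent.BSig.Neg
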