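import Pool.Agent.Work.MP_510745_lc.Neg.Ger

/-!
# `Σ₁` relations and reducibility in structures of germs
-/

namespace Pool.Agent.BSig.Neg

open Filter

variable {M : Type} {S : AStr M} {rp : M → ℕ → ℕ}

theorem Ger.l (S : AStr M) {rp : M → ℕ → ℕ} [h : Ger S rp] : Los S rp := h.los

instance sp_of_dp [Ger S rp] {R : (ℕ → M) → Prop} [hR : DP S R] : SP S R :=
  @sp_dp _ S ⟨S.zero⟩ R hR

instance sp_and [h : Ger S rp] {R Q : (ℕ → M) → Prop} [hR : SP S R] [hQ : SP S Q] :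
    SP S (fun v => R v ∧ Q v) := hR.and S h.l.dir hQ

instance sp_or [Ger S rp] {R Q : (ℕ → M) → Prop} [hR : SP S R] [hQ : SP S Q] :
    SP S (fun v => R v ∨ Q v) := hR.or S hQ

instance sp_ex [h : Ger S rp] {R : M → (ℕ → M) → Prop}
    [hR : SP S (fun v => R (v 0) (fun i => v (i + 1)))] :
    SP S (fun v => ∃ x, R x v) := SP.exists S h.l.dir hR

instance sp_all [h : Ger S rp] {g : (ℕ → M) → M} {R : M → (ℕ → M) → Prop}
    [hg : Mt S g] [hR : SP S (fun v => R (v 0) (fun i => v (i + 1)))] :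
    SP S (fun v => ∀ x, S.lt x (g v) → R x v) :=
  SP.forall S h.bs hg hR

/-- The germ of a bounded relation on the naturals. -/
theorem dp_germ (hL : Los S rp) {P : (ℕ → ℕ) → Prop} (hP : D0 P) :
    DP S (fun v : ℕ → M => ∀ᶠ k in Uf, P (fun i => rp (v i) k)) := by
  obtain ⟨f, hf⟩ := hP.ex
  refine ⟨⟨f.subst (fun j => .var (2 * j)), fun _ => S.zero, fun v => ?_⟩⟩
  rw [Fm.holds_subst]
  simp only [Tm.val, mix_even]
  rw [hL]
  simp only [hf]

/-- The germ of a bounded relation on the naturals at parametrised terms. -/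
theorem dp_germ' (hL : Los S rp) {P : (ℕ → ℕ) → Prop} (hP : D0 P) {g : ℕ → (ℕ → M) → M}
    (hg : ∀ i, Mt S (g i)) :
    DP S (fun v : ℕ → M => ∀ᶠ k in Uf, P (fun i => rp (g i v) k)) :=
  DP.sub S (dp_germ hL hP) hg

/-- A list of term functions as an assignment. -/
def asgM (S : AStr M) : List ((ℕ → M) → M) → ℕ → (ℕ → M) → M
  | [], _ => fun _ => S.zero
  | (g :: _), 0 => g
  | (_ :: l), (i + 1) => asgM S l i

theorem asgM_mt : ∀ (l : List ((ℕ → M) → M)), (∀ g ∈ l, Mt S g) → ∀ i, Mt S (asgM S l i)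
  | [], _, _ => mt_const _ _
  | (g :: _), h, 0 => h g (by simp)
  | (_ :: l), h, (i + 1) => asgM_mt l (fun g hg => h g (by simp [hg])) i

section germs

variable (hL : Los S rp) {g0 g1 g2 g3 g4 g5 g6 g7 g8 g9 : (ℕ → M) → M} [h0 : Mt S g0]
  [h1 : Mt S g1] [h2 : Mt S g2] [h3 : Mt S g3] [h4 : Mt S g4]
  [h5 : Mt S g5] [h6 : Mt S g6] [h7 : Mt S g7] [h8 : Mt S g8]
  [h9 : Mt S g9]

include hL

include h0 in
theorem dp_g1 {P : ℕ → Prop} (h : D0 (fun v => P (v 0))) :
    DP S (fun v => ∀ᶠ k in Uf, P (rp (g0 v) k)) :=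
  dp_germ' hL h (g := asgM S [g0]) (asgM_mt _ (by simp [*]))

include h0 h1 in
theorem dp_g2 {P : ℕ → ℕ → Prop} (h : D0 (fun v => P (v 0) (v 1))) :
    DP S (fun v => ∀ᶠ k in Uf, P (rp (g0 v) k) (rp (g1 v) k)) :=
  dp_germ' hL h (g := asgM S [g0, g1]) (asgM_mt _ (by simp [*]))

include h0 h1 h2 in
theorem dp_g3 {P : ℕ → ℕ → ℕ → Prop} (h : D0 (fun v => P (v 0) (v 1) (v 2))) :
    DP S (fun v => ∀ᶠ k in Uf, P (rp (g0 v) k) (rp (g1 v) k) (rp (g2 v) k)) :=
  dp_germ' hL h (g := asgM S [g0, g1, g2]) (asgM_mt _ (by simp [*]))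

include h0 h1 h2 h3 in
theorem dp_g4 {P : ℕ → ℕ → ℕ → ℕ → Prop} (h : D0 (fun v => P (v 0) (v 1) (v 2) (v 3))) :
    DP S (fun v => ∀ᶠ k in Uf, P (rp (g0 v) k) (rp (g1 v) k) (rp (g2 v) k)
      (rp (g3 v) k)) :=
  dp_germ' hL h (g := asgM S [g0, g1, g2, g3]) (asgM_mt _ (by simp [*]))

include h0 h1 h2 h3 h4 in
theorem dp_g5 {P : ℕ → ℕ → ℕ → ℕ → ℕ → Prop}
    (h : D0 (fun v => P (v 0) (v 1) (v 2) (v 3) (v 4))) :
    DP S (fun v => ∀ᶠ k in Uf, P (rp (g0 v) k) (rp (g1 v) k) (rp (g2 v) k)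
      (rp (g3 v) k) (rp (g4 v) k)) :=
  dp_germ' hL h (g := asgM S [g0, g1, g2, g3, g4]) (asgM_mt _ (by simp [*]))

include h0 h1 h2 h3 h4 h5 in
theorem dp_g6 {P : ℕ → ℕ → ℕ → ℕ → ℕ → ℕ → Prop}
    (h : D0 (fun v => P (v 0) (v 1) (v 2) (v 3) (v 4) (v 5))) :
    DP S (fun v => ∀ᶠ k in Uf, P (rp (g0 v) k) (rp (g1 v) k) (rp (g2 v) k)
      (rp (g3 v) k) (rp (g4 v) k) (rp (g5 v) k)) :=
  dp_germ' hL h (g := asgM S [g0, g1, g2, g3, g4, g5]) (asgM_mt _ (by simp [*]))

include h0 h1 h2 h3 h4 h5 h6 in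
theorem dp_g7 {P : ℕ → ℕ → ℕ → ℕ → ℕ → ℕ → ℕ → Prop}
    (h : D0 (fun v => P (v 0) (v 1) (v 2) (v 3) (v 4) (v 5) (v 6))) :
    DP S (fun v => ∀ᶠ k in Uf, P (rp (g0 v) k) (rp (g1 v) k) (rp (g2 v) k)
      (rp (g3 v) k) (rp (g4 v) k) (rp (g5 v) k) (rp (g6 v) k)) :=
  dp_germ' hL h (g := asgM S [g0, g1, g2, g3, g4, g5, g6]) (asgM_mt _ (by simp [*]))

include h0 h1 h2 h3 h4 h5 h6 h7 in
theorem dp_g8 {P : ℕ → ℕ → ℕ → ℕ → ℕ → ℕ → ℕ → ℕ → Prop}
    (h : D0 (fun v => P (v 0) (v 1) (v 2) (v 3) (v 4) (v 5) (v 6) (v 7))) :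
    DP S (fun v => ∀ᶠ k in Uf, P (rp (g0 v) k) (rp (g1 v) k) (rp (g2 v) k)
      (rp (g3 v) k) (rp (g4 v) k) (rp (g5 v) k) (rp (g6 v) k) (rp (g7 v) k)) :=
  dp_germ' hL h (g := asgM S [g0, g1, g2, g3, g4, g5, g6, g7]) (asgM_mt _ (by simp [*]))

include h0 h1 h2 h3 h4 h5 h6 h7 h8 in
theorem dp_g9 {P : ℕ → ℕ → ℕ → ℕ → ℕ → ℕ → ℕ → ℕ → ℕ → Prop}
    (h : D0 (fun v => P (v 0) (v 1) (v 2) (v 3) (v 4) (v 5) (v 6) (v 7) (v 8))) :
    DP S (fun v => ∀ᶠ k in Uf, P (rp (g0 v) k) (rp (g1 v) k) (rp (g2 v) k)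
      (rp (g3 v) k) (rp (g4 v) k) (rp (g5 v) k) (rp (g6 v) k) (rp (g7 v) k)
      (rp (g8 v) k)) :=
  dp_germ' hL h (g := asgM S [g0, g1, g2, g3, g4, g5, g6, g7, g8]) (asgM_mt _ (by simp [*]))

include h0 h1 h2 h3 h4 h5 h6 h7 h8 h9 in
theorem dp_g10 {P : ℕ → ℕ → ℕ → ℕ → ℕ → ℕ → ℕ → ℕ → ℕ → ℕ → Prop}
    (h : D0 (fun v => P (v 0) (v 1) (v 2) (v 3) (v 4) (v 5) (v 6) (v 7) (v 8) (v 9))) :
    DP S (fun v => ∀ᶠ k in Uf, P (rp (g0 v) k) (rp (g1 v) k) (rp (g2 v) k)
      (rp (g3 v) k) (rp (g4 v) k) (rp (g5 v) k) (rp (g6 v) k) (rp (g7 v) k)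
      (rp (g8 v) k) (rp (g9 v) k)) :=
  dp_germ' hL h (g := asgM S [g0, g1, g2, g3, g4, g5, g6, g7, g8, g9])
    (asgM_mt _ (by simp [*]))

end germs

/-! ### Coded sets -/

instance dp_elt [h : Ger S rp] {g h : (ℕ → M) → M} [hg : Mt S g] [hh : Mt S h] :
    DP S (fun v => Elt S (g v) (h v)) :=
  DP.congr S (dp_g2 (Ger.l S) (P := fun w z => Bt w z) (g0 := h) (g1 := g) inferInstance)
    fun v => ((Ger.l S).elt (g v) (h v)).symm

/-- Elements of a coded set are smaller than its code. -/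
theorem elt_lt (hL : Los S rp) {x a : M} (h : Elt S x a) : S.lt x a := by
  rw [hL.elt] at h
  rw [hL.lt]
  exact h.mono fun _ h => h.lt

/-- Inclusion of coded sets. -/
def Sb (S : AStr M) (p q : M) : Prop := ∀ x, Elt S x p → Elt S x q

theorem Sb.refl (p : M) : Sb S p p := fun _ h => h

theorem sb_iff (hL : Los S rp) (p q : M) :
    Sb S p q ↔ ∀ᶠ k in Uf, ∀ z, Bt (rp p k) z → Bt (rp q k) z := by
  constructor
  · intro h
    by_contra hc
    rw [← ev_not] at hc
    have h1 : ∀ᶠ k in Uf, ∃ z, z < rp p k ∧ (Bt (rp p k) z ∧ ¬ Bt (rp q k) z) := by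
      filter_upwards [hc] with k hk
      push Not at hk
      obtain ⟨z, hz, hz'⟩ := hk
      exact ⟨z, hz.lt, hz, hz'⟩
    obtain ⟨x, hx⟩ := hL.choose2 (P := fun z p q => Bt p z ∧ ¬ Bt q z) inferInstance p p q h1
    have h2 := h x ((hL.elt _ _).2 (hx.mono fun _ h => h.2.1))
    rw [hL.elt] at h2
    obtain ⟨k, hk1, hk2⟩ := ev_exists (h2.and hx)
    exact hk2.2.2 hk1
  · intro h x hx
    rw [hL.elt] at hx ⊢
    filter_upwards [h, hx] with k h1 h2
    exact h1 _ h2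

instance dp_sb [Ger S rp] {g h : (ℕ → M) → M} [hg : Mt S g] [hh : Mt S h] :
    DP S (fun v => Sb S (g v) (h v)) := by
  refine DP.congr S (dp_g2 (Ger.l S) (P := fun w z => ∀ x, x < w → (Bt w x → Bt z x)) (g0 := g)
    (g1 := h) inferInstance) fun v => ?_
  rw [sb_iff (Ger.l S)]
  refine eventually_congr (Eventually.of_forall fun k => ?_)
  exact ⟨fun h z hz => h z hz.lt hz, fun h z _ hz => h z hz⟩

theorem pos_sb {p q : M} {B : M → Prop} (h : Sb S p q) (hq : Pos S q B) :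
    Pos S p B := fun x hx => hq x (h x hx)

theorem neg_sb {p q : M} {B : M → Prop} (h : Sb S p q) (hq : Neg S q B) :
    Neg S p B := fun x hx => hq x (h x hx)

/-- Bounded comprehension: `{x < b : P x c d}` is coded. -/
theorem ex_codeG (hL : Los S rp) {P : ℕ → ℕ → ℕ → Prop}
    (hP : D0 (fun v => P (v 0) (v 1) (v 2))) (b c d : M) :
    ∃ w : M, (∀ᶠ k in Uf, rp w k < 2 ^ rp b k) ∧
      ∀ᶠ k in Uf, ∀ z, Bt (rp w k) z ↔ (z < rp b k ∧ P z (rp c k) (rp d k)) := by
  have h1 : ∀ᶠ k in Uf, ∃ w, w < rp (S.pow b) k ∧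
      ∀ z, z < rp b k → (Bt w z ↔ P z (rp c k) (rp d k)) := by
    filter_upwards [hL.pow b] with k hk
    obtain ⟨w, hw, h⟩ := mk_code (rp b k) (fun z => P z (rp c k) (rp d k))
    exact ⟨w, by rw [hk]; exact hw, fun z hz => (h z).trans ⟨fun h => h.2, fun h => ⟨hz, h⟩⟩⟩
  have hP' : D0 (fun v : ℕ → ℕ => P (v 0) (v 3) (v 4)) := D0.s3 hP
  obtain ⟨w, hw⟩ := hL.choose3 (P := fun w b c d => ∀ z, z < b → (Bt w z ↔ P z c d))
    (by
      have := hP'
      exact @d0_all (fun v => v 1) (fun z v => (Bt (v 0) z ↔ P z (v 2) (v 3))) _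
        (@d0_iff _ _ inferInstance hP')) (S.pow b) b c d h1
  refine ⟨w, ?_, ?_⟩
  · filter_upwards [hw, hL.pow b] with k h1 h2
    rw [← h2]; exact h1.1
  · filter_upwards [hw, hL.pow b] with k h1 h2 z
    constructor
    · intro hz
      have h3 : z < rp b k := hz.lt_of_lt (by rw [← h2]; exact h1.1)
      exact ⟨h3, (h1.2 z h3).1 hz⟩
    · rintro ⟨h3, h4⟩
      exact (h1.2 z h3).2 h4

/-- Unions of coded sets. -/
theorem ex_union (hL : Los S rp) (p q : M) : ∃ r : M, ∀ x, Elt S x r ↔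
    (Elt S x p ∨ Elt S x q) := by
  obtain ⟨r, -, hr⟩ := ex_codeG hL (P := fun z p q => Bt p z ∨ Bt q z) inferInstance
    (S.add p q) p q
  refine ⟨r, fun x => ?_⟩
  rw [hL.elt, hL.elt, hL.elt, ← ev_or]
  refine eventually_congr ?_
  filter_upwards [hr, hL.add p q] with k h1 h2
  rw [h1, h2]
  constructor
  · exact fun h => h.2
  · intro h
    refine ⟨?_, h⟩
    rcases h with h | h
    · have := h.lt; omega
    · have := h.lt; omega

/-- The empty set has a code. -/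
theorem elt_zero (hL : Los S rp) (x : M) : ¬ Elt S x S.zero := by
  rw [hL.elt]
  intro h
  obtain ⟨k, hk, h0⟩ := ev_exists (h.and hL.zero)
  rw [h0] at hk
  have := hk.lt
  omega

theorem one_ne_zero (hL : Los S rp) : S.one ≠ S.zero := by
  intro h
  obtain ⟨k, ⟨hk, h0⟩, h1⟩ := ev_exists ((((hL.eq _ _).1 h).and hL.zero).and hL.one)
  omega

/-! ### C.e. sets -/

theorem ce_iff_sp (S : AStr M) (A : M → Prop) : CE S A ↔ SP S (fun v => A (v 0)) := by
  constructor
  · rintro ⟨f, c, hf⟩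
    refine ⟨⟨f.subst (psh (.var 0) (psh (.var 1) (fun j => .var (2 * j + 1 + 1)))), c, fun v => ?_⟩⟩
    rw [hf]
    refine exists_congr fun y => ?_
    rw [Fm.holds_subst, psh_map (fun u : Tm => u.val S _), psh_map (fun u : Tm => u.val S _)]
    simp only [Tm.val, psh, mix_odd]
    rw [← mix_even v c 0]
  · rintro ⟨f, c, hf⟩
    refine ⟨f.subst (psh (.var 0) (mix (fun _ => .var 1) (fun j => .var (j + 2)))), c, fun x => ?_⟩
    have := hf (fun _ => x)
    rw [this]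
    refine exists_congr fun y => ?_
    rw [Fm.holds_subst, psh_map (fun u : Tm => u.val S _), mix_map (fun u : Tm => u.val S _)]
    simp only [Tm.val, psh]

theorem ce4_iff_sp (S : AStr M) (F : M → M → M → M → Prop) :
    CE4 S F ↔ SP S (fun v => F (v 0) (v 1) (v 2) (v 3)) := by
  constructor
  · rintro ⟨f, c, hf⟩
    refine ⟨⟨f.subst (psh (.var 0) (psh (.var (2 * 0 + 1)) (psh (.var (2 * 1 + 1))
      (psh (.var (2 * 2 + 1)) (psh (.var (2 * 3 + 1)) (fun j => .var (2 * j + 1 + 1))))))), c,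
      fun v => ?_⟩⟩
    rw [hf]
    refine exists_congr fun y => ?_
    rw [Fm.holds_subst, psh_map (fun u : Tm => u.val S _), psh_map (fun u : Tm => u.val S _),
      psh_map (fun u : Tm => u.val S _), psh_map (fun u : Tm => u.val S _),
      psh_map (fun u : Tm => u.val S _)]
    simp only [Tm.val, psh, mix_odd]
    rw [← mix_even v c 0, ← mix_even v c 1, ← mix_even v c 2, ← mix_even v c 3]
  · rintro ⟨f, c, hf⟩
    refine ⟨f.subst (psh (.var 0) (mix (fun j => .var (min j 3 + 1)) (fun j => .var (j + 5)))), c,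
      fun k i p n => ?_⟩
    have := hf (fun j => psh k (psh i (psh p (psh n c))) (min j 3))
    simp only [psh] at this
    refine Iff.trans ?_ (this.trans ?_)
    · rfl
    · refine exists_congr fun y => ?_
      rw [Fm.holds_subst, psh_map (fun u : Tm => u.val S _), mix_map (fun u : Tm => u.val S _)]
      simp only [Tm.val, psh]

/-! ### `Σ₁` in a set -/

/-- `R` is `Σ₁` in `B` (with parameters): there is a `Σ₁` relation `Q(p, n, v)` such that `R v` iff
`Q(p, n, v)` for some coded `p ⊆ B` and `n` disjoint from `B`. -/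
class SB (S : AStr M) (B : M → Prop) (R : (ℕ → M) → Prop) : Prop where
  ex : ∃ Q : (ℕ → M) → Prop, SP S Q ∧
    ∀ v, R v ↔ ∃ p n, Q (psh p (psh n v)) ∧ Pos S p B ∧ Neg S n B

section sb

variable {B : M → Prop}

theorem SB.congr {R R' : (ℕ → M) → Prop} (h : SB S B R) (e : ∀ v, R v ↔ R' v) :
    SB S B R' := by
  obtain ⟨Q, hQ, h⟩ := h.ex
  exact ⟨⟨Q, hQ, fun v => (e v).symm.trans (h v)⟩⟩

theorem pos_zero (hL : Los S rp) : Pos S S.zero B := fun x hx => absurd hx (elt_zero hL x)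
theorem neg_zero (hL : Los S rp) : Neg S S.zero B := fun x hx => absurd hx (elt_zero hL x)

theorem SP.shift {R : (ℕ → M) → Prop} (h : SP S R) (m : ℕ) :
    SP S (fun v => R (fun i => v (i + m))) :=
  SP.sub S h (g := fun i v => v (i + m)) (fun _ => mt_var _ _)

/-- `Σ₁` relations are `Σ₁` in `B`. -/
theorem SB.of_sp (hL : Los S rp) {R : (ℕ → M) → Prop} (hR : SP S R) : SB S B R :=
  ⟨⟨fun v => R (fun i => v (i + 2)), SP.shift hR 2, fun _ =>
    ⟨fun h => ⟨S.zero, S.zero, h, pos_zero hL, neg_zero hL⟩, fun ⟨_, _, h, _, _⟩ => h⟩⟩⟩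

instance (priority := 50) sb_of_sp [Ger S rp] {R : (ℕ → M) → Prop} [hR : SP S R] : SB S B R :=
  SB.of_sp (Ger.l S) hR

/-- Substitution in a relation `Σ₁` in `B`. -/
theorem SB.sub {R : (ℕ → M) → Prop} (hR : SB S B R) {g : ℕ → (ℕ → M) → M}
    (hg : ∀ i, Mt S (g i)) : SB S B (fun v => R (fun i => g i v)) := by
  obtain ⟨Q, hQ, h⟩ := hR.ex
  refine ⟨⟨fun v => Q (psh (v 0) (psh (v 1) (fun i => g i (fun j => v (j + 2))))), ?_, fun v => ?_⟩⟩
  · refine SP.congr S (SP.sub S hQ (g := fun i v => match i with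
      | 0 => v 0
      | 1 => v 1
      | i + 2 => g i (fun j => v (j + 2))) fun i => ?_) fun v => ?_
    · match i with
      | 0 => exact mt_var _ 0
      | 1 => exact mt_var _ 1
      | i + 2 =>
        obtain ⟨t, c, ht⟩ := (hg i).ex
        refine ⟨⟨t.subst (mix (fun j => .var (2 * (j + 2))) (fun j => .var (2 * j + 1))), c,
          fun v => ?_⟩⟩
        rw [Tm.val_subst, mix_map (fun u : Tm => u.val S _)]
        simp only [Tm.val, mix_even, mix_odd]
        exact ht _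
    · have e : (fun i => (match i with
          | 0 => v 0
          | 1 => v 1
          | i + 2 => g i (fun j => v (j + 2)) : M)) =
          psh (v 0) (psh (v 1) (fun i => g i (fun j => v (j + 2)))) := by
        funext i
        match i with
        | 0 => rfl
        | 1 => rfl
        | i + 2 => rfl
      rw [← e]
  · exact h _

/-- A `Σ₁` relation with its first two arguments taken from positions `a`, `b` and the rest from
position `c` on. -/
theorem SP.mv {Q : (ℕ → M) → Prop} (hQ : SP S Q) (a b c : ℕ) :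
    SP S (fun v => Q (psh (v a) (psh (v b) (fun i => v (i + c))))) := by
  refine SP.congr S (SP.sub S hQ (g := fun i v => match i with
    | 0 => v a
    | 1 => v b
    | i + 2 => v (i + c)) fun i => ?_) fun v => ?_
  · match i with
    | 0 => exact mt_var _ _
    | 1 => exact mt_var _ _
    | i + 2 => exact mt_var _ _
  · have e : (fun i => (match i with
        | 0 => v a
        | 1 => v b
        | i + 2 => v (i + c) : M)) = psh (v a) (psh (v b) (fun i => v (i + c))) := by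
      funext i
      match i with
      | 0 => rfl
      | 1 => rfl
      | i + 2 => rfl
    rw [← e]

theorem SB.and [hG : Ger S rp] {R R' : (ℕ → M) → Prop} (hR : SB S B R) (hR' : SB S B R') :
    SB S B (fun v => R v ∧ R' v) := by
  obtain ⟨Q, hQ, h⟩ := hR.ex
  obtain ⟨Q', hQ', h'⟩ := hR'.ex
  have hL : Los S rp := hG.los
  have k1 := SP.mv hQ 3 2 6
  have k2 := SP.mv hQ' 1 0 6
  refine ⟨⟨fun v => ∃ p, ∃ n, ∃ p', ∃ n', (Q (psh p (psh n (fun i => v (i + 2)))) ∧
    Q' (psh p' (psh n' (fun i => v (i + 2))))) ∧ (Sb S p (v 0) ∧ Sb S p' (v 0)) ∧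
      (Sb S n (v 1) ∧ Sb S n' (v 1)), ?_, fun v => ?_⟩⟩
  · refine @sp_ex _ S rp hG _ ?_
    refine @sp_ex _ S rp hG _ ?_
    refine @sp_ex _ S rp hG _ ?_
    refine @sp_ex _ S rp hG _ ?_
    refine @sp_and _ S rp hG _ _ (@sp_and _ S rp hG _ _ ?_ ?_) ?_
    · exact k1
    · exact k2
    · infer_instance
  · simp only [psh]
    rw [h, h']
    constructor
    · rintro ⟨⟨p, n, h1, h2, h3⟩, p', n', h1', h2', h3'⟩
      obtain ⟨P, hP⟩ := ex_union hL p p'
      obtain ⟨N, hN⟩ := ex_union hL n n'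
      refine ⟨P, N, ⟨p, n, p', n', ⟨h1, h1'⟩, ⟨fun x hx => (hP x).2 (Or.inl hx),
        fun x hx => (hP x).2 (Or.inr hx)⟩, fun x hx => (hN x).2 (Or.inl hx),
        fun x hx => (hN x).2 (Or.inr hx)⟩, fun x hx => ?_, fun x hx => ?_⟩
      · rcases (hP x).1 hx with hx | hx
        · exact h2 x hx
        · exact h2' x hx
      · rcases (hN x).1 hx with hx | hx
        · exact h3 x hx
        · exact h3' x hx
    · rintro ⟨P, N, ⟨p, n, p', n', ⟨h1, h1'⟩, ⟨h2, h2'⟩, h3, h3'⟩, hP, hN⟩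
      exact ⟨⟨p, n, h1, pos_sb h2 hP, neg_sb h3 hN⟩, p', n', h1', pos_sb h2' hP, neg_sb h3' hN⟩

theorem SB.or {R R' : (ℕ → M) → Prop} (hR : SB S B R) (hR' : SB S B R') :
    SB S B (fun v => R v ∨ R' v) := by
  obtain ⟨Q, hQ, h⟩ := hR.ex
  obtain ⟨Q', hQ', h'⟩ := hR'.ex
  refine ⟨⟨fun v => Q v ∨ Q' v, hQ.or S hQ', fun v => ?_⟩⟩
  rw [h, h']
  constructor
  · rintro (⟨p, n, h1, h2⟩ | ⟨p, n, h1, h2⟩)
    · exact ⟨p, n, Or.inl h1, h2⟩
    · exact ⟨p, n, Or.inr h1, h2⟩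
  · rintro ⟨p, n, h1 | h1, h2⟩
    · exact Or.inl ⟨p, n, h1, h2⟩
    · exact Or.inr ⟨p, n, h1, h2⟩

theorem SB.exists [hG : Ger S rp] {R : M → (ℕ → M) → Prop}
    (hR : SB S B (fun v => R (v 0) (fun i => v (i + 1)))) : SB S B (fun v => ∃ x, R x v) := by
  obtain ⟨Q, hQ, h⟩ := hR.ex
  have hQ' : SP S (fun v => Q (psh (v 1) (psh (v 2) (psh (v 0) (fun i => v (i + 3)))))) := by
    refine SP.congr S (SP.sub S hQ (g := fun i v => match i with
      | 0 => v 1
      | 1 => v 2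
      | 2 => v 0
      | i + 3 => v (i + 3)) fun i => ?_) fun v => ?_
    · match i with
      | 0 => exact mt_var _ _
      | 1 => exact mt_var _ _
      | 2 => exact mt_var _ _
      | i + 3 => exact mt_var _ _
    · have e : (fun i => (match i with
          | 0 => v 1
          | 1 => v 2
          | 2 => v 0
          | i + 3 => v (i + 3) : M)) =
          psh (v 1) (psh (v 2) (psh (v 0) (fun i => v (i + 3)))) := by
        funext i
        match i with
        | 0 => rfl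
        | 1 => rfl
        | 2 => rfl
        | i + 3 => rfl
      rw [← e]
  refine ⟨⟨fun v => ∃ x, Q (psh (v 0) (psh (v 1) (psh x (fun i => v (i + 2))))),
    @sp_ex _ S rp hG (fun x v => Q (psh (v 0) (psh (v 1) (psh x (fun i => v (i + 2)))))) hQ',
    fun v => ?_⟩⟩
  simp only [psh]
  constructor
  · rintro ⟨x, hx⟩
    obtain ⟨p, n, h1, h2⟩ := (h (psh x v)).1 hx
    exact ⟨p, n, ⟨x, h1⟩, h2⟩
  · rintro ⟨p, n, ⟨x, h1⟩, h2⟩
    exact ⟨x, (h (psh x v)).2 ⟨p, n, h1, h2⟩⟩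

instance sb_and [Ger S rp] {R R' : (ℕ → M) → Prop} [hR : SB S B R] [hR' : SB S B R'] :
    SB S B (fun v => R v ∧ R' v) := hR.and hR'

instance sb_or [Ger S rp] {R R' : (ℕ → M) → Prop} [hR : SB S B R] [hR' : SB S B R'] :
    SB S B (fun v => R v ∨ R' v) := hR.or hR'

instance sb_ex [Ger S rp] {R : M → (ℕ → M) → Prop}
    [hR : SB S B (fun v => R (v 0) (fun i => v (i + 1)))] :
    SB S B (fun v => ∃ x, R x v) := SB.exists hR

theorem Mt.shift {g : (ℕ → M) → M} (hg : Mt S g) (m : ℕ) :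
    Mt S (fun v => g (fun j => v (j + m))) := by
  obtain ⟨t, c, ht⟩ := hg.ex
  refine ⟨⟨t.subst (mix (fun j => .var (2 * (j + m))) (fun j => .var (2 * j + 1))), c,
    fun v => ?_⟩⟩
  rw [Tm.val_subst, mix_map (fun u : Tm => u.val S _)]
  simp only [Tm.val, mix_even, mix_odd]
  exact ht _

/-- The positive queries. -/
instance sb_pos [hG : Ger S rp] {g : (ℕ → M) → M} [hg : Mt S g] :
    SB S B (fun v => Pos S (g v) B) := by
  have h1 : Mt S (fun v : ℕ → M => g (fun j => v (j + 2))) := Mt.shift hg 2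
  refine ⟨⟨fun v => Sb S (g (fun j => v (j + 2))) (v 0), inferInstance, fun v => ?_⟩⟩
  constructor
  · intro h
    exact ⟨g v, S.zero, fun x hx => hx, h, neg_zero (Ger.l S)⟩
  · rintro ⟨p, n, h1, h2, _⟩
    exact pos_sb h1 h2

/-- The negative queries. -/
instance sb_neg [hG : Ger S rp] {g : (ℕ → M) → M} [hg : Mt S g] :
    SB S B (fun v => Neg S (g v) B) := by
  have h1 : Mt S (fun v : ℕ → M => g (fun j => v (j + 2))) := Mt.shift hg 2
  refine ⟨⟨fun v => Sb S (g (fun j => v (j + 2))) (v 1), inferInstance, fun v => ?_⟩⟩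
  constructor
  · intro h
    exact ⟨S.zero, g v, fun x hx => hx, pos_zero (Ger.l S), h⟩
  · rintro ⟨p, n, h1, _, h2⟩
    exact neg_sb h1 h2

/-- Turing reducibility in terms of `Σ₁` in `B`. -/
theorem red_iff [hG : Ger S rp] (A B : M → Prop) : Red S A B ↔
    SB S B (fun v => Pos S (v 0) A) ∧ SB S B (fun v => Neg S (v 0) A) := by
  constructor
  · rintro ⟨F, hF, h⟩
    rw [ce4_iff_sp] at hF
    have key : ∀ d : M, SP S (fun v => F (v 2) d (v 0) (v 1)) := by
      intro d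
      exact SP.sub S hF (g := fun i v => match i with
        | 0 => v 2
        | 1 => d
        | 2 => v 0
        | i + 3 => v (i + 1 - i)) (fun i => by
          match i with
          | 0 => exact mt_var _ _
          | 1 => exact mt_const _ _
          | 2 => exact mt_var _ _
          | i + 3 => exact mt_var _ _) |>.congr S (fun v => by simp)
    exact ⟨⟨⟨_, key S.one, fun v => (h (v 0)).1⟩⟩, ⟨⟨_, key S.zero, fun v => (h (v 0)).2⟩⟩⟩
  · rintro ⟨⟨⟨Q, hQ, h⟩⟩, ⟨⟨Q', hQ', h'⟩⟩⟩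
    have key : ∀ {Q : (ℕ → M) → Prop}, SP S Q →
        SP S (fun v => Q (psh (v 2) (psh (v 3) (fun _ => v 0)))) := by
      intro Q hQ
      refine SP.congr S (SP.sub S hQ (g := fun i v => match i with
        | 0 => v 2
        | 1 => v 3
        | _ => v 0) fun i => ?_) fun v => ?_
      · match i with
        | 0 => exact mt_var _ _
        | 1 => exact mt_var _ _
        | i + 2 => exact mt_var _ _
      · have e : (fun i => (match i with
            | 0 => v 2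
            | 1 => v 3
            | _ => v 0 : M)) = psh (v 2) (psh (v 3) (fun _ => v 0)) := by
          funext i
          match i with
          | 0 => rfl
          | 1 => rfl
          | i + 2 => rfl
        rw [← e]
    refine ⟨fun k i p n => (i = S.one ∧ Q (psh p (psh n (fun _ => k)))) ∨
      (i = S.zero ∧ Q' (psh p (psh n (fun _ => k)))), ?_, fun k => ⟨?_, ?_⟩⟩
    · rw [ce4_iff_sp]
      have k1 := key hQ
      have k2 := key hQ'
      exact @sp_or _ S rp hG _ _ (@sp_and _ S rp hG _ _ inferInstance k1)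
        (@sp_and _ S rp hG _ _ inferInstance k2)
    · have := h (fun _ => k)
      rw [this]
      refine exists_congr fun p => exists_congr fun n => and_congr ?_ Iff.rfl
      constructor
      · intro h; exact Or.inl ⟨rfl, h⟩
      · rintro (⟨_, h⟩ | ⟨h, _⟩)
        · exact h
        · exact absurd h (one_ne_zero hG.los)
    · have := h' (fun _ => k)
      rw [this]
      refine exists_congr fun p => exists_congr fun n => and_congr ?_ Iff.rfl
      constructor
      · intro h; exact Or.inr ⟨rfl, h⟩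
      · rintro (⟨h, _⟩ | ⟨_, h⟩)
        · exact absurd h.symm (one_ne_zero hG.los)
        · exact h

theorem Red.refl [hG : Ger S rp] (A : M → Prop) : Red S A A :=
  (red_iff A A).2 ⟨inferInstance, inferInstance⟩

/-- Transfer: if `C ≤_T B` then `Σ₁` in `C` implies `Σ₁` in `B`. -/
theorem SB.trans [hG : Ger S rp] {B C : M → Prop} {R : (ℕ → M) → Prop} (h : Red S C B)
    (hR : SB S C R) : SB S B R := by
  obtain ⟨h1, h2⟩ := (red_iff C B).1 h
  obtain ⟨Q, hQ, hR⟩ := hR.ex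
  have k1 : SB S B (fun v : ℕ → M => Pos S (v 1) C) :=
    SB.sub h1 (g := fun _ v => v 1) (fun _ => mt_var _ _)
  have k2 : SB S B (fun v : ℕ → M => Neg S (v 0) C) := h2
  refine SB.congr (R := fun v => ∃ p, ∃ n, Q (psh p (psh n v)) ∧
    Pos S p C ∧ Neg S n C) ?_ (fun v => (hR v).symm)
  have k3 : SB S B (fun v : ℕ → M => Q (psh (v 1) (psh (v 0) (fun i => v (i + 2))))) :=
    SB.of_sp hG.los (SP.mv hQ 1 0 2)
  refine @sb_ex _ S rp B hG _ ?_
  refine @sb_ex _ S rp B hG _ ?_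
  exact SB.and k3 (SB.and k1 k2)

theorem Red.trans [hG : Ger S rp] {A B C : M → Prop} (h1 : Red S A B) (h2 : Red S B C) :
    Red S A C := by
  rw [red_iff] at h1 ⊢
  exact ⟨SB.trans h2 h1.1, SB.trans h2 h1.2⟩

/-- Positive queries to a c.e. set are c.e. -/
theorem sp_pos [hG : Ger S rp] {A : M → Prop} (hA : CE S A) :
    SP S (fun v => Pos S (v 0) A) := by
  rw [ce_iff_sp] at hA
  have hA' : SP S (fun v : ℕ → M => A (v 0)) := hA
  have h1 : SP S (fun v : ℕ → M => ∀ x, S.lt x (v 0) →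
      (¬ Elt S x (v 0) ∨ A x)) :=
    @sp_all _ S rp hG (fun v => v 0) (fun x v => ¬ Elt S x (v 0) ∨ A x) _
      (@sp_or _ S rp hG _ _ inferInstance hA')
  refine SP.congr S h1 fun v => ?_
  constructor
  · intro h x hx
    rcases h x (elt_lt hG.los hx) with h | h
    · exact absurd hx h
    · exact h
  · intro h x _
    by_cases hx : Elt S x (v 0)
    · exact Or.inr (h x hx)
    · exact Or.inl hx

/-- For a c.e. set `A` only the negative part has to be shown. -/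
theorem red_of_neg [hG : Ger S rp] {A B : M → Prop} (hA : CE S A)
    (h : SB S B (fun v => Neg S (v 0) A)) : Red S A B :=
  (red_iff A B).2 ⟨SB.of_sp hG.los (sp_pos hA), h⟩

end sb

end Pool.Agent.BSig.Neg
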