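import Pool.Agent.Work.MP_510745_lc.Prime
import Pool.Agent.Work.MP_510745_lc.Neg.GerSig

/-!
# Prime codes in structures of germs

The bridge between the reducibility with prime codes (`RedP`, the definition of the problem file)
and the one with binary codes (`Red`), in every structure of germs.
-/

namespace Pool.Agent.BSig.Neg

open Filter

variable {M : Type} {S : AStr M} {rp : M → ℕ → ℕ}

section los

variable (hL : Los S rp)

include hL

theorem Los.ext {x y : M} (h : ∀ᶠ k in Uf, rp x k = rp y k) : x = y := (hL.eq x y).2 h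

theorem Los.add1 (x : M) : ∀ᶠ k in Uf, rp (S.add x S.one) k = rp x k + 1 := by
  filter_upwards [hL.add x S.one, hL.one] with k h1 h2
  rw [h1, h2]

theorem Los.prS (x y : M) : ∀ᶠ k in Uf, rp (prS S x y) k = pr (rp x k) (rp y k) := by
  unfold BSig.prS pr
  filter_upwards [hL.add x y, hL.mul (S.add x y) (S.add x y),
    hL.add (S.mul (S.add x y) (S.add x y)) x] with k h1 h2 h3
  rw [h3, h2, h1]

theorem Los.dv (a b : M) : Dv S a b ↔ ∀ᶠ k in Uf, rp a k ∣ rp b k := by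
  constructor
  · rintro ⟨c, rfl⟩
    filter_upwards [hL.mul a c] with k h1
    rw [h1]
    exact Dvd.intro _ rfl
  · intro h
    have h1 : ∀ᶠ k in Uf, ∃ c, c < rp (S.add b S.one) k ∧ rp b k = rp a k * c := by
      filter_upwards [h, hL.add1 b] with k hk h2
      obtain ⟨c, hc⟩ := hk
      rw [h2]
      rcases Nat.eq_zero_or_pos (rp a k) with h0 | h0
      · exact ⟨0, Nat.succ_pos _, by rw [hc, h0]; simp⟩
      · exact ⟨c, by rw [hc]; exact Nat.lt_succ_of_le (Nat.le_mul_of_pos_left _ h0), hc⟩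
    obtain ⟨c, hc⟩ := hL.choose2 (P := fun c a b => b = a * c) inferInstance (S.add b S.one) a b h1
    refine ⟨c, hL.ext ?_⟩
    filter_upwards [hc, hL.mul a c] with k h2 h3
    rw [h3]; exact h2.2

theorem Los.isPr (p : M) : IsPr S p ↔ ∀ᶠ k in Uf, Nat.Prime (rp p k) := by
  constructor
  · rintro ⟨h1, h2⟩
    by_contra hc
    rw [← ev_not] at hc
    rw [hL.lt] at h1
    have h3 : ∀ᶠ k in Uf, ∃ a, a < rp p k ∧ ∃ b, b < rp p k ∧ a * b = rp p k := by
      filter_upwards [hc, h1, hL.one] with k hk h4 h5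
      rw [h5] at h4
      obtain ⟨a, b, ha, hb, hab⟩ := (Nat.not_prime_iff_exists_mul_eq h4).1 hk
      exact ⟨a, ha, b, hb, hab⟩
    obtain ⟨a, ha⟩ := hL.choose1 (P := fun a p => ∃ b, b < p ∧ a * b = p) inferInstance p p h3
    obtain ⟨b, hb⟩ := hL.choose2 (P := fun b a p => a * b = p) inferInstance p a p
      (ha.mono fun k hk => hk.2)
    have h5 : p = S.mul a b := by
      apply hL.ext
      filter_upwards [hb, hL.mul a b] with k h6 h7
      rw [h7]; exact h6.2.symm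
    rcases h2 a b h5 with h6 | h6
    · obtain ⟨k, ⟨⟨hk, hk'⟩, h7⟩, h8⟩ := ev_exists (((ha.and hb).and ((hL.eq _ _).1 h6)).and hL.one)
      rw [h8] at h7
      have h9 := hk'.2
      rw [h7, one_mul] at h9
      omega
    · obtain ⟨k, ⟨⟨hk, hk'⟩, h7⟩, h8⟩ := ev_exists (((ha.and hb).and ((hL.eq _ _).1 h6)).and hL.one)
      rw [h8] at h7
      have h9 := hk'.2
      rw [h7, mul_one] at h9
      omega
  · intro h
    refine ⟨?_, fun a b hab => ?_⟩
    · rw [hL.lt]
      filter_upwards [h, hL.one] with k h1 h2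
      rw [h2]; exact h1.one_lt
    · have h1 : ∀ᶠ k in Uf, rp a k = 1 ∨ rp b k = 1 := by
        filter_upwards [h, (hL.eq _ _).1 hab, hL.mul a b] with k h2 h3 h4
        rw [h3, h4] at h2
        exact (Nat.prime_mul_iff.1 h2).imp And.right And.right |>.symm
      rw [ev_or] at h1
      refine h1.imp (fun h2 => hL.ext ?_) (fun h2 => hL.ext ?_)
      · filter_upwards [h2, hL.one] with k h3 h4
        rw [h3, h4]
      · filter_upwards [h2, hL.one] with k h3 h4
        rw [h3, h4]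

theorem Los.nextP (r q : M) : NextP S r q ↔ ∀ᶠ k in Uf, NextN (rp r k) (rp q k) := by
  constructor
  · rintro ⟨h1, h2, h3, h4⟩
    rw [hL.isPr] at h1 h2
    rw [hL.lt] at h3
    have h5 : ∀ᶠ k in Uf, ∀ t, rp r k < t → t < rp q k → ¬ Nat.Prime t := by
      by_contra hc
      rw [← ev_not] at hc
      have h6 : ∀ᶠ k in Uf, ∃ t, t < rp q k ∧ (rp r k < t ∧ PrN t) := by
        filter_upwards [hc] with k hk
        push Not at hk
        obtain ⟨t, h7, h8, h9⟩ := hk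
        exact ⟨t, h8, h7, (prN_iff t).2 h9⟩
      obtain ⟨t, ht⟩ := hL.choose1 (P := fun t r => r < t ∧ PrN t) inferInstance q r h6
      exact h4 t ((hL.lt _ _).2 (ht.mono fun _ h => h.2.1)) ((hL.lt _ _).2 (ht.mono fun _ h => h.1))
        ((hL.isPr t).2 (ht.mono fun _ h => (prN_iff _).1 h.2.2))
    filter_upwards [h1, h2, h3, h5] with k e1 e2 e3 e4
    exact ⟨e1, e2, e3, e4⟩
  · intro h
    refine ⟨(hL.isPr r).2 (h.mono fun _ h => h.1), (hL.isPr q).2 (h.mono fun _ h => h.2.1),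
      (hL.lt _ _).2 (h.mono fun _ h => h.2.2.1), fun t h1 h2 h3 => ?_⟩
    rw [hL.isPr] at h3
    rw [hL.lt] at h1 h2
    obtain ⟨k, ⟨e1, e2⟩, e3, e4⟩ := ev_exists ((h1.and h2).and (h3.and h))
    exact e4.2.2.2 _ e1 e2 e3

theorem Los.ptab (w : M) : PTab S w ↔ ∀ᶠ k in Uf, PTabN (rp w k) := by
  constructor
  · intro h
    by_contra hc
    rw [← ev_not] at hc
    have h1 : ∀ᶠ k in Uf, ∃ i, i < rp w k ∧ ∃ q, q < rp w k ∧ (Bt (rp w k) (pr i q) ∧
        ¬ ((i = 0 ∧ q = 2) ∨ ∃ j, j < rp w k ∧ ∃ r, r < rp w k ∧ (i = j + 1 ∧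
          Bt (rp w k) (pr j r) ∧ NextD r q))) := by
      filter_upwards [hc] with k hk
      rw [← ptabD_iff] at hk
      unfold PTabD at hk
      simp only [not_forall] at hk
      obtain ⟨i, hi, q, hq, h2, h3⟩ := hk
      exact ⟨i, hi, q, hq, h2, h3⟩
    obtain ⟨i, hi⟩ := hL.choose1 (P := fun i w => ∃ q, q < w ∧ (Bt w (pr i q) ∧
        ¬ ((i = 0 ∧ q = 2) ∨ ∃ j, j < w ∧ ∃ r, r < w ∧ (i = j + 1 ∧
          Bt w (pr j r) ∧ NextD r q)))) inferInstance w w h1
    obtain ⟨q, hq⟩ := hL.choose2 (P := fun q i w => (Bt w (pr i q) ∧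
        ¬ ((i = 0 ∧ q = 2) ∨ ∃ j, j < w ∧ ∃ r, r < w ∧ (i = j + 1 ∧
          Bt w (pr j r) ∧ NextD r q)))) inferInstance w i w (hi.mono fun _ h => h.2)
    have h2 : Elt S (BSig.prS S i q) w := by
      rw [hL.elt]
      filter_upwards [hq, hL.prS i q] with k h3 h4
      rw [h4]; exact h3.2.1
    rcases h i q h2 with ⟨h3, h4⟩ | ⟨j, r, h3, h4, h5⟩
    · obtain ⟨k, ⟨⟨e1, e2⟩, e3⟩, ⟨e4, e5⟩, e6⟩ := ev_exists
        (((hq.and hL.zero).and ((hL.eq _ _).1 h3)).and
        ((((hL.eq _ _).1 h4).and hL.one).and (hL.add S.one S.one)))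
      exact e1.2.2 (Or.inl ⟨by rw [e3, e2], by rw [e4, e6, e5]⟩)
    · rw [hL.elt] at h4
      rw [hL.nextP] at h5
      obtain ⟨k, ⟨⟨e1, e2⟩, e3⟩, ⟨e4, e5⟩, e6⟩ := ev_exists
        (((hq.and h4).and ((hL.eq _ _).1 h3)).and
        ((h5.and hL.one).and ((hL.add j S.one).and (hL.prS j r))))
      rw [e6.2] at e2
      exact e1.2.2 (Or.inr ⟨rp j k, lt_of_le_of_lt (le_pr_left _ _) e2.lt, rp r k,
        lt_of_le_of_lt (le_pr_right _ _) e2.lt, by rw [e3, e6.1, e5], e2, (nextD_iff _ _).2 e4⟩)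
  · intro h i q hiq
    rw [hL.elt] at hiq
    have h1 : ∀ᶠ k in Uf, (rp i k = 0 ∧ rp q k = 2) ∨
        ∃ j, j < rp w k ∧ ∃ r, r < rp w k ∧ (rp i k = j + 1 ∧ Bt (rp w k) (pr j r) ∧
          NextD r (rp q k)) := by
      filter_upwards [h, hiq, hL.prS i q] with k h2 h3 h4
      rw [h4] at h3
      rcases h2 _ _ h3 with h5 | ⟨j, r, h5, h6, h7⟩
      · exact Or.inl h5
      · exact Or.inr ⟨j, lt_of_le_of_lt (le_pr_left j r) h6.lt, r,
          lt_of_le_of_lt (le_pr_right j r) h6.lt, h5, h6, (nextD_iff _ _).2 h7⟩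
    rw [ev_or] at h1
    rcases h1 with h1 | h1
    · left
      constructor
      · apply hL.ext
        filter_upwards [h1, hL.zero] with k h2 h3
        rw [h2.1, h3]
      · apply hL.ext
        filter_upwards [h1, hL.one, hL.add S.one S.one] with k h2 h3 h4
        rw [h2.2, h4, h3]
    · right
      obtain ⟨j, hj⟩ := hL.choose3 (P := fun j i q w => ∃ r, r < w ∧ (i = j + 1 ∧ Bt w (pr j r) ∧
          NextD r q)) inferInstance w i q w h1
      obtain ⟨r, hr⟩ := hL.choose4 (P := fun r j i q w => (i = j + 1 ∧ Bt w (pr j r) ∧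
          NextD r q)) inferInstance w j i q w (hj.mono fun _ h => h.2)
      refine ⟨j, r, ?_, ?_, ?_⟩
      · apply hL.ext
        filter_upwards [hr, hL.add1 j] with k h2 h4
        rw [h2.2.1, h4]
      · rw [hL.elt]
        filter_upwards [hr, hL.prS j r] with k h2 h3
        rw [h3]; exact h2.2.2.1
      · rw [hL.nextP]
        exact hr.mono fun _ h => (nextD_iff _ _).1 h.2.2.2

theorem Los.nthP (x p : M) : NthP S x p ↔ ∀ᶠ k in Uf, rp p k = Nat.nth Nat.Prime (rp x k) := by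
  constructor
  · rintro ⟨w, h1, h2⟩
    rw [hL.ptab] at h1
    rw [hL.elt] at h2
    filter_upwards [h1, h2, hL.prS x p] with k e1 e2 e3
    rw [e3] at e2
    exact ptab_sound e1 _ _ e2
  · intro h
    have h1 : ∀ᶠ k in Uf, ∃ w, w < rp (S.pow (S.add (BSig.prS S x p) S.one)) k ∧
        (PTabD w ∧ Bt w (pr (rp x k) (rp p k))) := by
      filter_upwards [h, hL.prS x p, hL.add1 (BSig.prS S x p),
        hL.pow (S.add (BSig.prS S x p) S.one)] with k h1 h2 h3 h4
      obtain ⟨w, hw, h5, h6⟩ := ex_ptab (rp x k)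
      rw [h4, h3, h2, h1]
      exact ⟨w, hw, (ptabD_iff w).2 h5, h6 _ le_rfl⟩
    obtain ⟨w, hw⟩ := hL.choose2 (P := fun w x p => PTabD w ∧ Bt w (pr x p)) inferInstance
      (S.pow (S.add (BSig.prS S x p) S.one)) x p h1
    refine ⟨w, (hL.ptab w).2 (hw.mono fun _ h => (ptabD_iff _).1 h.2.1), ?_⟩
    rw [hL.elt]
    filter_upwards [hw, hL.prS x p] with k h2 h3
    rw [h3]; exact h2.2.2

/-- Existence of the primes with a given number. -/
theorem Los.ex_nth (x : M) : ∃ p : M, ∀ᶠ k in Uf, rp p k = Nat.nth Nat.Prime (rp x k) := by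
  set b : M := S.pow (S.add (BSig.prS S x (S.pow (S.add x S.one))) S.one) with hb
  have h1 : ∀ᶠ k in Uf, ∃ w, w < rp b k ∧ (PTabD w ∧ ∃ p, p < w ∧ Bt w (pr (rp x k) p)) := by
    filter_upwards [hL.add1 x, hL.pow (S.add x S.one), hL.prS x (S.pow (S.add x S.one)),
      hL.add1 (BSig.prS S x (S.pow (S.add x S.one))),
      hL.pow (S.add (BSig.prS S x (S.pow (S.add x S.one))) S.one)] with k h1 h2 h3 h4 h5
    obtain ⟨w, hw, h6, h7⟩ := ex_ptab (rp x k)
    have h8 := h7 _ le_rfl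
    refine ⟨w, ?_, (ptabD_iff w).2 h6, _, lt_of_le_of_lt (le_pr_right _ _) h8.lt, h8⟩
    rw [hb, h5, h4, h3, h2, h1]
    refine lt_of_lt_of_le hw (Nat.pow_le_pow_right (by norm_num) ?_)
    have := pr_mono (le_refl (rp x k)) (nth_bound (rp x k))
    omega
  obtain ⟨w, hw⟩ := hL.choose1 (P := fun w x => PTabD w ∧ ∃ p, p < w ∧ Bt w (pr x p))
    inferInstance b x h1
  obtain ⟨p, hp⟩ := hL.choose2 (P := fun p w x => Bt w (pr x p)) inferInstance w w x
    (hw.mono fun k hk => hk.2.2)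
  refine ⟨p, ?_⟩
  filter_upwards [hw, hp] with k h2 h3
  exact ptab_sound ((ptabD_iff _).1 h2.2.1) _ _ h3.2

theorem Los.eltP (x a : M) : EltP S x a ↔ ∀ᶠ k in Uf, Nat.nth Nat.Prime (rp x k) ∣ rp a k := by
  constructor
  · rintro ⟨p, h1, h2⟩
    rw [hL.nthP] at h1
    rw [hL.dv] at h2
    filter_upwards [h1, h2] with k e1 e2
    rw [← e1]; exact e2
  · intro h
    obtain ⟨p, hp⟩ := hL.ex_nth x
    refine ⟨p, (hL.nthP x p).2 hp, ?_⟩
    rw [hL.dv]
    filter_upwards [h, hp] with k e1 e2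
    rw [e2]; exact e1

end los

/-- The prime code `K` and the binary code `k` have the same elements. -/
def SameG (rp : M → ℕ → ℕ) (K k : M) : Prop := ∀ᶠ j in Uf, rp K j ≠ 0 ∧ Same (rp K j) (rp k j)

/-- The bound for the witnesses of `Same`. -/
def sBS (S : AStr M) (K k : M) : M :=
  S.add (S.pow (S.add (prS S (S.add K k) (S.pow (S.add (S.add K k) S.one))) S.one)) S.one

section los2

variable (hL : Los S rp)

include hL

theorem Los.sBS (K k : M) : ∀ᶠ j in Uf, rp (sBS S K k) j = sB (rp K j) (rp k j) + 1 := by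
  unfold Neg.sBS sB
  filter_upwards [hL.add K k, hL.add1 (S.add K k), hL.pow (S.add (S.add K k) S.one),
    hL.prS (S.add K k) (S.pow (S.add (S.add K k) S.one)),
    hL.add1 (BSig.prS S (S.add K k) (S.pow (S.add (S.add K k) S.one))),
    hL.pow (S.add (BSig.prS S (S.add K k) (S.pow (S.add (S.add K k) S.one))) S.one),
    hL.add1 (S.pow (S.add (BSig.prS S (S.add K k) (S.pow (S.add (S.add K k) S.one))) S.one))]
    with j h1 h2 h3 h4 h5 h6 h7
  rw [h7, h6, h5, h4, h3, h2, h1]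

omit hL in
theorem sB_mono {K k K' k' : ℕ} (h1 : K ≤ K') (h2 : k ≤ k') : sB K k ≤ sB K' k' := by
  unfold sB
  refine Nat.pow_le_pow_right (by norm_num) ?_
  have h3 : 2 ^ (K + k + 1) ≤ 2 ^ (K' + k' + 1) := Nat.pow_le_pow_right (by norm_num) (by omega)
  have := pr_mono (by omega : K + k ≤ K' + k') h3
  omega

theorem SameG.elt {K k : M} (h : SameG rp K k) (x : M) : EltP S x K ↔ Elt S x k := by
  rw [hL.eltP, hL.elt]
  constructor
  · intro h1
    filter_upwards [h, h1] with j e1 e2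
    exact (e1.2 _).1 e2
  · intro h1
    filter_upwards [h, h1] with j e1 e2
    exact (e1.2 _).2 e2

theorem Los.codeP (K : M) : CodeP S K ↔ ∀ᶠ j in Uf, rp K j ≠ 0 := by
  unfold CodeP
  rw [Ne, hL.eq, ← ev_not]
  constructor
  · intro h
    filter_upwards [h, hL.zero] with j e1 e2
    rwa [e2] at e1
  · intro h
    filter_upwards [h, hL.zero] with j e1 e2
    rwa [e2]

theorem Los.ex_bin {K : M} (hK : CodeP S K) : ∃ k, SameG rp K k := by
  rw [hL.codeP] at hK
  set W := Neg.sBS S K (S.pow K) with hW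
  have h1 : ∀ᶠ j in Uf, ∃ k, k < rp (S.pow K) j ∧ ∃ w, w < rp W j ∧ SameD w (rp K j) k := by
    filter_upwards [hK, hL.pow K, hL.sBS K (S.pow K)] with j hj h2 h3
    obtain ⟨k, h4, h5⟩ := BSig.ex_bin (rp K j) hj
    obtain ⟨w, h6, h7⟩ := sameD_complete hj h5
    rw [h2] at h3
    refine ⟨k, by rw [h2]; exact h4, w, ?_, h7⟩
    rw [hW, h3]
    have := sB_mono (le_refl (rp K j)) h4.le
    omega
  obtain ⟨k, hk⟩ := hL.choose2 (P := fun k K W => ∃ w, w < W ∧ SameD w K k) inferInstance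
    (S.pow K) K W h1
  refine ⟨k, hk.mono fun j hj => ?_⟩
  obtain ⟨_, w, _, h⟩ := hj
  exact sameD_sound h

theorem Los.ex_prime (k : M) : ∃ K, CodeP S K ∧ SameG rp K k := by
  set b := S.add (S.pow (S.mul (S.add k S.one) (S.add k S.one))) S.one with hb
  set W := Neg.sBS S b k with hW
  have h1 : ∀ᶠ j in Uf, ∃ K, K < rp b j ∧ ∃ w, w < rp W j ∧ SameD w K (rp k j) := by
    filter_upwards [hL.add1 k, hL.mul (S.add k S.one) (S.add k S.one),
      hL.pow (S.mul (S.add k S.one) (S.add k S.one)),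
      hL.add1 (S.pow (S.mul (S.add k S.one) (S.add k S.one))), hL.sBS b k] with j h2 h3 h4 h5 h6
    obtain ⟨K, h7, h8, h9⟩ := BSig.ex_prime (rp k j)
    obtain ⟨w, h10, h11⟩ := sameD_complete h7 h9
    have e : rp b j = 2 ^ ((rp k j + 1) * (rp k j + 1)) + 1 := by rw [hb, h5, h4, h3, h2]
    refine ⟨K, by omega, w, ?_, h11⟩
    rw [hW, h6]
    have := sB_mono (by omega : K ≤ rp b j) (le_refl (rp k j))
    omega
  obtain ⟨K, hK⟩ := hL.choose2 (P := fun K k W => ∃ w, w < W ∧ SameD w K k) inferInstance b k W h1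
  have h2 : SameG rp K k := hK.mono fun j hj => by
    obtain ⟨_, w, _, h⟩ := hj
    exact sameD_sound h
  exact ⟨K, (hL.codeP K).2 (h2.mono fun _ h => h.1), h2⟩

theorem SameG.pos {K k : M} (h : SameG rp K k) (A : M → Prop) : PosP S K A ↔ Pos S k A :=
  forall_congr' fun x => imp_congr_left (h.elt hL x)

theorem SameG.neg {K k : M} (h : SameG rp K k) (A : M → Prop) : NegP S K A ↔ Neg S k A :=
  forall_congr' fun x => imp_congr_left (h.elt hL x)

theorem SameG.code {K k : M} (h : SameG rp K k) : CodeP S K :=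
  (hL.codeP K).2 (h.mono fun _ h => h.1)

theorem sameG_iff (K k : M) :
    SameG rp K k ↔ ∃ w : M, ∀ᶠ j in Uf, SameD (rp w j) (rp K j) (rp k j) := by
  constructor
  · intro h
    have h1 : ∀ᶠ j in Uf, ∃ w, w < rp (Neg.sBS S K k) j ∧ SameD w (rp K j) (rp k j) := by
      filter_upwards [h, hL.sBS K k] with j h1 h2
      obtain ⟨w, h3, h4⟩ := sameD_complete h1.1 h1.2
      exact ⟨w, by rw [h2]; omega, h4⟩
    obtain ⟨w, hw⟩ := hL.choose2 (P := fun w K k => SameD w K k) inferInstance _ K k h1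
    exact ⟨w, hw.mono fun _ h => h.2⟩
  · rintro ⟨w, hw⟩
    exact hw.mono fun _ h => sameD_sound h

end los2

/-- The relation `SameG` is `Σ₁`. -/
theorem sp_same0 [hG : Ger S rp] : SP S (fun v => SameG rp (v 0) (v 1)) := by
  have h1 : SP S (fun v : ℕ → M => ∃ w : M, ∀ᶠ j in Uf,
      SameD (rp w j) (rp (v 0) j) (rp (v 1) j)) := by
    refine @sp_ex M S rp hG (fun w v => ∀ᶠ j in Uf,
      SameD (rp w j) (rp (v 0) j) (rp (v 1) j)) ?_
    have h2 : DP S (fun v : ℕ → M => ∀ᶠ j in Uf, SameD (rp (v 0) j) (rp (v 1) j) (rp (v 2) j)) :=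
      dp_g3 hG.l (P := fun w K k => SameD w K k) (g0 := fun v => v 0) (g1 := fun v => v 1)
        (g2 := fun v => v 2) inferInstance
    exact @sp_of_dp M S rp hG _ h2
  exact SP.congr S h1 fun v => (sameG_iff hG.l _ _).symm

theorem sp_same [hG : Ger S rp] (a b : ℕ) : SP S (fun v => SameG rp (v a) (v b)) :=
  SP.sub S (sp_same0 (S := S)) (g := fun i v => match i with
    | 0 => v a
    | _ => v b) (fun i => by
      match i with
      | 0 => exact mt_var _ _
      | i + 1 => exact mt_var _ _)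

/-- Translation from binary to prime codes. -/
theorem ce4_tr1 [hG : Ger S rp] {F : M → M → M → M → Prop} (hF : CE4 S F) :
    CE4 S (fun K i P N => (i = S.zero ∨ i = S.one) ∧
      ∃ k p n, SameG rp K k ∧ SameG rp P p ∧ SameG rp N n ∧ F k i p n) := by
  rw [ce4_iff_sp] at hF ⊢
  -- variables after the quantifiers: `n, p, k, K, i, P, N`
  have hF' : SP S (fun v : ℕ → M => F (v 2) (v 4) (v 1) (v 0)) :=
    SP.sub S hF (g := fun i v => match i with
      | 0 => v 2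
      | 1 => v 4
      | 2 => v 1
      | _ => v 0) (fun i => by
        match i with
        | 0 => exact mt_var _ _
        | 1 => exact mt_var _ _
        | 2 => exact mt_var _ _
        | i + 3 => exact mt_var _ _)
  have k1 := sp_same (S := S) (rp := rp) 3 2
  have k2 := sp_same (S := S) (rp := rp) 5 1
  have k3 := sp_same (S := S) (rp := rp) 6 0
  have h1 : SP S (fun v : ℕ → M => SameG rp (v 3) (v 2) ∧ SameG rp (v 5) (v 1) ∧
      SameG rp (v 6) (v 0) ∧ F (v 2) (v 4) (v 1) (v 0)) :=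
    @sp_and M S rp hG _ _ k1 (@sp_and M S rp hG _ _ k2 (@sp_and M S rp hG _ _ k3 hF'))
  have h2 : SP S (fun v : ℕ → M => ∃ k, ∃ p, ∃ n, SameG rp (v 0) k ∧ SameG rp (v 2) p ∧
      SameG rp (v 3) n ∧ F k (v 1) p n) := by
    refine @sp_ex M S rp hG (fun k v => ∃ p, ∃ n, SameG rp (v 0) k ∧ SameG rp (v 2) p ∧
      SameG rp (v 3) n ∧ F k (v 1) p n) ?_
    refine @sp_ex M S rp hG (fun p v => ∃ n, SameG rp (v 1) (v 0) ∧ SameG rp (v 3) p ∧
      SameG rp (v 4) n ∧ F (v 0) (v 2) p n) ?_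
    refine @sp_ex M S rp hG (fun n v => SameG rp (v 2) (v 1) ∧ SameG rp (v 4) (v 0) ∧
      SameG rp (v 5) n ∧ F (v 1) (v 3) (v 0) n) ?_
    exact h1
  have h3 : SP S (fun v : ℕ → M => v 1 = S.zero ∨ v 1 = S.one) := inferInstance
  exact @sp_and M S rp hG _ _ h3 h2

/-- Translation from prime to binary codes. -/
theorem ce4_tr2 [hG : Ger S rp] {F : M → M → M → M → Prop} (hF : CE4 S F) :
    CE4 S (fun k i p n => ∃ K P N, SameG rp K k ∧ SameG rp P p ∧ SameG rp N n ∧ F K i P N) := by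
  rw [ce4_iff_sp] at hF ⊢
  have hF' : SP S (fun v : ℕ → M => F (v 2) (v 4) (v 1) (v 0)) :=
    SP.sub S hF (g := fun i v => match i with
      | 0 => v 2
      | 1 => v 4
      | 2 => v 1
      | _ => v 0) (fun i => by
        match i with
        | 0 => exact mt_var _ _
        | 1 => exact mt_var _ _
        | 2 => exact mt_var _ _
        | i + 3 => exact mt_var _ _)
  have k1 := sp_same (S := S) (rp := rp) 2 3
  have k2 := sp_same (S := S) (rp := rp) 1 5
  have k3 := sp_same (S := S) (rp := rp) 0 6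
  have h1 : SP S (fun v : ℕ → M => SameG rp (v 2) (v 3) ∧ SameG rp (v 1) (v 5) ∧
      SameG rp (v 0) (v 6) ∧ F (v 2) (v 4) (v 1) (v 0)) :=
    @sp_and M S rp hG _ _ k1 (@sp_and M S rp hG _ _ k2 (@sp_and M S rp hG _ _ k3 hF'))
  refine @sp_ex M S rp hG (fun K v => ∃ P, ∃ N, SameG rp K (v 0) ∧ SameG rp P (v 2) ∧
    SameG rp N (v 3) ∧ F K (v 1) P N) ?_
  refine @sp_ex M S rp hG (fun P v => ∃ N, SameG rp (v 0) (v 1) ∧ SameG rp P (v 3) ∧
    SameG rp N (v 4) ∧ F (v 0) (v 2) P N) ?_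
  refine @sp_ex M S rp hG (fun N v => SameG rp (v 1) (v 2) ∧ SameG rp (v 0) (v 4) ∧
    SameG rp N (v 5) ∧ F (v 1) (v 3) (v 0) N) ?_
  exact h1

/-- The reducibility with prime codes and the one with binary codes coincide. -/
theorem redP_iff [hG : Ger S rp] (A B : M → Prop) : RedP S A B ↔ Red S A B := by
  have hL : Los S rp := hG.l
  constructor
  · rintro ⟨F, hF, h0, h⟩
    refine ⟨_, ce4_tr2 hF, fun k => ?_⟩
    obtain ⟨K, hK, hKk⟩ := hL.ex_prime k
    obtain ⟨h1, h2⟩ := h K hK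
    rw [hKk.pos hL] at h1
    rw [hKk.neg hL] at h2
    constructor
    · constructor
      · intro hA
        obtain ⟨P, N, h3, h4, h5⟩ := h1.1 hA
        obtain ⟨_, _, hP, hN⟩ := h0 _ _ _ _ h3
        obtain ⟨p, hp⟩ := hL.ex_bin hP
        obtain ⟨n, hn⟩ := hL.ex_bin hN
        exact ⟨p, n, ⟨K, P, N, hKk, hp, hn, h3⟩, (hp.pos hL B).1 h4, (hn.neg hL B).1 h5⟩
      · rintro ⟨p, n, ⟨K', P, N, hK', hP, hN, h3⟩, h4, h5⟩
        rw [← hK'.pos hL]
        exact (h K' (hK'.code hL)).1.2 ⟨P, N, h3, (hP.pos hL B).2 h4, (hN.neg hL B).2 h5⟩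
    · constructor
      · intro hA
        obtain ⟨P, N, h3, h4, h5⟩ := h2.1 hA
        obtain ⟨_, _, hP, hN⟩ := h0 _ _ _ _ h3
        obtain ⟨p, hp⟩ := hL.ex_bin hP
        obtain ⟨n, hn⟩ := hL.ex_bin hN
        exact ⟨p, n, ⟨K, P, N, hKk, hp, hn, h3⟩, (hp.pos hL B).1 h4, (hn.neg hL B).1 h5⟩
      · rintro ⟨p, n, ⟨K', P, N, hK', hP, hN, h3⟩, h4, h5⟩
        rw [← hK'.neg hL]
        exact (h K' (hK'.code hL)).2.2 ⟨P, N, h3, (hP.pos hL B).2 h4, (hN.neg hL B).2 h5⟩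
  · rintro ⟨F, hF, h⟩
    refine ⟨_, ce4_tr1 (rp := rp) hF, ?_, fun K hK => ?_⟩
    · rintro K i P N ⟨hi, k, p, n, h1, h2, h3, _⟩
      exact ⟨h1.code hL, hi, h2.code hL, h3.code hL⟩
    · obtain ⟨k, hKk⟩ := hL.ex_bin hK
      obtain ⟨h1, h2⟩ := h k
      rw [hKk.pos hL, hKk.neg hL]
      constructor
      · constructor
        · intro hA
          obtain ⟨p, n, h3, h4, h5⟩ := h1.1 hA
          obtain ⟨P, _, hP⟩ := hL.ex_prime p
          obtain ⟨N, _, hN⟩ := hL.ex_prime n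
          exact ⟨P, N, ⟨Or.inr rfl, k, p, n, hKk, hP, hN, h3⟩, (hP.pos hL B).2 h4,
            (hN.neg hL B).2 h5⟩
        · rintro ⟨P, N, ⟨_, k', p, n, hk', hP, hN, h3⟩, h4, h5⟩
          rw [← hKk.pos hL, hk'.pos hL]
          exact (h k').1.2 ⟨p, n, h3, (hP.pos hL B).1 h4, (hN.neg hL B).1 h5⟩
      · constructor
        · intro hA
          obtain ⟨p, n, h3, h4, h5⟩ := h2.1 hA
          obtain ⟨P, _, hP⟩ := hL.ex_prime p
          obtain ⟨N, _, hN⟩ := hL.ex_prime n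
          exact ⟨P, N, ⟨Or.inl rfl, k, p, n, hKk, hP, hN, h3⟩, (hP.pos hL B).2 h4,
            (hN.neg hL B).2 h5⟩
        · rintro ⟨P, N, ⟨_, k', p, n, hk', hP, hN, h3⟩, h4, h5⟩
          rw [← hKk.neg hL, hk'.neg hL]
          exact (h k').2.2 ⟨p, n, h3, (hP.pos hL B).1 h4, (hN.neg hL B).1 h5⟩

/-- Every finite set with a binary code has a prime code, and conversely. -/
theorem code_bridge [hG : Ger S rp] : (∀ k : M, ∃ K, CodeP S K ∧ ∀ x,
    (EltP S x K ↔ Elt S x k)) ∧ ∀ K : M, CodeP S K → ∃ k, ∀ x,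
    (EltP S x K ↔ Elt S x k) := by
  have hL : Los S rp := hG.l
  refine ⟨fun k => ?_, fun K hK => ?_⟩
  · obtain ⟨K, hK, h⟩ := hL.ex_prime k
    exact ⟨K, hK, fun x => h.elt hL x⟩
  · obtain ⟨k, h⟩ := hL.ex_bin hK
    exact ⟨k, fun x => h.elt hL x⟩

end Pool.Agent.BSig.Neg
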