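import Pool.Agent.Work.MP_510745_lc.Neg.ModH
import Pool.Agent.Work.MP_510745_lc.Neg.BDef
import Pool.Agent.Work.MP_510745_lc.Neg.Cuts
import Pool.Agent.Work.MP_510745_lc.Neg.PrimeG
import Pool.Agent.Work.MP_510745_lc.Cover

/-!
From the germ level statement on a hull `H` to the model `SH hH`: no c.e. cut has a minimal cover.
-/

namespace Pool.Agent.BSig.Neg

open Filter Pool.Agent.BSig

/-- No c.e. set over `H` has minimal cover degree over the cut. -/
def NoMin (H : Set (ℕ → ℕ)) : Prop := ∀ A : Ce, A.over H → RedH H cI A → ¬ RedH H A cI →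
  ∃ B : Ce, B.over H ∧ RedH H cI B ∧ ¬ RedH H B cI ∧ RedH H B A ∧ ¬ RedH H A B

variable {H : Set (ℕ → ℕ)}

theorem cI_over (hH : Hull H) : cI.over H :=
  ⟨hH.idm, 0, Eventually.of_forall fun _ => le_rfl⟩

theorem cI_set (x : MH H) : cI.set (rp (H := H)) x ↔ cutH H x := by
  constructor
  · rintro ⟨n, hn⟩
    exact ⟨n, hn.mono fun k hk => cI_lt hk⟩
  · rintro ⟨n, hn⟩
    refine ⟨n + 4, ?_⟩
    filter_upwards [hn, ev_ge 6] with k h1 h2
    exact cI_of h2 (by omega)

theorem cI_set_eq : cI.set (rp (H := H)) = cutH H := funext fun x => propext (cI_set x)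

theorem no_minimal_cover (hH : Hull H) (hno : NoMin H) (I : MH H → Prop)
    (hI : IsCut (SH hH) I) (hIc : CE (SH hH) I) (A : MH H → Prop) :
    ¬ IsMinCoverP (SH hH) I A := by
  have hM := isMod_H hH
  have := ger_H hH
  rintro ⟨hA, ⟨hIA, hAI⟩, hmin⟩
  rw [redP_iff] at hIA hAI
  obtain ⟨X, hX, hXA⟩ := ex_ce hM hA
  have hA' : A = X.set rp := funext fun x => propext (hXA x)
  subst hA'
  have hcI := isCut_H hH
  have hcc := ce_cut hH
  have e1 : Red (SH hH) (cutH H) I := red_cut hI hIc hcI hcc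
  have e2 : Red (SH hH) I (cutH H) := red_cut hcI hcc hI hIc
  have h1 : RedH H cI X := by
    rw [← red_set hM (cI_over hH) hX, cI_set_eq]
    exact Red.trans e1 hIA
  have h2 : ¬ RedH H X cI := by
    rw [← red_set hM hX (cI_over hH), cI_set_eq]
    exact fun h => hAI (Red.trans h e1)
  obtain ⟨B, hB, b1, b2, b3, b4⟩ := hno X hX h1 h2
  rw [← red_set hM (cI_over hH) hB, cI_set_eq] at b1
  rw [← red_set hM hB (cI_over hH), cI_set_eq] at b2
  rw [← red_set hM hB hX] at b3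
  rw [← red_set hM hX hB] at b4
  refine hmin (B.set rp) (ce_set hM hB) ⟨⟨?_, ?_⟩, ?_, ?_⟩
  · rw [redP_iff]; exact Red.trans e2 b1
  · rw [redP_iff]; exact fun h => b2 (Red.trans h e2)
  · rw [redP_iff]; exact b3
  · rw [redP_iff]; exact b4

/-- The second half, from the germ level statement. -/
theorem half2 (h : ∃ H : Set (ℕ → ℕ), Hull H ∧ Cnt H ∧ NoMin H) :
    ∃ (M : Type) (S : AStr M), IsPAMinusExp S ∧ IDelta0 S ∧ BSigma1 S ∧ ¬ ISigma1 S ∧
      (∃ I : M → Prop, IsCut S I ∧ CE S I) ∧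
      ∀ I : M → Prop, IsCut S I → CE S I → ∀ A : M → Prop, ¬ IsMinCoverP S I A := by
  obtain ⟨H, hH, -, hno⟩ := h
  exact ⟨MH H, SH hH, isPA_H hH, iDelta0_H hH, bSigma1_H hH, not_iSigma1_H hH,
    ⟨cutH H, isCut_H hH, ce_cut hH⟩, fun I hI hIc A => no_minimal_cover hH hno I hI hIc A⟩

end Pool.Agent.BSig.Neg
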