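import Pool.Agent.Work.MP_510745_lc.Neg.Force

/-!
Absoluteness of reductions between hulls.
-/

namespace Pool.Agent.BSig.Neg

open Filter

section ppst
variable {g0 g1 g2 g3 : (ℕ → ℕ) → ℕ} [h0 : PT g0] [h1 : PT g1] [h2 : PT g2] [h3 : PT g3]

instance ppf_ce (X : Ce) : PP (fun v => X.R (g0 v) (g1 v) (g2 v)) := PP.s3 (d0_pp X.d0)

instance ppf_st (X : Ce) : PP (fun v => St X.R (g0 v) (g1 v) (g2 v) (g3 v)) := by
  refine PP.s4 (P := fun a b c d => St X.R a b c d) ?_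
  unfold St
  infer_instance

end ppst

/-- A set disjoint from `X` is disjoint from a nonstandard stage. -/
theorem Ce.dis_over {H : Set (ℕ → ℕ)} (hH : Hull H) {X : Ce} (hX : X.p ∈ H) {K : ℕ → ℕ}
    (hK : K ∈ H) (h : X.dis K) :
    ∃ ν ∈ H, Ns ν ∧ ∀ᶠ k in Uf, ∀ z, Bt (K k) z → ¬ X.at k (ν k) z := by
  obtain ⟨ν, hν, hν1, -, hν2⟩ := hH.over3 (R := fun m K p k => ∀ z, z < K →
    (Bt K z → ¬ St X.R p k m z)) inferInstance hK hX hH.idm (fun n => by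
      filter_upwards [h n] with k hk z _ hz
      exact hk z hz)
  refine ⟨ν, hν, hν1, ?_⟩
  filter_upwards [hν2] with k hk z hz
  exact hk _ le_rfl z hz.lt hz

theorem Ce.dis_coi {H H' : Set (ℕ → ℕ)} (hH' : Hull H') (hs : H ⊆ H') (hc : COI H H') {X : Ce}
    (hX : X.p ∈ H) {K : ℕ → ℕ} (hK : K ∈ H') (h : X.dis K) :
    ∃ ν ∈ H, Ns ν ∧ ∀ᶠ k in Uf, ∀ z, Bt (K k) z → ¬ X.at k (ν k) z := by
  obtain ⟨ν', hν', h1, h2⟩ := Ce.dis_over hH' (hs hX) hK h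
  obtain ⟨ν, hν, h3, h4⟩ := hc ν' hν' h1
  refine ⟨ν, hν, h3, ?_⟩
  filter_upwards [h2, h4] with k h5 h6 z hz h7
  exact h5 z hz (h7.mono h6)

/-- The downward closure of a functional. -/
def dnR (Θ : Fn) (y K P Q e : ℕ) : Prop :=
  ∃ K', K' < y ∧ ∃ y', y' < y ∧ (Sub K K' ∧ Θ.R y' K' P Q e)

/-- The downward closure of a functional. -/
def dn (Θ : Fn) : Fn := ⟨dnR Θ, by unfold dnR; infer_instance⟩

theorem dn_cl {Θ : Fn} {e k n K K' P Q : ℕ} (h : Θ.cl e k n K' P Q) (hK : K < tow (n + 1) k)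
    (hs : Sub K K') : (dn Θ).cl e k (n + 1) K P Q := by
  obtain ⟨h1, h2, h3, y, h4, h5⟩ := h
  have h6 := tow_lt_succ n k
  exact ⟨hK, by omega, by omega, tow n k, h6, K', h1, y, h4, hs, h5⟩

theorem cl_dn {Θ : Fn} {e k n K P Q : ℕ} (h : (dn Θ).cl e k n K P Q) :
    ∃ K', K' < tow n k ∧ Sub K K' ∧ Θ.cl e k n K' P Q := by
  obtain ⟨h1, h2, h3, y, h4, K', h5, y', h6, h7, h8⟩ := h
  exact ⟨K', by omega, h7, by omega, h2, h3, y', by omega, h8⟩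

theorem abs_up {H H' : Set (ℕ → ℕ)} (hH : Hull H) (hH' : Hull H') (hs : H ⊆ H')
    (hc : COI H H') {X Y : Ce} (hX : X.over H) (hY : Y.over H) (h : RedH H X Y) :
    RedH H' X Y := by
  obtain ⟨Θ, e, he, heb, hR⟩ := h
  refine ⟨dn Θ, e, hs he, heb, ?_⟩
  intro K hK hKb
  constructor
  · intro hd
    obtain ⟨ν, hν, hν1, hν2⟩ := Ce.dis_coi hH' hs hc hX.1 hK hd
    obtain ⟨n, hn⟩ := Bd.ex_lt hKb
    have hK'm : (fun k => cds (fun z => ¬ St X.R (X.p k) k (ν k) z) (tow n k)) ∈ H :=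
      hH.pt3 (f := fun p k ν => cds (fun z => ¬ St X.R p k ν z) (tow n k)) (by infer_instance)
        hX.1 hH.idm hν
    have hK'b : ∀ k, cds (fun z => ¬ St X.R (X.p k) k (ν k) z) (tow n k) < tow (n + 1) k :=
      fun k => cds_lt _ _
    have hd' : X.dis (fun k => cds (fun z => ¬ St X.R (X.p k) k (ν k) z) (tow n k)) :=
      Ce.dis_of_ns hν1 (Eventually.of_forall fun k z hz => (bt_cds.1 hz).2)
    obtain ⟨P, hP, Q, hQ, m, hcl, hPs, hQd⟩ := (hR _ hK'm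
      (bd_of_lt (Eventually.of_forall hK'b))).1 hd'
    refine ⟨P, hs hP, Q, hs hQ, max n m + 1, ?_, hPs, hQd⟩
    filter_upwards [hcl, hn, hν2] with k h1 h2 h3
    refine dn_cl (h1.mono (le_max_right n m)) (lt_of_lt_of_le h2 (tow_mono (by omega) k)) ?_
    refine sub_iff.2 fun z hz => bt_cds.2 ⟨?_, h3 z hz⟩
    have := hz.lt
    omega
  · rintro ⟨P, hP, Q, hQ, m, hcl, ⟨n1, hPs⟩, hQd⟩ n
    by_contra hnd
    rw [← ev_not] at hnd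
    obtain ⟨ν, hν, hν1, hν2⟩ := Ce.dis_coi hH' hs hc hY.1 hQ hQd
    have hT : (fun k => tow m k) ∈ H := hH.tow (hH.const m) hH.idm
    have hmem : ∀ i, asF [fun k => k, e, X.p, Y.p, ν] i ∈ H :=
      asF_mem hH _ (by
        have := hH.idm
        have := hX.1
        have := hY.1
        simp [*])
    obtain ⟨K', hK', h1⟩ := hH.sk (R := fun u : ℕ → ℕ => ∃ P, P < tow m (u 1) ∧
      ∃ Q, Q < tow m (u 1) ∧ (Θ.cl (u 2) (u 1) m (u 0) P Q ∧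
        (∃ z, z < u 0 ∧ (Bt (u 0) z ∧ St X.R (u 3) (u 1) n z)) ∧
        (∀ z, z < P → (Bt P z → St Y.R (u 4) (u 1) n1 z)) ∧
        (∀ z, z < Q → (Bt Q z → ¬ St Y.R (u 4) (u 1) (u 5) z)))) inferInstance hmem hT (by
      filter_upwards [hcl, hPs, hν2, hnd] with k h1 h2 h3 h4
      obtain ⟨K', h5, h6, h7⟩ := cl_dn h1
      push Not at h4
      obtain ⟨z, h8, h9⟩ := h4
      have h8' := sub_iff.1 h6 z h8
      exact ⟨K', h5, P k, h7.2.1, Q k, h7.2.2.1, h7, ⟨z, h8'.lt, h8', h9⟩,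
        fun z _ hz => h2 z hz, fun z _ hz => h3 z hz⟩)
    obtain ⟨P', hP', h2⟩ := hH.sk (R := fun u : ℕ → ℕ =>
      ∃ Q, Q < tow m (u 2) ∧ (Θ.cl (u 3) (u 2) m (u 1) (u 0) Q ∧
        (∃ z, z < u 1 ∧ (Bt (u 1) z ∧ St X.R (u 4) (u 2) n z)) ∧
        (∀ z, z < u 0 → (Bt (u 0) z → St Y.R (u 5) (u 2) n1 z)) ∧
        (∀ z, z < Q → (Bt Q z → ¬ St Y.R (u 5) (u 2) (u 6) z)))) inferInstance
        (psh_mem hK' hmem) hT (h1.mono fun k hk => hk.2.1)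
    obtain ⟨Q', hQ', h3⟩ := hH.sk (R := fun u : ℕ → ℕ =>
      (Θ.cl (u 4) (u 3) m (u 2) (u 1) (u 0) ∧
        (∃ z, z < u 2 ∧ (Bt (u 2) z ∧ St X.R (u 5) (u 3) n z)) ∧
        (∀ z, z < u 1 → (Bt (u 1) z → St Y.R (u 6) (u 3) n1 z)) ∧
        (∀ z, z < u 0 → (Bt (u 0) z → ¬ St Y.R (u 6) (u 3) (u 7) z)))) inferInstance
        (psh_mem hP' (psh_mem hK' hmem)) hT (h2.mono fun k hk => hk.2.1)
    have h4 : ∀ᶠ k in Uf, Θ.cl (e k) k m (K' k) (P' k) (Q' k) ∧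
        (∃ z, z < K' k ∧ (Bt (K' k) z ∧ X.at k n z)) ∧
        (∀ z, z < P' k → (Bt (P' k) z → Y.at k n1 z)) ∧
        (∀ z, z < Q' k → (Bt (Q' k) z → ¬ Y.at k (ν k) z)) := h3.mono fun k hk => hk.2.1
    have h5 := (hR K' hK' (bd_of_lt (h4.mono fun k hk => hk.1.1))).2 ⟨P', hP', Q', hQ', m,
      h4.mono fun k hk => hk.1, ⟨n1, h4.mono fun k hk z hz => hk.2.2.1 z hz.lt hz⟩,
      Ce.dis_of_ns hν1 (h4.mono fun k hk z hz => hk.2.2.2 z hz.lt hz)⟩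
    obtain ⟨k, h6, h7⟩ := ev_exists ((h5 n).and h4)
    obtain ⟨z, -, h8, h9⟩ := h7.2.1
    exact h6 z h8 h9

theorem abs_down {H H' : Set (ℕ → ℕ)} (hH : Hull H) (hH' : Hull H') (hs : H ⊆ H')
    (hc : COI H H') {X Y : Ce} (_hX : X.over H) (hY : Y.over H) {Θ : Fn} {e : ℕ → ℕ} (he : e ∈ H)
    (_hb : Bd st e) (h : IsRed H' Θ e X Y) : IsRed H Θ e X Y := by
  intro K hK hKb
  constructor
  · intro hd
    obtain ⟨P, hP, Q, hQ, m, hcl, ⟨n1, hPs⟩, hQd⟩ := (h K (hs hK) hKb).1 hd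
    obtain ⟨ν, hν, hν1, hν2⟩ := Ce.dis_coi hH' hs hc hY.1 hQ hQd
    have hT : (fun k => tow m k) ∈ H := hH.tow (hH.const m) hH.idm
    have hmem : ∀ i, asF [fun k => k, e, K, Y.p, ν] i ∈ H :=
      asF_mem hH _ (by
        have := hH.idm
        have := hY.1
        simp [*])
    obtain ⟨P', hP', h2⟩ := hH.sk (R := fun u : ℕ → ℕ =>
      ∃ Q, Q < tow m (u 1) ∧ (Θ.cl (u 2) (u 1) m (u 3) (u 0) Q ∧
        (∀ z, z < u 0 → (Bt (u 0) z → St Y.R (u 4) (u 1) n1 z)) ∧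
        (∀ z, z < Q → (Bt Q z → ¬ St Y.R (u 4) (u 1) (u 5) z)))) inferInstance
        hmem hT (by
      filter_upwards [hcl, hPs, hν2] with k h1 h2 h3
      exact ⟨P k, h1.2.1, Q k, h1.2.2.1, h1, fun z _ hz => h2 z hz, fun z _ hz => h3 z hz⟩)
    obtain ⟨Q', hQ', h3⟩ := hH.sk (R := fun u : ℕ → ℕ =>
      (Θ.cl (u 3) (u 2) m (u 4) (u 1) (u 0) ∧
        (∀ z, z < u 1 → (Bt (u 1) z → St Y.R (u 5) (u 2) n1 z)) ∧
        (∀ z, z < u 0 → (Bt (u 0) z → ¬ St Y.R (u 5) (u 2) (u 6) z)))) inferInstance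
        (psh_mem hP' hmem) hT (h2.mono fun k hk => hk.2.1)
    have h4 : ∀ᶠ k in Uf, Θ.cl (e k) k m (K k) (P' k) (Q' k) ∧
        (∀ z, z < P' k → (Bt (P' k) z → Y.at k n1 z)) ∧
        (∀ z, z < Q' k → (Bt (Q' k) z → ¬ Y.at k (ν k) z)) := h3.mono fun k hk => hk.2.1
    exact ⟨P', hP', Q', hQ', m, h4.mono fun k hk => hk.1,
      ⟨n1, h4.mono fun k hk z hz => hk.2.1 z hz.lt hz⟩,
      Ce.dis_of_ns hν1 (h4.mono fun k hk z hz => hk.2.2 z hz.lt hz)⟩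
  · rintro ⟨P, hP, Q, hQ, m, hcl, hPs, hQd⟩
    exact (h K (hs hK) hKb).2 ⟨P, hs hP, Q, hs hQ, m, hcl, hPs, hQd⟩

end Pool.Agent.BSig.Neg
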