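import Pool.Agent.Work.MP_510745_lc.Neg.Chain
import Pool.Agent.Work.MP_510745_lc.Neg.Abs

/-!
The germ level statement from the one step theorem.
-/

namespace Pool.Agent.BSig.Neg

open Filter

theorem absUp : AbsUp := fun _ _ hH hH' hs hc _ _ hX hY h => abs_up hH hH' hs hc hX hY h

theorem absDn : AbsDn := fun _ _ hH hH' hs hc _ _ hX hY _ _ he hb h =>
  abs_down hH hH' hs hc hX hY he hb h

/-- The germ level statement from the one step theorem. -/
theorem final_step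
    (st : ∀ H : Set (ℕ → ℕ), Hull H → Cnt H → ∃ H', H ⊆ H' ∧ Hull H' ∧ Cnt H' ∧ COI H H' ∧
      (∀ X Y : Ce, X.over H → Y.over H → RedH H cI Y → ¬ RedH H X Y → ¬ RedH H' X Y) ∧
      ∀ A : Ce, A.over H → RedH H cI A → ¬ RedH H A cI → ∃ B : Ce, B.over H' ∧
        RedH H' cI B ∧ ¬ RedH H' B cI ∧ RedH H' B A ∧ ¬ RedH H' A B) :
    ∃ H : Set (ℕ → ℕ), Hull H ∧ Cnt H ∧ NoMin H := final_of absUp absDn st

end Pool.Agent.BSig.Neg
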