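import Pool.Agent.Work.MP_510745_lc.Neg.ModH
import Pool.Agent.Work.MP_510745_lc.MC.Halt
import Pool.Agent.Work.MP_510745_lc.Cover

/-!
The halting set of the model of a hull.
-/

namespace Pool.Agent.BSig.Neg

open Filter

/-- Code of the assignment `n, 0, 0, …` of length `m`. -/
noncomputable def codA (m n : ℕ) : ℕ :=
  cds (fun z => z = pr 0 n ∨ ∃ i, i < m ∧ (0 < i ∧ z = pr i 0)) (pr m n + 1)

theorem pt_codA (m : ℕ) : PT (fun v => codA m (v 0)) := by
  unfold codA
  infer_instance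

theorem cod_codA {D m n : ℕ} : Cod D m (codA m n) (fun i => if i = 0 then n else 0) := by
  intro i hi x _
  rw [codA, bt_cds]
  beta_reduce
  by_cases h0 : i = 0
  · subst h0
    rw [if_pos rfl]
    constructor
    · rintro ⟨-, h1 | ⟨i', _, h2, h3⟩⟩
      · exact (pr_inj h1).2
      · have := (pr_inj h3).1; omega
    · rintro rfl
      have := pr_mono (Nat.zero_le m) (le_refl x)
      exact ⟨by omega, Or.inl rfl⟩
  · rw [if_neg h0]
    constructor
    · rintro ⟨-, h1 | ⟨i', _, h2, h3⟩⟩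
      · exact absurd (pr_inj h1).1 h0
      · exact (pr_inj h3).2
    · rintro rfl
      have := pr_mono hi.le (Nat.zero_le n)
      exact ⟨by omega, Or.inr ⟨i, hi, by omega, rfl⟩⟩

theorem le_codA {m n : ℕ} : n < codA m n := by
  have h1 : Bt (codA m n) (pr 0 n) := by
    rw [codA, bt_cds]
    have := pr_mono (Nat.zero_le m) (le_refl n)
    exact ⟨by omega, Or.inl rfl⟩
  have h2 := le_pr_right 0 n
  have h3 := h1.lt
  omega

/-- `z = ⟨⟨j, e⟩, x⟩` and the claim of `e` about `x` is verified below `B`, in the domain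
`tow j B`; all the witnesses are below `u`. -/
def HR2 (u z : ℕ) : Prop :=
  ∃ j, j < u ∧ ∃ e, e < u ∧ ∃ x, x < u ∧ ∃ B, B < u ∧ ∃ t, t < u ∧ ∃ D, D < u ∧
    (z = pr (pr j e) x ∧ TwS B j t ∧ Bt t (pr j D) ∧ e < B ∧ Test B D e x 0 0)

set_option synthInstance.maxSize 100000 in
theorem d0_HR2 : D0 (fun v => HR2 (v 0) (v 1)) := by
  unfold HR2; infer_instance

variable {H : Set (ℕ → ℕ)}

/-- The halting set. -/
def HalH (z : MH H) : Prop := ∃ u : MH H, ∀ᶠ k in Uf, HR2 (rp u k) (rp z k)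

theorem ce_halH (hH : Hull H) : CE (SH hH) HalH := by
  obtain ⟨f, hf⟩ := d0_HR2.ex
  refine ⟨f, fun _ => aH hH, fun z => ?_⟩
  refine exists_congr fun u => ?_
  rw [losH2]
  refine eventually_congr (Eventually.of_forall fun k => ?_)
  rw [hf]
  rfl

theorem test_codA {g : Fm} {m j B n x : ℕ} (hm : (g.subst sub3).vlt m)
    (hm' : (szF (g.subst sub3)).vlt m)
    (hj : ∀ (v : ℕ → ℕ) (y : ℕ), 2 ≤ y → (∀ m, (szF (g.subst sub3)).vlt m →
      (∀ i, i < m → v i ≤ y) → (szF (g.subst sub3)).val natS v ≤ tow j y))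
    (hB : pr (codeF (g.subst sub3)) (pr m (codA m n)) < B) :
    Test B (tow (j + 1) B) (pr (codeF (g.subst sub3)) (pr m (codA m n))) x 0 0 ↔
      (x < B ∧ ∃ y, y < B ∧ g.holds natS (psh y (psh x (fun i => if i = 0 then n else 0)))) := by
  have h1 := le_pr_right (codeF (g.subst sub3)) (pr m (codA m n))
  have h2 := le_pr_right m (codA m n)
  have h3 : n < codA m n := le_codA
  have hD : (szF (g.subst sub3)).val natS (asg5 B B B B (fun i => if i = 0 then n else 0)) <
      tow (j + 1) B := by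
    refine lt_of_le_of_lt (hj _ B (by omega) m hm' fun i hi => ?_) Nat.lt_two_pow_self
    match i with
    | 0 => exact le_rfl
    | 1 => exact le_rfl
    | 2 => exact Nat.zero_le _
    | 3 => exact le_rfl
    | 4 => exact le_rfl
    | (i + 5) =>
      change (if i = 0 then n else 0) ≤ B
      split_ifs <;> omega
  rw [test_iff (g.subst sub3) cod_codA hm hD]
  have h6 : 0 < B := by omega
  constructor
  · rintro ⟨h7, -, -, y, hy, h8⟩
    exact ⟨h7, y, hy, (holds_sub3 natS g y x 0 0 0 _).1 h8⟩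
  · rintro ⟨h7, y, hy, h8⟩
    exact ⟨h7, h6, h6, y, hy, (holds_sub3 natS g y x 0 0 0 _).2 h8⟩

theorem halH_complete (hH : Hull H) {W : MH H → Prop} (hW : CE (SH hH) W) :
    ∃ e : MH H, ∀ x, W x ↔ HalH (Pool.Agent.BSig.prS (SH hH) e x) := by
  have hL : Los (SH hH) rp := (ger_H hH).los
  obtain ⟨f, c, hf⟩ := hW
  obtain ⟨R, p, hR, hRp⟩ := one_param2 hL f c
  obtain ⟨g, hg⟩ := hR.ex
  obtain ⟨m1, hm1⟩ := Fm.ex_vlt (g.subst sub3)
  obtain ⟨m2, hm2⟩ := Tm.ex_vlt (szF (g.subst sub3))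
  obtain ⟨m, hm, hm'⟩ : ∃ m, (g.subst sub3).vlt m ∧ (szF (g.subst sub3)).vlt m :=
    ⟨max m1 m2, Fm.vlt_mono (le_max_left _ _) _ hm1, Tm.vlt_mono (le_max_right _ _) _ hm2⟩
  obtain ⟨j, hj⟩ := tm_bound (szF (g.subst sub3))
  -- the index
  let e : ℕ → ℕ := fun k => pr (codeF (g.subst sub3)) (pr m (codA m (rp p k)))
  have he : e ∈ H := hH.pr (hH.const _) (hH.pr (hH.const _)
    (hH.pt1 (f := fun n => codA m n) (pt_codA m) p.2))
  have hbd_pr : ∀ {f g : ℕ → ℕ}, Bd st f → Bd st g → Bd st (fun k => pr (f k) (g k)) := by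
    intro f g hf hg
    unfold pr
    exact (Bd.mul grst (hf.add grst hg) (hf.add grst hg)).add grst hf
  have heb : Bd st e := by
    refine hbd_pr (Bd.const grst _) (hbd_pr (Bd.const grst _) ?_)
    have h1 : Bd st (fun k => 2 ^ (pr m (rp p k) + 1)) :=
      ((hbd_pr (Bd.const grst _) (rp_bd p)).add grst (Bd.const grst 1)).pow grst
    exact h1.mono (Eventually.of_forall fun k => (cds_lt _ _).le)
  have hE : (fun k => pr (j + 1) (e k)) ∈ H := hH.pr (hH.const _) he
  have hEb : Bd st (fun k => pr (j + 1) (e k)) := hbd_pr (Bd.const grst _) heb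
  have key : ∀ k B x, e k < B → (Test B (tow (j + 1) B) (e k) x 0 0 ↔
      (x < B ∧ ∃ y, y < B ∧ R y x (rp p k))) := by
    intro k B x hB
    have h1 := test_codA (n := rp p k) (x := x) hm hm' hj hB
    rw [h1]
    refine and_congr_right fun _ => exists_congr fun y => and_congr_right fun _ => ?_
    rw [hg]
    rfl
  have hWx : ∀ x, W x ↔ ∃ y : MH H, ∀ᶠ k in Uf, R (rp y k) (rp x k) (rp p k) := by
    intro x
    rw [hf]
    refine exists_congr fun y => ?_
    rw [losH2]
    refine eventually_congr ?_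
    filter_upwards [hRp] with k hk
    exact (hk _ _).symm
  refine ⟨mkH hH _ hE hEb, fun x => ?_⟩
  have hz : ∀ᶠ k in Uf, rp (Pool.Agent.BSig.prS (SH hH) (mkH hH _ hE hEb) x) k =
      pr (pr (j + 1) (e k)) (rp x k) := by
    filter_upwards [rp_prS hL (mkH hH _ hE hEb) x, rp_mkH hH _ hE hEb] with k h1 h2
    rw [h2] at h1
    exact h1
  rw [hWx]
  constructor
  · rintro ⟨y, hy⟩
    -- the bound
    let B : ℕ → ℕ := fun k => rp y k + rp x k + e k + 1
    have hB : B ∈ H := hH.add (hH.add (hH.add y.2 x.2) he) (hH.const 1)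
    have hBb : Bd st B := (((rp_bd y).add grst (rp_bd x)).add grst heb).add grst (Bd.const grst 1)
    have hT : (fun k => tow (j + 1) (B k)) ∈ H := hH.tow (hH.const _) hB
    have hTb : ∀ n, Bd st (fun k => tow n (B k)) := by
      intro n
      induction n with
      | zero => exact hBb
      | succ n ih => exact ih.pow grst
    let u : ℕ → ℕ := fun k => 2 ^ (pr (j + 1) (tow (j + 1) (B k)) + 1)
    have hu : u ∈ H := hH.pow (hH.add (hH.pr (hH.const _) hT) (hH.const 1))
    have hub : Bd st u := ((hbd_pr (Bd.const grst _) (hTb (j + 1))).add grst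
      (Bd.const grst 1)).pow grst
    refine ⟨mkH hH u hu hub, ?_⟩
    filter_upwards [hy, hz, rp_mkH hH u hu hub] with k h1 h2 h3
    rw [h2, h3]
    obtain ⟨t, ht, hTw⟩ := ex_TwS (B k) (j + 1)
    have e1 : pr (j + 1) (tow (j + 1) (B k)) + 1 < u k := Nat.lt_two_pow_self
    have e2 := le_pr_left (j + 1) (tow (j + 1) (B k))
    have e3 := le_pr_right (j + 1) (tow (j + 1) (B k))
    have e4 : B k ≤ tow (j + 1) (B k) := le_tow _ _
    have e5 : B k = rp y k + rp x k + e k + 1 := rfl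
    refine ⟨j + 1, by omega, e k, by omega, rp x k, by omega, B k, by omega, t, ht,
      tow (j + 1) (B k), by omega, rfl, hTw, hTw.has _ le_rfl, by omega, ?_⟩
    rw [key k (B k) _ (by omega)]
    exact ⟨by omega, rp y k, by omega, h1⟩
  · rintro ⟨u, hu⟩
    have h1 : ∀ᶠ k in Uf, ∃ y, y < rp u k ∧ R y (rp x k) (rp p k) := by
      filter_upwards [hu, hz] with k h1 h2
      rw [h2] at h1
      obtain ⟨j', _, e', _, x', _, B, hB, t, _, D, _, h3, h4, h5, h6, h7⟩ := h1
      obtain ⟨h8, h9⟩ := pr_inj h3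
      obtain ⟨h10, h11⟩ := pr_inj h8
      subst h9 h10 h11
      have h12 : D = tow (j + 1) B := (h4.iff le_rfl D).1 h5
      rw [h12, key k B _ h6] at h7
      obtain ⟨_, y, hy, h13⟩ := h7
      exact ⟨y, by omega, h13⟩
    obtain ⟨y, hy⟩ := hL.choose2 (P := fun y x p => R y x p) hR u x p h1
    exact ⟨y, hy.mono fun _ h => h.2⟩

/-- The model of a hull has a halting set. -/
theorem ex_halting (hH : Hull H) : ∃ Hs : MH H → Prop, IsHalting (SH hH) Hs :=
  ⟨HalH, ce_halH hH, fun _ hW => halH_complete hH hW⟩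

end Pool.Agent.BSig.Neg
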