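import Pool.Agent.Work.MP_510745_lc.Neg.Hull
import Pool.Agent.Work.MP_510745_lc.Neg.BDef

/-!
The uniform forcing lemma.
-/

namespace Pool.Agent.BSig.Neg

open Filter

/-- A bounded relation `R S n G K Q w d h`. -/
structure Rl where
  R : ℕ → ℕ → ℕ → ℕ → ℕ → ℕ → ℕ → ℕ → Prop
  d0 : D0 (fun v => R (v 0) (v 1) (v 2) (v 3) (v 4) (v 5) (v 6) (v 7))

section inst
variable {g0 g1 g2 g3 g4 g5 g6 g7 : (ℕ → ℕ) → ℕ} [h0 : DT g0] [h1 : DT g1] [h2 : DT g2]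
  [h3 : DT g3] [h4 : DT g4] [h5 : DT g5] [h6 : DT g6] [h7 : DT g7]

instance d0_rl (R : Rl) :
    D0 (fun v => R.R (g0 v) (g1 v) (g2 v) (g3 v) (g4 v) (g5 v) (g6 v) (g7 v)) := D0.s8 R.d0

end inst

/-- Rows in `G` have values at most `b` on `[0, n)` in every member of `q`. -/
def StdR (n b G q : ℕ) : Prop := ∀ d, d < q → (Bt q d → ∀ i, i < G → (Bt G i → ∀ j, j < n →
  ∃ v, v < b + 1 ∧ VL d i j v))

/-- The core of the relation. -/
def PsC (R : Rl) (n0 F0 q0 a h y n n1 G q w K Qh : ℕ) : Prop :=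
  ∃ S, S < y ∧ ∃ S1, S1 < y ∧ ∃ W, W < y ∧ ∃ W1, W1 < y ∧
    (TwS a n W ∧ Bt W (pr n S) ∧ TwS a n1 W1 ∧ Bt W1 (pr n1 S1) ∧ n0 < n + 1 ∧ Sub F0 G ∧
      (∀ i, i < G → (Bt G i → i < n)) ∧ Sub q q0 ∧ Agr n q ∧ Big n w q ∧ StdR n n1 G q ∧
      ∀ d, d < q → (Bt q d → R.R S n G K Qh w d h))

/-- The functional of the uniform lemma. -/
def PsR (R : Rl) (Θ : Fn) (n0 F0 : ℕ) (y K P Q e : ℕ) : Prop :=
  ∃ a, a < e + 1 ∧ ∃ q0, q0 < e + 1 ∧ ∃ h, h < e + 1 ∧ ∃ c, c < e + 1 ∧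
    (e = pr a (pr q0 (pr h c)) ∧
  ∃ n, n < y ∧ ∃ n1, n1 < y ∧ ∃ G, G < y ∧ ∃ q, q < y ∧ ∃ w, w < a + 1 ∧ ∃ Qh, Qh < y ∧
    ∃ Q1, Q1 < y ∧ ∃ y', y' < y ∧
    (PsC R n0 F0 q0 a h y n n1 G q w K Qh ∧ Θ.R y' (2 ^ w) P Q1 c ∧ Sub Qh Q ∧ Sub Q1 Q))

section inst
variable {g0 g1 g2 g3 g4 g5 g6 g7 g8 g9 g10 g11 : (ℕ → ℕ) → ℕ} [h0 : DT g0] [h1 : DT g1]
  [h2 : DT g2] [h3 : DT g3] [h4 : DT g4] [h5 : DT g5] [h6 : DT g6] [h7 : DT g7] [h8 : DT g8]
  [h9 : DT g9] [h10 : DT g10] [h11 : DT g11]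

instance d0_stdR : D0 (fun v => StdR (g0 v) (g1 v) (g2 v) (g3 v)) := by
  apply D0.s4
  unfold StdR
  infer_instance

instance d0_PsC (R : Rl) (n0 F0 : ℕ) :
    D0 (fun v => PsC R n0 F0 (g0 v) (g1 v) (g2 v) (g3 v) (g4 v) (g5 v) (g6 v) (g7 v) (g8 v)
      (g9 v) (g10 v)) := by
  apply D0.s11 (P := fun a b c d e f g h i j k => PsC R n0 F0 a b c d e f g h i j k)
  unfold PsC
  infer_instance

end inst

theorem d0_PsR (R : Rl) (Θ : Fn) (n0 F0 : ℕ) :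
    D0 (fun v => PsR R Θ n0 F0 (v 0) (v 1) (v 2) (v 3) (v 4)) := by
  unfold PsR
  infer_instance

/-- The functional. -/
def PsF (R : Rl) (Θ : Fn) (n0 F0 : ℕ) : Fn := ⟨PsR R Θ n0 F0, d0_PsR R Θ n0 F0⟩

/-! ### Finite choice, bounds -/

theorem Bd.pr {f g : ℕ → ℕ} (hf : Bd st f) (hg : Bd st g) : Bd st (fun k => pr (f k) (g k)) :=
  (((hf.add grst hg).mul grst (hf.add grst hg)).add grst hf)

theorem Bd.id : Bd st (fun k => k) := ⟨0, Eventually.of_forall fun _ => le_rfl⟩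

theorem Bd.cst (n : ℕ) : Bd st (fun _ => n) := Bd.const grst n

theorem Bd.towc (n : ℕ) : Bd st (fun k => tow n k) := ⟨n, Eventually.of_forall fun _ => le_rfl⟩

theorem Bd.two_pow {f : ℕ → ℕ} (hf : Bd st f) : Bd st (fun k => 2 ^ f k) := hf.pow grst

theorem Cond.bd {H : Set (ℕ → ℕ)} (p : Cond H) : Bd st p.q := by
  refine Bd.mono (g := fun k => 2 ^ 2 ^ pr (pr k k) k)
    (Bd.two_pow (Bd.two_pow (Bd.pr (Bd.pr Bd.id Bd.id) Bd.id))) ?_
  filter_upwards [p.cod] with k hk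
  exact (bt_lt_two_pow.2 hk).le

theorem psh_at (x : ℕ → ℕ) (v : ℕ → ℕ → ℕ) (k : ℕ) :
    (fun i => psh x v i k) = psh (x k) (fun i => v i k) := by
  funext i
  cases i <;> rfl

theorem Hull.union {H : Set (ℕ → ℕ)} (hH : Hull H) {x y : ℕ → ℕ} (hx : x ∈ H) (hy : y ∈ H) :
    ∃ u ∈ H, ∀ᶠ k in Uf, ∀ z, Bt (u k) z ↔ (Bt (x k) z ∨ Bt (y k) z) := by
  have ht : (fun k => 2 ^ (x k + y k)) ∈ H := hH.pow (hH.add hx hy)
  obtain ⟨u, hu, h⟩ := hH.sk2 (R := fun u x y => ∀ z, z < x + y →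
      (Bt u z ↔ (Bt x z ∨ Bt y z))) inferInstance hx hy ht (Eventually.of_forall fun k => by
      obtain ⟨w, hw, h⟩ := mk_code' (x k + y k) (fun z => Bt (x k) z ∨ Bt (y k) z) (by
        rintro z (hz | hz)
        · have := hz.lt; omega
        · have := hz.lt; omega)
      exact ⟨w, hw, fun z _ => h z⟩)
  refine ⟨u, hu, ?_⟩
  filter_upwards [h] with k hk z
  obtain ⟨h1, h2, -⟩ := hk
  by_cases hz : z < x k + y k
  · exact h2 z hz
  · constructor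
    · intro h3; exact absurd (h3.lt_of_lt h1) hz
    · rintro (h3 | h3)
      · have := h3.lt; omega
      · have := h3.lt; omega

theorem Ce.dis_sub {Y : Ce} {Q Q' : ℕ → ℕ} (h : Y.dis Q)
    (hs : ∀ᶠ k in Uf, ∀ z, Bt (Q' k) z → Bt (Q k) z) : Y.dis Q' := by
  intro n
  filter_upwards [h n, hs] with k h1 h2 z hz
  exact h1 z (h2 z hz)

theorem Cond.big' {H : Set (ℕ → ℕ)} (hH : Hull H) (p : Cond H) {w : ℕ → ℕ} (hw : w ∈ H)
    (hn : Ns w) : ∃ w' ∈ H, Ns w' ∧ (∀ᶠ k in Uf, w' k ≤ w k) ∧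
      ∀ᶠ k in Uf, Big p.n (w' k) (p.q k) := by
  have hB : PP (fun v : ℕ → ℕ => Big p.n (v 0) (v 1)) := d0_pp inferInstance
  obtain ⟨ν, hν, hν1, -, hν2⟩ := hH.over2 (R := fun m q w => Big p.n m q ∧ m ≤ w) (by
    have : PP (fun v : ℕ → ℕ => v 0 ≤ v 2) := inferInstance
    exact pp_and (P := fun v : ℕ → ℕ => Big p.n (v 0) (v 1))) p.hq hw (fun n => by
    filter_upwards [p.big n, hn n] with k h1 h2
    exact ⟨h1, h2⟩)
  exact ⟨ν, hν, hν1, hν2.mono fun k hk => (hk _ le_rfl).2, hν2.mono fun k hk => (hk _ le_rfl).1⟩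

/-- A finite conjunction of bounds. -/
theorem bd_list (l : List (ℕ → ℕ)) (h : ∀ f ∈ l, Bd st f) :
    ∃ m, ∀ᶠ k in Uf, ∀ f ∈ l, f k < tow m k := by
  induction l with
  | nil => exact ⟨0, Eventually.of_forall fun k f hf => absurd hf (by simp)⟩
  | cons g l ih =>
    obtain ⟨m, hm⟩ := ih (fun f hf => h f (by simp [hf]))
    obtain ⟨m', hm'⟩ := Bd.ex_lt (h g (by simp))
    refine ⟨max m m', ?_⟩
    filter_upwards [hm, hm'] with k h1 h2 f hf
    rcases List.mem_cons.1 hf with rfl | hf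
    · exact lt_of_lt_of_le h2 (tow_mono (le_max_right _ _) k)
    · exact lt_of_lt_of_le (h1 f hf) (tow_mono (le_max_left _ _) k)

theorem stdR_iff {n b G q : ℕ} : StdR n b G q ↔ ∀ d, Bt q d → ∀ i, Bt G i → ∀ j, j < n →
    ∃ v, v ≤ b ∧ VL d i j v := by
  constructor
  · intro h d hd i hi j hj
    obtain ⟨v, hv, h1⟩ := h d hd.lt hd i hi.lt hi j hj
    exact ⟨v, by omega, h1⟩
  · intro h d _ hd i _ hi j hj
    obtain ⟨v, hv, h1⟩ := h d hd i hi j hj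
    exact ⟨v, by omega, h1⟩

section ppinst
variable {g0 g1 g2 g3 g4 g5 g6 g7 g8 g9 g10 : (ℕ → ℕ) → ℕ} [h0 : PT g0] [h1 : PT g1] [h2 : PT g2]
  [h3 : PT g3] [h4 : PT g4] [h5 : PT g5] [h6 : PT g6] [h7 : PT g7] [h8 : PT g8] [h9 : PT g9]
  [h10 : PT g10]

instance ppf_sub : PP (fun v => Sub (g0 v) (g1 v)) := PP.s2 (d0_pp inferInstance)

instance ppf_agr : PP (fun v => Agr (g0 v) (g1 v)) := PP.s2 (d0_pp inferInstance)

instance ppf_big : PP (fun v => Big (g0 v) (g1 v) (g2 v)) := PP.s3 (d0_pp inferInstance)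

instance ppf_stdR : PP (fun v => StdR (g0 v) (g1 v) (g2 v) (g3 v)) := PP.s4 (d0_pp inferInstance)

instance ppf_rl (R : Rl) :
    PP (fun v => R.R (g0 v) (g1 v) (g2 v) (g3 v) (g4 v) (g5 v) (g6 v) (g7 v)) :=
  PP.s8 (d0_pp R.d0)

instance ppf_fn (Θ : Fn) : PP (fun v => Θ.R (g0 v) (g1 v) (g2 v) (g3 v) (g4 v)) :=
  PP.s5 (d0_pp Θ.d0)

instance ppf_cl (Θ : Fn) :
    PP (fun v => Θ.cl (g0 v) (g1 v) (g2 v) (g3 v) (g4 v) (g5 v)) := by
  refine PP.s6 (P := fun a b c d e f => Θ.cl a b c d e f) ?_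
  unfold Fn.cl
  infer_instance

/-- The relation satisfied by the data of a claim. -/
def Mtx (R : Rl) (Θ : Fn) (n b G m : ℕ) (q w Qh Q1 k pq K Q P h c : ℕ) : Prop :=
  (Sub q pq ∧ Agr n q ∧ Big n w q ∧ StdR n b G q ∧ w < k + 1) ∧
    (∀ d, d < q → (Bt q d → R.R (tow n k) n G K Qh w d h)) ∧
    Θ.cl c k (m + 1) (2 ^ w) P Q1 ∧ Sub Qh Q ∧ Sub Q1 Q

instance ppf_Mtx (R : Rl) (Θ : Fn) (n b G m : ℕ) :
    PP (fun v => Mtx R Θ n b G m (g0 v) (g1 v) (g2 v) (g3 v) (g4 v) (g5 v) (g6 v) (g7 v) (g8 v)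
      (g9 v) (g10 v)) := by
  have h : PP (fun v => Mtx R Θ n b G m (v 0) (v 1) (v 2) (v 3) (v 4) (v 5) (v 6) (v 7) (v 8)
      (v 9) (v 10)) := by
    unfold Mtx
    infer_instance
  exact PP.sub h (g := asg [g0, g1, g2, g3, g4, g5, g6, g7, g8, g9, g10])
    (asg_pt _ (by simp [*]))

end ppinst

/-- **The uniform lemma.** If the conditions below `p` that carry a certificate (`R`) decide
membership in `X` correctly, then `X ≤_T Y` already over `H`. -/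
theorem UL {H : Set (ℕ → ℕ)} (hH : Hull H) {X Y : Ce} (hI : RedH H cI Y) (p : Cond H) (R : Rl)
    {h : ℕ → ℕ} (hh : h ∈ H) (hb : Bd st h)
    (anti : ∀ {S n G K Q w w' d h : ℕ}, w' ≤ w → R.R S n G K Q w d h → R.R S n G K Q w' d h)
    (SND : ∀ p' : Cond H, Ext p' p → ∀ K ∈ H, ∀ Q ∈ H, ∀ w ∈ H, Ns w → (∀ᶠ k in Uf, w k ≤ k) →
      Y.dis Q → (∀ᶠ k in Uf, ∀ d, Bt (p'.q k) d →
        R.R (tow p'.n k) p'.n p'.F (K k) (Q k) (w k) d (h k)) → X.dis K)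
    (CMP : ∀ K ∈ H, Bd st K → X.dis K → ∃ p' : Cond H, Ext p' p ∧ ∃ Q ∈ H, ∃ w ∈ H, Bd st Q ∧
      Ns w ∧ (∀ᶠ k in Uf, w k ≤ k) ∧ Y.dis Q ∧ (∀ᶠ k in Uf, ∀ d, Bt (p'.q k) d →
        R.R (tow p'.n k) p'.n p'.F (K k) (Q k) (w k) d (h k))) : RedH H X Y := by
  obtain ⟨Θ, c, hcH, hcB, hRed⟩ := hI
  refine ⟨PsF R Θ p.n p.F, fun k => pr k (pr (p.q k) (pr (h k) (c k))),
    hH.pr hH.idm (hH.pr p.hq (hH.pr hh hcH)), Bd.pr Bd.id (Bd.pr p.bd (Bd.pr hb hcB)), ?_⟩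
  intro K hK hKb
  constructor
  · intro hd
    obtain ⟨p', hle, Qh, hQh, w, hw, hQhb, hwn, hwk, hQhd, hR⟩ := CMP K hK hKb hd
    obtain ⟨w', hw', hwn', hww, hbig⟩ := p'.big' hH hw hwn
    have hK1 : (fun k => 2 ^ w' k) ∈ H := hH.pow hw'
    have hw'b : Bd st w' := Bd.id.mono (by
      filter_upwards [hww, hwk] with k h1 h2
      omega)
    have hdis : cI.dis (fun k => 2 ^ w' k) := by
      rw [cI_dis]
      intro n
      filter_upwards [hwn' n] with k hk x hx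
      rw [bt_two_pow] at hx
      omega
    obtain ⟨P, hP, Q1, hQ1, m, hcl, hPs, hQ1d⟩ := (hRed _ hK1 (Bd.two_pow hw'b)).1 hdis
    obtain ⟨Q, hQ, hQu⟩ := hH.union hQh hQ1
    have hQd : Y.dis Q := by
      intro n
      filter_upwards [hQhd n, hQ1d n, hQu] with k h1 h2 h3 z hz
      rcases (h3 z).1 hz with h4 | h4
      · exact h1 z h4
      · exact h2 z h4
    obtain ⟨b, hstd⟩ := p'.std
    obtain ⟨m', hm'⟩ := bd_list [K, P, Qh, Q1, Q, p'.q, (fun _ => p'.n), (fun _ => b),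
      (fun _ => p'.F), (fun k => 2 ^ (pr p'.n (tow p'.n k) + 1)),
      (fun k => 2 ^ (pr b (tow b k) + 1)), (fun k => tow m k), (fun k => 2 ^ w' k)] (by
      have e1 : Bd st P := bd_of_lt (hcl.mono fun _ h => h.2.1)
      have e2 : Bd st Q1 := bd_of_lt (hcl.mono fun _ h => h.2.2.1)
      have e3 : Bd st Q := by
        refine (Bd.two_pow (hQhb.add grst e2)).mono ?_
        filter_upwards [hQu] with k hk
        refine (bt_lt_two_pow.2 fun z hz => ?_).le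
        rcases (hk z).1 hz with h4 | h4
        · have := h4.lt; omega
        · have := h4.lt; omega
      have e4 : Bd st (fun k => 2 ^ (pr p'.n (tow p'.n k) + 1)) :=
        Bd.two_pow ((Bd.pr (Bd.cst _) (Bd.towc _)).add grst (Bd.cst 1))
      have e5 : Bd st (fun k => 2 ^ (pr b (tow b k) + 1)) :=
        Bd.two_pow ((Bd.pr (Bd.cst _) (Bd.towc _)).add grst (Bd.cst 1))
      simp only [List.mem_cons, List.not_mem_nil, or_false]
      rintro f (rfl | rfl | rfl | rfl | rfl | rfl | rfl | rfl | rfl | rfl | rfl | rfl | rfl)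
      · exact hKb
      · exact e1
      · exact hQhb
      · exact e2
      · exact e3
      · exact p'.bd
      · exact Bd.cst _
      · exact Bd.cst _
      · exact Bd.cst _
      · exact e4
      · exact e5
      · exact Bd.towc _
      · exact Bd.two_pow hw'b)
    refine ⟨P, hP, Q, hQ, m' + 1, ?_, hPs, hQd⟩
    filter_upwards [hm', hR, hww, hbig, hstd, hcl, hQu, hle.2.2, p'.agr, hwk]
      with k hm hR hww hbig hstd hcl hQu hsub hagr hwk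
    simp only [List.mem_cons, List.not_mem_nil, or_false, forall_eq_or_imp, forall_eq] at hm
    obtain ⟨f1, f2, f3, f4, f5, f6, f7, f8, f9, f10, f11, f12, f13⟩ := hm
    have hlt : tow m' k < tow (m' + 1) k := tow_lt_succ m' k
    refine ⟨by omega, by omega, by omega, tow m' k, hlt, ?_⟩
    refine ⟨k, Nat.lt_succ_of_le (le_pr_left _ _), p.q k,
      Nat.lt_succ_of_le ((le_pr_left _ _).trans (le_pr_right _ _)), h k,
      Nat.lt_succ_of_le ((le_pr_left _ _).trans ((le_pr_right _ _).trans (le_pr_right _ _))), c k,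
      Nat.lt_succ_of_le ((le_pr_right _ _).trans ((le_pr_right _ _).trans (le_pr_right _ _))), rfl,
      p'.n, f7, b, f8, p'.F, f9, p'.q k, f6, w' k, by omega, Qh k, f3, Q1 k, f4, ?_⟩
    obtain ⟨c1, c2, c3, y', hy', c4⟩ := hcl
    refine ⟨y', by omega, ?_, c4, ?_, ?_⟩
    · obtain ⟨W, hW, hTW⟩ := ex_TwS k p'.n
      obtain ⟨W1, hW1, hTW1⟩ := ex_TwS k b
      refine ⟨tow p'.n k, ?_, tow b k, ?_, W, by omega, W1, by omega, hTW, hTW.has _ le_rfl, hTW1,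
        hTW1.has _ le_rfl, Nat.lt_succ_of_le hle.1, sub_iff.2 hle.2.1, fun i _ hi => p'.hF i hi,
        hsub, hagr, hbig, stdR_iff.2 hstd, fun d _ hd' => anti hww (hR d hd')⟩
      · exact lt_trans (hTW.tow_lt le_rfl) (by omega)
      · exact lt_trans (hTW1.tow_lt le_rfl) (by omega)
    · exact sub_iff.2 fun z hz => (hQu z).2 (Or.inl hz)
    · exact sub_iff.2 fun z hz => (hQu z).2 (Or.inr hz)
  · rintro ⟨P, hP, Q, hQ, m, hcl, hPs, hQd⟩
    have h1 : ∀ᶠ k in Uf, ∃ n, n < m ∧ ∃ b, b < m ∧ ∃ G, G < 2 ^ m ∧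
        ((p.n ≤ n ∧ (∀ i, Bt p.F i → Bt G i) ∧ (∀ i, Bt G i → i < n)) ∧ ∃ q, q < tow m k ∧
        ∃ w, w < tow m k ∧ ∃ Qh, Qh < tow m k ∧ ∃ Q1, Q1 < tow m k ∧
        Mtx R Θ n b G m q w Qh Q1 k (p.q k) (K k) (Q k) (P k) (h k) (c k)) := by
      filter_upwards [hcl] with k hk
      obtain ⟨hKm, hPm, hQm, y, hy, a, ha, q0, hq0, h', hh', c', hc', he, n, hn, n1, hn1, G, hG,
        q, hq, w, hw, Qh, hQh, Q1, hQ1, y', hy', hC, hΘ, hs1, hs2⟩ := hk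
      replace he : pr k (pr (p.q k) (pr (h k) (c k))) = pr a (pr q0 (pr h' c')) := he
      obtain ⟨he0, he⟩ := pr_inj he
      obtain ⟨he1, he⟩ := pr_inj he
      obtain ⟨he2, he3⟩ := pr_inj he
      obtain rfl : k = a := he0
      obtain rfl : p.q k = q0 := he1
      obtain rfl : h k = h' := he2
      obtain rfl : c k = c' := he3
      obtain ⟨S, hS, S1, hS1, W, hW, W1, hW1, t1, t2, t3, t4, t5, t6, t7, t8, t9, t10, t11,
        t12⟩ := hC
      have hS' : S = tow n k := (t1.iff le_rfl S).1 t2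
      have hS1' : S1 = tow n1 k := (t3.iff le_rfl S1).1 t4
      subst hS' hS1'
      have hnm : n < m := tow_lt_iff.1 (lt_trans hS hy)
      have hbm : n1 < m := tow_lt_iff.1 (lt_trans hS1 hy)
      have hGn : G < 2 ^ n := bt_lt_two_pow.2 fun z hz => t7 z hz.lt hz
      have hk1 : tow 1 k = 2 ^ k := rfl
      have hkm : tow 0 k < tow m k := tow_lt (by omega) k
      have hk0 : tow 0 k = k := rfl
      have hm1 : tow m k < tow (m + 1) k := tow_lt_succ m k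
      have h2w : 2 ^ w < tow (m + 1) k := by
        have h5 : 2 ^ w ≤ 2 ^ k := Nat.pow_le_pow_right (by norm_num) (by omega)
        have h6 : tow 1 k < tow (m + 1) k := tow_lt (by omega) k
        omega
      refine ⟨n, hnm, n1, hbm, G, lt_of_lt_of_le hGn (Nat.pow_le_pow_right (by norm_num) hnm.le),
        ⟨by omega, sub_iff.1 t6, fun i hi => t7 i hi.lt hi⟩, q, by omega, w, by omega, Qh,
        by omega, Q1, by omega, ⟨t8, t9, t10, t11, hw⟩, t12, ⟨h2w, by omega, by omega, y',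
        by omega, hΘ⟩, hs1, hs2⟩
    obtain ⟨n, -, h1⟩ := ev_ex_lt m h1
    obtain ⟨b, -, h1⟩ := ev_ex_lt m h1
    obtain ⟨G, -, h1⟩ := ev_ex_lt (2 ^ m) h1
    obtain ⟨k0, ⟨hn1, hF1, hF2⟩, -⟩ := ev_exists h1
    have hT : (fun k => tow m k) ∈ H := hH.tow (hH.const m) hH.idm
    have hmem : ∀ i, asF [fun k => k, p.q, K, Q, P, h, c] i ∈ H :=
      asF_mem hH _ (by
        have := hH.idm
        have := p.hq
        simp [*])
    obtain ⟨q, hq, h2⟩ := hH.sk (R := fun u : ℕ → ℕ => ∃ w, w < tow m (u 1) ∧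
      ∃ Qh, Qh < tow m (u 1) ∧ ∃ Q1, Q1 < tow m (u 1) ∧
        Mtx R Θ n b G m (u 0) w Qh Q1 (u 1) (u 2) (u 3) (u 4) (u 5) (u 6) (u 7))
      inferInstance hmem hT (h1.mono fun k hk => hk.2)
    obtain ⟨w, hw, h3⟩ := hH.sk (R := fun u : ℕ → ℕ =>
      ∃ Qh, Qh < tow m (u 2) ∧ ∃ Q1, Q1 < tow m (u 2) ∧
        Mtx R Θ n b G m (u 1) (u 0) Qh Q1 (u 2) (u 3) (u 4) (u 5) (u 6) (u 7) (u 8))
      inferInstance (psh_mem hq hmem) hT (h2.mono fun k hk => hk.2.1)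
    obtain ⟨Qh, hQh, h4⟩ := hH.sk (R := fun u : ℕ → ℕ => ∃ Q1, Q1 < tow m (u 3) ∧
        Mtx R Θ n b G m (u 2) (u 1) (u 0) Q1 (u 3) (u 4) (u 5) (u 6) (u 7) (u 8) (u 9))
      inferInstance (psh_mem hw (psh_mem hq hmem)) hT (h3.mono fun k hk => hk.2.1)
    obtain ⟨Q1, hQ1, h5⟩ := hH.sk (R := fun u : ℕ → ℕ =>
        Mtx R Θ n b G m (u 3) (u 2) (u 1) (u 0) (u 4) (u 5) (u 6) (u 7) (u 8) (u 9) (u 10))
      inferInstance (psh_mem hQh (psh_mem hw (psh_mem hq hmem))) hT (h4.mono fun k hk => hk.2.1)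
    have h6 : ∀ᶠ k in Uf, Mtx R Θ n b G m (q k) (w k) (Qh k) (Q1 k) k (p.q k) (K k) (Q k) (P k)
        (h k) (c k) := h5.mono fun k hk => hk.2.1
    have hdis : cI.dis (fun k => 2 ^ w k) := by
      refine (hRed _ (hH.pow hw) (bd_of_lt (n := m + 1) ?_)).2 ⟨P, hP, Q1, hQ1, m + 1,
        h6.mono fun k hk => hk.2.2.1, hPs, Ce.dis_sub hQd ?_⟩
      · filter_upwards [h6] with k hk
        exact hk.2.2.1.1
      · filter_upwards [h6] with k hk
        exact sub_iff.1 hk.2.2.2.2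
    have hwn : Ns w := by
      intro N
      filter_upwards [(cI_dis.1 hdis) N] with k hk
      exact hk _ ((bt_two_pow _ _).2 rfl)
    let p' : Cond H :=
      { n := n
        F := G
        q := q
        hq := hq
        hF := hF2
        arr := by
          filter_upwards [h6, p.arr] with k hk h7 d hd
          exact h7 d (sub_iff.1 hk.1.1 d hd)
        cod := by
          filter_upwards [h6, p.cod] with k hk h7 d hd
          exact h7 d (sub_iff.1 hk.1.1 d hd)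
        agr := h6.mono fun k hk => hk.1.2.1
        big := fun u => by
          filter_upwards [h6, hwn u] with k hk h7
          exact hk.1.2.2.1.mono h7
        std := ⟨b, h6.mono fun k hk => stdR_iff.1 hk.1.2.2.2.1⟩ }
    refine SND p' ⟨hn1, hF1, h6.mono fun k hk => hk.1.1⟩ K hK Qh hQh w hw hwn ?_ ?_ ?_
    · filter_upwards [h6] with k hk
      have := hk.1.2.2.2.2
      omega
    · refine Ce.dis_sub hQd ?_
      filter_upwards [h6] with k hk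
      exact sub_iff.1 hk.2.2.2.1
    · filter_upwards [h6] with k hk d hd
      exact hk.2.1 d hd.lt hd

end Pool.Agent.BSig.Neg
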