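import Pool.Agent.Work.MP_510745_lc.Bits

/-!
Arrays on a square, coded by numbers, and the largeness of a coded set of arrays
(negative half of MP_510745_lc). Pure arithmetic of the naturals.
-/

namespace Pool.Agent.BSig.Neg

/-- The value of the array `d` at the point `(i, j)` is `v`. -/
def VL (d i j v : ℕ) : Prop := Bt d (pr (pr i j) v) ∧ ∀ w, w < v → ¬ Bt d (pr (pr i j) w)

theorem VL.uniq {d i j v w : ℕ} (h : VL d i j v) (h' : VL d i j w) : v = w := by
  rcases lt_trichotomy v w with h1 | h1 | h1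
  · exact absurd h.1 (h'.2 v h1)
  · exact h1
  · exact absurd h'.1 (h.2 w h1)

theorem VL.lt {d i j v : ℕ} (h : VL d i j v) : v < d :=
  lt_of_le_of_lt (le_pr_right _ _) h.1.lt

/-- `d` has values below `c` on the square `[0, c)^2`. -/
def Arr (c d : ℕ) : Prop := ∀ i, i < c → ∀ j, j < c → ∃ v, v < c ∧ VL d i j v

/-- All members of `q` agree on the square `[0, n)^2`. -/
def Agr (n q : ℕ) : Prop := ∀ d, d < q → ∀ e, e < q → (Bt q d → Bt q e →
  ∀ i, i < n → ∀ j, j < n → ∀ v, v < d → (VL d i j v → VL e i j v))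

/-- Every array on `[0, u)^2` minus `[0, n)^2` with values below `u` is extended by a member
of `q`. -/
def Big (n u q : ℕ) : Prop := ∀ t, t < 2 ^ pr (pr u u) u → (Arr u t → ∃ d, d < q ∧ (Bt q d ∧
  ∀ i, i < u → ∀ j, j < u → ((n < i + 1 ∨ n < j + 1) → ∀ v, v < u → (VL t i j v → VL d i j v))))

/-- `q` is a subset of `q'`. -/
def Sub (q q' : ℕ) : Prop := ∀ z, z < q → (Bt q z → Bt q' z)

section inst
variable {g0 g1 g2 g3 : (ℕ → ℕ) → ℕ} [h0 : DT g0] [h1 : DT g1] [h2 : DT g2] [h3 : DT g3]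

instance d0_vl : D0 (fun v => VL (g0 v) (g1 v) (g2 v) (g3 v)) := by
  apply D0.s4
  unfold VL
  infer_instance

instance d0_arr : D0 (fun v => Arr (g0 v) (g1 v)) := by
  apply D0.s2
  unfold Arr
  infer_instance

instance d0_agr : D0 (fun v => Agr (g0 v) (g1 v)) := by
  apply D0.s2
  unfold Agr
  infer_instance

instance d0_big : D0 (fun v => Big (g0 v) (g1 v) (g2 v)) := by
  apply D0.s3
  unfold Big
  infer_instance

instance d0_sub : D0 (fun v => Sub (g0 v) (g1 v)) := by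
  apply D0.s2
  unfold Sub
  infer_instance

end inst

theorem sub_iff {q q' : ℕ} : Sub q q' ↔ ∀ z, Bt q z → Bt q' z :=
  ⟨fun h z hz => h z hz.lt hz, fun h z _ hz => h z hz⟩

theorem Sub.refl (q : ℕ) : Sub q q := fun _ _ h => h

theorem Sub.trans {q q' q'' : ℕ} (h : Sub q q') (h' : Sub q' q'') : Sub q q'' := by
  rw [sub_iff] at *
  exact fun z hz => h' z (h z hz)

theorem Sub.le {q q' : ℕ} (h : Sub q q') : q ≤ q' := by
  rw [sub_iff] at h
  have h1 : q &&& q' = q := by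
    apply bt_ext
    intro z
    rw [bt_iff, Nat.testBit_and, Bool.and_eq_true, ← bt_iff, ← bt_iff]
    exact ⟨fun h => h.1, fun hz => ⟨hz, h z hz⟩⟩
  rw [← h1]
  exact Nat.and_le_right

theorem agr_iff {n q : ℕ} : Agr n q ↔ ∀ d e, Bt q d → Bt q e → ∀ i j, i < n → j < n →
    ∀ v, VL d i j v → VL e i j v := by
  constructor
  · intro h d e hd he i j hi hj v hv
    exact h d hd.lt e he.lt hd he i hi j hj v hv.lt hv
  · intro h d _ e _ hd he i hi j hj v _ hv
    exact h d e hd he i j hi hj v hv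

theorem Agr.sub {n q q' : ℕ} (h : Agr n q) (hs : Sub q' q) : Agr n q' := by
  rw [agr_iff] at *
  rw [sub_iff] at hs
  exact fun d e hd he => h d e (hs d hd) (hs e he)

/-- Codes of arrays. -/
theorem ex_arr (u : ℕ) (τ : ℕ → ℕ → ℕ) (hτ : ∀ i j, i < u → j < u → τ i j < u) :
    ∃ t, t < 2 ^ pr (pr u u) u ∧ (∀ i j, i < u → j < u → VL t i j (τ i j)) ∧ Arr u t := by
  obtain ⟨t, ht, h⟩ := mk_code' (pr (pr u u) u)
    (fun z => ∃ i j, i < u ∧ j < u ∧ z = pr (pr i j) (τ i j)) (by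
      rintro z ⟨i, j, hi, hj, rfl⟩
      have h1 := hτ i j hi hj
      have h2 : pr i j < pr u u := by
        unfold pr
        have : (i + j) * (i + j) ≤ (u + u) * (u + u) := Nat.mul_le_mul (by omega) (by omega)
        omega
      unfold pr at *
      have h3 := Nat.mul_le_mul (Nat.add_le_add h2.le h1.le) (Nat.add_le_add h2.le h1.le)
      omega)
  have key : ∀ i j, i < u → j < u → VL t i j (τ i j) := by
    intro i j hi hj
    refine ⟨(h _).2 ⟨i, j, hi, hj, rfl⟩, fun w hw hb => ?_⟩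
    obtain ⟨i', j', _, _, h1⟩ := (h _).1 hb
    obtain ⟨h2, h3⟩ := pr_inj h1
    obtain ⟨h4, h5⟩ := pr_inj h2
    subst h4 h5
    omega
  exact ⟨t, ht, key, fun i hi j hj => ⟨τ i j, hτ i j hi hj, key i j hi hj⟩⟩

theorem big_iff {n u q : ℕ} : Big n u q ↔ ∀ τ : ℕ → ℕ → ℕ, (∀ i j, i < u → j < u → τ i j < u) →
    ∃ d, Bt q d ∧ ∀ i j, i < u → j < u → (n ≤ i ∨ n ≤ j) → VL d i j (τ i j) := by
  constructor
  · intro h τ hτ
    obtain ⟨t, ht, h1, h2⟩ := ex_arr u τ hτ
    obtain ⟨d, _, hd, h3⟩ := h t ht h2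
    exact ⟨d, hd, fun i j hi hj hn => h3 i hi j hj (by omega) _ (hτ i j hi hj) (h1 i j hi hj)⟩
  · intro h t _ hA
    classical
    have hA' : ∀ i j, ∃ v, (i < u → j < u → v < u ∧ VL t i j v) := by
      intro i j
      by_cases hi : i < u
      · by_cases hj : j < u
        · obtain ⟨v, hv, h1⟩ := hA i hi j hj
          exact ⟨v, fun _ _ => ⟨hv, h1⟩⟩
        · exact ⟨0, fun _ h => absurd h hj⟩
      · exact ⟨0, fun h => absurd h hi⟩
    choose τ hτ using hA'
    obtain ⟨d, hd, h1⟩ := h τ (fun i j hi hj => (hτ i j hi hj).1)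
    refine ⟨d, hd.lt, hd, fun i hi j hj hn v _ hv => ?_⟩
    rw [hv.uniq (hτ i j hi hj).2]
    exact h1 i j hi hj (by omega)

theorem Big.mono {n u u' q : ℕ} (h : Big n u q) (hu : u' ≤ u) : Big n u' q := by
  rw [big_iff] at *
  intro τ hτ
  obtain ⟨d, hd, h1⟩ := h (fun i j => if i < u' ∧ j < u' then τ i j else 0) (by
    intro i j hi hj
    split_ifs with h2
    · exact lt_of_lt_of_le (hτ i j h2.1 h2.2) hu
    · omega)
  refine ⟨d, hd, fun i j hi hj hn => ?_⟩
  have := h1 i j (by omega) (by omega) hn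
  simpa [hi, hj] using this

theorem Big.sub {n u q q' : ℕ} (h : Big n u q) (hs : Sub q q') : Big n u q' := by
  rw [big_iff] at *
  rw [sub_iff] at hs
  intro τ hτ
  obtain ⟨d, hd, h1⟩ := h τ hτ
  exact ⟨d, hs d hd, h1⟩

theorem Big.nonempty {n u q : ℕ} (h : Big n u q) : ∃ d, Bt q d := by
  rw [big_iff] at h
  obtain ⟨d, hd, _⟩ := h (fun _ _ => 0) (fun i j hi _ => by omega)
  exact ⟨d, hd⟩

/-- Fixing the values on a larger square keeps the norm. -/
theorem Big.ext {n n' u q q' : ℕ} {τ : ℕ → ℕ → ℕ} (h : Big n u q) (hn : n ≤ n') (hu : n' ≤ u)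
    (hτ : ∀ i j, i < n' → j < n' → (n ≤ i ∨ n ≤ j) → τ i j < u)
    (hq : ∀ d, Bt q d → (∀ i j, i < n' → j < n' → (n ≤ i ∨ n ≤ j) → VL d i j (τ i j)) →
      Bt q' d) : Big n' u q' := by
  classical
  rw [big_iff] at *
  intro ρ hρ
  obtain ⟨d, hd, h1⟩ := h (fun i j => if i < n' ∧ j < n' then
      (if n ≤ i ∨ n ≤ j then τ i j else 0) else ρ i j) (by
    intro i j hi hj
    split_ifs with h2 h3
    · exact hτ i j h2.1 h2.2 h3
    · omega
    · exact hρ i j hi hj)
  refine ⟨d, hq d hd (fun i j hi hj h2 => ?_), fun i j hi hj h2 => ?_⟩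
  · have := h1 i j (by omega) (by omega) h2
    simpa [hi, hj, h2] using this
  · have := h1 i j hi hj (by omega)
    have h3 : ¬ (i < n' ∧ j < n') := by omega
    simpa [h3] using this

/-- If `q1` is small then some standard array on a square avoids it. -/
theorem not_big {n m q1 : ℕ} (h : ¬ Big n m q1) : ∃ τ : ℕ → ℕ → ℕ,
    (∀ i j, i < m → j < m → τ i j < m) ∧ ∀ d, Bt q1 d →
      ∃ i j, i < m ∧ j < m ∧ (n ≤ i ∨ n ≤ j) ∧ ¬ VL d i j (τ i j) := by
  rw [big_iff] at h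
  push Not at h
  exact h

/-- The dichotomy: a small subset `q1` of `q` is avoided by a subset `q'` of `q`, of the same
norm, with new values below `m`. -/
theorem Big.dich {n m u q q1 : ℕ} (h : Big n u q) (h1 : ¬ Big n m q1) (hm : m ≤ u) (hn : n ≤ u) :
    ∃ q', Sub q' q ∧ Big (max n m) u q' ∧ (∀ d, Bt q' d → ¬ Bt q1 d) ∧
      ∃ τ : ℕ → ℕ → ℕ, (∀ i j, i < max n m → j < max n m → (n ≤ i ∨ n ≤ j) → τ i j < max m 1) ∧
        ∀ d, Bt q' d ↔ Bt q d ∧
          ∀ i j, i < max n m → j < max n m → (n ≤ i ∨ n ≤ j) → VL d i j (τ i j) := by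
  classical
  obtain ⟨ρ, hρ, h2⟩ := not_big h1
  set τ : ℕ → ℕ → ℕ := fun i j => if i < m ∧ j < m then ρ i j else 0 with hτ
  obtain ⟨q', -, hq'⟩ := mk_code' q (fun d => Bt q d ∧
    ∀ i j, i < max n m → j < max n m → (n ≤ i ∨ n ≤ j) → VL d i j (τ i j)) (fun z hz => hz.1.lt)
  have hlt : ∀ i j, i < max n m → j < max n m → (n ≤ i ∨ n ≤ j) → τ i j < max m 1 := by
    intro i j hi hj _
    simp only [hτ]
    split_ifs with h3
    · exact lt_of_lt_of_le (hρ i j h3.1 h3.2) (le_max_left _ _)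
    · exact lt_of_lt_of_le Nat.zero_lt_one (le_max_right _ _)
  refine ⟨q', sub_iff.2 fun z hz => ((hq' z).1 hz).1, ?_, ?_, τ, hlt, hq'⟩
  · refine h.ext (le_max_left _ _) (max_le hn hm) (τ := τ) (fun i j hi hj h3 => ?_)
      (fun d hd h3 => (hq' d).2 ⟨hd, h3⟩)
    have h4 := hlt i j hi hj h3
    rcases Nat.eq_zero_or_pos m with h5 | h5
    · subst h5
      omega
    · rw [max_eq_left (by omega : (1 : ℕ) ≤ m)] at h4
      omega
  · intro d hd hd1
    obtain ⟨i, j, hi, hj, h3, h4⟩ := h2 d hd1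
    apply h4
    have := ((hq' d).1 hd).2 i j (by omega) (by omega) h3
    simpa [hτ, hi, hj] using this

end Pool.Agent.BSig.Neg
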