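import Pool.Agent.Work.MP_510745_lc.Neg.Base
import Pool.Agent.Work.MP_510745_lc.Neg.Norm

/-!
Conditions, generic sequences (definitions only).
-/

namespace Pool.Agent.BSig.Neg

open Filter

/-- Conditions: a standard square, a standard finite set of rows, a large coded set of arrays. -/
structure Cond (H : Set (ℕ → ℕ)) where
  n : ℕ
  F : ℕ
  q : ℕ → ℕ
  hq : q ∈ H
  hF : ∀ i, Bt F i → i < n
  arr : ∀ᶠ k in Uf, ∀ d, Bt (q k) d → Arr k d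
  cod : ∀ᶠ k in Uf, ∀ d, Bt (q k) d → d < 2 ^ pr (pr k k) k
  agr : ∀ᶠ k in Uf, Agr n (q k)
  big : ∀ u, ∀ᶠ k in Uf, Big n u (q k)
  std : ∃ b, ∀ᶠ k in Uf, ∀ d, Bt (q k) d → ∀ i, Bt F i → ∀ j, j < n → ∃ v, v ≤ b ∧ VL d i j v

/-- `p'` extends `p`. -/
def Ext {H : Set (ℕ → ℕ)} (p' p : Cond H) : Prop :=
  p.n ≤ p'.n ∧ (∀ i, Bt p.F i → Bt p'.F i) ∧ ∀ᶠ k in Uf, Sub (p'.q k) (p.q k)

theorem Ext.refl {H : Set (ℕ → ℕ)} (p : Cond H) : Ext p p :=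
  ⟨le_rfl, fun _ h => h, Eventually.of_forall fun _ => Sub.refl _⟩

theorem Ext.trans {H : Set (ℕ → ℕ)} {p p' p'' : Cond H} (h : Ext p'' p') (h' : Ext p' p) :
    Ext p'' p :=
  ⟨le_trans h'.1 h.1, fun i hi => h.2.1 i (h'.2.1 i hi), by
    filter_upwards [h.2.2, h'.2.2] with k h1 h2
    exact h1.trans h2⟩

/-- `d` is generic over `H`, as witnessed by the sequence `G` of conditions. `nx` is the set of
functions generated by `H` and `d`. -/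
structure Gen (H nx : Set (ℕ → ℕ)) (d : ℕ → ℕ) (G : ℕ → Cond H) : Prop where
  anti : ∀ i j, i ≤ j → Ext (G j) (G i)
  mem : ∀ i, ∀ᶠ k in Uf, Bt ((G i).q k) (d k)
  dom : ∀ N, ∃ i, N ≤ (G i).n
  rows : ∀ N, ∃ i, ∃ m, N ≤ m ∧ Bt (G i).F m
  dec : ∀ q1 ∈ H, ∃ i, (∀ᶠ k in Uf, Sub ((G i).q k) (q1 k)) ∨
    ∀ᶠ k in Uf, ∀ e, Bt ((G i).q k) e → ¬ Bt (q1 k) e
  coi : COI H nx

end Pool.Agent.BSig.Neg
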