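import Pool.Agent.Work.MP_510745_lc.Neg.Next
import Pool.Agent.Work.MP_510745_lc.Neg.Cond

/-!
Conditions, their extension properties, generic sequences and the generic array
(negative half of MP_510745_lc).
-/

namespace Pool.Agent.BSig.Neg

open Filter Pool.Agent.BSig Pool.MinCover

section inst
variable {g0 g1 g2 g3 : (ℕ → ℕ) → ℕ} [h0 : PT g0] [h1 : PT g1] [h2 : PT g2] [h3 : PT g3]

instance pp_vl : PP (fun v => VL (g0 v) (g1 v) (g2 v) (g3 v)) := by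
  apply PP.s4
  unfold VL
  infer_instance

instance pp_arr : PP (fun v => Arr (g0 v) (g1 v)) := by
  apply PP.s2
  unfold Arr
  infer_instance

instance pp_agr : PP (fun v => Agr (g0 v) (g1 v)) := by
  apply PP.s2
  unfold Agr
  infer_instance

instance pp_big : PP (fun v => Big (g0 v) (g1 v) (g2 v)) := by
  apply PP.s3
  unfold Big
  infer_instance

instance pp_sub : PP (fun v => Sub (g0 v) (g1 v)) := by
  apply PP.s2
  unfold Sub
  infer_instance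

end inst

variable {H : Set (ℕ → ℕ)}

theorem Cond.exists_norm (p : Cond H) : ∃ ν, Ns ν ∧ ∀ᶠ k in Uf, Big p.n (ν k) (p.q k) := by
  obtain ⟨ν, h1, _, h3⟩ := overspill (fun u k => Big p.n u (p.q k)) p.big
  exact ⟨ν, h1, by filter_upwards [h3] with k hk using hk _ le_rfl⟩

/-- Restriction of `q` to the arrays that agree with `g` on the new part of `[0,n')^2`. -/
def Rs (n n' g q q' : ℕ) : Prop := Sub q' q ∧ ∀ d, d < q → (Bt q' d ↔ (Bt q d ∧
  ∀ i, i < n' → ∀ j, j < n' → ((n < i + 1 ∨ n < j + 1) → ∀ v, v < g → (VL g i j v → VL d i j v))))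

theorem rs_iff {n n' g q q' : ℕ} : Rs n n' g q q' ↔ ∀ d, Bt q' d ↔ (Bt q d ∧
    ∀ i j, i < n' → j < n' → (n ≤ i ∨ n ≤ j) → ∀ v, VL g i j v → VL d i j v) := by
  unfold Rs
  rw [sub_iff]
  constructor
  · rintro ⟨h1, h2⟩ d
    constructor
    · intro hd
      have h3 := (h2 d (h1 d hd).lt).1 hd
      exact ⟨h3.1, fun i j hi hj hn v hv => h3.2 i hi j hj (by omega) v hv.lt hv⟩
    · rintro ⟨h3, h4⟩
      exact (h2 d h3.lt).2 ⟨h3, fun i hi j hj hn v _ hv => h4 i j hi hj (by omega) v hv⟩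
  · intro h
    refine ⟨fun d hd => ((h d).1 hd).1, fun d _ => (h d).trans ?_⟩
    refine and_congr_right fun _ => ⟨fun h2 i hi j hj hn v _ hv => h2 i j hi hj (by omega) v hv,
      fun h2 i j hi hj hn v hv => h2 i hi j hj (by omega) v hv.lt hv⟩

theorem ex_rs (n n' g q : ℕ) : ∃ q', q' < q + 1 ∧ Rs n n' g q q' := by
  obtain ⟨q', -, h⟩ := mk_code' q (fun d => Bt q d ∧
    ∀ i j, i < n' → j < n' → (n ≤ i ∨ n ≤ j) → ∀ v, VL g i j v → VL d i j v) (fun z hz => hz.1.lt)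
  have h1 : Rs n n' g q q' := rs_iff.2 h
  exact ⟨q', Nat.lt_succ_of_le h1.1.le, h1⟩

instance pp_rs {g0 g1 g2 g3 g4 : (ℕ → ℕ) → ℕ} [h0 : PT g0] [h1 : PT g1] [h2 : PT g2]
    [h3 : PT g3] [h4 : PT g4] : PP (fun v => Rs (g0 v) (g1 v) (g2 v) (g3 v) (g4 v)) := by
  apply PP.s5
  unfold Rs
  infer_instance

/-- EXT: fixing the values on a larger square. -/
theorem Cond.ext (hH : Hull H) (p : Cond H) {n' F' : ℕ} (hn : p.n ≤ n')
    (hF' : ∀ i, Bt F' i → i < n') (hFF : ∀ i, Bt p.F i → Bt F' i)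
    (hold : ∀ i, Bt F' i → i < p.n → Bt p.F i) {g ν : ℕ → ℕ} (hg : g ∈ H) (hν : Ns ν)
    (hbig : ∀ᶠ k in Uf, Big p.n (ν k) (p.q k))
    (hval : ∀ᶠ k in Uf, ∀ i j, i < n' → j < n' → (p.n ≤ i ∨ p.n ≤ j) →
      ∃ v, v < ν k ∧ VL (g k) i j v)
    (hstd : ∃ b, ∀ᶠ k in Uf, ∀ i j, Bt F' i → j < n' → (p.n ≤ i ∨ p.n ≤ j) →
      ∃ v, v < b ∧ VL (g k) i j v) :
    ∃ p' : Cond H, Ext p' p ∧ p'.n = n' ∧ p'.F = F' ∧
      (∀ᶠ k in Uf, ∀ d, Bt (p'.q k) d ↔ Bt (p.q k) d ∧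
        ∀ i j, i < n' → j < n' → (p.n ≤ i ∨ p.n ≤ j) → ∀ v, VL (g k) i j v → VL d i j v) ∧
      ∀ᶠ k in Uf, Big n' (ν k) (p'.q k) := by
  obtain ⟨q', hq', h1⟩ := hH.sk2 (R := fun x a b => Rs p.n n' b a x) inferInstance p.hq hg
    (t := fun k => p.q k + 1) (hH.comp (F := fun x => x + 1) Primrec.succ p.hq)
    (Eventually.of_forall fun k => ex_rs p.n n' (g k) (p.q k))
  have h2 : ∀ᶠ k in Uf, ∀ d, Bt (q' k) d ↔ Bt (p.q k) d ∧
      ∀ i j, i < n' → j < n' → (p.n ≤ i ∨ p.n ≤ j) → ∀ v, VL (g k) i j v → VL d i j v := by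
    filter_upwards [h1] with k hk
    exact rs_iff.1 hk.2.1
  have h3 : ∀ᶠ k in Uf, Big n' (ν k) (q' k) := by
    filter_upwards [h2, hbig, hval, hν n'] with k h2 h3 h4 h5
    classical
    choose! τ hτ using fun (i j : ℕ) (h : i < n' ∧ j < n' ∧ (p.n ≤ i ∨ p.n ≤ j)) =>
      h4 i j h.1 h.2.1 h.2.2
    refine h3.ext hn h5 (τ := τ) (fun i j hi hj h => (hτ i j ⟨hi, hj, h⟩).1) (fun d hd h6 => ?_)
    refine (h2 d).2 ⟨hd, fun i j hi hj h v hv => ?_⟩
    rw [hv.uniq (hτ i j ⟨hi, hj, h⟩).2]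
    exact h6 i j hi hj h
  have h4 : ∀ᶠ k in Uf, Sub (q' k) (p.q k) := by
    filter_upwards [h1] with k hk using hk.2.1.1
  refine ⟨⟨n', F', q', hq', hF', ?_, ?_, ?_, ?_, ?_⟩, ⟨hn, hFF, h4⟩, rfl, rfl, h2, h3⟩
  · filter_upwards [h4, p.arr] with k h5 h6 d hd
    exact h6 d (sub_iff.1 h5 d hd)
  · filter_upwards [h4, p.cod] with k h5 h6 d hd
    exact h6 d (sub_iff.1 h5 d hd)
  · filter_upwards [h2, p.agr, hval] with k h2 h5 h6
    rw [agr_iff] at h5 ⊢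
    intro d e hd he i j hi hj v hv
    by_cases h : p.n ≤ i ∨ p.n ≤ j
    · obtain ⟨w, _, hw⟩ := h6 i j hi hj h
      rw [hv.uniq (((h2 d).1 hd).2 i j hi hj h w hw)]
      exact ((h2 e).1 he).2 i j hi hj h w hw
    · exact h5 d e ((h2 d).1 hd).1 ((h2 e).1 he).1 i j (by omega) (by omega) v hv
  · intro u
    filter_upwards [h3, hν u] with k h5 h6
    exact h5.mono h6
  · obtain ⟨b, hb⟩ := hstd
    obtain ⟨b', hb'⟩ := p.std
    refine ⟨max b b', ?_⟩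
    filter_upwards [h2, hb, hb'] with k h2 h5 h6 d hd i hi j hj
    by_cases h : p.n ≤ i ∨ p.n ≤ j
    · obtain ⟨v, hv, hv'⟩ := h5 i j hi hj h
      exact ⟨v, (lt_max_of_lt_left hv).le, ((h2 d).1 hd).2 i j (hF' i hi) hj h v hv'⟩
    · obtain ⟨v, hv, hv'⟩ := h6 d ((h2 d).1 hd).1 i (hold i hi (by omega)) j (by omega)
      exact ⟨v, le_trans hv (le_max_right _ _), hv'⟩

/-- Shrinking `q` to a large subset. -/
theorem Cond.shrink (p : Cond H) {q1 : ℕ → ℕ} (hq1 : q1 ∈ H)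
    (hs : ∀ᶠ k in Uf, Sub (q1 k) (p.q k)) (hb : ∀ u, ∀ᶠ k in Uf, Big p.n u (q1 k)) :
    ∃ p' : Cond H, Ext p' p ∧ p'.n = p.n ∧ p'.F = p.F ∧ p'.q = q1 := by
  refine ⟨⟨p.n, p.F, q1, hq1, p.hF, ?_, ?_, ?_, hb, ?_⟩, ⟨le_rfl, fun _ h => h, hs⟩,
    rfl, rfl, rfl⟩
  · filter_upwards [hs, p.arr] with k h5 h6 d hd
    exact h6 d (sub_iff.1 h5 d hd)
  · filter_upwards [hs, p.cod] with k h5 h6 d hd
    exact h6 d (sub_iff.1 h5 d hd)
  · filter_upwards [hs, p.agr] with k h5 h6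
    exact h6.sub h5
  · obtain ⟨b', hb'⟩ := p.std
    refine ⟨b', ?_⟩
    filter_upwards [hs, hb'] with k h5 h6 d hd i hi j hj
    exact h6 d (sub_iff.1 h5 d hd) i hi j hj

/-- `g` codes an array on `[0,n')^2` with values below `m`, which no element of `q1` extends. -/
def Av (n n' m g q1 : ℕ) : Prop :=
  (∀ i, i < n' → ∀ j, j < n' → ∃ v, v < m ∧ VL g i j v) ∧
  ∀ d, d < q1 → (Bt q1 d → ∃ i, i < n' ∧ ∃ j, j < n' ∧ ((n < i + 1 ∨ n < j + 1) ∧
    ∃ v, v < m ∧ (VL g i j v ∧ ¬ VL d i j v)))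

instance pp_av {g0 g1 g2 g3 g4 : (ℕ → ℕ) → ℕ} [h0 : PT g0] [h1 : PT g1] [h2 : PT g2]
    [h3 : PT g3] [h4 : PT g4] : PP (fun v => Av (g0 v) (g1 v) (g2 v) (g3 v) (g4 v)) := by
  apply PP.s5
  unfold Av
  infer_instance

theorem ex_av {n m q1 : ℕ} (h : ¬ Big n m q1) :
    ∃ g, g < 2 ^ pr (pr (n + m + 1) (n + m + 1)) (n + m + 1) ∧ Av n (n + m) (m + 1) g q1 := by
  classical
  obtain ⟨τ, h1, h2⟩ := not_big h
  obtain ⟨g, hg, h3, _⟩ := ex_arr (n + m + 1) (fun i j => if i < m ∧ j < m then τ i j else 0) (by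
    intro i j _ _
    split_ifs with h4
    · have := h1 i j h4.1 h4.2
      omega
    · omega)
  refine ⟨g, hg, fun i hi j hj => ?_, fun d _ hd => ?_⟩
  · refine ⟨if i < m ∧ j < m then τ i j else 0, ?_, h3 i j (by omega) (by omega)⟩
    split_ifs with h4
    · have := h1 i j h4.1 h4.2
      omega
    · omega
  · obtain ⟨i, j, hi, hj, h4, h5⟩ := h2 d hd
    refine ⟨i, by omega, j, by omega, by omega, τ i j, ?_, ?_, h5⟩
    · have := h1 i j hi hj
      omega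
    · have := h3 i j (by omega) (by omega)
      simpa [hi, hj] using this

/-- DICH. -/
theorem Cond.dich (hH : Hull H) (p : Cond H) {q1 : ℕ → ℕ} (hq1 : q1 ∈ H) {m : ℕ}
    (hb : ¬ ∀ᶠ k in Uf, Big p.n m (q1 k)) :
    ∃ p' : Cond H, Ext p' p ∧ p'.F = p.F ∧ ∀ᶠ k in Uf, ∀ d, Bt (p'.q k) d → ¬ Bt (q1 k) d := by
  rw [← ev_not] at hb
  obtain ⟨g, hg, h1⟩ := hH.sk1 (R := fun x a => Av p.n (p.n + m) (m + 1) x a) inferInstance hq1
    (hH.const (2 ^ pr (pr (p.n + m + 1) (p.n + m + 1)) (p.n + m + 1))) (by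
      filter_upwards [hb] with k hk using ex_av hk)
  obtain ⟨ν, hν, hbig⟩ := p.exists_norm
  obtain ⟨p', hp', _, hF', h2, _⟩ := p.ext hH (n' := p.n + m) (F' := p.F) (by omega)
    (fun i hi => by have := p.hF i hi; omega) (fun _ h => h) (fun _ h _ => h) hg hν hbig (by
      filter_upwards [h1, hν (m + 1)] with k hk hk2 i j hi hj _
      obtain ⟨v, hv, hv'⟩ := hk.2.1.1 i hi j hj
      exact ⟨v, by omega, hv'⟩) ⟨m + 1, by
      filter_upwards [h1] with k hk i j hi hj _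
      have := p.hF i hi
      exact hk.2.1.1 i (by omega) j hj⟩
  refine ⟨p', hp', hF', ?_⟩
  filter_upwards [h1, h2] with k h3 h4 d hd hd1
  obtain ⟨i, hi, j, hj, h5, v, _, h6, h7⟩ := h3.2.1.2 d hd1.lt hd1
  exact h7 (((h4 d).1 hd).2 i j hi hj (by omega) v h6)

/-- The empty condition. -/
theorem Cond.exists_top (hH : Hull H) : Nonempty (Cond H) := by
  have hq : (fun k => cds (fun d => Arr k d) (2 ^ pr (pr k k) k)) ∈ H :=
    hH.pt1 (f := fun k => cds (fun d => Arr k d) (2 ^ pr (pr k k) k))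
      (pt_cds (g := fun v => 2 ^ pr (pr (v 0) (v 0)) (v 0)) (R := fun x v => Arr (v 0) x)) hH.idm
  refine ⟨⟨0, 0, _, hq, fun i hi => ?_, ?_, ?_, ?_, ?_, 0, ?_⟩⟩
  · exact absurd hi.lt (Nat.not_lt_zero i)
  · exact Eventually.of_forall fun k d hd => (bt_cds.1 hd).2
  · exact Eventually.of_forall fun k d hd => (bt_cds.1 hd).1
  · exact Eventually.of_forall fun k => agr_iff.2 fun d e _ _ i j hi => absurd hi (Nat.not_lt_zero i)
  · intro u
    filter_upwards [ev_ge u, ev_ge 1] with k hk hk1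
    classical
    rw [big_iff]
    intro τ hτ
    obtain ⟨t, ht, h1, h2⟩ := ex_arr k (fun i j => if i < u ∧ j < u then τ i j else 0) (by
      intro i j _ _
      split_ifs with h3
      · exact lt_of_lt_of_le (hτ i j h3.1 h3.2) hk
      · omega)
    refine ⟨t, bt_cds.2 ⟨ht, h2⟩, fun i j hi hj _ => ?_⟩
    have := h1 i j (by omega) (by omega)
    simpa [hi, hj] using this
  · exact Eventually.of_forall fun k d _ i hi => absurd hi.lt (Nat.not_lt_zero i)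

/-- DEC: conditions which decide `q1` are dense. -/
theorem Cond.dec_dense (hH : Hull H) (p : Cond H) {q1 : ℕ → ℕ} (hq1 : q1 ∈ H) :
    ∃ p' : Cond H, Ext p' p ∧ ((∀ᶠ k in Uf, Sub (p'.q k) (q1 k)) ∨
      ∀ᶠ k in Uf, ∀ e, Bt (p'.q k) e → ¬ Bt (q1 k) e) := by
  have hq2 : (fun k => cds (fun d => Bt (p.q k) d ∧ Bt (q1 k) d) (p.q k)) ∈ H :=
    hH.pt2 (f := fun a b => cds (fun d => Bt a d ∧ Bt b d) a) inferInstance p.hq hq1
  set q2 : ℕ → ℕ := fun k => cds (fun d => Bt (p.q k) d ∧ Bt (q1 k) d) (p.q k) with hdef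
  have h2 : ∀ k d, Bt (q2 k) d ↔ Bt (p.q k) d ∧ Bt (q1 k) d := by
    intro k d
    rw [hdef]
    exact bt_cds.trans ⟨fun h => h.2, fun h => ⟨h.1.lt, h⟩⟩
  by_cases h : ∀ u, ∀ᶠ k in Uf, Big p.n u (q2 k)
  · obtain ⟨p', h3, _, _, h4⟩ := p.shrink hq2
      (Eventually.of_forall fun k => sub_iff.2 fun z hz => ((h2 k z).1 hz).1) h
    refine ⟨p', h3, Or.inl (Eventually.of_forall fun k => sub_iff.2 fun z hz => ?_)⟩
    rw [h4] at hz
    exact ((h2 k z).1 hz).2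
  · push Not at h
    obtain ⟨u, hu⟩ := h
    obtain ⟨p', h3, _, h4⟩ := p.dich hH hq2 (m := u) (fun h5 => by
      obtain ⟨k, h6, h7⟩ := ev_exists (h5.and hu)
      exact h7 h6)
    refine ⟨p', h3, Or.inr ?_⟩
    filter_upwards [h4, h3.2.2] with k h5 h6 e he h7
    exact h5 e he ((h2 k e).2 ⟨sub_iff.1 h6 e he, h7⟩)

/-- COI: conditions which bound a nonstandard value from below are dense. -/
theorem Cond.coi_dense (hH : Hull H) (p : Cond H) {F : ℕ → ℕ} (hF : Primrec F) {h : ℕ → ℕ}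
    (hh : h ∈ H) : ∃ p' : Cond H, Ext p' p ∧
      ((∃ ν ∈ H, Ns ν ∧ ∀ᶠ k in Uf, ∀ d, Bt (p'.q k) d → ν k ≤ F (Nat.pair (h k) d)) ∨
      ∃ j, ∀ᶠ k in Uf, ∀ d, Bt (p'.q k) d → F (Nat.pair (h k) d) < j) := by
  have hFi : ∀ (f : (ℕ → ℕ) → ℕ) [PT f], PT (fun v => F (f v)) := fun f _ => PT.comp1 hF
  set Q : ℕ → ℕ → ℕ → ℕ := fun j a b => cds (fun d => Bt a d ∧ j ≤ F (Nat.pair b d)) a with hQ
  have hQi : ∀ (f g e : (ℕ → ℕ) → ℕ) [PT f] [PT g] [PT e], PT (fun v => Q (f v) (g v) (e v)) := by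
    intro f g e _ _ _
    rw [hQ]
    have h1 : PT (fun v => cds (fun d => Bt (v 1) d ∧ v 0 ≤ F (Nat.pair (v 2) d)) (v 1)) := by
      have h2 : PP (fun v : ℕ → ℕ => (fun (x : ℕ) (v : ℕ → ℕ) => Bt (v 1) x ∧
          v 0 ≤ F (Nat.pair (v 2) x)) (v 0) (fun i => v (i + 1))) := by
        have := hFi (fun v => Nat.pair (v 3) (v 0))
        exact pp_and (P := fun v => Bt (v 2) (v 0)) (Q := fun v => v 1 ≤ F (Nat.pair (v 3) (v 0)))
      exact pt_cds (g := fun v => v 1)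
        (R := fun x v => Bt (v 1) x ∧ v 0 ≤ F (Nat.pair (v 2) x))
    exact PT.sub h1 (g := asg [f, g, e]) (asg_pt _ (by simp [*]))
  have hb : ∀ j a b d, Bt (Q j a b) d ↔ Bt a d ∧ j ≤ F (Nat.pair b d) := fun j a b d =>
    bt_cds.trans ⟨fun h => h.2, fun h => ⟨h.1.lt, h⟩⟩
  by_cases hc : ∀ m, ∀ᶠ k in Uf, Big p.n m (Q m (p.q k) (h k))
  · have h1 : PP (fun v => Big p.n (v 0) (Q (v 0) (v 1) (v 2))) := by
      have := hQi (fun v => v 0) (fun v => v 1) (fun v => v 2)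
      exact pp_big (g0 := fun _ => p.n) (g1 := fun v => v 0) (g2 := fun v => Q (v 0) (v 1) (v 2))
    obtain ⟨ν, hν, h2, _, h3⟩ := hH.over2 (R := fun n a b => Big p.n n (Q n a b)) h1 p.hq hh hc
    have hq1 : (fun k => Q (ν k) (p.q k) (h k)) ∈ H :=
      hH.pt3 (f := Q) (hQi _ _ _) hν p.hq hh
    obtain ⟨p', h4, _, _, h5⟩ := p.shrink hq1
      (Eventually.of_forall fun k => sub_iff.2 fun z hz => ((hb _ _ _ z).1 hz).1) (fun u => by
        filter_upwards [h3, h2 u] with k h6 h7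
        exact (h6 _ le_rfl).mono h7)
    refine ⟨p', h4, Or.inl ⟨ν, hν, h2, Eventually.of_forall fun k d hd => ?_⟩⟩
    rw [h5] at hd
    exact ((hb _ _ _ d).1 hd).2
  · push Not at hc
    obtain ⟨m, hm⟩ := hc
    have hq1 : (fun k => Q m (p.q k) (h k)) ∈ H := hH.pt3 (f := Q) (hQi _ _ _) (hH.const m) p.hq hh
    obtain ⟨p', h3, _, h4⟩ := p.dich hH hq1 (m := m) (fun h5 => by
      obtain ⟨k, h6, h7⟩ := ev_exists (h5.and hm)
      exact h7 h6)
    refine ⟨p', h3, Or.inr ⟨m, ?_⟩⟩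
    filter_upwards [h4, h3.2.2] with k h5 h6 d hd
    by_contra h7
    exact h5 d hd ((hb _ _ _ d).2 ⟨sub_iff.1 h6 d hd, by omega⟩)

/-- Rows can be promised. -/
theorem Cond.rows_dense (hH : Hull H) (p : Cond H) (N : ℕ) :
    ∃ p' : Cond H, Ext p' p ∧ N ≤ p'.n ∧ ∃ m, N ≤ m ∧ Bt p'.F m := by
  obtain ⟨t, _, h1, _⟩ := ex_arr (max p.n N + 1) (fun _ _ => 0) (fun i _ hi _ => by omega)
  obtain ⟨F', _, hF'⟩ := mk_code' (max p.n N + 1) (fun i => Bt p.F i ∨ i = max p.n N) (by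
    rintro z (h | rfl)
    · have := p.hF z h
      omega
    · omega)
  obtain ⟨ν, hν, hbig⟩ := p.exists_norm
  obtain ⟨p', h2, h3, h4, _⟩ := p.ext hH (n' := max p.n N + 1) (F' := F')
    (by omega) (fun i hi => by
      rcases (hF' i).1 hi with h | rfl
      · have := p.hF i h
        omega
      · omega) (fun i hi => (hF' i).2 (Or.inl hi)) (fun i hi hn => by
      rcases (hF' i).1 hi with h | rfl
      · exact h
      · omega) (hH.const t) hν hbig (by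
      filter_upwards [hν 1] with k hk i j hi hj _
      exact ⟨0, by omega, h1 i j hi hj⟩) ⟨1, Eventually.of_forall fun k i j hi hj _ =>
      ⟨0, by omega, h1 i j (by
        rcases (hF' i).1 hi with h | rfl
        · have := p.hF i h
          omega
        · omega) hj⟩⟩
  exact ⟨p', h2, by rw [h3]; omega, max p.n N, le_max_right _ _, by rw [h4]; exact (hF' _).2 (Or.inr rfl)⟩

theorem countable_primrec : Set.Countable {F : ℕ → ℕ | Primrec F} := by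
  classical
  have h1 : ∀ F : {F : ℕ → ℕ | Primrec F}, ∃ c : Nat.Partrec.Code,
      c.eval = fun n => Part.some (F.1 n) := by
    rintro ⟨F, hF⟩
    exact Nat.Partrec.Code.exists_code.1 (Nat.Partrec.of_primrec (Primrec.nat_iff.1 hF))
  choose c hc using h1
  have h2 : Function.Injective c := by
    intro F G h
    apply Subtype.ext
    funext n
    have h3 := congrFun ((hc F).symm.trans ((congrArg _ h).trans (hc G))) n
    exact Part.some_injective h3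
  exact h2.countable

/-- A decreasing sequence of conditions which decides countably many sets of conditions. -/
theorem exists_seq (p0 : Cond H) (E : ℕ → Set (Cond H)) : ∃ G : ℕ → Cond H,
    (∀ i, Ext (G (i + 1)) (G i)) ∧ ∀ i, G (i + 1) ∈ E i ∨ ∀ p', Ext p' (G (i + 1)) → p' ∉ E i := by
  classical
  have h1 : ∀ (i : ℕ) (p : Cond H), ∃ p', Ext p' p ∧ (p' ∈ E i ∨ ∀ p'', Ext p'' p' → p'' ∉ E i) := by
    intro i p
    by_cases h : ∃ p', Ext p' p ∧ p' ∈ E i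
    · obtain ⟨p', h2, h3⟩ := h
      exact ⟨p', h2, Or.inl h3⟩
    · push Not at h
      exact ⟨p, Ext.refl p, Or.inr fun p'' h2 => h p'' h2⟩
  choose f hf1 hf2 using h1
  let G : ℕ → Cond H := fun i => Nat.rec p0 (fun i p => f i p) i
  exact ⟨G, fun i => hf1 i (G i), fun i => hf2 i (G i)⟩

/-- The generic array of a decreasing sequence of conditions. -/
theorem exists_array (G : ℕ → Cond H) (hG : ∀ i, Ext (G (i + 1)) (G i)) :
    ∃ d : ℕ → ℕ, ∀ i, ∀ᶠ k in Uf, Bt ((G i).q k) (d k) := by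
  classical
  obtain ⟨ν, h1, _, h3⟩ := overspill (fun m k => (∃ d, Bt ((G m).q k) d) ∧
    Sub ((G (m + 1)).q k) ((G m).q k)) (fun m => by
      filter_upwards [(G m).big 0, (hG m).2.2] with k h4 h5
      exact ⟨h4.nonempty, h5⟩)
  have h4 : ∀ k, ∃ d, (∀ m, m ≤ ν k → (∃ d, Bt ((G m).q k) d) ∧
      Sub ((G (m + 1)).q k) ((G m).q k)) → Bt ((G (ν k)).q k) d := by
    intro k
    by_cases h : ∀ m, m ≤ ν k → (∃ d, Bt ((G m).q k) d) ∧ Sub ((G (m + 1)).q k) ((G m).q k)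
    · obtain ⟨d, hd⟩ := (h _ le_rfl).1
      exact ⟨d, fun _ => hd⟩
    · exact ⟨0, fun h' => absurd h' h⟩
  choose d hd using h4
  refine ⟨d, fun i => ?_⟩
  filter_upwards [h3, h1 i] with k h5 h6
  have h7 : ∀ l, i + l ≤ ν k → Sub ((G (i + l)).q k) ((G i).q k) := by
    intro l
    induction l with
    | zero => exact fun _ => Sub.refl _
    | succ l ih => exact fun h8 => (h5 (i + l) (by omega)).2.trans (ih (by omega))
  have h8 := h7 (ν k - i) (by omega)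
  rw [Nat.add_sub_cancel' h6] at h8
  exact sub_iff.1 h8 _ (hd k h5)

/-- Existence of generics, deciding a countable family of sets of conditions. -/
theorem exists_gen (hH : Hull H) (hc : Cnt H) (Fam : Set (Set (Cond H))) (hFam : Fam.Countable) :
    ∃ d G, Gen H (nxt H d) d G ∧ ∀ E ∈ Fam, ∃ i, G i ∈ E ∨ ∀ p', Ext p' (G i) → p' ∉ E := by
  classical
  obtain ⟨p0⟩ := Cond.exists_top hH
  obtain ⟨e, he, hc⟩ := hc
  -- the dense sets
  let DE : ℕ → Set (Cond H) := fun i => {p | (∀ᶠ k in Uf, Sub (p.q k) (e i k)) ∨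
    ∀ᶠ k in Uf, ∀ d, Bt (p.q k) d → ¬ Bt (e i k) d}
  let RO : ℕ → Set (Cond H) := fun N => {p | N ≤ p.n ∧ ∃ m, N ≤ m ∧ Bt p.F m}
  let CO : {F : ℕ → ℕ | Primrec F} × ℕ → Set (Cond H) := fun a => {p |
    (∃ ν ∈ H, Ns ν ∧ ∀ᶠ k in Uf, ∀ d, Bt (p.q k) d → ν k ≤ a.1.1 (Nat.pair (e a.2 k) d)) ∨
      ∃ j, ∀ᶠ k in Uf, ∀ d, Bt (p.q k) d → a.1.1 (Nat.pair (e a.2 k) d) < j}
  have hcount : (Fam ∪ (Set.range DE ∪ (Set.range RO ∪ Set.range CO))).Countable := by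
    have : Countable {F : ℕ → ℕ | Primrec F} := countable_primrec
    exact hFam.union ((Set.countable_range _).union
      ((Set.countable_range _).union (Set.countable_range _)))
  obtain ⟨E, hE⟩ := hcount.exists_eq_range ⟨DE 0, Or.inr (Or.inl ⟨0, rfl⟩)⟩
  obtain ⟨G, hG1, hG2⟩ := exists_seq p0 E
  obtain ⟨d, hd⟩ := exists_array G hG1
  have hdec : ∀ S ∈ Fam ∪ (Set.range DE ∪ (Set.range RO ∪ Set.range CO)),
      ∃ i, G i ∈ S ∨ ∀ p', Ext p' (G i) → p' ∉ S := by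
    intro S hS
    rw [hE] at hS
    obtain ⟨i, rfl⟩ := hS
    exact ⟨i + 1, hG2 i⟩
  have hdense : ∀ S ∈ Fam ∪ (Set.range DE ∪ (Set.range RO ∪ Set.range CO)),
      (∀ p : Cond H, ∃ p', Ext p' p ∧ p' ∈ S) → ∃ i, G i ∈ S := by
    intro S hS h
    obtain ⟨i, hi | hi⟩ := hdec S hS
    · exact ⟨i, hi⟩
    · obtain ⟨p', h1, h2⟩ := h (G i)
      exact absurd h2 (hi p' h1)
  have hanti : ∀ i j, i ≤ j → Ext (G j) (G i) := by
    intro i j hij
    induction hij with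
    | refl => exact Ext.refl _
    | step _ ih => exact (hG1 _).trans ih
  have hrows : ∀ N, ∃ i, N ≤ (G i).n ∧ ∃ m, N ≤ m ∧ Bt (G i).F m := fun N =>
    hdense (RO N) (Or.inr (Or.inr (Or.inl ⟨N, rfl⟩))) (fun p => p.rows_dense hH N)
  refine ⟨d, G, ⟨hanti, hd, fun N => ?_, fun N => ?_, fun q1 hq1 => ?_, fun x hx hns => ?_⟩,
    fun S hS => hdec S (Or.inl hS)⟩
  · obtain ⟨i, hi, _⟩ := hrows N
    exact ⟨i, hi⟩
  · obtain ⟨i, _, hi⟩ := hrows N
    exact ⟨i, hi⟩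
  · obtain ⟨j, hj⟩ := hc q1 hq1
    obtain ⟨i, hi⟩ := hdense (DE j) (Or.inr (Or.inl ⟨j, rfl⟩)) (fun p => p.dec_dense hH (he j))
    refine ⟨i, ?_⟩
    rcases hi with hi | hi
    · left
      filter_upwards [hi, hj] with k h1 h2
      rw [h2]
      exact h1
    · right
      filter_upwards [hi, hj] with k h1 h2
      rw [h2]
      exact h1
  · obtain ⟨F, hF, h, hh, hxF⟩ := hx
    obtain ⟨j, hj⟩ := hc h hh
    obtain ⟨i, hi⟩ := hdense (CO (⟨F, hF⟩, j)) (Or.inr (Or.inr (Or.inr ⟨_, rfl⟩)))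
      (fun p => p.coi_dense hH hF (he j))
    have h1 : ∀ᶠ k in Uf, x k = F (Nat.pair (e j k) (d k)) := by
      filter_upwards [hxF, hj] with k h2 h3
      rw [h2, h3]
    rcases hi with ⟨ν, hν, h2, h3⟩ | ⟨b, hb⟩
    · refine ⟨ν, hν, h2, ?_⟩
      filter_upwards [h1, h3, hd i] with k h4 h5 h6
      rw [h4]
      exact h5 _ h6
    · obtain ⟨k, h4, h5, h6, h7⟩ := ev_exists (h1.and (hb.and ((hd i).and (hns b))))
      have h8 : x k < b := by
        rw [h4]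
        exact h5 _ h6
      omega

end Pool.Agent.BSig.Neg
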