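import Pool.Agent.Work.MP_510745_lc.Neg.Hull
import Pool.Agent.Work.MP_510745_lc.Neg.GerSig
import Pool.Agent.Work.MP_510745_lc.Neg.Tow

/-!
The hull generated by one more function, the least hull, unions of chains, countability; the
standard cut of `MH H`.
-/

namespace Pool.Agent.BSig.Neg

open Filter Pool.Agent.BSig Pool.MinCover

/-! ### The next hull -/

/-- The functions generated by `H` and `d`. -/
def nxt (H : Set (ℕ → ℕ)) (d : ℕ → ℕ) : Set (ℕ → ℕ) :=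
  {h' | ∃ F : ℕ → ℕ, Primrec F ∧ ∃ h ∈ H, ∀ᶠ k in Uf, h' k = F (Nat.pair (h k) (d k))}

theorem nxt_mem2 {H : Set (ℕ → ℕ)} {d : ℕ → ℕ} {F : ℕ → ℕ → ℕ} (hF : Primrec₂ F) {h : ℕ → ℕ}
    (hh : h ∈ H) : (fun k => F (h k) (d k)) ∈ nxt H d := by
  refine ⟨fun n => F n.unpair.1 n.unpair.2, ?_, h, hh, Eventually.of_forall fun k => by simp⟩
  exact hF.comp (Primrec.fst.comp Primrec.unpair) (Primrec.snd.comp Primrec.unpair)

theorem sub_nxt {H : Set (ℕ → ℕ)} {d : ℕ → ℕ} {h : ℕ → ℕ} (hh : h ∈ H) : h ∈ nxt H d :=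
  nxt_mem2 (F := fun a _ => a) Primrec.fst hh

theorem self_nxt {H : Set (ℕ → ℕ)} (hH : Hull H) (d : ℕ → ℕ) : d ∈ nxt H d :=
  nxt_mem2 (F := fun _ b => b) Primrec.snd hH.idm

theorem hull_nxt {H : Set (ℕ → ℕ)} (hH : Hull H) (d : ℕ → ℕ) : Hull (nxt H d) where
  ae := by
    rintro h h' ⟨F, hF, g, hg, h1⟩ h2
    exact ⟨F, hF, g, hg, by filter_upwards [h1, h2] with k h3 h4; rw [← h4, h3]⟩
  idm := sub_nxt hH.idm
  comp := by
    rintro G hG h ⟨F, hF, g, hg, h1⟩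
    exact ⟨fun n => G (F n), hG.comp hF, g, hg, h1.mono fun k hk => by simp only [hk]⟩
  pair := by
    rintro h h' ⟨F, hF, g, hg, h1⟩ ⟨F', hF', g', hg', h2⟩
    refine ⟨fun n => Nat.pair (F (Nat.pair n.unpair.1.unpair.1 n.unpair.2))
      (F' (Nat.pair n.unpair.1.unpair.2 n.unpair.2)), ?_, fun k => Nat.pair (g k) (g' k),
      hH.pair hg hg', ?_⟩
    · have p1 : Primrec fun n : ℕ => n.unpair.1.unpair.1 :=
        Pr.unpair₁ (Pr.unpair₁ Primrec.id)
      have p2 : Primrec fun n : ℕ => n.unpair.1.unpair.2 :=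
        Pr.unpair₂ (Pr.unpair₁ Primrec.id)
      have p3 : Primrec fun n : ℕ => n.unpair.2 := Pr.unpair₂ Primrec.id
      exact Pr.pair (hF.comp (Pr.pair p1 p3)) (hF'.comp (Pr.pair p2 p3))
    · filter_upwards [h1, h2] with k h3 h4
      simp [h3, h4]

/-- The primitive recursive functions are countable. -/
theorem ex_enum : ∃ E : ℕ → ℕ → ℕ, (∀ i, Primrec (E i)) ∧ ∀ F : ℕ → ℕ, Primrec F → ∃ i, E i = F := by
  classical
  have hc : Set.Countable {F : ℕ → ℕ | Primrec F} := by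
    have h1 : {F : ℕ → ℕ | Primrec F} ⊆
        (fun f : ℕ →. ℕ => fun n => if h : (f n).Dom then (f n).get h else 0) ''
          Set.range Nat.Partrec.Code.eval := by
      intro F hF
      obtain ⟨c, hc⟩ := Nat.Partrec.Code.exists_code.1
        (Nat.Partrec.of_primrec (Primrec.nat_iff.1 hF))
      refine ⟨_, ⟨c, rfl⟩, ?_⟩
      funext n
      rw [hc]
      simp
    exact ((Set.countable_range _).image _).mono h1
  obtain ⟨E, hE⟩ := hc.exists_eq_range ⟨_, (Primrec.id : Primrec (fun n : ℕ => n))⟩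
  refine ⟨E, fun i => ?_, fun F hF => ?_⟩
  · have : E i ∈ {F : ℕ → ℕ | Primrec F} := hE ▸ ⟨i, rfl⟩
    exact this
  · have : F ∈ Set.range E := hE ▸ hF
    exact this

theorem cnt_nxt {H : Set (ℕ → ℕ)} (hc : Cnt H) (d : ℕ → ℕ) : Cnt (nxt H d) := by
  obtain ⟨e, he, hc⟩ := hc
  obtain ⟨E, hE, hE'⟩ := ex_enum
  refine ⟨fun i k => E i.unpair.1 (Nat.pair (e i.unpair.2 k) (d k)), fun i =>
    ⟨_, hE _, _, he _, Eventually.of_forall fun k => rfl⟩, ?_⟩
  rintro h ⟨F, hF, g, hg, h1⟩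
  obtain ⟨i, hi⟩ := hE' F hF
  obtain ⟨j, hj⟩ := hc g hg
  refine ⟨Nat.pair i j, ?_⟩
  filter_upwards [h1, hj] with k h2 h3
  simp [h2, h3, hi]

/-- The least hull. -/
def H0 : Set (ℕ → ℕ) := {h | ∃ F : ℕ → ℕ, Primrec F ∧ ∀ᶠ k in Uf, h k = F k}

theorem hull_H0 : Hull H0 where
  ae := by
    rintro h h' ⟨F, hF, h1⟩ h2
    exact ⟨F, hF, by filter_upwards [h1, h2] with k h3 h4; rw [← h4, h3]⟩
  idm := ⟨_, Primrec.id, Eventually.of_forall fun _ => rfl⟩
  comp := by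
    rintro G hG h ⟨F, hF, h1⟩
    exact ⟨fun n => G (F n), hG.comp hF, h1.mono fun k hk => by simp only [hk]⟩
  pair := by
    rintro h h' ⟨F, hF, h1⟩ ⟨F', hF', h2⟩
    refine ⟨fun n => Nat.pair (F n) (F' n), Pr.pair hF hF', ?_⟩
    filter_upwards [h1, h2] with k h3 h4
    rw [h3, h4]

theorem cnt_H0 : Cnt H0 := by
  obtain ⟨E, hE, hE'⟩ := ex_enum
  refine ⟨E, fun i => ⟨E i, hE i, Eventually.of_forall fun _ => rfl⟩, ?_⟩
  rintro h ⟨F, hF, h1⟩
  obtain ⟨i, hi⟩ := hE' F hF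
  exact ⟨i, by rw [hi]; exact h1⟩

/-! ### Unions of chains -/

/-- The union of a sequence of sets. -/
def unH (H : ℕ → Set (ℕ → ℕ)) : Set (ℕ → ℕ) := {h | ∃ j, h ∈ H j}

theorem hull_un {H : ℕ → Set (ℕ → ℕ)} (hH : ∀ j, Hull (H j)) (hm : ∀ i j, i ≤ j → H i ⊆ H j) :
    Hull (unH H) where
  ae := fun ⟨j, hj⟩ h2 => ⟨j, (hH j).ae hj h2⟩
  idm := ⟨0, (hH 0).idm⟩
  comp := fun hF _ ⟨j, hj⟩ => ⟨j, (hH j).comp hF hj⟩
  pair := fun ⟨i, hi⟩ ⟨j, hj⟩ => ⟨max i j, (hH _).pair (hm i _ (le_max_left _ _) hi)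
    (hm j _ (le_max_right _ _) hj)⟩

theorem cnt_un {H : ℕ → Set (ℕ → ℕ)} (hc : ∀ j, Cnt (H j)) : Cnt (unH H) := by
  choose e he hc using hc
  refine ⟨fun i => e i.unpair.1 i.unpair.2, fun i => ⟨_, he _ _⟩, ?_⟩
  rintro h ⟨j, hj⟩
  obtain ⟨i, hi⟩ := hc j h hj
  exact ⟨Nat.pair j i, by simpa using hi⟩

theorem COI.refl (H : Set (ℕ → ℕ)) : COI H H := fun x hx h =>
  ⟨x, hx, h, Eventually.of_forall fun _ => le_rfl⟩

theorem COI.trans {H H' H'' : Set (ℕ → ℕ)} (h : COI H H') (h' : COI H' H'') : COI H H'' := by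
  intro x hx hn
  obtain ⟨ν, hν, h1, h2⟩ := h' x hx hn
  obtain ⟨μ, hμ, h3, h4⟩ := h ν hν h1
  exact ⟨μ, hμ, h3, by filter_upwards [h2, h4] with k h5 h6; omega⟩

theorem coi_chain {H : ℕ → Set (ℕ → ℕ)}
    (hc : ∀ j, COI (H j) (H (j + 1))) : ∀ i j, i ≤ j → COI (H i) (H j) := by
  intro i j hij
  induction hij with
  | refl => exact COI.refl _
  | step _ ih => exact ih.trans (hc _)

theorem coi_un {H : ℕ → Set (ℕ → ℕ)} (hm : ∀ i j, i ≤ j → H i ⊆ H j)
    (hc : ∀ j, COI (H j) (H (j + 1))) (i : ℕ) : COI (H i) (unH H) := by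
  rintro x ⟨j, hj⟩ hn
  exact coi_chain hc i (max i j) (le_max_left _ _) x (hm j _ (le_max_right _ _) hj) hn

/-! ### The model -/

section model

variable {H : Set (ℕ → ℕ)} (hH : Hull H)

instance ger_H : Ger (SH hH) (rp (H := H)) := ⟨losH hH, bSigma1_H hH⟩

/-- The standard cut. -/
def cutH (H : Set (ℕ → ℕ)) : MH H → Prop := fun x => ∃ n : ℕ, ∀ᶠ k in Uf, rp x k < n

/-- The generator of the model. -/
noncomputable def aH : MH H := mkH hH (fun k => k) hH.idm ⟨0, Eventually.of_forall fun _ => le_rfl⟩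

theorem rp_aH : ∀ᶠ k in Uf, rp (aH hH) k = k := rp_mkH _ _ _ _

theorem isCut_H : IsCut (SH hH) (cutH H) := by
  refine ⟨⟨(SH hH).zero, 1, ?_⟩, ⟨aH hH, ?_⟩, ?_, ?_⟩
  · filter_upwards [rp_zero hH] with k hk
    rw [hk]; omega
  · rintro ⟨n, hn⟩
    obtain ⟨k, hk⟩ := ev_exists (hn.and ((rp_aH hH).and (ev_ge n)))
    omega
  · rintro x y hxy ⟨n, hn⟩
    refine ⟨n, ?_⟩
    have hxy' : ∀ᶠ k in Uf, rp x k < rp y k := hxy
    filter_upwards [hn, hxy'] with k h1 h2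
    omega
  · rintro x ⟨n, hn⟩
    refine ⟨n + 1, ?_⟩
    filter_upwards [hn, rp_add hH x (SH hH).one, rp_one hH] with k h1 h2 h3
    rw [h2, h3]; omega

include hH in
/-- Membership in the cut, by codes of tower sequences. -/
theorem cut_iff (x : MH H) : cutH H x ↔ ∃ w : MH H, ∀ᶠ k in Uf, TwS k (rp x k) (rp w k) := by
  constructor
  · rintro ⟨n, hn⟩
    have hT : (fun k => 2 ^ (pr n (tow n k) + 1)) ∈ H :=
      hH.pt1 (f := fun a => 2 ^ (pr n (tow n a) + 1)) (by infer_instance) hH.idm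
    have hTb : Bd st (fun k => 2 ^ (pr n (tow n k) + 1)) := by
      have h1 : Bd st (fun k => tow n k) := ⟨n, Eventually.of_forall fun _ => le_rfl⟩
      have h2 : Bd st (fun k => n + tow n k) := (Bd.const grst n).add grst h1
      have h3 : Bd st (fun k => pr n (tow n k)) := (h2.mul grst h2).add grst (Bd.const grst n)
      exact ((h3.add grst (Bd.const grst 1)).pow grst)
    have hP : PP (fun u : ℕ → ℕ => TwS (u 2) (u 1) (u 0)) := d0_pp inferInstance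
    obtain ⟨w, hw⟩ := choose_H hH hP (asF [rp x, fun k => k]) (asF_mem hH _ (by
      simp only [List.mem_cons, List.not_mem_nil, or_false]
      rintro y (rfl | rfl)
      · exact x.2
      · exact hH.idm)) hT hTb (by
      filter_upwards [hn] with k hk
      obtain ⟨w, hw, h1⟩ := ex_TwS k (rp x k)
      refine ⟨w, lt_of_lt_of_le hw (Nat.pow_le_pow_right (by norm_num) ?_), h1⟩
      have := pr_mono hk.le (tow_mono_left hk.le k)
      omega)
    exact ⟨w, hw.mono fun k hk => hk.2⟩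
  · rintro ⟨w, hw⟩
    obtain ⟨n, hn⟩ := rp_bd w
    refine ⟨n, ?_⟩
    filter_upwards [hw, hn] with k h1 h2
    have h3 := h1.tow_lt (le_refl (rp x k))
    have h4 : rp w k ≤ tow n k := h2
    exact tow_lt_iff.1 (lt_of_lt_of_le h3 h4)

theorem ce_cut : CE (SH hH) (cutH H) := by
  have hD : D0 (fun v => TwS (v 2) (v 1) (v 0)) := inferInstance
  obtain ⟨f, hf⟩ := hD.ex
  refine ⟨f, fun _ => aH hH, fun x => ?_⟩
  rw [cut_iff hH]
  refine exists_congr fun w => ?_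
  rw [losH2]
  constructor
  · intro h
    filter_upwards [h, rp_aH hH] with k h1 h2
    rw [hf]
    change TwS (rp (aH hH) k) (rp x k) (rp w k)
    rw [h2]; exact h1
  · intro h
    filter_upwards [h, rp_aH hH] with k h1 h2
    rw [hf] at h1
    change TwS (rp (aH hH) k) (rp x k) (rp w k) at h1
    rw [h2] at h1; exact h1

theorem not_iSigma1_H : ¬ ISigma1 (SH hH) := by
  intro h
  obtain ⟨f, c, hf⟩ := ce_cut hH
  obtain ⟨h1, ⟨x, hx⟩, h3, h4⟩ := isCut_H hH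
  apply hx
  rw [hf]
  refine h f c ((hf _).1 ?_) (fun x hx => (hf _).1 (h4 x ((hf x).2 hx))) x
  exact ⟨1, (rp_zero hH).mono fun k hk => by rw [hk]; omega⟩

/-- A function of the hull is either standard or nonstandard; nonstandard elements lie outside
the cut. -/
theorem not_cut_iff (x : MH H) : ¬ cutH H x ↔ Ns (rp x) := by
  constructor
  · intro h
    by_contra h1
    obtain ⟨n, hn⟩ := std_of_not_ns h1
    exact h ⟨n + 1, hn.mono fun k hk => by omega⟩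
  · rintro h ⟨n, hn⟩
    obtain ⟨k, h1, h2⟩ := ev_exists (hn.and (h n))
    omega

end model

end Pool.Agent.BSig.Neg
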