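import Pool.Agent.Work.MP_510745_lc.Neg.BAt
import Pool.Agent.Work.MP_510745_lc.Neg.Next
import Pool.Agent.Work.MP_510745_lc.Neg.Force

/-!
Section 4, second half: the set `cB A d` is reducible to `A`.
-/

namespace Pool.Agent.BSig.Neg

open Filter Pool.Agent.BSig

/-- The certificate for disjointness of `K` and `cB A d`; `w` stands for a nonstandard number. -/
def RB (R : ℕ → ℕ → ℕ → Prop) (a N w K Q p d : ℕ) : Prop :=
  (∀ x, x < w → ¬ Bt K x) ∧ ∀ r, r < N → ((∀ z, z < tow r a → (Bt K (tow r a + z) → Bt Q z)) ∨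
    ∃ j, j < N ∧ ((∀ v, v < w → ¬ VL d r j v) ∧ ∀ m, m < j → ∀ z, z < tow r a →
      (Bt K (tow r a + z) → ¬ St R p a m z)))

/-- The formal version; `W` codes the tower sequence. -/
def RBD (R : ℕ → ℕ → ℕ → Prop) (W N w K Q p d : ℕ) : Prop :=
  (∀ x, x < w → ¬ Bt K x) ∧ ∀ r, r < N → ∀ t, t < W → (Bt W (pr r t) →
    ((∀ z, z < t → (Bt K (t + z) → Bt Q z)) ∨
    ∃ j, j < N ∧ ((∀ v, v < w → ¬ VL d r j v) ∧ ∀ m, m < j → ∀ s, s < W → (Bt W (pr m s) →
      ∀ z, z < t → (Bt K (t + z) → ¬ (z < s ∧ ∃ y, y < s ∧ R y z p))))))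

theorem rbD_iff {R : ℕ → ℕ → ℕ → Prop} {a W N w K Q p d : ℕ} (hW : TwS a N W) :
    RBD R W N w K Q p d ↔ RB R a N w K Q p d := by
  unfold RBD RB St
  refine and_congr Iff.rfl ?_
  constructor
  · intro h r hr
    rcases h r hr _ (hW.tow_lt hr.le) (hW.has r hr.le) with h1 | ⟨j, hj, h1, h2⟩
    · exact Or.inl h1
    · exact Or.inr ⟨j, hj, h1, fun m hm z hz hK =>
        h2 m hm _ (hW.tow_lt (by omega)) (hW.has m (by omega)) z hz hK⟩
  · intro h r hr t ht hb
    rw [hW.iff hr.le] at hb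
    subst hb
    rcases h r hr with h1 | ⟨j, hj, h1, h2⟩
    · exact Or.inl h1
    · refine Or.inr ⟨j, hj, h1, fun m hm s hs hb z hz hK => ?_⟩
      rw [hW.iff (by omega)] at hb
      subst hb
      exact h2 m hm z hz hK

theorem RB.mono {R : ℕ → ℕ → ℕ → Prop} {a N w K Q Q' p d : ℕ} (h : RB R a N w K Q p d)
    (hQ : ∀ z, Bt Q z → Bt Q' z) : RB R a N w K Q' p d :=
  ⟨h.1, fun r hr => (h.2 r hr).imp_left fun h1 z hz hK => hQ z (h1 z hz hK)⟩

section inst
variable {g0 g1 g2 g3 g4 g5 g6 : (ℕ → ℕ) → ℕ} [h0 : DT g0] [h1 : DT g1] [h2 : DT g2]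
  [h3 : DT g3] [h4 : DT g4] [h5 : DT g5] [h6 : DT g6]

instance d0_RBD (A : Ce) :
    D0 (fun v => RBD A.R (g0 v) (g1 v) (g2 v) (g3 v) (g4 v) (g5 v) (g6 v)) := by
  apply D0.s7 (P := fun a b c d e f g => RBD A.R a b c d e f g)
  unfold RBD
  infer_instance

end inst

/-- The functional; `Θ` is a reduction of the cut to `A`. -/
def BAR (A : Ce) (Θ : Fn) (y K P Q e : ℕ) : Prop :=
  ∃ p, p < e + 1 ∧ ∃ d, d < e + 1 ∧ ∃ a, a < e + 1 ∧ ∃ c, c < e + 1 ∧
    (e = pr (pr (pr p d) a) c ∧ ∃ W, W < y ∧ ∃ N, N < y ∧ ∃ t, t < W ∧ (TwS a N W ∧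
      Bt W (pr N t) ∧ K < t ∧ ∃ w, w < y ∧ ∃ Q1, Q1 < y ∧ ((∃ y', y' < y ∧ Θ.R y' (2 ^ w) P Q1 c) ∧
        Sub Q1 Q ∧ RBD A.R W N w K Q p d)))

theorem d0_BAR (A : Ce) (Θ : Fn) : D0 (fun v => BAR A Θ (v 0) (v 1) (v 2) (v 3) (v 4)) := by
  unfold BAR
  infer_instance

/-- The functional. -/
def fBA (A : Ce) (Θ : Fn) : Fn := ⟨BAR A Θ, d0_BAR A Θ⟩

section pp
variable {g0 g1 g2 g3 g4 g5 g6 g7 g8 g9 : (ℕ → ℕ) → ℕ} [h0 : PT g0] [h1 : PT g1] [h2 : PT g2]
  [h3 : PT g3] [h4 : PT g4] [h5 : PT g5] [h6 : PT g6] [h7 : PT g7] [h8 : PT g8]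

instance pp4_St (A : Ce) : PP (fun v => St A.R (g0 v) (g1 v) (g2 v) (g3 v)) := by
  apply PP.s4 (P := fun a b c d => St A.R a b c d)
  have hA : ∀ (g0 g1 g2 : (ℕ → ℕ) → ℕ) [PT g0] [PT g1] [PT g2],
      PP (fun v => A.R (g0 v) (g1 v) (g2 v)) := fun g0 g1 g2 _ _ _ => PP.s3 (d0_pp A.d0)
  unfold St
  infer_instance

instance pp4_VL : PP (fun v => VL (g0 v) (g1 v) (g2 v) (g3 v)) := PP.s4 (d0_pp inferInstance)

instance pp4_RB (A : Ce) :
    PP (fun v => RB A.R (g0 v) (g1 v) (g2 v) (g3 v) (g4 v) (g5 v) (g6 v)) := by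
  apply PP.s7 (P := fun a b c d e f g => RB A.R a b c d e f g)
  unfold RB
  infer_instance

/-- The data found in a claim. -/
def Mt4 (A : Ce) (Θ : Fn) (n w Q1 k K P Q p d c : ℕ) : Prop :=
  (∃ y', y' < tow n k ∧ Θ.R y' (2 ^ w) P Q1 c) ∧ Sub Q1 Q ∧
    ∃ N, N < n ∧ (K < tow N k ∧ RB A.R k N w K Q p d)

instance pp4_Mt (A : Ce) (Θ : Fn) (n : ℕ) :
    PP (fun v => Mt4 A Θ n (g0 v) (g1 v) (g2 v) (g3 v) (g4 v) (g5 v) (g6 v) (g7 v) (g8 v)) := by
  have h : PP (fun v => Mt4 A Θ n (v 0) (v 1) (v 2) (v 3) (v 4) (v 5) (v 6) (v 7) (v 8)) := by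
    unfold Mt4
    infer_instance
  exact PP.sub h (g := asg [g0, g1, g2, g3, g4, g5, g6, g7, g8]) (asg_pt _ (by simp [*]))

end pp

/-- Values in a row: either bounded up to every place, or there is a first unbounded place. -/
theorem row_dich (d : ℕ → ℕ) (r : ℕ) : (∀ m, ∃ b, ∀ᶠ k in Uf, Lo (d k) r m b) ∨
    ∃ j, (∀ b, ∀ᶠ k in Uf, ∀ v, v < b → ¬ VL (d k) r j v) ∧
      ∀ m, m < j → ∃ b, ∀ᶠ k in Uf, Lo (d k) r m b := by
  classical
  by_cases h : ∀ m, ∃ b, ∀ᶠ k in Uf, Lo (d k) r m b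
  · exact Or.inl h
  · push Not at h
    refine Or.inr ⟨Nat.find h, ?_, fun m hm => ?_⟩
    · intro b
      have h1 : ∃ b0, ∀ᶠ k in Uf, ∀ i, i < Nat.find h → ∃ v, v < b0 ∧ VL (d k) r i v := by
        rcases Nat.eq_zero_or_pos (Nat.find h) with h2 | h2
        · exact ⟨0, Eventually.of_forall fun k i hi => by omega⟩
        · have h3 := Nat.find_min h (m := Nat.find h - 1) (by omega)
          push Not at h3
          obtain ⟨b0, hb0⟩ := h3
          exact ⟨b0, hb0.mono fun k hk i hi => hk i (by omega)⟩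
      obtain ⟨b0, hb0⟩ := h1
      filter_upwards [hb0, Nat.find_spec h (max b b0)] with k h2 h3 v hv h4
      apply h3
      intro i hi
      rcases Nat.lt_succ_iff_lt_or_eq.1 hi with h5 | h5
      · obtain ⟨v', h6, h7⟩ := h2 i h5
        exact ⟨v', lt_of_lt_of_le h6 (le_max_right _ _), h7⟩
      · rw [h5]
        exact ⟨v, lt_of_lt_of_le hv (le_max_left _ _), h4⟩
    · have h3 := Nat.find_min h hm
      push Not at h3
      exact h3

theorem sec4_BA {H : Set (ℕ → ℕ)} (hH : Hull H) {A : Ce} (hA : A.over H) (hI : RedH H cI A)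
    {d : ℕ → ℕ} (hd : d ∈ H) (hb : Bd st d) : RedH H (cB A d) A := by
  obtain ⟨Θ, c, hc, hcb, hRed⟩ := hI
  refine ⟨fBA A Θ, fun k => pr (pr (pr (A.p k) (d k)) k) (c k),
    hH.pr (hH.pr (hH.pr hA.1 hd) hH.idm) hc, Bd.pr (Bd.pr (Bd.pr hA.2 hb) Bd.id) hcb, ?_⟩
  intro K hK hKb
  constructor
  · intro hdis
    obtain ⟨N0, hN0⟩ := Bd.ex_lt hKb
    -- the rows
    have hrow : ∀ r m b, (∀ᶠ k in Uf, Lo (d k) r m b) → ∀ᶠ k in Uf, ∀ z, z < tow r k →
        (Bt (K k) (tow r k + z) → ¬ St A.R (A.p k) k m z) := by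
      intro r m b h
      filter_upwards [hdis (max (r + 1) (max (m + 1) b) + 5), h, ev_ge 6] with k h1 h2 h3 z hz hKz hS
      exact h1 _ hKz (cB_of h3 le_rfl (Or.inr ⟨r, by omega, z, hz, rfl, m, by omega, hS,
        h2.mono le_rfl (by omega)⟩))
    set F : ℕ := cds (fun r => ∀ m, ∃ b, ∀ᶠ k in Uf, Lo (d k) r m b) N0 with hF
    have hFr : ∀ r, Bt F r → ∀ m, ∃ b, ∀ᶠ k in Uf, Lo (d k) r m b := fun r hr => (bt_cds.1 hr).2
    have hFn : ∀ r, r < N0 → ¬ Bt F r → ∃ j, (∀ b, ∀ᶠ k in Uf, ∀ v, v < b → ¬ VL (d k) r j v) ∧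
        ∀ m, m < j → ∃ b, ∀ᶠ k in Uf, Lo (d k) r m b := by
      intro r hr hn
      rcases row_dich d r with h | h
      · exact absurd (bt_cds.2 ⟨hr, h⟩) hn
      · exact h
    have hJ : ∃ J, ∀ r, r < N0 → ¬ Bt F r → ∃ j, j < J ∧
        (∀ b, ∀ᶠ k in Uf, ∀ v, v < b → ¬ VL (d k) r j v) ∧
        ∀ m, m < j → ∃ b, ∀ᶠ k in Uf, Lo (d k) r m b := by
      choose! f hf using hFn
      refine ⟨(Finset.range N0).sup f + 1, fun r hr hn => ⟨f r, ?_, hf r hr hn⟩⟩
      exact Nat.lt_succ_of_le (Finset.le_sup (f := f) (Finset.mem_range.2 hr))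
    obtain ⟨J, hJ⟩ := hJ
    set N : ℕ := max N0 J with hN
    set Q0 : ℕ → ℕ := fun k => cds (fun z => ∃ r, r < N0 ∧ (Bt F r ∧ (z < tow r k ∧
      Bt (K k) (tow r k + z)))) (K k) with hQ0
    have hQ0H : Q0 ∈ H := hH.pt2 (f := fun a k => cds (fun z => ∃ r, r < N0 ∧ (Bt F r ∧
      (z < tow r k ∧ Bt a (tow r k + z)))) a) inferInstance hK hH.idm
    have hQ0d : A.dis Q0 := by
      intro n
      have h1 : ∀ᶠ k in Uf, ∀ r, r < N0 → Bt F r → ∀ z, z < tow r k →
          (Bt (K k) (tow r k + z) → ¬ St A.R (A.p k) k n z) := by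
        apply ev_all_lt
        intro r _
        by_cases hr : Bt F r
        · obtain ⟨b, hb⟩ := hFr r hr n
          exact (hrow r n b hb).mono fun k hk _ => hk
        · exact Eventually.of_forall fun k h => absurd h hr
      filter_upwards [h1] with k h2 z hz
      obtain ⟨-, r, hr, h3, h4, h5⟩ := bt_cds.1 hz
      exact h2 r hr h3 z h4 h5
    -- the certificate for all standard numbers
    have hst : ∀ n : ℕ, ∀ᶠ k in Uf, RB A.R k N n (K k) (Q0 k) (A.p k) (d k) := by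
      intro n
      have h1 : ∀ᶠ k in Uf, ∀ r, r < N →
          ((∀ z, z < tow r k → (Bt (K k) (tow r k + z) → Bt (Q0 k) z)) ∨
          ∃ j, j < N ∧ ((∀ v, v < n → ¬ VL (d k) r j v) ∧ ∀ m, m < j → ∀ z, z < tow r k →
            (Bt (K k) (tow r k + z) → ¬ St A.R (A.p k) k m z))) := by
        apply ev_all_lt
        intro r _
        by_cases hr : r < N0
        · by_cases hrF : Bt F r
          · refine Eventually.of_forall fun k => Or.inl fun z hz hKz => bt_cds.2 ⟨?_, r, hr, hrF,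
              hz, hKz⟩
            have := hKz.lt
            omega
          · obtain ⟨j, hj, h2, h3⟩ := hJ r hr hrF
            have h4 : ∀ᶠ k in Uf, ∀ m, m < j → ∀ z, z < tow r k →
                (Bt (K k) (tow r k + z) → ¬ St A.R (A.p k) k m z) := by
              apply ev_all_lt
              intro m hm
              obtain ⟨b, hb⟩ := h3 m hm
              exact hrow r m b hb
            filter_upwards [h2 n, h4] with k h5 h6
            exact Or.inr ⟨j, by omega, h5, h6⟩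
        · filter_upwards [hN0] with k hk
          refine Or.inl fun z hz hKz => ?_
          have h2 := hKz.lt
          have h3 := tow_mono (not_lt.1 hr) k
          omega
      filter_upwards [h1, hdis (n + 5), ev_ge 6] with k h2 h3 h4
      exact ⟨fun x hx hKx => h3 x hKx (cB_of h4 le_rfl (Or.inl hx)), h2⟩
    obtain ⟨ν, hνH, hνn, hνk, hν⟩ := hH.over
      (R := fun m v => RB A.R (v 0) N m (v 1) (v 2) (v 3) (v 4)) inferInstance
      (v := asF [fun k => k, K, Q0, A.p, d]) (asF_mem hH _ (by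
        intro x hx
        simp only [List.mem_cons, List.not_mem_nil, or_false] at hx
        rcases hx with rfl | rfl | rfl | rfl | rfl
        · exact hH.idm
        · exact hK
        · exact hQ0H
        · exact hA.1
        · exact hd)) hst
    have hν' : ∀ᶠ k in Uf, RB A.R k N (ν k) (K k) (Q0 k) (A.p k) (d k) :=
      hν.mono fun k hk => hk (ν k) le_rfl
    have hdis1 : cI.dis (fun k => 2 ^ ν k) := by
      rw [cI_dis]
      intro n
      filter_upwards [hνn n] with k hk x hx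
      rw [bt_two_pow] at hx
      omega
    have hνb : Bd st ν := Bd.id.mono hνk
    obtain ⟨P, hP, Q1, hQ1, n1, hcl, hPs, hQ1d⟩ :=
      (hRed _ (hH.pow hνH) (Bd.two_pow hνb)).1 hdis1
    obtain ⟨Q, hQ, hQu⟩ := hH.union hQ0H hQ1
    have hQd : A.dis Q := by
      intro n
      filter_upwards [hQ0d n, hQ1d n, hQu] with k h1 h2 h3 z hz
      rcases (h3 z).1 hz with h4 | h4
      · exact h1 z h4
      · exact h2 z h4
    have hQb : Bd st Q := by
      have e2 : Bd st Q1 := bd_of_lt (hcl.mono fun _ h => h.2.2.1)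
      refine (Bd.two_pow (hKb.add grst e2)).mono ?_
      filter_upwards [hQu] with k hk
      refine (bt_lt_two_pow.2 fun z hz => ?_).le
      rcases (hk z).1 hz with h4 | h4
      · have := (bt_cds.1 h4).1; omega
      · have := h4.lt; omega
    obtain ⟨n2, hn2⟩ := Bd.ex_lt hQb
    refine ⟨P, hP, Q, hQ, max (N + 4) (max n1 (max n2 (max N0 1))) + 1, ?_, hPs, hQd⟩
    filter_upwards [hN0, hn2, hcl, hQu, hν', hνk, ev_ge 6] with k e1 e2 e3 e4 e5 e6 e7
    obtain ⟨c1, c2, c3, y', hy', c4⟩ := e3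
    set M := max (N + 4) (max n1 (max n2 (max N0 1))) with hM
    have f1 : tow (N + 4) k ≤ tow M k := tow_mono (by omega) k
    have f2 : tow n1 k ≤ tow M k := tow_mono (by omega) k
    have f3 : tow n2 k ≤ tow M k := tow_mono (by omega) k
    have f4 : tow N0 k ≤ tow M k := tow_mono (by omega) k
    have f5 : tow 1 k ≤ tow M k := tow_mono (by omega) k
    have f6 : tow M k < tow (M + 1) k := tow_lt_succ M k
    have f7 : k < tow 1 k := tow_lt_succ 0 k
    have f8 : tow N0 k ≤ tow N k := tow_mono (le_max_left _ _) k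
    have f9 : tow N k < tow (N + 4) k := tow_lt (by omega) k
    have f10 := lt_tow_self N k
    obtain ⟨W, hW, hTW⟩ := ex_TwS' k N (le_trans e7 (le_tow N k))
    refine ⟨by omega, by omega, by omega, tow M k, f6, ?_⟩
    refine ⟨A.p k, ?_, d k, ?_, k, ?_, c k, ?_, rfl, W, by omega, N, by omega, tow N k,
      hTW.tow_lt le_rfl, hTW, hTW.has N le_rfl, by omega, ν k, by omega, Q1 k, by omega,
      ⟨y', by omega, c4⟩, sub_iff.2 fun z hz => (e4 z).2 (Or.inr hz), ?_⟩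
    · exact Nat.lt_succ_of_le ((le_pr_left _ _).trans ((le_pr_left _ _).trans (le_pr_left _ _)))
    · exact Nat.lt_succ_of_le ((le_pr_right _ _).trans ((le_pr_left _ _).trans (le_pr_left _ _)))
    · exact Nat.lt_succ_of_le ((le_pr_right _ _).trans (le_pr_left _ _))
    · exact Nat.lt_succ_of_le (le_pr_right _ _)
    · exact (rbD_iff hTW).2 (e5.mono fun z hz => (e4 z).2 (Or.inl hz))
  · rintro ⟨P, hP, Q, hQ, n, hcl, hPs, hQd⟩
    have h1 : ∀ᶠ k in Uf, ∃ w, w < tow n k ∧ ∃ Q1, Q1 < tow n k ∧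
        Mt4 A Θ n w Q1 k (K k) (P k) (Q k) (A.p k) (d k) (c k) := by
      filter_upwards [hcl] with k hk
      obtain ⟨hKn, hPn, hQn, y, hy, p', -, d', -, a, -, c', -, he, W, hW, N, hN, t, ht, hTW, hbt,
        hKt, w, hw, Q1, hQ1, ⟨y', hy', hΘ⟩, hs, hRB⟩ := hk
      obtain ⟨he1, he2⟩ := pr_inj he
      obtain ⟨he3, he4⟩ := pr_inj he1
      obtain ⟨he5, he6⟩ := pr_inj he3
      obtain rfl : A.p k = p' := he5
      obtain rfl : d k = d' := he6
      obtain rfl : k = a := he4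
      obtain rfl : c k = c' := he2
      rw [hTW.iff le_rfl] at hbt
      subst hbt
      have hNn : N < n := tow_lt_iff.1 (lt_trans (lt_trans ht hW) hy)
      exact ⟨w, by omega, Q1, by omega, ⟨y', by omega, hΘ⟩, hs, N, hNn, hKt, (rbD_iff hTW).1 hRB⟩
    have hT : (fun k => tow n k) ∈ H := hH.tow (hH.const n) hH.idm
    have hmem : ∀ i, asF [fun k => k, K, P, Q, A.p, d, c] i ∈ H :=
      asF_mem hH _ (by
        have := hH.idm
        have := hA.1
        simp [*])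
    obtain ⟨w, hw, h2⟩ := hH.sk (R := fun u : ℕ → ℕ => ∃ Q1, Q1 < tow n (u 1) ∧
      Mt4 A Θ n (u 0) Q1 (u 1) (u 2) (u 3) (u 4) (u 5) (u 6) (u 7))
      inferInstance hmem hT h1
    obtain ⟨Q1, hQ1, h3⟩ := hH.sk (R := fun u : ℕ → ℕ =>
      Mt4 A Θ n (u 1) (u 0) (u 2) (u 3) (u 4) (u 5) (u 6) (u 7) (u 8))
      inferInstance (psh_mem hw hmem) hT (h2.mono fun k hk => hk.2.1)
    have h4 : ∀ᶠ k in Uf, w k < tow n k := h2.mono fun k hk => hk.1
    have h5 : ∀ᶠ k in Uf, Q1 k < tow n k := h3.mono fun k hk => hk.1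
    have h6 : ∀ᶠ k in Uf, Mt4 A Θ n (w k) (Q1 k) k (K k) (P k) (Q k) (A.p k) (d k) (c k) :=
      h3.mono fun k hk => hk.2.1
    have hdis : cI.dis (fun k => 2 ^ w k) := by
      have h7 : ∀ᶠ k in Uf, 2 ^ w k < tow (n + 1) k := by
        filter_upwards [h4] with k hk
        exact Nat.pow_lt_pow_right (by norm_num) hk
      refine (hRed _ (hH.pow hw) (bd_of_lt h7)).2 ⟨P, hP, Q1, hQ1, n + 1, ?_, hPs, ?_⟩
      · filter_upwards [h7, h5, h6, hcl] with k e1 e2 e3 e4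
        obtain ⟨y', hy', hΘ⟩ := e3.1
        have := tow_lt_succ n k
        have := e4.2.1
        exact ⟨e1, by omega, by omega, y', by omega, hΘ⟩
      · refine Ce.dis_sub hQd ?_
        filter_upwards [h6] with k hk
        exact sub_iff.1 hk.2.1
    have hwn : ∀ n', ∀ᶠ k in Uf, n' ≤ w k := by
      intro n'
      filter_upwards [(cI_dis.1 hdis) n'] with k hk
      exact hk _ ((bt_two_pow _ _).2 rfl)
    intro n'
    filter_upwards [h6, hwn n', hQd n'] with k e1 e2 e3 x hx hxB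
    obtain ⟨-, -, N, -, hKN, hRB1, hRB2⟩ := e1
    rcases cB_to hxB with h7 | ⟨r, hr, y, hy, rfl, m, hm, hS, hLo⟩
    · exact hRB1 x (by omega) hx
    · have hrN : r < N := by
        have := hx.lt
        exact tow_lt_iff.1 (by omega : tow r k < tow N k)
      rcases hRB2 r hrN with h8 | ⟨j, hj, h8, h9⟩
      · exact e3 y (h8 y hy hx) (St.mono hm.le hS)
      · by_cases hmj : m < j
        · exact h9 m hmj y hy hx hS
        · obtain ⟨v, hv, hvl⟩ := hLo j (by omega)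
          exact h8 v (by omega) hvl

end Pool.Agent.BSig.Neg
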