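import Pool.Agent.Work.MP_510745_lc.Neg.BAt
import Pool.Agent.Work.MP_510745_lc.Neg.Next

/-!
Section 4, first half: the cut is reducible to `cB A d`.
-/

namespace Pool.Agent.BSig.Neg

open Filter Pool.Agent.BSig

/-- The functional: the elements of `K` below the parameter belong to `Q`. -/
def fI : Fn := ⟨fun _ K P Q e => P = 0 ∧ ∀ x, x < K → (Bt K x → x < e → Bt Q x), inferInstance⟩

theorem sec4_IB {H : Set (ℕ → ℕ)} (hH : Hull H) {A : Ce} (_hA : A.over H) {d : ℕ → ℕ}
    (_hd : d ∈ H) (_hb : Bd st d) : RedH H cI (cB A d) := by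
  refine ⟨fI, fun k => k, hH.idm, ⟨0, Eventually.of_forall fun _ => le_rfl⟩, fun K hK hb => ?_⟩
  constructor
  · intro hd
    obtain ⟨n, hn⟩ := Bd.ex_lt hb
    have hQ : (fun k => cds (fun x => Bt (K k) x ∧ x < k) (K k)) ∈ H :=
      hH.pt2 (f := fun a b => cds (fun x => Bt a x ∧ x < b) a) inferInstance hK hH.idm
    have hQK : ∀ k, cds (fun x => Bt (K k) x ∧ x < k) (K k) ≤ K k := fun k => by
      apply Sub.le
      rw [sub_iff]
      intro z hz
      exact (bt_cds.1 hz).2.1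
    refine ⟨fun _ => 0, hH.const 0, _, hQ, n, ?_, ⟨0, ?_⟩, ?_⟩
    · filter_upwards [hn] with k hk
      have h1 := hQK k
      exact ⟨hk, by omega, by omega, 0, by omega, rfl, fun x hx h2 h3 => bt_cds.2 ⟨hx, h2, h3⟩⟩
    · exact Eventually.of_forall fun k z hz => absurd hz.lt (Nat.not_lt_zero z)
    · intro m
      filter_upwards [cI_dis.1 hd m] with k h1 z hz h2
      obtain ⟨-, h3, h4⟩ := bt_cds.1 hz
      have h5 := h1 z h3
      rcases cB_to h2 with h6 | ⟨r, _, y, _, hx, _⟩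
      · omega
      · have := le_tow r k
        omega
  · rintro ⟨P, _, Q, _, n, hcl, _, hd⟩
    rw [cI_dis]
    intro m
    filter_upwards [hcl, hd (m + 5), ev_ge m, ev_ge 6] with k h1 h2 h3 h4 x hx
    by_contra hc
    obtain ⟨_, _, _, y, _, _, h5⟩ := h1
    exact h2 x (h5 x hx.lt hx (by omega)) (cB_of h4 le_rfl (Or.inl (by omega)))

end Pool.Agent.BSig.Neg
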