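import Pool.Agent.Work.MP_510745_lc.Neg.Hull
import Pool.Agent.Work.MP_510745_lc.Neg.Cond

/-!
Extension of conditions: fixing the values on a larger standard square.
-/

namespace Pool.Agent.BSig.Neg

open Filter Pool.Agent.BSig

variable {H : Set (ℕ → ℕ)}

/-- The code of the members of `q` with value `t` at `(i, j)`. -/
noncomputable def res1 (i j q t : ℕ) : ℕ :=
  lw (fun w => ∀ z, z < q → (Bt w z ↔ (Bt q z ∧ VL z i j t))) (2 ^ q)

theorem bt_res1 {i j q t d : ℕ} : Bt (res1 i j q t) d ↔ Bt q d ∧ VL d i j t := by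
  obtain ⟨w, hw, h⟩ := mk_code' q (fun z => Bt q z ∧ VL z i j t) (fun z hz => hz.1.lt)
  obtain ⟨h1, h2, _⟩ := lw_spec (P := fun w => ∀ z, z < q → (Bt w z ↔ (Bt q z ∧ VL z i j t)))
    (t := 2 ^ q) ⟨w, hw, fun z _ => h z⟩
  constructor
  · intro hd
    exact (h2 d (hd.lt_of_lt h1)).1 hd
  · intro hd
    exact (h2 d hd.1.lt).2 hd

theorem pt_res1 (i j : ℕ) : PT (fun v => res1 i j (v 0) (v 1)) := by
  unfold res1
  have hVL : ∀ {g0 g1 : (ℕ → ℕ) → ℕ} [PT g0] [PT g1], PP (fun v => VL (g0 v) i j (g1 v)) := by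
    intro g0 g1 _ _
    apply PP.s2 (P := fun a b => VL a i j b)
    unfold VL
    infer_instance
  have h1 : PP (fun v => VL (v 0) i j (v 3)) := hVL
  infer_instance

theorem res1_mem (hH : Hull H) (i j : ℕ) {q t : ℕ → ℕ} (hq : q ∈ H) (ht : t ∈ H) :
    (fun k => res1 i j (q k) (t k)) ∈ H := by
  have h := hH.pt (pt_res1 i j) (v := fun l => if l = 0 then q else t) (by
    intro l; by_cases h : l = 0 <;> simp [h, hq, ht])
  simpa using h

/-- Finitely many values may be prescribed. -/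
theorem ex_res (hH : Hull H) {q : ℕ → ℕ} (hq : q ∈ H) (τ : ℕ → ℕ → ℕ → ℕ) :
    ∀ L : List (ℕ × ℕ), (∀ x ∈ L, τ x.1 x.2 ∈ H) → ∃ q' ∈ H, ∀ k d,
      Bt (q' k) d ↔ Bt (q k) d ∧ ∀ x ∈ L, VL d x.1 x.2 (τ x.1 x.2 k) := by
  intro L
  induction L with
  | nil => intro _; exact ⟨q, hq, fun k d => by simp⟩
  | cons a L ih =>
    intro hL
    obtain ⟨q', hq', h⟩ := ih (fun x hx => hL x (List.mem_cons_of_mem _ hx))
    refine ⟨_, res1_mem hH a.1 a.2 hq' (hL a List.mem_cons_self), fun k d => ?_⟩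
    rw [bt_res1, h]
    constructor
    · rintro ⟨⟨h1, h2⟩, h3⟩
      refine ⟨h1, fun x hx => ?_⟩
      rcases List.mem_cons.1 hx with rfl | hx
      · exact h3
      · exact h2 x hx
    · rintro ⟨h1, h2⟩
      exact ⟨⟨h1, fun x hx => h2 x (List.mem_cons_of_mem _ hx)⟩, h2 a List.mem_cons_self⟩

theorem ex_restrict (hH : Hull H) {q : ℕ → ℕ} (hq : q ∈ H) (n n' : ℕ) (τ : ℕ → ℕ → ℕ → ℕ)
    (hτ : ∀ i j, i < n' → j < n' → (n ≤ i ∨ n ≤ j) → τ i j ∈ H) : ∃ q' ∈ H, ∀ k d,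
      Bt (q' k) d ↔ Bt (q k) d ∧
        ∀ i j, i < n' → j < n' → (n ≤ i ∨ n ≤ j) → VL d i j (τ i j k) := by
  classical
  obtain ⟨q', hq', h⟩ := ex_res hH hq τ
    (((Finset.range n' ×ˢ Finset.range n').filter fun x => n ≤ x.1 ∨ n ≤ x.2).toList) (by
      intro x hx
      rw [Finset.mem_toList, Finset.mem_filter, Finset.mem_product, Finset.mem_range,
        Finset.mem_range] at hx
      exact hτ _ _ hx.1.1 hx.1.2 hx.2)
  refine ⟨q', hq', fun k d => (h k d).trans (and_congr_right fun _ => ?_)⟩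
  constructor
  · intro h1 i j hi hj hn
    refine h1 (i, j) ?_
    rw [Finset.mem_toList, Finset.mem_filter, Finset.mem_product, Finset.mem_range,
        Finset.mem_range]
    exact ⟨⟨hi, hj⟩, hn⟩
  · intro h1 x hx
    rw [Finset.mem_toList, Finset.mem_filter, Finset.mem_product, Finset.mem_range,
        Finset.mem_range] at hx
    exact h1 _ _ hx.1.1 hx.1.2 hx.2

/-- Finite conjunctions of eventual statements. -/
theorem ev_all2 {P : ℕ → ℕ → ℕ → Prop} {Q : ℕ → ℕ → Prop} (n' : ℕ)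
    (h : ∀ i j, i < n' → j < n' → Q i j → ∀ᶠ k in Uf, P i j k) :
    ∀ᶠ k in Uf, ∀ i j, i < n' → j < n' → Q i j → P i j k := by
  classical
  have h1 : ∀ᶠ k in Uf, ∀ x ∈ (Finset.range n' ×ˢ Finset.range n'), Q x.1 x.2 → P x.1 x.2 k := by
    refine (Finset.eventually_all _).2 fun x hx => ?_
    rw [Finset.mem_product, Finset.mem_range, Finset.mem_range] at hx
    by_cases hQ : Q x.1 x.2
    · exact (h _ _ hx.1 hx.2 hQ).mono fun k hk _ => hk
    · exact Eventually.of_forall fun k h => absurd h hQ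
  refine h1.mono fun k hk i j hi hj hQ => hk (i, j) ?_ hQ
  rw [Finset.mem_product, Finset.mem_range, Finset.mem_range]
  exact ⟨hi, hj⟩

/-- EXT: prescribing the values on a larger standard square. `u` is nonstandard and `q` is big at
`u`; the new values are below `u`; the new promised rows are untouched so far, and their new
values are standard. -/
theorem Cond.extF (hH : Hull H) (p : Cond H) {n' F' : ℕ} (hn : p.n ≤ n')
    (hF : ∀ i, Bt p.F i → Bt F' i) (hF' : ∀ i, Bt F' i → i < n')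
    (hnew : ∀ i, Bt F' i → Bt p.F i ∨ p.n ≤ i) {τ : ℕ → ℕ → ℕ → ℕ}
    (hτ : ∀ i j, i < n' → j < n' → (p.n ≤ i ∨ p.n ≤ j) → τ i j ∈ H) {u : ℕ → ℕ} (hu : Ns u)
    (hB : ∀ᶠ k in Uf, Big p.n (u k) (p.q k))
    (hlt : ∀ i j, i < n' → j < n' → (p.n ≤ i ∨ p.n ≤ j) → ∀ᶠ k in Uf, τ i j k < u k) (b : ℕ)
    (hb : ∀ i j, Bt F' i → j < n' → (p.n ≤ i ∨ p.n ≤ j) → ∀ᶠ k in Uf, τ i j k ≤ b) :
    ∃ p' : Cond H, p'.n = n' ∧ p'.F = F' ∧ Ext p' p ∧
      (∀ k d, Bt (p'.q k) d ↔ Bt (p.q k) d ∧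
        ∀ i j, i < n' → j < n' → (p.n ≤ i ∨ p.n ≤ j) → VL d i j (τ i j k)) ∧
      ∀ᶠ k in Uf, Big n' (u k) (p'.q k) := by
  obtain ⟨q', hq', h⟩ := ex_restrict hH p.hq p.n n' τ hτ
  have hsub : ∀ k, Sub (q' k) (p.q k) := fun k => sub_iff.2 fun z hz => ((h k z).1 hz).1
  have hlt' := ev_all2 (P := fun i j k => τ i j k < u k) (Q := fun i j => p.n ≤ i ∨ p.n ≤ j) n' hlt
  have hbig : ∀ᶠ k in Uf, Big n' (u k) (q' k) := by
    filter_upwards [hB, hu n', hlt'] with k h1 h2 h3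
    exact h1.ext hn h2 (τ := fun i j => τ i j k) h3 (fun d hd h4 => (h k d).2 ⟨hd, h4⟩)
  obtain ⟨b0, hb0⟩ := p.std
  have hb' := ev_all2 (P := fun i j k => τ i j k ≤ b)
    (Q := fun i j => Bt F' i ∧ (p.n ≤ i ∨ p.n ≤ j)) n'
    (fun i j _ hj hQ => hb i j hQ.1 hj hQ.2)
  refine ⟨⟨n', F', q', hq', hF', ?_, ?_, ?_, ?_, ?_⟩, rfl, rfl,
    ⟨hn, hF, Eventually.of_forall hsub⟩, h, hbig⟩
  · filter_upwards [p.arr] with k hk d hd
    exact hk d ((h k d).1 hd).1
  · filter_upwards [p.cod] with k hk d hd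
    exact hk d ((h k d).1 hd).1
  · filter_upwards [p.agr] with k hk
    rw [agr_iff] at hk ⊢
    intro d e hd he i j hi hj v hv
    have hd' := (h k d).1 hd
    have he' := (h k e).1 he
    by_cases h1 : p.n ≤ i ∨ p.n ≤ j
    · have h2 := hd'.2 i j hi hj h1
      rw [hv.uniq h2]
      exact he'.2 i j hi hj h1
    · exact hk d e hd'.1 he'.1 i j (by omega) (by omega) v hv
  · intro m
    filter_upwards [hbig, hu m] with k hk1 hk2
    exact hk1.mono hk2
  · refine ⟨max b0 b, ?_⟩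
    filter_upwards [hb0, hb'] with k hk1 hk2 d hd i hi j hj
    have hd' := (h k d).1 hd
    by_cases h1 : p.n ≤ i ∨ p.n ≤ j
    · exact ⟨τ i j k, le_trans (hk2 i j (hF' i hi) hj ⟨hi, h1⟩) (le_max_right _ _),
        hd'.2 i j (hF' i hi) hj h1⟩
    · have hi' : Bt p.F i := (hnew i hi).resolve_right (by omega)
      obtain ⟨v, hv, hv'⟩ := hk1 d hd'.1 i hi' j (by omega)
      exact ⟨v, le_trans hv (le_max_left _ _), hv'⟩

/-- A nonstandard element of `H` at which the condition is still big. -/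
theorem Cond.ex_big (hH : Hull H) (p : Cond H) :
    ∃ u ∈ H, Ns u ∧ (∀ k, u k ≤ k) ∧ ∀ᶠ k in Uf, Big p.n (u k) (p.q k) := by
  have hpt : PT (fun v => lw (fun x => ¬ Big p.n (x + 1) (v 0) ∨ x = v 1) (v 1 + 1)) := by
    have h0 : ∀ {g0 g1 : (ℕ → ℕ) → ℕ} [PT g0] [PT g1], PP (fun v => Big p.n (g0 v) (g1 v)) := by
      intro g0 g1 _ _
      apply PP.s2 (P := fun a b => Big p.n a b)
      exact d0_pp inferInstance
    have h1 : PP (fun v => Big p.n (v 0 + 1) (v 1)) := h0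
    have h2 : PP (fun v => ¬ Big p.n (v 0 + 1) (v 1) ∨ v 0 = v 2) := inferInstance
    exact pt_lw (g := fun v => v 1 + 1) (R := fun x v => ¬ Big p.n (x + 1) (v 0) ∨ x = v 1)
  have hmem := hH.pt hpt (v := fun l => if l = 0 then p.q else fun k => k) (by
    intro l; by_cases h : l = 0 <;> simp [h, p.hq, hH.idm])
  simp only [if_true, one_ne_zero, if_false] at hmem
  have hsp : ∀ k, _ := fun k => lw_spec
    (P := fun x => ¬ Big p.n (x + 1) (p.q k) ∨ x = k) (t := k + 1) ⟨k, by omega, Or.inr rfl⟩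
  refine ⟨_, hmem, fun m => ?_, fun k => by have := (hsp k).1; omega, ?_⟩
  · have h1 : ∀ᶠ k in Uf, ∀ x ∈ Finset.range m, Big p.n (x + 1) (p.q k) :=
      (Finset.eventually_all _).2 fun x _ => p.big (x + 1)
    filter_upwards [h1, ev_ge m] with k hk hkm
    by_contra hlt
    push Not at hlt
    rcases (hsp k).2.1 with h2 | h2
    · exact h2 (hk _ (Finset.mem_range.2 hlt))
    · omega
  · filter_upwards [p.big 0] with k hk
    rcases Nat.eq_zero_or_pos (lw (fun x => ¬ Big p.n (x + 1) (p.q k) ∨ x = k) (k + 1)) with h0 | h0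
    · rw [h0]; exact hk
    · have h1 := (hsp k).2.2 (lw (fun x => ¬ Big p.n (x + 1) (p.q k) ∨ x = k) (k + 1) - 1)
        (by omega)
      push Not at h1
      have h2 := h1.1
      rwa [Nat.sub_add_cancel h0] at h2

/-- Extending by zeros; the new rows in `G` are promised to be real. -/
theorem Cond.ext_zero (hH : Hull H) (p : Cond H) {n' F' : ℕ} (hn : p.n ≤ n')
    (hF : ∀ i, Bt p.F i → Bt F' i) (hF' : ∀ i, Bt F' i → i < n')
    (hnew : ∀ i, Bt F' i → Bt p.F i ∨ p.n ≤ i) (h0 : (fun _ => 0) ∈ H) :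
    ∃ p' : Cond H, p'.n = n' ∧ p'.F = F' ∧ Ext p' p ∧
      ∀ k d, Bt (p'.q k) d ↔ Bt (p.q k) d ∧
        ∀ i j, i < n' → j < n' → (p.n ≤ i ∨ p.n ≤ j) → VL d i j 0 := by
  obtain ⟨u, -, hu, -, hB⟩ := p.ex_big hH
  obtain ⟨p', h1, h2, h3, h4, -⟩ := p.extF hH hn hF hF' hnew (τ := fun _ _ _ => 0)
    (fun _ _ _ _ _ => h0) hu hB
    (fun _ _ _ _ _ => (hu 1).mono fun k hk => by omega) 0
    (fun _ _ _ _ _ => Eventually.of_forall fun _ => le_rfl)
  exact ⟨p', h1, h2, h3, h4⟩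

/-- Freezing: all rows `i < p.n` outside `F` get the value `v` (nonstandard, below the norm) at
column `p.n`; everything else is `0`. -/
theorem Cond.freeze (hH : Hull H) (p : Cond H) (h0 : (fun _ => 0) ∈ H) {u v : ℕ → ℕ} (hu : Ns u)
    (hv : v ∈ H) (hvu : ∀ᶠ k in Uf, v k < u k) (hB : ∀ᶠ k in Uf, Big p.n (u k) (p.q k)) :
    ∃ p' : Cond H, p'.n = p.n + 1 ∧ p'.F = p.F ∧ Ext p' p ∧
      (∀ k d, Bt (p'.q k) d → ∀ i, i < p.n → ¬ Bt p.F i → VL d i p.n (v k)) ∧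
      (∀ k d, Bt (p'.q k) d → ∀ i, i < p.n → Bt p.F i → VL d i p.n 0) ∧
      ∀ k d, Bt (p'.q k) d → ∀ j, j < p.n + 1 → VL d p.n j 0 := by
  classical
  obtain ⟨p', h1, h2, h3, h4, -⟩ := p.extF hH (n' := p.n + 1) (F' := p.F) (Nat.le_succ _)
    (fun _ h => h) (fun i hi => Nat.lt_succ_of_lt (p.hF i hi)) (fun i hi => Or.inl hi)
    (τ := fun i _ k => if i < p.n ∧ ¬ Bt p.F i then v k else 0)
    (fun i j _ _ _ => by
      by_cases h : i < p.n ∧ ¬ Bt p.F i
      · simp only [if_pos h]; exact hv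
      · simp only [if_neg h]; exact h0) hu hB
    (fun i j _ _ _ => by
      by_cases h : i < p.n ∧ ¬ Bt p.F i
      · simp only [if_pos h]; exact hvu
      · simp only [if_neg h]; exact (hu 1).mono fun k hk => by omega) 0
    (fun i j hi _ _ => by
      simp only [hi, not_true_eq_false, and_false, if_false]
      exact Eventually.of_forall fun _ => le_rfl)
  refine ⟨p', h1, h2, h3, ?_, ?_, ?_⟩
  · intro k d hd i hi hF
    have := ((h4 k d).1 hd).2 i p.n (by omega) (by omega) (Or.inr le_rfl)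
    simpa [hi, hF] using this
  · intro k d hd i hi hF
    have := ((h4 k d).1 hd).2 i p.n (by omega) (by omega) (Or.inr le_rfl)
    simpa [hF] using this
  · intro k d hd j hj
    have := ((h4 k d).1 hd).2 p.n j (by omega) hj (Or.inl le_rfl)
    simpa using this

end Pool.Agent.BSig.Neg
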