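import Pool.Agent.Work.MP_510745_lc.Neg.Hull

/-!
Coded graphs of functions: the value `F (h, d)` of a primitive recursive function at an array `d`
is read off a coded set.
-/

namespace Pool.Agent.BSig.Neg

open Filter Pool.Agent.BSig

/-- The value at `d` of the function coded by `g` is `e`. -/
def Gv (g d e : ℕ) : Prop := Bt g (pr d e)

instance d0_Gv {g0 g1 g2 : (ℕ → ℕ) → ℕ} [DT g0] [DT g1] [DT g2] :
    D0 (fun v => Gv (g0 v) (g1 v) (g2 v)) := by
  apply D0.s3; unfold Gv; infer_instance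

theorem ex_graph {H : Set (ℕ → ℕ)} (hH : Hull H) {F : ℕ → ℕ} (hF : Primrec F) {h : ℕ → ℕ}
    (hh : h ∈ H) (m : ℕ) : ∃ g ∈ H, Bd st g ∧ ∀ k d e, Gv (g k) d e ↔
      d < 2 ^ pr (pr k k) k ∧ e < tow m k ∧ e = F (Nat.pair (h k) d) := by
  have hP : PT (fun v : ℕ → ℕ => cds (fun z => ∃ d, d < 2 ^ pr (pr (v 1) (v 1)) (v 1) ∧
      ∃ e, e < tow m (v 1) ∧ (z = pr d e ∧ e = F (Nat.pair (v 0) d)))
      (pr (2 ^ pr (pr (v 1) (v 1)) (v 1)) (tow m (v 1)) + 1)) := by
    have hF' : ∀ (f : (ℕ → ℕ) → ℕ) [PT f], PT (fun v => F (f v)) := fun f _ => PT.comp1 hF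
    infer_instance
  refine ⟨_, hH.pt hP (v := asF [h, fun k => k]) (asF_mem hH _ (by
    intro x hx
    simp only [List.mem_cons, List.not_mem_nil, or_false] at hx
    rcases hx with rfl | rfl
    · exact hh
    · exact hH.idm)), ?_, ?_⟩
  · have b1 : Bd st (fun k => k) := ⟨0, Eventually.of_forall fun _ => le_rfl⟩
    have b2 : ∀ {f g : ℕ → ℕ}, Bd st f → Bd st g → Bd st (fun k => pr (f k) (g k)) := by
      intro f g hf hg
      exact ((hf.add grst hg).mul grst (hf.add grst hg)).add grst hf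
    have b3 : Bd st (fun k => tow m k) := ⟨m, Eventually.of_forall fun _ => le_rfl⟩
    have b4 := ((b2 ((b2 (b2 b1 b1) b1).pow grst) b3).add grst (Bd.const grst 1)).pow grst
    exact b4.mono (Eventually.of_forall fun k => (cds_lt _ _).le)
  · intro k d e
    change Bt (cds _ _) (pr d e) ↔ _
    rw [bt_cds]
    change _ ∧ (∃ d', d' < 2 ^ pr (pr k k) k ∧ ∃ e', e' < tow m k ∧ (pr d e = pr d' e' ∧
      e' = F (Nat.pair (h k) d'))) ↔ _
    constructor
    · rintro ⟨-, d', hd, e', he, h1, h2⟩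
      obtain ⟨rfl, rfl⟩ := pr_inj h1
      exact ⟨hd, he, h2⟩
    · rintro ⟨hd, he, h1⟩
      refine ⟨?_, d, hd, e, he, rfl, h1⟩
      have := pr_mono hd.le he.le
      change pr d e < pr (2 ^ pr (pr k k) k) (tow m k) + 1
      omega

end Pool.Agent.BSig.Neg
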