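import Pool.Agent.Work.MP_510745_lc.Neg.Hull

/-!
Reflexivity of the reducibility over a hull.
-/

namespace Pool.Agent.BSig.Neg

open Filter

variable {H : Set (ℕ → ℕ)}

/-- The functional `K ↦ (K, ∅, K)`. -/
def idFn : Fn := ⟨fun _ K P Q _ => P = 0 ∧ Q = K, inferInstance⟩

theorem redH_refl (hH : Hull H) (X : Ce) : RedH H X X := by
  refine ⟨idFn, fun _ => 0, hH.const 0, Bd.const grst 0, fun K hK hb => ?_⟩
  constructor
  · intro hd
    obtain ⟨n, hn⟩ := Bd.ex_lt hb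
    refine ⟨fun _ => 0, hH.const 0, K, hK, n, ?_, ⟨0, ?_⟩, hd⟩
    · filter_upwards [hn] with k hk
      exact ⟨hk, by omega, hk, 0, by omega, rfl, rfl⟩
    · exact Eventually.of_forall fun k z hz => absurd hz.lt (Nat.not_lt_zero z)
  · rintro ⟨P, _, Q, _, n, hcl, _, hd⟩ m
    filter_upwards [hcl, hd m] with k h1 h2 z hz
    obtain ⟨_, _, _, y, _, _, h3⟩ := h1
    exact h2 z (h3 ▸ hz)

end Pool.Agent.BSig.Neg
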