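import Pool.Agent.Work.MP_510745_lc.Neg.Sec5C
import Pool.Agent.Work.MP_510745_lc.Neg.CondExt
import Pool.Agent.Work.MP_510745_lc.Neg.Graph
import Pool.Agent.Work.MP_510745_lc.Neg.Force
import Pool.Agent.Work.MP_510745_lc.Neg.Refl

/-!
Section 5: soundness of the relation `R5`, and the theorem.
-/

namespace Pool.Agent.BSig.Neg

open Filter

variable {H : Set (ℕ → ℕ)}

/-- In a frozen condition `B` is contained in its upper approximation, below the square. -/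
theorem bSt_bh {R : ℕ → ℕ → ℕ → Prop} {p a d F n w v N x : ℕ} (h : BSt R p a d N x)
    (hx : x < tow n a) (hF : ∀ i, i < n → ¬ Bt F i → VL d i n v) (hv : N ≤ v) (hw : N ≤ w) :
    Bh R p a d F n w x := by
  rcases h with h | ⟨r, hr, y, hy, hxy, m, hm, h1, h2⟩
  · exact Or.inl (by omega)
  · have hrn : r < n := tow_lt_iff.1 (lt_of_le_of_lt (by omega) hx)
    refine Or.inr ⟨r, hrn, y, hy, hxy, ?_⟩
    by_cases hb : Bt F r
    · exact Or.inl ⟨hb, h1.mono (by omega)⟩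
    · refine Or.inr ⟨hb, m, ?_, h1, h2.mono le_rfl hw⟩
      by_contra hmn
      obtain ⟨u, hu, h3⟩ := h2 n (by omega)
      have := h3.uniq (hF r hrn hb)
      omega

theorem sec5_snd (hH : Hull H) {A : Ce} (hA : A.over H) {Θ : Fn} {F : ℕ → ℕ} (hF : Primrec F)
    {h : ℕ → ℕ} (hh : h ∈ H) {p : Cond H}
    (hW : ∀ p' : Cond H, Ext p' p → p' ∉ Wr (nxt H)
      (fun d' => ¬ Sound (nxt H d') Θ (ed F h d') A (cB A d')))
    {m : ℕ} {g U : ℕ → ℕ}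
    (hg : ∀ k d e, Bt (g k) (pr d e) ↔ d < 2 ^ pr (pr k k) k ∧ e < tow m k ∧
      e = F (Nat.pair (h k) d)) {N : ℕ} (hU : ∀ k, StT A.R (A.p k) k N (U k))
    (hN : ∀ r, Bt p.F r → r < N) {p' : Cond H} (hp' : Ext p' p) {K : ℕ → ℕ} (hK : K ∈ H)
    {Q w : ℕ → ℕ} (hw : w ∈ H) (hwn : Ns w)
    (hR : ∀ᶠ k in Uf, ∀ d', Bt (p'.q k) d' →
        R5 A Θ p.F (tow p'.n k) p'.n p'.F (K k) (Q k) (w k) d'
          (pr (pr (A.p k) k) (pr (g k) (U k)))) : A.dis K := by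
  have i1 : ∀ (g0 g1 g2 g3 g4 : (ℕ → ℕ) → ℕ) [PT g0] [PT g1] [PT g2] [PT g3] [PT g4],
      PP (fun v => BSt A.R (g0 v) (g1 v) (g2 v) (g3 v) (g4 v)) :=
    fun g0 g1 g2 g3 g4 _ _ _ _ _ => pp_BSt5 A.d0 g0 g1 g2 g3 g4
  have i2 : ∀ (g0 g1 g2 g3 g4 g5 g6 : (ℕ → ℕ) → ℕ) [PT g0] [PT g1] [PT g2] [PT g3] [PT g4]
      [PT g5] [PT g6], PP (fun v => Bh A.R (g0 v) (g1 v) (g2 v) (g3 v) (g4 v) (g5 v) (g6 v)) :=
    fun g0 g1 g2 g3 g4 g5 g6 _ _ _ _ _ _ _ => pp_Bh5 A.d0 g0 g1 g2 g3 g4 g5 g6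
  have i3 := pp_cl5 Θ
  -- freeze the rows outside the promise
  obtain ⟨u, hu, hun, -, hB⟩ := p'.ex_big hH
  have hv : (fun k => u k - 1) ∈ H := hH.sub hu (hH.const 1)
  have hvn : Ns (fun k => u k - 1) := fun n => (hun (n + 1)).mono fun k hk => by
    change n ≤ u k - 1
    omega
  obtain ⟨p'', hn, hF'', hext, hfr, -, -⟩ := p'.freeze hH (hH.const 0) (v := fun k => u k - 1) hun
    hv ((hun 1).mono fun k hk => by change u k - 1 < u k; omega) hB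
  have hnw := hW p'' (hext.trans hp')
  simp only [Wr, Set.mem_ofPred_eq, not_forall, not_not] at hnw
  obtain ⟨d, G, hG, ⟨i, hi⟩, hS⟩ := hnw
  have hd : ∀ᶠ k in Uf, Bt (p''.q k) (d k) := by
    filter_upwards [hG.mem i, hi.2.2] with k h1 h2
    exact (sub_iff.1 h2) _ h1
  have hd' : ∀ᶠ k in Uf, Bt (p'.q k) (d k) := by
    filter_upwards [hd, hext.2.2] with k h1 h2
    exact (sub_iff.1 h2) _ h1
  -- the claim
  have hcl : ∀ᶠ k in Uf, p'.F = p.F ∧ w k ≤ k ∧ ∃ P, P < tow p'.n k ∧ ∃ Z, Z < tow p'.n k ∧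
      (Θ.cl (ed F h d k) k p'.n (K k) P Z ∧
        (∀ z, z < P → (Bt P z → BSt A.R (A.p k) k (d k) p'.n z)) ∧
        ∀ z, z < Z → (Bt Z z → ¬ Bh A.R (A.p k) k (d k) p.F p'.n (w k) z)) := by
    filter_upwards [hR, hd', ev_ge 6] with k h1 h2 h3
    obtain ⟨h4, h5, e, h6, P, Z, h7, h8, h9⟩ := (r5_iff h3 (hU k) hN).1 (h1 _ h2)
    have h10 := ((hg k _ _).1 h6).2.2
    subst h10
    exact ⟨h4, h5, P, h7.2.1, Z, h7.2.2.1, h7, fun z _ hz => h8 z hz, fun z _ hz => h9 z hz⟩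
  have hFF : p'.F = p.F := (ev_exists hcl).choose_spec.1
  have hH' := hull_nxt hH d
  have hT : (fun k => tow p'.n k) ∈ nxt H d := sub_nxt (hH.tow (hH.const _) hH.idm)
  have hed : ed F h d ∈ nxt H d := ⟨F, hF, h, hh, Eventually.of_forall fun k => rfl⟩
  have hmem : ∀ i, asF [ed F h d, fun k => k, K, A.p, d, w] i ∈ nxt H d := asF_mem hH' _ (by
    intro x hx
    simp only [List.mem_cons, List.not_mem_nil, or_false] at hx
    rcases hx with rfl | rfl | rfl | rfl | rfl | rfl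
    · exact hed
    · exact hH'.idm
    · exact sub_nxt hK
    · exact sub_nxt hA.1
    · exact self_nxt hH _
    · exact sub_nxt hw)
  obtain ⟨P, hP, h2⟩ := hH'.sk (R := fun v : ℕ → ℕ => ∃ Z, Z < tow p'.n (v 2) ∧
      (Θ.cl (v 1) (v 2) p'.n (v 3) (v 0) Z ∧
        (∀ z, z < v 0 → (Bt (v 0) z → BSt A.R (v 4) (v 2) (v 5) p'.n z)) ∧
        ∀ z, z < Z → (Bt Z z → ¬ Bh A.R (v 4) (v 2) (v 5) p.F p'.n (v 6) z)))
      inferInstance hmem hT (hcl.mono fun k hk => hk.2.2)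
  obtain ⟨Z, hZ, h3⟩ := hH'.sk (R := fun v : ℕ → ℕ =>
      (Θ.cl (v 2) (v 3) p'.n (v 4) (v 1) (v 0) ∧
        (∀ z, z < v 1 → (Bt (v 1) z → BSt A.R (v 5) (v 3) (v 6) p'.n z)) ∧
        ∀ z, z < v 0 → (Bt (v 0) z → ¬ Bh A.R (v 5) (v 3) (v 6) p.F p'.n (v 7) z)))
      inferInstance (psh_mem hP hmem) hT (h2.mono fun k hk => hk.2.1)
  have h4 : ∀ᶠ k in Uf, Θ.cl (ed F h d k) k p'.n (K k) (P k) (Z k) ∧
        (∀ z, z < P k → (Bt (P k) z → BSt A.R (A.p k) k (d k) p'.n z)) ∧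
        ∀ z, z < Z k → (Bt (Z k) z → ¬ Bh A.R (A.p k) k (d k) p.F p'.n (w k) z) :=
    h3.mono fun k hk => hk.2.1
  refine hS K (sub_nxt hK) P hP Z hZ p'.n (h4.mono fun k hk => hk.1) ⟨p'.n + 5, ?_⟩ ?_
  · filter_upwards [h4, ev_ge 6] with k hk hk6 z hz
    exact cB_of hk6 le_rfl (hk.2.1 z hz.lt hz)
  · intro n
    filter_upwards [h4, hvn n, hwn n, hd] with k hk h5 h6 h7 z hz hb
    refine hk.2.2 z hz.lt hz (bSt_bh (cB_to hb) ?_ ?_ h5 h6)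
    · exact lt_trans hz.lt hk.1.2.2.1
    · intro r hr hrF
      exact hfr k _ h7 r hr (by rw [hFF]; exact hrF)

/-- **Section 5.** -/
theorem sec5 (hH : Hull H) {d : ℕ → ℕ} {G : ℕ → Cond H} (hG : Gen H (nxt H d) d G)
    {A : Ce} (hA : A.over H) {Θ : Fn} {F : ℕ → ℕ} (hF : Primrec F) {h : ℕ → ℕ} (hh : h ∈ H)
    (he : Bd st (ed F h d)) (hred : IsRed (nxt H d) Θ (ed F h d) A (cB A d))
    (hW : ∃ i, ∀ p' : Cond H, Ext p' (G i) → p' ∉ Wr (nxt H)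
      (fun d' => ¬ Sound (nxt H d') Θ (ed F h d') A (cB A d'))) : RedH H A cI := by
  obtain ⟨i, hi⟩ := hW
  obtain ⟨m, hm⟩ := Bd.ex_lt he
  obtain ⟨g, hgH, hgb, hg⟩ := ex_graph hH hF hh m
  obtain ⟨U, hUH, hUb, hU⟩ := ex_StT hH A.d0 hA.1 (G i).n
  refine UL hH (redH_refl hH cI) (G i) ⟨R5 A Θ (G i).F, d0_R5 A Θ (G i).F⟩
    (h := fun k => pr (pr (A.p k) k) (pr (g k) (U k)))
    (hH.pr (hH.pr hA.1 hH.idm) (hH.pr hgH hUH)) ?_ (fun hw hR => hR.anti hw) ?_ ?_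
  · exact Bd.pr (Bd.pr hA.2 Bd.id) (Bd.pr hgb hUb)
  · intro p' hp' K hK Q _ w hw hwn _ _ hR
    exact sec5_snd hH hA hF hh hi hg hU (fun r hr => (G i).hF r hr) hp' hK hw hwn hR
  · intro K hK hKb hd
    exact sec5_cmp hH hG hA hF hh (isRed_iff.1 hred).2 i hm hg hU (fun r hr => (G i).hF r hr) hK
      hKb hd

end Pool.Agent.BSig.Neg
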