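import Pool.Agent.Work.MP_510745_lc.Neg.BDef

/-!
The stages of the c.e. set `cB A d` compared with the semantic stages `BSt`.
-/

namespace Pool.Agent.BSig.Neg

open Filter

theorem Lo.mono {d r m m' n n' : ℕ} (h : Lo d r m n) (hm : m' ≤ m) (hn : n ≤ n') :
    Lo d r m' n' := by
  intro j hj
  obtain ⟨v, hv, h1⟩ := h j (by omega)
  exact ⟨v, lt_of_lt_of_le hv hn, h1⟩

theorem BSt.mono {R : ℕ → ℕ → ℕ → Prop} {p a d n n' x : ℕ} (h : BSt R p a d n x) (hn : n ≤ n') :
    BSt R p a d n' x := by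
  rcases h with h | ⟨r, hr, y, hy, hx, m, hm, h1, h2⟩
  · exact Or.inl (by omega)
  · exact Or.inr ⟨r, by omega, y, hy, hx, m, by omega, h1, h2.mono le_rfl hn⟩

theorem bStD_iff {R : ℕ → ℕ → ℕ → Prop} {w p d a n x : ℕ} (hw : TwS a n w) :
    BStD R w p d n x ↔ BSt R p a d n x := by
  unfold BStD BSt St
  refine or_congr Iff.rfl ?_
  constructor
  · rintro ⟨r, hr, t, ht, h1, z, hz, hx, m, hm, s, hs, h2, h3, h4, h5⟩
    rw [hw.iff (by omega)] at h1 h2
    subst h1 h2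
    exact ⟨r, hr, z, hz, hx, m, hm, ⟨h3, h4⟩, h5⟩
  · rintro ⟨r, hr, y, hy, hx, m, hm, ⟨h3, h4⟩, h5⟩
    exact ⟨r, hr, tow r a, hw.tow_lt (by omega), hw.has r (by omega), y, hy, hx, m, hm, tow m a,
      hw.tow_lt (by omega), hw.has m (by omega), h3, h4, h5⟩

/-- Numbers which enter `B` early are enumerated. -/
theorem cB_of {A : Ce} {d : ℕ → ℕ} {k n N x : ℕ} (hk : 6 ≤ k) (hN : n + 5 ≤ N)
    (h : BSt A.R (A.p k) k (d k) n x) : (cB A d).at k N x := by
  obtain ⟨w, hw, h1⟩ := ex_TwS' k n (le_trans hk (le_tow n k))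
  have hx : x < tow N k := by
    rcases h with h | ⟨r, hr, y, hy, hx, _⟩
    · have := lt_tow_self N k
      omega
    · have h2 := tow_two_mul_le r k (le_trans (by omega) (le_tow r k))
      have h3 : tow (r + 1) k < tow N k := tow_lt (by omega) k
      omega
  refine ⟨hx, tow (n + 4) k, tow_lt (by omega) k, A.p k, ?_, d k, ?_, k, ?_, rfl, w, hw, n, ?_,
    h1, (bStD_iff h1).2 h⟩
  · exact Nat.lt_succ_of_le (le_trans (le_pr_left _ _) (le_pr_left _ _))
  · exact Nat.lt_succ_of_le (le_trans (le_pr_right _ _) (le_pr_left _ _))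
  · exact Nat.lt_succ_of_le (le_pr_right _ _)
  · exact lt_of_lt_of_le (by omega : n < n + 4) (lt_tow_self _ _)

/-- Enumerated numbers are in the semantic stage. -/
theorem cB_to {A : Ce} {d : ℕ → ℕ} {k N x : ℕ} (h : (cB A d).at k N x) :
    BSt A.R (A.p k) k (d k) N x := by
  obtain ⟨_, y, hy, p, _, e, _, a, _, hu, w, hw, n, _, h1, h2⟩ := h
  obtain ⟨h3, rfl⟩ := pr_inj hu
  obtain ⟨rfl, rfl⟩ := pr_inj h3
  rw [bStD_iff h1] at h2
  refine h2.mono ?_
  have h4 : tow n k < tow N k := lt_trans (h1.tow_lt le_rfl) (lt_trans hw hy)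
  exact (tow_lt_iff.1 h4).le

/-- Two elements of rows coincide only in the same row. -/
theorem row_uniq {a r r' y y' : ℕ} (ha : 1 ≤ a) (hy : y < tow r a) (hy' : y' < tow r' a)
    (h : tow r a + y = tow r' a + y') : r = r' ∧ y = y' := by
  have key : ∀ s s' z z', z < tow s a → tow s a + z = tow s' a + z' → ¬ s < s' := by
    intro s s' z z' hz he hs
    have h1 := tow_two_mul_le s a (le_trans ha (le_tow s a))
    have h2 : tow (s + 1) a ≤ tow s' a := tow_mono_left hs a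
    omega
  have h1 : r = r' := by
    rcases lt_trichotomy r r' with h1 | h1 | h1
    · exact absurd h1 (key _ _ _ _ hy h)
    · exact h1
    · exact absurd h1 (key _ _ _ _ hy' h.symm)
  subst h1
  exact ⟨rfl, by omega⟩

/-- The elements of row `r` in a stage of `B`. -/
theorem bSt_row {R : ℕ → ℕ → ℕ → Prop} {p a d n r y : ℕ} (ha : 1 ≤ a) (hn : n ≤ a)
    (hy : y < tow r a) : BSt R p a d n (tow r a + y) ↔
      r < n ∧ ∃ m, m < n ∧ St R p a m y ∧ Lo d r m n := by
  constructor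
  · rintro (h | ⟨r', hr, y', hy', hx, m, hm, h1, h2⟩)
    · have := le_tow r a
      omega
    · obtain ⟨rfl, rfl⟩ := row_uniq ha hy hy' hx
      exact ⟨hr, m, hm, h1, h2⟩
  · rintro ⟨hr, m, hm, h1, h2⟩
    exact Or.inr ⟨r, hr, y, hy, rfl, m, hm, h1, h2⟩

end Pool.Agent.BSig.Neg
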