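import Pool.Agent.Work.MP_510745_lc.Neg.Wr
import Pool.Agent.Work.MP_510745_lc.Neg.Next
import Pool.Agent.Work.MP_510745_lc.Neg.Graph
import Pool.Agent.Work.MP_510745_lc.Neg.BAt
import Pool.Agent.Work.MP_510745_lc.Neg.Force
import Pool.Agent.Work.MP_510745_lc.Neg.Refl

/-!
Section 6: if the new set `cB A d` is reducible to the cut over the extension, then `A` is
reducible to the cut over the ground hull.
-/

namespace Pool.Agent.BSig.Neg

open Filter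

variable {H : Set (ℕ → ℕ)}

/-- The claims of the functional about row `r`, read at the array `d`; `u = pr g a` where `g` codes
the graph of the parameter and `a` is the base of the towers. -/
def R6 (Θ : ℕ → ℕ → ℕ → ℕ → ℕ → Prop) (S n G K _Q w d u : ℕ) : Prop :=
  ∃ g, g < u + 1 ∧ ∃ a, a < u + 1 ∧ (u = pr g a ∧ ∃ r, r < n ∧ (Bt G r ∧ ∃ t, t < S ∧
    (IsT a r t S ∧ K < 2 ^ t ∧ K * 2 ^ t < S ∧ ∃ e, e < g ∧ (Gv g d e ∧ ∃ P, P < S ∧
      ((∀ x, x < P → Bt P x → x < n) ∧ ∃ Z, Z < S ∧ ((∀ x, x < w → ¬ Bt Z x) ∧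
        ∃ y, y < S ∧ Θ y (K * 2 ^ t) P Z e))))))

set_option synthInstance.maxSize 100000

theorem d0_R6 {Θ : ℕ → ℕ → ℕ → ℕ → ℕ → Prop}
    (hΘ : D0 (fun v => Θ (v 0) (v 1) (v 2) (v 3) (v 4))) :
    D0 (fun v => R6 Θ (v 0) (v 1) (v 2) (v 3) (v 4) (v 5) (v 6) (v 7)) := by
  have hΘ' : ∀ (g0 g1 g2 g3 g4 : (ℕ → ℕ) → ℕ) [DT g0] [DT g1] [DT g2] [DT g3] [DT g4],
      D0 (fun v => Θ (g0 v) (g1 v) (g2 v) (g3 v) (g4 v)) := fun g0 g1 g2 g3 g4 _ _ _ _ _ => D0.s5 hΘ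
  unfold R6
  infer_instance

theorem R6.anti {Θ : ℕ → ℕ → ℕ → ℕ → ℕ → Prop} {S n G K Q w w' d u : ℕ} (hw : w' ≤ w)
    (h : R6 Θ S n G K Q w d u) : R6 Θ S n G K Q w' d u := by
  obtain ⟨g, hg, a, ha, h1, r, hr, h2, t, ht, h3, h4, h5, e, he, h6, P, hP, h7, Z, hZ, h8, h9⟩ := h
  exact ⟨g, hg, a, ha, h1, r, hr, h2, t, ht, h3, h4, h5, e, he, h6, P, hP, h7, Z, hZ,
    fun x hx => h8 x (by omega), h9⟩

theorem sec6 (hH : Hull H) {d : ℕ → ℕ} {G : ℕ → Cond H} (hG : Gen H (nxt H d) d G)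
    {A : Ce} (_hA : A.over H) {Θ : Fn} {F : ℕ → ℕ} (hF : Primrec F) {h : ℕ → ℕ} (hh : h ∈ H)
    (he : Bd st (ed F h d)) (hred : IsRed (nxt H d) Θ (ed F h d) (cB A d) cI)
    (hW : ∃ i, ∀ p' : Cond H, Ext p' (G i) → p' ∉ Wr (nxt H)
      (fun d' => ¬ Sound (nxt H d') Θ (ed F h d') (cB A d') cI)) : RedH H A cI := by
  obtain ⟨i0, hi0⟩ := hW
  obtain ⟨m, hm⟩ := Bd.ex_lt he
  obtain ⟨g, hgH, hgb, hg⟩ := ex_graph hH hF hh m
  have hid : Bd st (fun k => k) := ⟨0, Eventually.of_forall fun _ => le_rfl⟩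
  have hub : Bd st (fun k => pr (g k) k) :=
    ((hgb.add grst hid).mul grst (hgb.add grst hid)).add grst hgb
  refine UL hH (redH_refl hH cI) (G i0) ⟨R6 Θ.R, d0_R6 Θ.d0⟩ (hH.pr hgH hH.idm) hub
    (fun {S n G K Q w w' d h} hw h1 => R6.anti (Q := Q) hw h1) ?_ ?_
  · -- soundness
    intro p' hp' K hK Q hQ w hw hwn _ _ hR
    by_contra hdis
    refine hi0 p' hp' ?_
    rintro d' G' hG' ⟨i', hi'⟩ hS
    have hH' : Hull (nxt H d') := hull_nxt hH d'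
    have hmem : ∀ᶠ k in Uf, Bt (p'.q k) (d' k) := by
      filter_upwards [hG'.mem i', hi'.2.2] with k h1 h2
      exact (sub_iff.1 h2) _ h1
    -- the row
    have h1 : ∀ᶠ k in Uf, ∃ r, r < p'.n ∧ (Bt p'.F r ∧ K k < 2 ^ tow r k ∧
        K k * 2 ^ tow r k < tow p'.n k ∧ ∃ P, P < tow p'.n k ∧
      ((∀ x, x < P → Bt P x → x < p'.n) ∧ ∃ Z, Z < tow p'.n k ∧ ((∀ x, x < w k → ¬ Bt Z x) ∧
        ∃ y, y < tow p'.n k ∧ Θ.R y (K k * 2 ^ tow r k) P Z (ed F h d' k)))) := by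
      filter_upwards [hR, hmem] with k h1 h2
      obtain ⟨g', _, a, _, h3, r, hr, h4, t, _, h5, h6, h7, e, _, h8, h9⟩ := h1 _ h2
      obtain ⟨rfl, rfl⟩ := pr_inj h3
      have h10 := h5.eq
      subst h10
      have h11 := ((hg _ _ _).1 h8).2.2
      subst h11
      exact ⟨r, hr, h4, h6, h7, h9⟩
    obtain ⟨r, hr, h2⟩ := ev_ex_lt _ h1
    have hrF : Bt p'.F r := by
      obtain ⟨k, hk⟩ := ev_exists h2
      exact hk.1
    set K' : ℕ → ℕ := fun k => K k * 2 ^ tow r k with hK'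
    have hK'H : K' ∈ H := hH.mul hK (hH.pow (hH.tow (hH.const r) hH.idm))
    have hed : ed F h d' ∈ nxt H d' := ⟨F, hF, h, hh, Eventually.of_forall fun k => rfl⟩
    have hT : (fun k => tow p'.n k) ∈ H := hH.tow (hH.const _) hH.idm
    have hΘP : ∀ (g0 g1 g2 g3 g4 : (ℕ → ℕ) → ℕ) [PT g0] [PT g1] [PT g2] [PT g3] [PT g4],
      PP (fun v => Θ.R (g0 v) (g1 v) (g2 v) (g3 v) (g4 v)) :=
        fun g0 g1 g2 g3 g4 _ _ _ _ _ => PP.s5 (d0_pp Θ.d0)
    obtain ⟨P, hPH, hP⟩ := hH'.sk4 (R := fun P K' w e T => (∀ x, x < P → Bt P x → x < p'.n) ∧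
      ∃ Z, Z < T ∧ ((∀ x, x < w → ¬ Bt Z x) ∧ ∃ y, y < T ∧ Θ.R y K' P Z e)) inferInstance
      (sub_nxt hK'H) (sub_nxt hw) hed (sub_nxt hT) (sub_nxt hT) (h2.mono fun k hk => hk.2.2.2)
    obtain ⟨Z, hZH, hZ⟩ := hH'.sk5 (R := fun Z P K' w e T => (∀ x, x < w → ¬ Bt Z x) ∧
      ∃ y, y < T ∧ Θ.R y K' P Z e) inferInstance
      hPH (sub_nxt hK'H) (sub_nxt hw) hed (sub_nxt hT) (sub_nxt hT)
      (hP.mono fun k hk => hk.2.1.2)
    have hcl : ∀ᶠ k in Uf, Θ.cl (ed F h d' k) k p'.n (K' k) (P k) (Z k) := by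
      filter_upwards [h2, hP, hZ] with k e1 e2 e3
      exact ⟨e1.2.2.1, e2.1, e3.1, e3.2.1.2⟩
    have hBd := hS K' (sub_nxt hK'H) P hPH Z hZH p'.n hcl
      (cI_sub.2 ⟨p'.n, hP.mono fun k hk x hx => hk.2.1.1 x hx.lt hx⟩)
      (cI_dis.2 fun n => by
        filter_upwards [hZ, hwn n] with k e1 e2 x hx
        by_contra e3
        exact e1.2.1.1 x (by omega) hx)
    -- `A` meets `K`
    unfold Ce.dis at hdis
    push Not at hdis
    obtain ⟨n1, hn1⟩ := hdis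
    obtain ⟨l, hl⟩ := hG'.dom (n1 + 1)
    have hE : Ext (G' (max l i')) p' := (hG'.anti i' _ (le_max_right _ _)).trans hi'
    obtain ⟨b, hb⟩ := (G' (max l i')).std
    have hnl : n1 + 1 ≤ (G' (max l i')).n := le_trans hl (hG'.anti l _ (le_max_left _ _)).1
    have hLo : ∀ᶠ k in Uf, Lo (d' k) r n1 (b + 1) := by
      filter_upwards [hb, hG'.mem (max l i')] with k e1 e2 j hj
      obtain ⟨v, hv, e3⟩ := e1 _ e2 r (hE.2.1 r hrF) j (by omega)
      exact ⟨v, by omega, e3⟩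
    obtain ⟨k, ⟨⟨e1, e2⟩, e3, e4⟩, e5⟩ := ev_exists (((hn1.and h2).and (hLo.and
      (hBd (max (r + 1) (max (n1 + 1) (b + 1)) + 5)))).and (ev_ge 6))
    obtain ⟨z, hz, hzA⟩ := e1
    refine e4 (tow r k + z) ?_ (cB_of e5 le_rfl (Or.inr ⟨r, ?_, z, ?_, rfl, n1, ?_, hzA, ?_⟩))
    · exact (bt_shift_add _ _ _).2 hz
    · omega
    · exact hz.lt_of_lt e2.2.1
    · omega
    · exact e3.mono le_rfl (by omega)
  · -- completeness
    intro K hK hKb hdis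
    obtain ⟨N0, hN0⟩ := Bd.ex_lt hKb
    obtain ⟨i1, r, hr, hrF⟩ := hG.rows N0
    have hH' : Hull (nxt H d) := hull_nxt hH d
    set K' : ℕ → ℕ := fun k => K k * 2 ^ tow r k with hK'
    have hK'H : K' ∈ H := hH.mul hK (hH.pow (hH.tow (hH.const r) hH.idm))
    have hK'b : Bd st K' := hKb.mul grst (Bd.pow grst ⟨r, Eventually.of_forall fun _ => le_rfl⟩)
    have hKr : ∀ᶠ k in Uf, K k < 2 ^ tow r k := by
      filter_upwards [hN0] with k e1
      have e2 := tow_mono hr k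
      have e3 : tow r k < 2 ^ tow r k := Nat.lt_two_pow_self
      omega
    have hBdis : (cB A d).dis K' := by
      intro n
      filter_upwards [hdis n, hKr, ev_ge 1, ev_ge n] with k e1 e2 e3 e4 x hx hxB
      obtain ⟨z, rfl, hz⟩ := (bt_shift _ _ _).1 hx
      obtain ⟨_, m', hm', e5, _⟩ := (bSt_row e3 e4 (hz.lt_of_lt e2)).1 (cB_to hxB)
      exact e1 z hz (e5.mono hm'.le)
    obtain ⟨P, hPH, Z, hZH, n, hcl, hPs, hZd⟩ := (isRed_iff.1 hred).2 K' (sub_nxt hK'H) hK'b hBdis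
    obtain ⟨n1, hn1⟩ := cI_sub.1 hPs
    obtain ⟨ν, hνH, hνn, hνk, hν⟩ := hH'.over1 (R := fun n Z => ∀ x, x < n → ¬ Bt Z x) inferInstance
      hZH (fun n => by
        filter_upwards [cI_dis.1 hZd n] with k e1 x hx hb
        exact absurd (e1 x hb) (by omega))
    obtain ⟨w, hwH, hwn, hwν⟩ := hG.coi ν hνH hνn
    -- the set of the arrays with such a claim
    have hq : PT (fun v : ℕ → ℕ => cds (fun d => F (Nat.pair (v 0) d) < tow m (v 1) ∧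
        ∃ P, P < tow n (v 1) ∧ ((∀ x, x < P → Bt P x → x < n1) ∧ ∃ Z, Z < tow n (v 1) ∧
          ((∀ x, x < v 2 → ¬ Bt Z x) ∧ v 3 < tow n (v 1) ∧ ∃ y, y < tow n (v 1) ∧
            Θ.R y (v 3) P Z (F (Nat.pair (v 0) d)))))
        (2 ^ pr (pr (v 1) (v 1)) (v 1))) := by
      have hF' : ∀ (f : (ℕ → ℕ) → ℕ) [PT f], PT (fun v => F (f v)) := fun f _ => PT.comp1 hF
      have hΘP : ∀ (g0 g1 g2 g3 g4 : (ℕ → ℕ) → ℕ) [PT g0] [PT g1] [PT g2] [PT g3] [PT g4],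
        PP (fun v => Θ.R (g0 v) (g1 v) (g2 v) (g3 v) (g4 v)) :=
          fun g0 g1 g2 g3 g4 _ _ _ _ _ => PP.s5 (d0_pp Θ.d0)
      infer_instance
    have hqH := hH.pt hq (v := asF [h, fun k => k, w, K']) (asF_mem hH _ (by
      intro x hx
      simp only [List.mem_cons, List.not_mem_nil, or_false] at hx
      rcases hx with rfl | rfl | rfl | rfl
      · exact hh
      · exact hH.idm
      · exact hwH
      · exact hK'H))
    set q1 : ℕ → ℕ := fun k => cds (fun d => F (Nat.pair (h k) d) < tow m k ∧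
        ∃ P, P < tow n k ∧ ((∀ x, x < P → Bt P x → x < n1) ∧ ∃ Z, Z < tow n k ∧
          ((∀ x, x < w k → ¬ Bt Z x) ∧ K' k < tow n k ∧ ∃ y, y < tow n k ∧
            Θ.R y (K' k) P Z (F (Nat.pair (h k) d)))))
        (2 ^ pr (pr k k) k) with hq1
    have hq1H : q1 ∈ H := hqH
    have hdq : ∀ᶠ k in Uf, Bt (q1 k) (d k) := by
      filter_upwards [hm, hcl, hn1, hν, hwν, hG.mem 0, (G 0).cod] with k e1 e2 e3 e4 e5 e6 e7
      rw [hq1]
      refine bt_cds.2 ⟨e7 _ e6, e1, P k, e2.2.1, fun x _ hx => e3 x hx, Z k, e2.2.2.1,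
        fun x hx => ?_, e2.1, e2.2.2.2⟩
      exact e4 (ν k) le_rfl x (by omega)
    obtain ⟨i2, hi2⟩ := hG.dec q1 hq1H
    have hsub : ∀ᶠ k in Uf, Sub ((G i2).q k) (q1 k) := by
      rcases hi2 with e1 | e1
      · exact e1
      · obtain ⟨k, ⟨e2, e3⟩, e4⟩ := ev_exists ((e1.and hdq).and (hG.mem i2))
        exact absurd e3 (e2 _ e4)
    obtain ⟨i3, hi3⟩ := hG.dom (max n (max n1 (r + 4)))
    set l := max (max i0 i1) (max i2 i3) with hl
    have l0 : Ext (G l) (G i0) := hG.anti _ _ (by omega)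
    have l1 : Ext (G l) (G i1) := hG.anti _ _ (by omega)
    have l2 : Ext (G l) (G i2) := hG.anti _ _ (by omega)
    have l3 : Ext (G l) (G i3) := hG.anti _ _ (by omega)
    have hln : max n (max n1 (r + 4)) ≤ (G l).n := le_trans hi3 l3.1
    refine ⟨G l, l0, fun _ => 0, hH.const 0, w, hwH, Bd.const grst 0, hwn, ?_, ?_, ?_⟩
    · filter_upwards [hwν, hνk] with k e1 e2
      omega
    · intro n'
      exact Eventually.of_forall fun k x hx => absurd hx.lt (Nat.not_lt_zero x)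
    · filter_upwards [hsub, l2.2.2, (G l).cod, hKr, ev_ge 6] with k e1 e2 e3 e4 e5 d' hd'
      have e6 : Bt (q1 k) d' := (sub_iff.1 (e2.trans e1)) _ hd'
      rw [hq1] at e6
      obtain ⟨e7, e8, P', hP', e9, Z', hZ', e10, e11, y, hy, e12⟩ := bt_cds.1 e6
      have hgv : Gv (g k) d' (F (Nat.pair (h k) d')) := (hg _ _ _).2 ⟨e7, e8, rfl⟩
      have hTn : tow n k ≤ tow (G l).n k := tow_mono (by omega) k
      refine ⟨g k, Nat.lt_succ_of_le (le_pr_left _ _), k, Nat.lt_succ_of_le (le_pr_right _ _), rfl,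
        r, by omega, l1.2.1 r hrF, tow r k, tow_lt (by omega) k, isT_self e5 (by omega), e4,
        lt_of_lt_of_le e11 hTn, _, (bt_pr_lt hgv).2, hgv, P', lt_of_lt_of_le hP' hTn,
        fun x hx hb => lt_of_lt_of_le (e9 x hx hb) (by omega), Z', lt_of_lt_of_le hZ' hTn, e10,
        y, lt_of_lt_of_le hy hTn, e12⟩

end Pool.Agent.BSig.Neg
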