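import Pool.Agent.Work.MP_510745_lc.Neg.R7
import Pool.Agent.Work.MP_510745_lc.Neg.Force

/-!
Section 7: a reduction of `X` to `Y` over the hull of a generic comes from one over `H`.
-/

namespace Pool.Agent.BSig.Neg

open Filter Pool.Agent.BSig

variable {H : Set (ℕ → ℕ)}

/-- A reduction over the hull of a generic comes from a reduction over `H`. -/
theorem sec7 (hH : Hull H) {d : ℕ → ℕ} {G : ℕ → Cond H} (hG : Gen H (nxt H d) d G)
    {X Y : Ce} (hX : X.over H) (hY : Y.over H) (hI : RedH H cI Y)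
    {Θ : Fn} {F : ℕ → ℕ} (hF : Primrec F) {h : ℕ → ℕ} (hh : h ∈ H)
    (he : Bd st (ed F h d)) (hred : IsRed (nxt H d) Θ (ed F h d) X Y)
    (hW : ∃ i, ∀ p' : Cond H, Ext p' (G i) → p' ∉ Wr (nxt H)
      (fun d' => ¬ Sound (nxt H d') Θ (ed F h d') X Y)) : RedH H X Y := by
  obtain ⟨i0, hW⟩ := hW
  obtain ⟨m, hm⟩ := Bd.ex_lt he
  obtain ⟨g, hg, hgb, hgr⟩ := ex_graph hH hF hh m
  have hgd : ∀ᶠ k in Uf, Gv (g k) (d k) (ed F h d k) := by
    filter_upwards [hm, (G 0).cod, hG.mem 0] with k a1 a2 a3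
    exact (hgr k _ _).2 ⟨a2 _ a3, a1, rfl⟩
  refine UL hH hI (G i0) ⟨fun S _ _ K Q _ d h => R7 Y Θ S K Q d h, D0.s5 (P := R7 Y Θ) (d0_R7 Y Θ)⟩
    (h := fun k => pr (g k) (Y.p k)) (hH.pr hg hY.1)
    (((hgb.add grst hY.2).mul grst (hgb.add grst hY.2)).add grst hgb)
    (fun _ h => h) ?_ ?_
  · intro p' hp' K hK Q hQ w _ _ _ hd hR
    exact r7_snd hH hY.1 hF hh (fun k d e h => ((hgr k d e).1 h).2.2) (hW p' hp') hK hQ hd hR
  · intro K hK hKb hKd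
    obtain ⟨p', hp', Q, hQ, hQb, hQd, hR⟩ :=
      r7_cmp hH hY.1 hg hG hgd (isRed_iff.1 hred).2 i0 hK hKb hKd
    exact ⟨p', hp', Q, hQ, fun k => k, hH.idm, hQb, fun n => ev_ge n,
      Eventually.of_forall fun _ => le_rfl, hQd, hR⟩

end Pool.Agent.BSig.Neg
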