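import Pool.Agent.Work.MP_510745_lc.Neg.Wr
import Pool.Agent.Work.MP_510745_lc.Neg.Next
import Pool.Agent.Work.MP_510745_lc.Neg.Generic
import Pool.Agent.Work.MP_510745_lc.Neg.Force
import Pool.Agent.Work.MP_510745_lc.Neg.Abs
import Pool.Agent.Work.MP_510745_lc.Neg.Sec4I
import Pool.Agent.Work.MP_510745_lc.Neg.Sec4B
import Pool.Agent.Work.MP_510745_lc.Neg.Sec5
import Pool.Agent.Work.MP_510745_lc.Neg.Sec6
import Pool.Agent.Work.MP_510745_lc.Neg.Sec7

/-!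
One step of the iteration: for every countable hull `H` the generic extension `nxt H d`.
-/

namespace Pool.Agent.BSig.Neg

open Filter

/-! ### Countability of the syntax -/

deriving instance Countable for Tm
deriving instance Countable for Fm

/-- A formula determines a functional. -/
theorem countable_fn : Countable Fn := by
  classical
  have h : ∀ Θ : Fn, ∃ f : Fm, ∀ v, f.holds natS v ↔ Θ.R (v 0) (v 1) (v 2) (v 3) (v 4) :=
    fun Θ => Θ.d0.ex
  choose f hf using h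
  refine Function.Injective.countable (f := f) fun Θ Θ' h => ?_
  have h1 : Θ.R = Θ'.R := by
    funext a b c d e
    apply propext
    have h2 := hf Θ (fun i => [a, b, c, d, e].getD i 0)
    have h3 := hf Θ' (fun i => [a, b, c, d, e].getD i 0)
    rw [h] at h2
    exact h2.symm.trans h3
  cases Θ; cases Θ'
  cases h1
  rfl

/-- The relations of c.e. sets. -/
structure CeR where
  R : ℕ → ℕ → ℕ → Prop
  d0 : D0 (fun v => R (v 0) (v 1) (v 2))

/-- The c.e. set with a given parameter. -/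
def CeR.ce (X : CeR) (p : ℕ → ℕ) : Ce := ⟨X.R, X.d0, p⟩

theorem countable_ceR : Countable CeR := by
  classical
  have h : ∀ X : CeR, ∃ f : Fm, ∀ v, f.holds natS v ↔ X.R (v 0) (v 1) (v 2) := fun X => X.d0.ex
  choose f hf using h
  refine Function.Injective.countable (f := f) fun X X' h => ?_
  have h1 : X.R = X'.R := by
    funext a b c
    apply propext
    have h2 := hf X (fun i => [a, b, c].getD i 0)
    have h3 := hf X' (fun i => [a, b, c].getD i 0)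
    rw [h] at h2
    exact h2.symm.trans h3
  cases X; cases X'
  cases h1
  rfl

/-! ### Change of the parameters modulo the ultrafilter -/

/-- The same c.e. set with another name of the parameter. -/
def Ce.eqv (X X' : Ce) : Prop := X.R = X'.R ∧ ∀ᶠ k in Uf, X.p k = X'.p k

theorem Ce.eqv.refl (X : Ce) : X.eqv X := ⟨rfl, Eventually.of_forall fun _ => rfl⟩

theorem Ce.eqv.symm {X X' : Ce} (h : X.eqv X') : X'.eqv X :=
  ⟨h.1.symm, h.2.mono fun _ h => h.symm⟩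

theorem Ce.eqv.dis {X X' : Ce} (h : X.eqv X') (K : ℕ → ℕ) : X.dis K ↔ X'.dis K := by
  refine forall_congr' fun n => eventually_congr ?_
  filter_upwards [h.2] with k hk
  simp only [Ce.at, h.1, hk]

theorem Ce.eqv.sub {X X' : Ce} (h : X.eqv X') (K : ℕ → ℕ) : X.sub K ↔ X'.sub K := by
  refine exists_congr fun n => eventually_congr ?_
  filter_upwards [h.2] with k hk
  simp only [Ce.at, h.1, hk]

theorem IsRed.congr {H : Set (ℕ → ℕ)} {Θ : Fn} {e e' : ℕ → ℕ} {X X' Y Y' : Ce}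
    (he : ∀ᶠ k in Uf, e k = e' k) (hX : X.eqv X') (hY : Y.eqv Y') (h : IsRed H Θ e X Y) :
    IsRed H Θ e' X' Y' := by
  intro K hK hb
  rw [← hX.dis K, h K hK hb]
  refine exists_congr fun P => and_congr_right fun _ => exists_congr fun Q =>
    and_congr_right fun _ => exists_congr fun n => ?_
  rw [hY.sub P, hY.dis Q]
  refine and_congr_left fun _ => eventually_congr ?_
  filter_upwards [he] with k hk
  rw [hk]

theorem RedH.congr {H : Set (ℕ → ℕ)} {X X' Y Y' : Ce} (hX : X.eqv X') (hY : Y.eqv Y')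
    (h : RedH H X Y) : RedH H X' Y' := by
  obtain ⟨Θ, e, he, hb, h1⟩ := h
  exact ⟨Θ, e, he, hb, h1.congr (Eventually.of_forall fun _ => rfl) hX hY⟩

theorem cB_eqv {A A' : Ce} (h : A.eqv A') (d : ℕ → ℕ) : (cB A d).eqv (cB A' d) := by
  refine ⟨by simp only [cB, h.1], ?_⟩
  filter_upwards [h.2] with k hk
  simp only [cB, hk]

/-- A name from the enumeration. -/
theorem Ce.over.name {H : Set (ℕ → ℕ)} {e : ℕ → ℕ → ℕ} (he : ∀ i, e i ∈ H)
    (hc : ∀ h ∈ H, ∃ i, ∀ᶠ k in Uf, h k = e i k) {X : Ce} (hX : X.over H) :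
    ∃ (R : CeR) (i : ℕ), X.eqv (R.ce (e i)) ∧ (R.ce (e i)).over H := by
  obtain ⟨i, hi⟩ := hc X.p hX.1
  refine ⟨⟨X.R, X.d0⟩, i, ⟨rfl, hi⟩, he i, ?_⟩
  exact Bd.mono hX.2 (hi.mono fun k hk => by rw [hk]; exact le_rfl)

/-! ### The families of sets of conditions -/

/-- Requirement of section 5. -/
def W5 (H : Set (ℕ → ℕ)) (Θ : Fn) (F : ℕ → ℕ) (h : ℕ → ℕ) (A : Ce) : Set (Cond H) :=
  Wr (nxt H) (fun d' => ¬ Sound (nxt H d') Θ (ed F h d') A (cB A d'))

/-- Requirement of section 6. -/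
def W6 (H : Set (ℕ → ℕ)) (Θ : Fn) (F : ℕ → ℕ) (h : ℕ → ℕ) (A : Ce) : Set (Cond H) :=
  Wr (nxt H) (fun d' => ¬ Sound (nxt H d') Θ (ed F h d') (cB A d') cI)

/-- Requirement of section 7. -/
def W7 (H : Set (ℕ → ℕ)) (Θ : Fn) (F : ℕ → ℕ) (h : ℕ → ℕ) (X Y : Ce) : Set (Cond H) :=
  Wr (nxt H) (fun d' => ¬ Sound (nxt H d') Θ (ed F h d') X Y)

/-- One step. -/
theorem step {H : Set (ℕ → ℕ)} (hH : Hull H) (hc : Cnt H) :
    ∃ H', H ⊆ H' ∧ Hull H' ∧ Cnt H' ∧ COI H H' ∧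
    (∀ X Y : Ce, X.over H → Y.over H → RedH H cI Y → ¬ RedH H X Y → ¬ RedH H' X Y) ∧
    ∀ A : Ce, A.over H → RedH H cI A → ¬ RedH H A cI → ∃ B : Ce, B.over H' ∧
      RedH H' cI B ∧ ¬ RedH H' B cI ∧ RedH H' B A ∧ ¬ RedH H' A B := by
  obtain ⟨e, he, hce⟩ := hc
  obtain ⟨E, hE, hE'⟩ := ex_enum
  have := countable_fn
  have := countable_ceR
  -- the family
  let F5 : Fn × ℕ × ℕ × CeR × ℕ → Set (Cond H) := fun t =>
    W5 H t.1 (E t.2.1) (e t.2.2.1) (t.2.2.2.1.ce (e t.2.2.2.2))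
  let F6 : Fn × ℕ × ℕ × CeR × ℕ → Set (Cond H) := fun t =>
    W6 H t.1 (E t.2.1) (e t.2.2.1) (t.2.2.2.1.ce (e t.2.2.2.2))
  let F7 : Fn × ℕ × ℕ × CeR × ℕ × CeR × ℕ → Set (Cond H) := fun t =>
    W7 H t.1 (E t.2.1) (e t.2.2.1) (t.2.2.2.1.ce (e t.2.2.2.2.1))
      (t.2.2.2.2.2.1.ce (e t.2.2.2.2.2.2))
  obtain ⟨d, G, hG, hdec⟩ := exists_gen hH ⟨e, he, hce⟩
    (Set.range F5 ∪ Set.range F6 ∪ Set.range F7)
    (((Set.countable_range F5).union (Set.countable_range F6)).union (Set.countable_range F7))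
  have hd : d ∈ nxt H d := self_nxt hH d
  have hdb : Bd st d := by
    refine Bd.mono (g := fun k => 2 ^ pr (pr k k) k)
      (Bd.two_pow (Bd.pr (Bd.pr Bd.id Bd.id) Bd.id)) ?_
    filter_upwards [hG.mem 0, (G 0).cod] with k h1 h2
    exact (h2 _ h1).le
  have hH' : Hull (nxt H d) := hull_nxt hH d
  have hsub : H ⊆ nxt H d := fun h hh => sub_nxt hh
  -- names of functional parameters
  have hname : ∀ x ∈ nxt H d, ∃ i j : ℕ, ∀ᶠ k in Uf, x k = ed (E i) (e j) d k := by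
    rintro x ⟨F, hF, h, hh, h1⟩
    obtain ⟨i, rfl⟩ := hE' F hF
    obtain ⟨j, hj⟩ := hce h hh
    refine ⟨i, j, ?_⟩
    filter_upwards [h1, hj] with k h2 h3
    rw [h2, h3, ed]
  refine ⟨nxt H d, hsub, hH', cnt_nxt ⟨e, he, hce⟩ d, hG.coi, ?_, ?_⟩
  · rintro X Y hX hY hI hn ⟨Θ, x, hx, hxb, hred⟩
    obtain ⟨i, j, hij⟩ := hname x hx
    obtain ⟨RX, iX, hX1, hX2⟩ := hX.name he hce
    obtain ⟨RY, iY, hY1, hY2⟩ := hY.name he hce
    have hred' : IsRed (nxt H d) Θ (ed (E i) (e j) d) (RX.ce (e iX)) (RY.ce (e iY)) :=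
      hred.congr hij hX1 hY1
    have hb' : Bd st (ed (E i) (e j) d) :=
      Bd.mono hxb (hij.mono fun k hk => by rw [hk])
    obtain ⟨l, hl⟩ := hdec (W7 H Θ (E i) (e j) (RX.ce (e iX)) (RY.ce (e iY)))
      (Or.inr ⟨(Θ, i, j, RX, iX, RY, iY), rfl⟩)
    rcases hl with hl | hl
    · exact hl d G hG ⟨l, Ext.refl _⟩ (isRed_iff.1 hred').1
    · have h7 := sec7 hH hG hX2 hY2 (hI.congr (Ce.eqv.refl _) hY1) (hE i) (he j) hb' hred'
        ⟨l, hl⟩
      exact hn (h7.congr hX1.symm hY1.symm)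
  · intro A hA hI hn
    obtain ⟨RA, iA, hA1, hA2⟩ := hA.name he hce
    set A' := RA.ce (e iA) with hA'
    have hI' : RedH H cI A' := hI.congr (Ce.eqv.refl _) hA1
    have hn' : ¬ RedH H A' cI := fun h => hn (h.congr hA1.symm (Ce.eqv.refl _))
    have hAo : A'.over (nxt H d) := ⟨hsub hA2.1, hA2.2⟩
    have hI'' : RedH (nxt H d) cI A' :=
      abs_up hH hH' hsub hG.coi ⟨hH.idm, Bd.id⟩ hA2 hI'
    have hBo : (cB A' d).over (nxt H d) :=
      ⟨hH'.pr (hH'.pr hAo.1 hd) hH'.idm, Bd.pr (Bd.pr hAo.2 hdb) Bd.id⟩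
    refine ⟨cB A' d, hBo, sec4_IB hH' hAo hd hdb, ?_, ?_, ?_⟩
    · rintro ⟨Θ, x, hx, hxb, hred⟩
      obtain ⟨i, j, hij⟩ := hname x hx
      have hred' : IsRed (nxt H d) Θ (ed (E i) (e j) d) (cB A' d) cI :=
        hred.congr hij (Ce.eqv.refl _) (Ce.eqv.refl _)
      have hb' : Bd st (ed (E i) (e j) d) :=
        Bd.mono hxb (hij.mono fun k hk => by rw [hk])
      obtain ⟨l, hl⟩ := hdec (W6 H Θ (E i) (e j) A')
        (Or.inl (Or.inr ⟨(Θ, i, j, RA, iA), rfl⟩))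
      rcases hl with hl | hl
      · exact hl d G hG ⟨l, Ext.refl _⟩ (isRed_iff.1 hred').1
      · exact hn' (sec6 hH hG hA2 (hE i) (he j) hb' hred' ⟨l, hl⟩)
    · exact (sec4_BA hH' hAo hI'' hd hdb).congr (Ce.eqv.refl _) hA1.symm
    · rintro ⟨Θ, x, hx, hxb, hred⟩
      obtain ⟨i, j, hij⟩ := hname x hx
      have hred' : IsRed (nxt H d) Θ (ed (E i) (e j) d) A' (cB A' d) :=
        hred.congr hij hA1 (Ce.eqv.refl _)
      have hb' : Bd st (ed (E i) (e j) d) :=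
        Bd.mono hxb (hij.mono fun k hk => by rw [hk])
      obtain ⟨l, hl⟩ := hdec (W5 H Θ (E i) (e j) A')
        (Or.inl (Or.inl ⟨(Θ, i, j, RA, iA), rfl⟩))
      rcases hl with hl | hl
      · exact hl d G hG ⟨l, Ext.refl _⟩ (isRed_iff.1 hred').1
      · exact hn' (sec5 hH hG hA2 (hE i) (he j) hb' hred' ⟨l, hl⟩)

end Pool.Agent.BSig.Neg
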