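import Pool.Agent.Work.MP_510745_lc.Ultra
import Pool.Agent.Work.MP_510745_lc.Univ3

/-!
Negative half: germs of functions, c.e. sets and functionals with one parameter, reductions over a
set `H` of functions.
-/

namespace Pool.Agent.BSig.Neg

open Filter

/-- The bounds: `st n k` is the `n`-fold iterated exponential of `k`. -/
def st (n k : ℕ) : ℕ := tow n k

theorem grst : Gr st where
  mono := fun n k => tow_le_succ n k
  exp := fun _ => Eventually.of_forall fun _ => le_rfl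

/-- Nonstandard numbers. -/
def Ns (ν : ℕ → ℕ) : Prop := ∀ n, ∀ᶠ k in Uf, n ≤ ν k

/-- Every nonstandard element of `H'` is above a nonstandard element of `H`. -/
def COI (H H' : Set (ℕ → ℕ)) : Prop :=
  ∀ x ∈ H', Ns x → ∃ ν ∈ H, Ns ν ∧ ∀ᶠ k in Uf, ν k ≤ x k

/-- Stage `n` of the c.e. set defined by `R` and the parameter `p`. -/
def St (R : ℕ → ℕ → ℕ → Prop) (p k n x : ℕ) : Prop := x < tow n k ∧ ∃ y, y < tow n k ∧ R y x p

/-- A c.e. set: a bounded relation and one parameter. -/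
structure Ce where
  R : ℕ → ℕ → ℕ → Prop
  d0 : D0 (fun v => R (v 0) (v 1) (v 2))
  p : ℕ → ℕ

/-- The parameter belongs to the model of `H`. -/
def Ce.over (X : Ce) (H : Set (ℕ → ℕ)) : Prop := X.p ∈ H ∧ Bd st X.p

/-- Stage `n` of the set, at the index `k`. -/
def Ce.at (X : Ce) (k n x : ℕ) : Prop := St X.R (X.p k) k n x

/-- The coded set `K` is disjoint from `X`. -/
def Ce.dis (X : Ce) (K : ℕ → ℕ) : Prop := ∀ n, ∀ᶠ k in Uf, ∀ z, Bt (K k) z → ¬ X.at k n z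

/-- The coded set `P` is contained in `X`. -/
def Ce.sub (X : Ce) (P : ℕ → ℕ) : Prop := ∃ n, ∀ᶠ k in Uf, ∀ z, Bt (P k) z → X.at k n z

/-- A functional (negative claims only): `R y K P Q e`. -/
structure Fn where
  R : ℕ → ℕ → ℕ → ℕ → ℕ → Prop
  d0 : D0 (fun v => R (v 0) (v 1) (v 2) (v 3) (v 4))

/-- The claim `(K, P, Q)` of the functional with parameter `e` at stage `n`. -/
def Fn.cl (Θ : Fn) (e k n K P Q : ℕ) : Prop :=
  K < tow n k ∧ P < tow n k ∧ Q < tow n k ∧ ∃ y, y < tow n k ∧ Θ.R y K P Q e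

/-- `Θ` with parameter `e` reduces `X` to `Y` over `H`. -/
def IsRed (H : Set (ℕ → ℕ)) (Θ : Fn) (e : ℕ → ℕ) (X Y : Ce) : Prop :=
  ∀ K ∈ H, Bd st K → (X.dis K ↔ ∃ P ∈ H, ∃ Q ∈ H, ∃ n,
    (∀ᶠ k in Uf, Θ.cl (e k) k n (K k) (P k) (Q k)) ∧ Y.sub P ∧ Y.dis Q)

/-- `X ≤_T Y` over `H`. -/
def RedH (H : Set (ℕ → ℕ)) (X Y : Ce) : Prop :=
  ∃ Θ : Fn, ∃ e ∈ H, Bd st e ∧ IsRed H Θ e X Y

section inst
variable {g0 g1 g2 g3 g4 : (ℕ → ℕ) → ℕ} [h0 : DT g0] [h1 : DT g1] [h2 : DT g2] [h3 : DT g3]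
  [h4 : DT g4]

instance d0_ce (X : Ce) : D0 (fun v => X.R (g0 v) (g1 v) (g2 v)) := D0.s3 X.d0

instance d0_fn (Θ : Fn) : D0 (fun v => Θ.R (g0 v) (g1 v) (g2 v) (g3 v) (g4 v)) := D0.s5 Θ.d0

end inst

/-! ### Monotonicity -/

theorem tow_mono {m n : ℕ} (h : m ≤ n) (k : ℕ) : tow m k ≤ tow n k := tow_mono_left h k

theorem St.mono {R : ℕ → ℕ → ℕ → Prop} {p k m n x : ℕ} (h : m ≤ n) (hx : St R p k m x) :
    St R p k n x := by
  obtain ⟨h1, y, h2, h3⟩ := hx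
  exact ⟨lt_of_lt_of_le h1 (tow_mono h k), y, lt_of_lt_of_le h2 (tow_mono h k), h3⟩

theorem Ce.at.mono {X : Ce} {k m n x : ℕ} (h : m ≤ n) (hx : X.at k m x) : X.at k n x :=
  St.mono h hx

theorem Fn.cl.mono {Θ : Fn} {e k m n K P Q : ℕ} (h : m ≤ n) (hx : Θ.cl e k m K P Q) :
    Θ.cl e k n K P Q := by
  obtain ⟨h1, h2, h3, y, h4, h5⟩ := hx
  exact ⟨lt_of_lt_of_le h1 (tow_mono h k), lt_of_lt_of_le h2 (tow_mono h k),
    lt_of_lt_of_le h3 (tow_mono h k), y, lt_of_lt_of_le h4 (tow_mono h k), h5⟩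

theorem bd_of_lt {f : ℕ → ℕ} {n : ℕ} (h : ∀ᶠ k in Uf, f k < tow n k) : Bd st f :=
  ⟨n, h.mono fun _ h => h.le⟩

theorem Bd.ex_lt {f : ℕ → ℕ} (h : Bd st f) : ∃ n, ∀ᶠ k in Uf, f k < tow n k := by
  obtain ⟨n, hn⟩ := h
  exact ⟨n + 1, hn.mono fun k hk => lt_of_le_of_lt hk Nat.lt_two_pow_self⟩

theorem Ns.ge {ν : ℕ → ℕ} (h : Ns ν) (n : ℕ) : ∀ᶠ k in Uf, n ≤ ν k := h n

theorem Ce.dis_of_ns {X : Ce} {K ν : ℕ → ℕ} (hν : Ns ν)
    (h : ∀ᶠ k in Uf, ∀ z, Bt (K k) z → ¬ X.at k (ν k) z) : X.dis K := by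
  intro n
  filter_upwards [h, hν n] with k h1 h2 z hz h3
  exact h1 z hz (h3.mono h2)

end Pool.Agent.BSig.Neg
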