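import Pool.Agent.Work.MP_510745_lc.Neg.OnePar
import Pool.Agent.Work.MP_510745_lc.Neg.Base

/-!
# The bridge between the model and the germs

`IsMod S rp H`: the elements of `S` are exactly the bounded germs of functions in `H`. The c.e. sets
of `S` are the sets `X.set` of the data `X : Ce` over `H`, and `Red S` is `RedH H`.
-/

namespace Pool.Agent.BSig.Neg

open Filter

/-- The model of the bounded germs in `H`. -/
structure IsMod {M : Type} (S : AStr M) (rp : M → ℕ → ℕ) (H : Set (ℕ → ℕ)) : Prop where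
  ger : Ger S rp
  mem : ∀ x, rp x ∈ H
  bd : ∀ x, Bd st (rp x)
  ex : ∀ h ∈ H, Bd st h → ∃ x : M, ∀ᶠ k in Uf, rp x k = h k
  a : ∃ x : M, ∀ᶠ k in Uf, rp x k = k

/-- The set defined by `X`. -/
def Ce.set (X : Ce) {M : Type} (rp : M → ℕ → ℕ) (x : M) : Prop := ∃ n, ∀ᶠ k in Uf, X.at k n (rp x k)

variable {M : Type} {S : AStr M} {rp : M → ℕ → ℕ} {H : Set (ℕ → ℕ)}

theorem IsMod.L (h : IsMod S rp H) : Los S rp := h.ger.los

theorem IsMod.tw (h : IsMod S rp H) (n : ℕ) : ∃ T : M, ∀ᶠ k in Uf, rp T k = tow n k := by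
  induction n with
  | zero => exact h.a
  | succ n ih =>
    obtain ⟨T, hT⟩ := ih
    refine ⟨S.pow T, ?_⟩
    filter_upwards [hT, h.L.pow T] with k h1 h2
    rw [h2, h1]; rfl

/-- Change of the representatives. -/
theorem Ce.dis_congr {X : Ce} {K K' : ℕ → ℕ} (h : ∀ᶠ k in Uf, K k = K' k) :
    X.dis K ↔ X.dis K' := by
  refine forall_congr' fun n => eventually_congr ?_
  filter_upwards [h] with k hk
  rw [hk]

theorem Ce.sub_congr {X : Ce} {K K' : ℕ → ℕ} (h : ∀ᶠ k in Uf, K k = K' k) :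
    X.sub K ↔ X.sub K' := by
  refine exists_congr fun n => eventually_congr ?_
  filter_upwards [h] with k hk
  rw [hk]

/-- The set defined by `X` as a `Σ₁` set. -/
theorem set_iff (hM : IsMod S rp H) (X : Ce) {p : M} (hp : ∀ᶠ k in Uf, rp p k = X.p k) (x : M) :
    X.set rp x ↔ ∃ y : M, ∀ᶠ k in Uf, X.R (rp y k) (rp x k) (rp p k) := by
  constructor
  · rintro ⟨n, hn⟩
    obtain ⟨T, hT⟩ := hM.tw n
    have h1 : ∀ᶠ k in Uf, ∃ y, y < rp T k ∧ X.R y (rp x k) (rp p k) := by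
      filter_upwards [hn, hT, hp] with k h1 h2 h3
      obtain ⟨_, y, h4, h5⟩ := h1
      exact ⟨y, by rw [h2]; exact h4, by rw [h3]; exact h5⟩
    obtain ⟨y, hy⟩ := hM.L.choose2 (P := fun y x p => X.R y x p) X.d0 T x p h1
    exact ⟨y, hy.mono fun _ h => h.2⟩
  · rintro ⟨y, hy⟩
    obtain ⟨n, hn⟩ := Bd.ex_lt (hM.bd y)
    obtain ⟨m, hm⟩ := Bd.ex_lt (hM.bd x)
    refine ⟨n + m, ?_⟩
    filter_upwards [hn, hm, hp, hy] with k h1 h2 h3 h4
    rw [h3] at h4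
    exact ⟨lt_of_lt_of_le h2 (tow_mono (by omega) k), rp y k,
      lt_of_lt_of_le h1 (tow_mono (by omega) k), h4⟩

theorem Ce.over.param (hM : IsMod S rp H) {X : Ce} (hX : X.over H) :
    ∃ p : M, ∀ᶠ k in Uf, rp p k = X.p k := hM.ex X.p hX.1 hX.2

/-- The sets defined by the data over `H` are c.e. -/
theorem ce_set (hM : IsMod S rp H) {X : Ce} (hX : X.over H) : CE S (X.set rp) := by
  obtain ⟨p, hp⟩ := hX.param hM
  rw [ce_iff_sp]
  have := hM.ger
  have h1 : DP S (fun v : ℕ → M => ∀ᶠ k in Uf, X.R (rp (v 0) k) (rp (v 1) k) (rp p k)) :=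
    dp_g3 hM.L (g0 := fun v => v 0) (g1 := fun v => v 1) (g2 := fun _ => p)
      (P := fun y x p => X.R y x p) X.d0
  have h2 : SP S (fun v : ℕ → M => ∃ y : M, ∀ᶠ k in Uf, X.R (rp y k) (rp (v 0) k) (rp p k)) :=
    @sp_ex _ S rp hM.ger (fun y v => ∀ᶠ k in Uf, X.R (rp y k) (rp (v 0) k) (rp p k))
      (@sp_of_dp _ S rp hM.ger _ h1)
  exact SP.congr S h2 fun v => (set_iff hM X hp (v 0)).symm

/-- Every c.e. set is defined by data over `H`. -/
theorem ex_ce (hM : IsMod S rp H) {A : M → Prop} (hA : CE S A) :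
    ∃ X : Ce, X.over H ∧ ∀ x, A x ↔ X.set rp x := by
  obtain ⟨f, c, hf⟩ := hA
  obtain ⟨R, p, hR, h⟩ := one_param2 hM.L f c
  refine ⟨⟨R, hR, rp p⟩, ⟨hM.mem p, hM.bd p⟩, fun x => ?_⟩
  rw [set_iff hM ⟨R, hR, rp p⟩ (p := p) (Eventually.of_forall fun _ => rfl), hf]
  refine exists_congr fun y => ?_
  rw [hM.L.psh2]
  refine eventually_congr ?_
  filter_upwards [h] with k hk
  exact (hk _ _).symm

/-- Negative queries. -/
theorem neg_set (hM : IsMod S rp H) {X : Ce} (hX : X.over H) (K : M) :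
    Neg S K (X.set rp) ↔ X.dis (rp K) := by
  obtain ⟨p, hp⟩ := hX.param hM
  constructor
  · intro h n
    by_contra hc
    rw [← ev_not] at hc
    obtain ⟨T, hT⟩ := hM.tw n
    have h1 : ∀ᶠ k in Uf, ∃ z, z < rp K k ∧ (Bt (rp K k) z ∧ z < rp T k ∧
        ∃ y, y < rp T k ∧ X.R y z (rp p k)) := by
      filter_upwards [hc, hT, hp] with k h1 h2 h3
      push Not at h1
      obtain ⟨z, hz, h4, y, h5, h6⟩ := h1
      exact ⟨z, hz.lt, hz, by rw [h2]; exact h4, y, by rw [h2]; exact h5, by rw [h3]; exact h6⟩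
    have hD : D0 (fun v : ℕ → ℕ => X.R (v 0) (v 1) (v 4)) := D0.s3 X.d0
    obtain ⟨z, hz⟩ := hM.L.choose3 (P := fun z K T p => Bt K z ∧ z < T ∧ ∃ y, y < T ∧ X.R y z p)
      (@d0_and _ _ inferInstance (@d0_and _ _ inferInstance
        (@d0_ex (fun v => v 2) (fun y v => X.R y (v 0) (v 3)) _ hD))) K K T p h1
    refine h z ((hM.L.elt _ _).2 (hz.mono fun _ h => h.2.1)) ⟨n, ?_⟩
    filter_upwards [hz, hT, hp] with k h1 h2 h3
    obtain ⟨_, _, h4, y, h5, h6⟩ := h1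
    exact ⟨by rw [← h2]; exact h4, y, by rw [← h2]; exact h5, by rw [← h3]; exact h6⟩
  · rintro h x hx ⟨n, hn⟩
    rw [hM.L.elt] at hx
    obtain ⟨k, ⟨h1, h2⟩, h3⟩ := ev_exists ((hx.and hn).and (h n))
    exact h3 _ h1 h2

/-- Positive queries. -/
theorem pos_set (hM : IsMod S rp H) {X : Ce} (hX : X.over H) (K : M) :
    Pos S K (X.set rp) ↔ X.sub (rp K) := by
  obtain ⟨p, hp⟩ := hX.param hM
  constructor
  · intro h
    -- collection
    have hD : D0 (fun v : ℕ → ℕ => (Bt (v 3) (v 2) → X.R (v 1) (v 2) (v 4))) :=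
      @d0_imp _ _ inferInstance (D0.s3 X.d0)
    obtain ⟨f, hf⟩ := hD.ex
    have h1 := hM.ger.bs f (psh K (fun _ => p)) K (fun x _ => by
      by_cases hx : Elt S x K
      · obtain ⟨y, hy⟩ := (set_iff hM X hp x).1 (h x hx)
        refine ⟨y, y, ?_⟩
        rw [hM.L.psh3]
        filter_upwards [hy] with k hk
        rw [hf]
        exact fun _ => hk
      · refine ⟨x, x, ?_⟩
        rw [hM.L.elt, ← ev_not] at hx
        rw [hM.L.psh3]
        filter_upwards [hx] with k hk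
        rw [hf]
        exact fun h => absurd h hk)
    obtain ⟨t, ht⟩ := h1
    obtain ⟨n, hn⟩ := Bd.ex_lt (hM.bd t)
    obtain ⟨m, hm⟩ := Bd.ex_lt (hM.bd K)
    refine ⟨n + m, ?_⟩
    by_contra hc
    rw [← ev_not] at hc
    have h2 : ∀ᶠ k in Uf, ∃ z, z < rp K k ∧ (Bt (rp K k) z ∧
        ∀ y, y < rp t k → ¬ X.R y z (rp p k)) := by
      filter_upwards [hc, hn, hm, hp] with k h1 h2 h3 h4
      push Not at h1
      obtain ⟨z, hz, h5⟩ := h1
      refine ⟨z, hz.lt, hz, fun y hy h6 => h5 ⟨?_, y, ?_, ?_⟩⟩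
      · exact lt_of_lt_of_le (_root_.lt_trans hz.lt h3) (tow_mono (by omega) k)
      · exact lt_of_lt_of_le (_root_.lt_trans hy h2) (tow_mono (by omega) k)
      · rw [← h4]; exact h6
    have hD2 : D0 (fun v : ℕ → ℕ => X.R (v 0) (v 1) (v 4)) := D0.s3 X.d0
    obtain ⟨z, hz⟩ := hM.L.choose3 (P := fun z K t p => Bt K z ∧ ∀ y, y < t → ¬ X.R y z p)
      (@d0_and _ _ inferInstance
        (@d0_all (fun v => v 2) (fun y v => ¬ X.R y (v 0) (v 3)) _ (@d0_not _ hD2))) K K t p h2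
    obtain ⟨y, hy, y', hy'⟩ := ht z ((hM.L.lt _ _).2 (hz.mono fun _ h => h.1))
    rw [hM.L.psh3] at hy'
    rw [hM.L.lt] at hy
    obtain ⟨k, ⟨h3, h4⟩, h5⟩ := ev_exists ((hz.and hy).and hy')
    rw [hf] at h5
    exact h3.2.2 _ h4 (h5 h3.2.1)
  · rintro ⟨n, hn⟩ x hx
    rw [hM.L.elt] at hx
    exact ⟨n, (hn.and hx).mono fun k h => h.1 _ h.2⟩

/-- Turing reducibility in the model and over the germs. -/
theorem red_set (hM : IsMod S rp H) {X Y : Ce} (hX : X.over H) (hY : Y.over H) :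
    Red S (X.set rp) (Y.set rp) ↔ RedH H X Y := by
  have := hM.ger
  constructor
  · rintro ⟨F, ⟨f, c, hf⟩, h⟩
    obtain ⟨R, e, hR, hRe⟩ := one_param5 hM.L f c
    have hD : D0 (fun v : ℕ → ℕ => R (v 0) (v 1) 0 (v 2) (v 3) (v 4)) := by
      exact D0.s6 (g0 := fun v => v 0) (g1 := fun v => v 1) (g2 := fun _ => 0)
        (g3 := fun v => v 2) (g4 := fun v => v 3) (g5 := fun v => v 4) hR
    refine ⟨⟨fun y K P Q e => R y K 0 P Q e, hD⟩, rp e, hM.mem e, hM.bd e, ?_⟩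
    intro K0 hK0 hK0b
    obtain ⟨K, hK⟩ := hM.ex K0 hK0 hK0b
    rw [← Ce.dis_congr hK, ← neg_set hM hX, (h K).2]
    have key : ∀ P Q : M, F K S.zero P Q ↔ ∃ n, ∀ᶠ k in Uf,
        Fn.cl ⟨fun y K P Q e => R y K 0 P Q e, hD⟩ (rp e k) k n (K0 k) (rp P k) (rp Q k) := by
      intro P Q
      rw [hf]
      have e1 : ∀ y : M, f.holds S (psh y (psh K (psh S.zero (psh P (psh Q c))))) ↔
          ∀ᶠ k in Uf, R (rp y k) (rp K k) 0 (rp P k) (rp Q k) (rp e k) := by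
        intro y
        rw [hM.L]
        refine eventually_congr ?_
        filter_upwards [hRe, hM.L.zero] with k h1 h2
        rw [psh_map (fun u => rp u k), psh_map (fun u => rp u k), psh_map (fun u => rp u k),
          psh_map (fun u => rp u k), psh_map (fun u => rp u k), h2]
        exact (h1 _ _ _ _ _).symm
      constructor
      · rintro ⟨y, hy⟩
        rw [e1] at hy
        obtain ⟨n1, h1⟩ := Bd.ex_lt (hM.bd y)
        obtain ⟨n2, h2⟩ := Bd.ex_lt (hM.bd K)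
        obtain ⟨n3, h3⟩ := Bd.ex_lt (hM.bd P)
        obtain ⟨n4, h4⟩ := Bd.ex_lt (hM.bd Q)
        refine ⟨n1 + n2 + n3 + n4, ?_⟩
        filter_upwards [hy, h1, h2, h3, h4, hK] with k a0 a1 a2 a3 a4 a5
        rw [← a5]
        exact ⟨lt_of_lt_of_le a2 (tow_mono (by omega) k), lt_of_lt_of_le a3 (tow_mono (by omega) k),
          lt_of_lt_of_le a4 (tow_mono (by omega) k), rp y k,
          lt_of_lt_of_le a1 (tow_mono (by omega) k), a0⟩
      · rintro ⟨n, hn⟩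
        obtain ⟨T, hT⟩ := hM.tw n
        have h1 : ∀ᶠ k in Uf, ∃ y, y < rp T k ∧
            R y (rp K k) 0 (rp P k) (rp Q k) (rp e k) := by
          filter_upwards [hn, hT, hK] with k h1 h2 h3
          obtain ⟨_, _, _, y, h4, h5⟩ := h1
          exact ⟨y, by rw [h2]; exact h4, by rw [h3]; exact h5⟩
        obtain ⟨y, hy⟩ := hM.L.choose4 (P := fun y K P Q e => R y K 0 P Q e) hD T K P Q e h1
        exact ⟨y, (e1 y).2 (hy.mono fun _ h => h.2)⟩
    constructor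
    · rintro ⟨P, Q, h1, h2, h3⟩
      obtain ⟨n, hn⟩ := (key P Q).1 h1
      exact ⟨rp P, hM.mem P, rp Q, hM.mem Q, n, hn, (pos_set hM hY P).1 h2, (neg_set hM hY Q).1 h3⟩
    · rintro ⟨P0, hP0, Q0, hQ0, n, hn, h2, h3⟩
      obtain ⟨P, hP⟩ := hM.ex P0 hP0 (bd_of_lt (hn.mono fun _ h => h.2.1))
      obtain ⟨Q, hQ⟩ := hM.ex Q0 hQ0 (bd_of_lt (hn.mono fun _ h => h.2.2.1))
      refine ⟨P, Q, (key P Q).2 ⟨n, ?_⟩, (pos_set hM hY P).2 ((Ce.sub_congr hP).2 h2),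
        (neg_set hM hY Q).2 ((Ce.dis_congr hQ).2 h3)⟩
      filter_upwards [hn, hP, hQ] with k h1 h2 h3
      rw [h2, h3]; exact h1
  · rintro ⟨Θ, e0, he, heb, h⟩
    obtain ⟨e, he'⟩ := hM.ex e0 he heb
    refine red_of_neg (ce_set hM hX) ⟨⟨fun v => ∃ y : M, ∀ᶠ k in Uf,
      Θ.R (rp y k) (rp (v 2) k) (rp (v 0) k) (rp (v 1) k) (rp e k), ?_, fun v => ?_⟩⟩
    · have h1 : DP S (fun v : ℕ → M => ∀ᶠ k in Uf,
          Θ.R (rp (v 0) k) (rp (v 3) k) (rp (v 1) k) (rp (v 2) k) (rp e k)) :=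
        dp_g5 hM.L (g0 := fun v => v 0) (g1 := fun v => v 3) (g2 := fun v => v 1)
          (g3 := fun v => v 2) (g4 := fun _ => e) (P := fun y K P Q e => Θ.R y K P Q e) Θ.d0
      exact @sp_ex _ S rp hM.ger (fun y v => ∀ᶠ k in Uf,
        Θ.R (rp y k) (rp (v 2) k) (rp (v 0) k) (rp (v 1) k) (rp e k))
        (@sp_of_dp _ S rp hM.ger _ h1)
    · rw [neg_set hM hX, h (rp (v 0)) (hM.mem _) (hM.bd _)]
      simp only [psh]
      constructor
      · rintro ⟨P0, hP0, Q0, hQ0, n, hn, h2, h3⟩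
        obtain ⟨P, hP⟩ := hM.ex P0 hP0 (bd_of_lt (hn.mono fun _ h => h.2.1))
        obtain ⟨Q, hQ⟩ := hM.ex Q0 hQ0 (bd_of_lt (hn.mono fun _ h => h.2.2.1))
        obtain ⟨T, hT⟩ := hM.tw n
        have h1 : ∀ᶠ k in Uf, ∃ y, y < rp T k ∧
            Θ.R y (rp (v 0) k) (rp P k) (rp Q k) (rp e k) := by
          filter_upwards [hn, hT, hP, hQ, he'] with k h1 h2 h3 h4 h5
          obtain ⟨_, _, _, y, h6, h7⟩ := h1
          exact ⟨y, by rw [h2]; exact h6, by rw [h3, h4, h5]; exact h7⟩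
        obtain ⟨y, hy⟩ := hM.L.choose4 (P := fun y K P Q e => Θ.R y K P Q e) Θ.d0 T (v 0) P Q e h1
        exact ⟨P, Q, ⟨y, hy.mono fun _ h => h.2⟩, (pos_set hM hY P).2 ((Ce.sub_congr hP).2 h2),
          (neg_set hM hY Q).2 ((Ce.dis_congr hQ).2 h3)⟩
      · rintro ⟨P, Q, ⟨y, hy⟩, h2, h3⟩
        obtain ⟨n1, h1⟩ := Bd.ex_lt (hM.bd y)
        obtain ⟨n2, h2'⟩ := Bd.ex_lt (hM.bd (v 0))
        obtain ⟨n3, h3'⟩ := Bd.ex_lt (hM.bd P)
        obtain ⟨n4, h4⟩ := Bd.ex_lt (hM.bd Q)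
        refine ⟨rp P, hM.mem P, rp Q, hM.mem Q, n1 + n2 + n3 + n4, ?_, (pos_set hM hY P).1 h2,
          (neg_set hM hY Q).1 h3⟩
        filter_upwards [hy, h1, h2', h3', h4, he'] with k a0 a1 a2 a3 a4 a5
        rw [← a5]
        exact ⟨lt_of_lt_of_le a2 (tow_mono (by omega) k), lt_of_lt_of_le a3 (tow_mono (by omega) k),
          lt_of_lt_of_le a4 (tow_mono (by omega) k), rp y k,
          lt_of_lt_of_le a1 (tow_mono (by omega) k), a0⟩

end Pool.Agent.BSig.Neg
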