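import Pool.Agent.Work.MP_510745_lc.Neg.Fin2
import Pool.Agent.Work.MP_510745_lc.Neg.Refl

/-!
# The chain of hulls and its union

`Stp H H'`: one step of the iteration. Given that every countable hull has a next one, the union
of a chain is a model without minimal covers of the degree of the cut.
-/

namespace Pool.Agent.BSig.Neg

open Filter

/-- One step of the iteration. -/
structure Stp (H H' : Set (ℕ → ℕ)) : Prop where
  hull : Hull H'
  cnt : Cnt H'
  sub : H ⊆ H'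
  coi : COI H H'
  pres : ∀ X Y : Ce, X.over H → Y.over H → RedH H cI Y → ¬ RedH H X Y → ¬ RedH H' X Y
  new : ∀ A : Ce, A.over H → RedH H cI A → ¬ RedH H A cI → ∃ B : Ce, B.over H' ∧
    RedH H' cI B ∧ ¬ RedH H' B cI ∧ RedH H' B A ∧ ¬ RedH H' A B

/-- Reductions persist. -/
def AbsUp : Prop := ∀ (H H' : Set (ℕ → ℕ)), Hull H → Hull H' → H ⊆ H' → COI H H' →
  ∀ X Y : Ce, X.over H → Y.over H → RedH H X Y → RedH H' X Y

/-- Reductions with parameters below come from below. -/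
def AbsDn : Prop := ∀ (H H' : Set (ℕ → ℕ)), Hull H → Hull H' → H ⊆ H' → COI H H' →
  ∀ X Y : Ce, X.over H → Y.over H → ∀ (Θ : Fn) (e : ℕ → ℕ), e ∈ H → Bd st e →
    IsRed H' Θ e X Y → IsRed H Θ e X Y

theorem Ce.over.mono {X : Ce} {H H' : Set (ℕ → ℕ)} (h : X.over H) (hs : H ⊆ H') : X.over H' :=
  ⟨hs h.1, h.2⟩

section chain

variable (L : ∀ H : Set (ℕ → ℕ), Hull H → Cnt H → ∃ H', Stp H H')

/-- The chain. -/
noncomputable def chn : ℕ → {H : Set (ℕ → ℕ) // Hull H ∧ Cnt H}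
  | 0 => ⟨H0, hull_H0, cnt_H0⟩
  | (j + 1) => ⟨(L (chn j).1 (chn j).2.1 (chn j).2.2).choose,
      (L (chn j).1 (chn j).2.1 (chn j).2.2).choose_spec.hull,
      (L (chn j).1 (chn j).2.1 (chn j).2.2).choose_spec.cnt⟩

theorem chn_stp (j : ℕ) : Stp (chn L j).1 (chn L (j + 1)).1 :=
  (L (chn L j).1 (chn L j).2.1 (chn L j).2.2).choose_spec

theorem chn_mono : ∀ i j, i ≤ j → (chn L i).1 ⊆ (chn L j).1 := by
  intro i j hij
  induction hij with
  | refl => exact fun _ h => h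
  | step _ ih => exact fun x hx => (chn_stp L _).sub (ih hx)

theorem chn_coi (j : ℕ) : COI (chn L j).1 (chn L (j + 1)).1 := (chn_stp L j).coi

/-- The union. -/
def uni : Set (ℕ → ℕ) := unH (fun j => (chn L j).1)

theorem hull_uni : Hull (uni L) := hull_un (fun j => (chn L j).2.1) (chn_mono L)

theorem cnt_uni : Cnt (uni L) := cnt_un (fun j => (chn L j).2.2)

theorem sub_uni (j : ℕ) : (chn L j).1 ⊆ uni L := fun _ h => ⟨j, h⟩

theorem coi_uni (j : ℕ) : COI (chn L j).1 (uni L) := coi_un (chn_mono L) (chn_coi L) j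

theorem over_uni {X : Ce} (hX : X.over (uni L)) : ∃ j, ∀ i, j ≤ i → X.over (chn L i).1 := by
  obtain ⟨⟨j, hj⟩, hb⟩ := hX
  exact ⟨j, fun i hi => ⟨chn_mono L j i hi hj, hb⟩⟩

variable (AU : AbsUp) (AD : AbsDn)

include AU in
theorem up_chn {i j : ℕ} (hij : i ≤ j) {X Y : Ce} (hX : X.over (chn L i).1)
    (hY : Y.over (chn L i).1) (h : RedH (chn L i).1 X Y) : RedH (chn L j).1 X Y :=
  AU _ _ (chn L i).2.1 (chn L j).2.1 (chn_mono L i j hij) (coi_chain (chn_coi L) i j hij) X Y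
    hX hY h

include AU in
theorem up_uni {i : ℕ} {X Y : Ce} (hX : X.over (chn L i).1)
    (hY : Y.over (chn L i).1) (h : RedH (chn L i).1 X Y) : RedH (uni L) X Y :=
  AU _ _ (chn L i).2.1 (hull_uni L) (sub_uni L i) (coi_uni L i) X Y hX hY h

include AD in
/-- A reduction in the union is a reduction at all late stages. -/
theorem dn_uni {i : ℕ} {X Y : Ce} (hX : X.over (chn L i).1) (hY : Y.over (chn L i).1)
    (h : RedH (uni L) X Y) : ∃ j, i ≤ j ∧ ∀ l, j ≤ l → RedH (chn L l).1 X Y := by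
  obtain ⟨Θ, e, ⟨j, hj⟩, hb, h1⟩ := h
  refine ⟨max i j, le_max_left _ _, fun l hl => ⟨Θ, e, chn_mono L j l
    (le_trans (le_max_right _ _) hl) hj, hb, ?_⟩⟩
  have hil : i ≤ l := le_trans (le_max_left _ _) hl
  exact AD _ _ (chn L l).2.1 (hull_uni L) (sub_uni L l) (coi_uni L l) X Y
    (hX.mono (chn_mono L i l hil)) (hY.mono (chn_mono L i l hil)) Θ e
    (chn_mono L j l (le_trans (le_max_right _ _) hl) hj) hb h1

include AU AD in
/-- Non-reductions persist. -/
theorem not_uni {i : ℕ} {X Y : Ce} (hX : X.over (chn L i).1) (hY : Y.over (chn L i).1)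
    (hI : RedH (chn L i).1 cI Y) (h : ¬ RedH (chn L i).1 X Y) : ¬ RedH (uni L) X Y := by
  have key : ∀ j, i ≤ j → ¬ RedH (chn L j).1 X Y := by
    intro j hj
    induction hj with
    | refl => exact h
    | step hj ih =>
      exact (chn_stp L _).pres X Y (hX.mono (chn_mono L _ _ hj)) (hY.mono (chn_mono L _ _ hj))
        (up_chn L AU hj (cI_over (chn L i).2.1) hY hI) ih
  intro h1
  obtain ⟨j, hj, h2⟩ := dn_uni L AD hX hY h1
  exact key j hj (h2 j le_rfl)

include AU AD in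
/-- Density above the cut in the union, for c.e. data. -/
theorem dense_uni : NoMin (uni L) := by
  intro A hA h1 h2
  obtain ⟨i, hi⟩ := over_uni L hA
  have hI : ∀ j, cI.over (chn L j).1 := fun j => cI_over (chn L j).2.1
  obtain ⟨j, hj, h3⟩ := dn_uni L AD (hI i) (hi i le_rfl) h1
  have h4 : ¬ RedH (chn L j).1 A cI := fun h => h2 (up_uni L AU (hi j hj) (hI j) h)
  obtain ⟨B, hB, b1, b4, b2, b3⟩ := (chn_stp L j).new A (hi j hj) (h3 j le_rfl) h4
  have hA' := hi (j + 1) (by omega)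
  exact ⟨B, hB.mono (sub_uni L _), up_uni L AU (hI _) hB b1,
    not_uni L AU AD hB (hI _) (redH_refl (chn L (j + 1)).2.1 cI) b4, up_uni L AU hB hA' b2,
    not_uni L AU AD hA' hB b1 b3⟩

end chain

/-- The iteration: the germ level statement from the one step theorem and absoluteness. -/
theorem final_of (AU : AbsUp) (AD : AbsDn)
    (st : ∀ H : Set (ℕ → ℕ), Hull H → Cnt H → ∃ H', H ⊆ H' ∧ Hull H' ∧ Cnt H' ∧ COI H H' ∧
      (∀ X Y : Ce, X.over H → Y.over H → RedH H cI Y → ¬ RedH H X Y → ¬ RedH H' X Y) ∧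
      ∀ A : Ce, A.over H → RedH H cI A → ¬ RedH H A cI → ∃ B : Ce, B.over H' ∧
        RedH H' cI B ∧ ¬ RedH H' B cI ∧ RedH H' B A ∧ ¬ RedH H' A B) :
    ∃ H : Set (ℕ → ℕ), Hull H ∧ Cnt H ∧ NoMin H := by
  have L : ∀ H : Set (ℕ → ℕ), Hull H → Cnt H → ∃ H', Stp H H' := fun H hH hc => by
    obtain ⟨H', h1, h2, h3, h4, h5, h6⟩ := st H hH hc
    exact ⟨H', ⟨h2, h3, h1, h4, h5, h6⟩⟩
  exact ⟨uni L, hull_uni L, cnt_uni L, dense_uni L AU AD⟩

end Pool.Agent.BSig.Neg
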