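import Pool.Agent.Work.MP_510745_lc.Neg.Cuts
import Pool.Agent.Work.MP_510745_lc.Prime

/-!
# Any two c.e. cuts of the model have the same degree
-/

namespace Pool.Agent.BSig.Neg

variable {s : ℕ → ℕ → ℕ}

/-- The model is a structure of germs. -/
theorem gerM (hs : Gr s) : Ger (SS hs) rep := ⟨los hs, bSigma1 hs⟩

/-- Any two c.e. cuts of the model have the same degree (sets coded by binary digits). -/
theorem red_cutM (hs : Gr s) {I J : MM s → Prop} (hI : IsCut (SS hs) I) (hIc : CE (SS hs) I)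
    (hJ : IsCut (SS hs) J) (hJc : CE (SS hs) J) : Red (SS hs) J I :=
  @red_cut _ _ _ (gerM hs) _ _ hI hIc hJ hJc

/-- Any two c.e. cuts of the model have the same degree (prime coding). -/
theorem redP_cutM (hs : Gr s) {I J : MM s → Prop} (hI : IsCut (SS hs) I) (hIc : CE (SS hs) I)
    (hJ : IsCut (SS hs) J) (hJc : CE (SS hs) J) : RedP (SS hs) J I :=
  (redP_iff hs _ _).2 (red_cutM hs hI hIc hJ hJc)

/-- Every bounded c.e. set of the model is reducible to every c.e. cut. -/
theorem redP_cutM_of_bdd (hs : Gr s) {I J : MM s → Prop} (hI : IsCut (SS hs) I)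
    (hIc : CE (SS hs) I) (hJc : CE (SS hs) J) {b : MM s} (hb : ∀ x, J x → (SS hs).lt x b) :
    RedP (SS hs) J I :=
  (redP_iff hs _ _).2 (@red_cut_of_bdd _ _ _ (gerM hs) _ _ hI hIc hJc _ hb)

end Pool.Agent.BSig.Neg
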