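import Pool.Agent.Work.MP_510745_lc.MC.Halt
import Pool.Agent.Work.MP_510745_lc.Cover
import Pool.Agent.Work.MP_510745_lc.Neg.CutsM
import Pool.Agent.Work.MP_510745_lc.Neg.PrimeG

/-!
The first half for every c.e. cut of the model.
-/

namespace Pool.Agent.BSig.Neg

open Pool.Agent.BSig

theorem half1 : ∃ (N : Type) (T : AStr N), IsPAMinusExp T ∧ IDelta0 T ∧ BSigma1 T ∧
    ¬ ISigma1 T ∧ ∃ H : N → Prop, IsHalting T H ∧ (∃ I : N → Prop, IsCut T I ∧ CE T I) ∧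
      ∀ I : N → Prop, IsCut T I → CE T I → ∃ A : N → Prop, InRegion T I H A ∧
        IsMinCoverP T I A := by
  obtain ⟨H, hH, hH2⟩ := hal_main
  obtain ⟨hA, hIA, hAI, hmin⟩ := minCover
  have key : ∀ A B : MM sx → Prop, RedP (SS gr) A B ↔ Red (SS gr) A B :=
    BSig.redP_iff gr
  refine ⟨MM sx, SS gr, isPA gr, iDelta0 gr, bSigma1 gr, not_iSigma1, H, ⟨hH, fun W hW => ?_⟩,
    ⟨cutI, isCut, ceI⟩, fun I hI hIc => ⟨setA, ?_, ?_⟩⟩
  · obtain ⟨e, he⟩ := (hH2 W hW).1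
    refine ⟨e, fun x => ?_⟩
    rw [he x, prM_eq]
    rfl
  · have := gerM gr
    have e2 : Red (SS gr) I cutI := red_cut isCut ceI hI hIc
    exact ⟨hA, (key _ _).2 (Red.trans e2 hIA), (key _ _).2 (hH2 setA hA).2⟩
  · have := gerM gr
    have e1 : Red (SS gr) cutI I := red_cut hI hIc isCut ceI
    have e2 : Red (SS gr) I cutI := red_cut isCut ceI hI hIc
    refine ⟨hA, ⟨(key _ _).2 (Red.trans e2 hIA), fun h => hAI (Red.trans ((key _ _).1 h) e2)⟩,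
      fun B hB h => hmin B hB ⟨Red.trans e1 ((key _ _).1 h.1.1), fun h' => h.1.2 ((key _ _).2
        (Red.trans h' e1)), (key _ _).1 h.2.1, fun h' => h.2.2 ((key _ _).2 h')⟩⟩

end Pool.Agent.BSig.Neg
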