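import Pool.Agent.Work.MP_510745_lc.Neg.BDef

/-!
Sets of conditions which force a requirement. The operation `nx` gives the set of functions
generated by `H` and a generic (`nx d = nxt H d` in the application).
-/

namespace Pool.Agent.BSig.Neg

open Filter

/-- The requirement `req` holds for every generic through the condition. -/
def Wr {H : Set (ℕ → ℕ)} (nx : (ℕ → ℕ) → Set (ℕ → ℕ)) (req : (ℕ → ℕ) → Prop) : Set (Cond H) :=
  {p' | ∀ d G, Gen H (nx d) d G → (∃ i, Ext (G i) p') → req d}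

/-- The parameter of a functional with the new element `d`: `F ⟨h, d⟩`. -/
def ed (F : ℕ → ℕ) (h d : ℕ → ℕ) (k : ℕ) : ℕ := F (Nat.pair (h k) (d k))

theorem Gen.late {H nx : Set (ℕ → ℕ)} {d : ℕ → ℕ} {G : ℕ → Cond H} (hG : Gen H nx d G)
    {P : Cond H → Prop} (hP : ∃ i, ∀ p', Ext p' (G i) → P p') (N : ℕ) (i0 : ℕ) :
    ∃ j, i0 ≤ j ∧ N ≤ (G j).n ∧ ∀ p', Ext p' (G j) → P p' := by
  obtain ⟨i, hi⟩ := hP
  obtain ⟨l, hl⟩ := hG.dom N
  refine ⟨max i (max l i0), le_trans (le_max_right _ _) (le_max_right _ _), ?_, fun p' hp' => ?_⟩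
  · exact le_trans hl (hG.anti l _ (le_trans (le_max_left _ _) (le_max_right _ _))).1
  · exact hi p' (hp'.trans (hG.anti i _ (le_max_left _ _)))

end Pool.Agent.BSig.Neg
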