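import Pool.Agent.Work.MP_510745_lc.Neg.Next
import Pool.Agent.Work.MP_510745_lc.Neg.Wr
import Pool.Agent.Work.MP_510745_lc.Neg.CondExt

/-!
General facts on generics: primitive recursive properties of the generic are forced; tables for
the elements of the next hull.
-/

namespace Pool.Agent.BSig.Neg

open Filter

variable {H nx : Set (ℕ → ℕ)} {d : ℕ → ℕ} {G : ℕ → Cond H}

/-- The table `g` has the value `v` at `d`. -/
def Tb (g d v : ℕ) : Prop := Bt g (pr d v) ∧ ∀ w, w < v → ¬ Bt g (pr d w)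

theorem Tb.uniq {g d v w : ℕ} (h : Tb g d v) (h' : Tb g d w) : v = w := by
  rcases lt_trichotomy v w with h1 | h1 | h1
  · exact absurd h.1 (h'.2 v h1)
  · exact h1
  · exact absurd h'.1 (h.2 w h1)

theorem Tb.lt {g d v : ℕ} (h : Tb g d v) : v < g := (bt_pr_lt h.1).2

theorem bt_of_sub {a b z : ℕ} (h : Sub a b) (hz : Bt a z) : Bt b z := sub_iff.1 h z hz

/-- Codes of conditions belong to the model. -/
theorem Cond.bd (p : Cond H) : Bd st p.q := by
  have h1 : Bd st (fun k => 2 ^ 2 ^ pr (pr k k) k) := by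
    have hid : Bd st (fun k => k) := ⟨0, Eventually.of_forall fun k => le_rfl⟩
    have hp : ∀ {f g : ℕ → ℕ}, Bd st f → Bd st g → Bd st (fun k => pr (f k) (g k)) := by
      intro f g hf hg
      unfold pr
      exact (((hf.add grst hg).mul grst (hf.add grst hg)).add grst hf)
    exact ((hp (hp hid hid) hid).pow grst).pow grst
  refine h1.mono ?_
  filter_upwards [p.cod] with k hk
  exact (bt_lt_two_pow.2 hk).le

theorem Cond.q_lt (p : Cond H) : ∀ᶠ k in Uf, p.q k < 2 ^ 2 ^ pr (pr k k) k := by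
  filter_upwards [p.cod] with k hk
  exact bt_lt_two_pow.2 hk

theorem Gen.ext_le (hG : Gen H nx d G) {i j : ℕ} (h : i ≤ j) : Ext (G j) (G i) := hG.anti i j h

/-- A primitive recursive property of the generic is forced. -/
theorem Gen.force (hH : Hull H) (hG : Gen H nx d G) {R : (ℕ → ℕ) → Prop} (hR : PP R)
    {v : ℕ → ℕ → ℕ} (hv : ∀ i, v i ∈ H) (h : ∀ᶠ k in Uf, R (psh (d k) (fun i => v i k))) :
    ∃ i, ∀ᶠ k in Uf, ∀ z, Bt ((G i).q k) z → R (psh z (fun i => v i k)) := by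
  have h1 : PP (fun u : ℕ → ℕ => (fun (x : ℕ) (w : ℕ → ℕ) => R (psh x (fun i => w (i + 1)))) (u 0)
      (fun i => u (i + 1))) := by
    have h2 : ∀ i, PT (fun u : ℕ → ℕ => psh (u 0) (fun i => u (i + 2)) i) := by
      intro i
      cases i with
      | zero => exact pt_var 0
      | succ i => exact pt_var (i + 2)
    exact PP.sub hR h2
  have h3 : PT (fun w : ℕ → ℕ => cds (fun x => R (psh x (fun i => w (i + 1))))
      (2 ^ pr (pr (w 0) (w 0)) (w 0))) :=
    pt_cds (R := fun (x : ℕ) (w : ℕ → ℕ) => R (psh x (fun i => w (i + 1))))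
      (g := fun w => 2 ^ pr (pr (w 0) (w 0)) (w 0))
  have h4 := hH.pt h3 (psh_mem hH.idm hv)
  have key : ∀ k z, Bt (cds (fun x => R (psh x (fun i => v i k))) (2 ^ pr (pr k k) k)) z ↔
      z < 2 ^ pr (pr k k) k ∧ R (psh z (fun i => v i k)) := fun k z => bt_cds
  obtain ⟨i, h5 | h5⟩ := hG.dec _ h4
  · refine ⟨i, ?_⟩
    filter_upwards [h5] with k hk z hz
    exact ((key k z).1 (bt_of_sub hk hz)).2
  · exfalso
    obtain ⟨k, h6, h7, h8, h9⟩ := ev_exists (h5.and ((hG.mem i).and (h.and (G i).cod)))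
    exact h6 _ h7 ((key k _).2 ⟨h9 _ h7, h8⟩)

/-- The same, for a late condition. -/
theorem Gen.force' (hH : Hull H) (hG : Gen H nx d G) {R : (ℕ → ℕ) → Prop} (hR : PP R)
    {v : ℕ → ℕ → ℕ} (hv : ∀ i, v i ∈ H) (h : ∀ᶠ k in Uf, R (psh (d k) (fun i => v i k))) :
    ∃ i, ∀ j, i ≤ j → ∀ᶠ k in Uf, ∀ z, Bt ((G j).q k) z → R (psh z (fun i => v i k)) := by
  obtain ⟨i, hi⟩ := hG.force hH hR hv h
  refine ⟨i, fun j hj => ?_⟩
  filter_upwards [hi, (hG.ext_le hj).2.2] with k h1 h2 z hz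
  exact h1 z (bt_of_sub h2 hz)

/-- The values of the parameter are bounded on a late condition. -/
theorem Gen.bd_ed (hH : Hull H) (hG : Gen H nx d G) {F : ℕ → ℕ} (hF : Primrec F) {h : ℕ → ℕ}
    (hh : h ∈ H) (he : Bd st (ed F h d)) : ∃ N i, ∀ j, i ≤ j → ∀ᶠ k in Uf, ∀ z,
      Bt ((G j).q k) z → F (Nat.pair (h k) z) < tow N k := by
  obtain ⟨N, hN⟩ := Bd.ex_lt he
  have hP : PP (fun u : ℕ → ℕ => F (Nat.pair (u 1) (u 0)) < tow N (u 2)) := by
    have h1 : PT (fun u : ℕ → ℕ => F (Nat.pair (u 1) (u 0))) := PT.comp1 hF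
    infer_instance
  obtain ⟨i, hi⟩ := hG.force' hH hP (v := asF [h, fun k => k])
    (asF_mem hH _ (by simp [hh, hH.idm])) (by
      filter_upwards [hN] with k hk
      exact hk)
  exact ⟨N, i, hi⟩

/-- The table of a function on the members of `q`. -/
theorem ex_table (hH : Hull H) {F : ℕ → ℕ} (hF : Primrec F) {h : ℕ → ℕ} (hh : h ∈ H)
    (p : Cond H) {N : ℕ}
    (hb : ∀ᶠ k in Uf, ∀ z, Bt (p.q k) z → F (Nat.pair (h k) z) < tow N k) :
    ∃ g ∈ H, Bd st g ∧ ∀ᶠ k in Uf, ∀ z, Bt (p.q k) z → ∀ v,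
      Tb (g k) z v ↔ v = F (Nat.pair (h k) z) := by
  have hPT : PT (fun u : ℕ → ℕ => cds (fun x => ∃ z, z < u 0 ∧ (Bt (u 0) z ∧
      x = pr z (F (Nat.pair (u 1) z)))) (2 ^ (pr (2 ^ pr (pr (u 2) (u 2)) (u 2)) (tow N (u 2)) + 1))) := by
    have h1 : ∀ {f g : (ℕ → ℕ) → ℕ} [PT f] [PT g], PT (fun u => F (Nat.pair (f u) (g u))) := by
      intro f g _ _
      exact PT.comp1 hF
    have h2 : PP (fun v => (fun (x : ℕ) (u : ℕ → ℕ) => ∃ z, z < u 0 ∧ (Bt (u 0) z ∧
      x = pr z (F (Nat.pair (u 1) z)))) (v 0) (fun i => v (i + 1))) := by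
      infer_instance
    exact pt_cds (R := fun (x : ℕ) (u : ℕ → ℕ) => ∃ z, z < u 0 ∧ (Bt (u 0) z ∧
      x = pr z (F (Nat.pair (u 1) z))))
      (g := fun u => 2 ^ (pr (2 ^ pr (pr (u 2) (u 2)) (u 2)) (tow N (u 2)) + 1))
  have hg := hH.pt hPT (v := asF [p.q, h, fun k => k])
    (asF_mem hH _ (by simp [hh, hH.idm, p.hq]))
  refine ⟨_, hg, ?_, ?_⟩
  · have hid : Bd st (fun k => k) := ⟨0, Eventually.of_forall fun k => le_rfl⟩
    have hp : ∀ {f g : ℕ → ℕ}, Bd st f → Bd st g → Bd st (fun k => pr (f k) (g k)) := by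
      intro f g hf hg
      unfold pr
      exact (((hf.add grst hg).mul grst (hf.add grst hg)).add grst hf)
    have h1 : Bd st (fun k => 2 ^ 2 ^ (pr (2 ^ pr (pr k k) k) (tow N k) + 1)) :=
      (((hp ((hp (hp hid hid) hid).pow grst) ⟨N, Eventually.of_forall fun k => le_rfl⟩).add grst
        (Bd.const grst 1)).pow grst).pow grst
    refine h1.mono (Eventually.of_forall fun k => ?_)
    exact (cds_lt _ _).le
  · filter_upwards [hb, p.cod] with k h1 h2 z hz v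
    have key : ∀ x, Bt (cds (fun x => ∃ z, z < p.q k ∧ (Bt (p.q k) z ∧
      x = pr z (F (Nat.pair (h k) z)))) (2 ^ (pr (2 ^ pr (pr k k) k) (tow N k) + 1))) x ↔
      x < 2 ^ (pr (2 ^ pr (pr k k) k) (tow N k) + 1) ∧ ∃ z, z < p.q k ∧ (Bt (p.q k) z ∧
      x = pr z (F (Nat.pair (h k) z))) := fun x => bt_cds
    have k2 : ∀ v, Bt (cds (fun x => ∃ z, z < p.q k ∧ (Bt (p.q k) z ∧
      x = pr z (F (Nat.pair (h k) z)))) (2 ^ (pr (2 ^ pr (pr k k) k) (tow N k) + 1))) (pr z v) ↔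
      v = F (Nat.pair (h k) z) := by
      intro v
      rw [key]
      constructor
      · rintro ⟨-, z', -, -, h3⟩
        obtain ⟨rfl, rfl⟩ := pr_inj h3
        rfl
      · rintro rfl
        refine ⟨?_, z, hz.lt, hz, rfl⟩
        have h3 := pr_mono (h2 z hz).le (h1 z hz).le
        have h4 := @Nat.lt_two_pow_self (pr (2 ^ pr (pr k k) k) (tow N k) + 1)
        omega
    constructor
    · intro h3
      exact (k2 v).1 h3.1
    · rintro rfl
      refine ⟨(k2 _).2 rfl, fun w hw h4 => ?_⟩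
      have := (k2 w).1 h4
      omega

end Pool.Agent.BSig.Neg
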