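import Pool.Agent.Work.MP_510745_lc.Ultra
import Pool.Agent.Work.MP_510745_lc.Bits
import Pool.Agent.Work.MP_510745_lc.MC.Sig

/-!
# Structures of germs

`Ger S rp`: bounded formulas in `S` are evaluated almost everywhere on the representatives `rp`,
and `S` satisfies `BΣ₁`. Everything else (PA⁻, IΔ₀, coded sets, `Σ₁` relations, Turing
reducibility) is derived.
-/

namespace Pool.Agent.BSig.Neg

open Filter

/-- A structure of germs. -/
class Ger {M : Type} (S : AStr M) (rp : outParam (M → ℕ → ℕ)) : Prop where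
  los : ∀ (f : Fm) (v : ℕ → M), f.holds S v ↔ ∀ᶠ k in Uf, f.holds natS (fun i => rp (v i) k)
  bs : BSigma1 S

section los

variable {M : Type} {S : AStr M} {rp : M → ℕ → ℕ}

/-- The theorem of Los for bounded formulas. -/
def Los (S : AStr M) (rp : M → ℕ → ℕ) : Prop :=
  ∀ (f : Fm) (v : ℕ → M), f.holds S v ↔ ∀ᶠ k in Uf, f.holds natS (fun i => rp (v i) k)

variable (hL : Los S rp)

include hL

theorem Los.psh1 (f : Fm) (x : M) (v : ℕ → M) : f.holds S (psh x v) ↔
    ∀ᶠ k in Uf, f.holds natS (psh (rp x k) (fun i => rp (v i) k)) := by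
  rw [hL]
  refine eventually_congr (Eventually.of_forall fun k => ?_)
  rw [psh_map (fun u => rp u k)]

theorem Los.psh2 (f : Fm) (x y : M) (v : ℕ → M) : f.holds S (psh x (psh y v)) ↔
    ∀ᶠ k in Uf, f.holds natS (psh (rp x k) (psh (rp y k) (fun i => rp (v i) k))) := by
  rw [hL.psh1]
  refine eventually_congr (Eventually.of_forall fun k => ?_)
  rw [psh_map (fun u => rp u k)]

theorem Los.psh3 (f : Fm) (x y z : M) (v : ℕ → M) : f.holds S (psh x (psh y (psh z v))) ↔
    ∀ᶠ k in Uf, f.holds natS (psh (rp x k) (psh (rp y k) (psh (rp z k)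
      (fun i => rp (v i) k)))) := by
  rw [hL.psh2]
  refine eventually_congr (Eventually.of_forall fun k => ?_)
  rw [psh_map (fun u => rp u k)]

theorem Los.eq (x y : M) : x = y ↔ ∀ᶠ k in Uf, rp x k = rp y k :=
  hL (.eq (.var 0) (.var 1)) (psh x (fun _ => y))

theorem Los.lt (x y : M) : S.lt x y ↔ ∀ᶠ k in Uf, rp x k < rp y k :=
  hL (.lt (.var 0) (.var 1)) (psh x (fun _ => y))

theorem Los.val (t : Tm) (v : ℕ → M) :
    ∀ᶠ k in Uf, rp (t.val S v) k = t.val natS (fun i => rp (v i) k) := by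
  have h := (hL.psh1 (.eq (.var 0) (t.subst (fun j => .var (j + 1)))) (t.val S v) v).1 (by
    simp only [Fm.holds, Tm.val_subst, Tm.val, psh])
  filter_upwards [h] with k hk
  simpa only [Fm.holds, Tm.val_subst, Tm.val, psh] using hk

theorem Los.zero : ∀ᶠ k in Uf, rp S.zero k = 0 := hL.val .zero (fun _ => S.zero)
theorem Los.one : ∀ᶠ k in Uf, rp S.one k = 1 := hL.val .one (fun _ => S.zero)
theorem Los.add (x y : M) : ∀ᶠ k in Uf, rp (S.add x y) k = rp x k + rp y k :=
  hL.val (.add (.var 0) (.var 1)) (psh x (fun _ => y))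
theorem Los.mul (x y : M) : ∀ᶠ k in Uf, rp (S.mul x y) k = rp x k * rp y k :=
  hL.val (.mul (.var 0) (.var 1)) (psh x (fun _ => y))
theorem Los.pow (x : M) : ∀ᶠ k in Uf, rp (S.pow x) k = 2 ^ rp x k :=
  hL.val (.pow (.var 0)) (fun _ => x)

/-- Bounded witnesses of bounded relations. -/
theorem Los.choose {P : (ℕ → ℕ) → Prop} (hP : D0 P) (b : M) (v : ℕ → M)
    (h : ∀ᶠ k in Uf, ∃ x, x < rp b k ∧ P (psh x (fun i => rp (v i) k))) :
    ∃ x : M, ∀ᶠ k in Uf, rp x k < rp b k ∧ P (psh (rp x k) (fun i => rp (v i) k)) := by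
  obtain ⟨f, hf⟩ := hP.ex
  have h1 : (Fm.ex (.var 0) (f.subst sSkip)).holds S (psh b v) := by
    rw [hL.psh1]
    filter_upwards [h] with k hk
    rw [holds_ex]
    obtain ⟨x, hx, hx'⟩ := hk
    refine ⟨x, hx, ?_⟩
    rw [Fm.holds_subst, val_sSkip, hf]
    exact hx'
  rw [holds_ex] at h1
  obtain ⟨x, hx, hx'⟩ := h1
  rw [Fm.holds_subst, val_sSkip, hL.psh1] at hx'
  refine ⟨x, ?_⟩
  have h2 : S.lt x b := hx
  rw [hL.lt] at h2
  filter_upwards [h2, hx'] with k h3 h4
  exact ⟨h3, (hf _).1 h4⟩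

theorem Los.choose1 {P : ℕ → ℕ → Prop} (hP : D0 (fun v => P (v 0) (v 1))) (b c : M)
    (h : ∀ᶠ k in Uf, ∃ x, x < rp b k ∧ P x (rp c k)) :
    ∃ x : M, ∀ᶠ k in Uf, rp x k < rp b k ∧ P (rp x k) (rp c k) :=
  hL.choose hP b (fun _ => c) h

theorem Los.choose2 {P : ℕ → ℕ → ℕ → Prop} (hP : D0 (fun v => P (v 0) (v 1) (v 2))) (b c d : M)
    (h : ∀ᶠ k in Uf, ∃ x, x < rp b k ∧ P x (rp c k) (rp d k)) :
    ∃ x : M, ∀ᶠ k in Uf, rp x k < rp b k ∧ P (rp x k) (rp c k) (rp d k) :=
  hL.choose hP b (psh c (fun _ => d)) h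

theorem Los.choose3 {P : ℕ → ℕ → ℕ → ℕ → Prop} (hP : D0 (fun v => P (v 0) (v 1) (v 2) (v 3)))
    (b c d e : M) (h : ∀ᶠ k in Uf, ∃ x, x < rp b k ∧ P x (rp c k) (rp d k) (rp e k)) :
    ∃ x : M, ∀ᶠ k in Uf, rp x k < rp b k ∧ P (rp x k) (rp c k) (rp d k) (rp e k) :=
  hL.choose hP b (psh c (psh d (fun _ => e))) h

theorem Los.choose4 {P : ℕ → ℕ → ℕ → ℕ → ℕ → Prop}
    (hP : D0 (fun v => P (v 0) (v 1) (v 2) (v 3) (v 4)))
    (b c d e e' : M) (h : ∀ᶠ k in Uf, ∃ x, x < rp b k ∧ P x (rp c k) (rp d k) (rp e k) (rp e' k)) :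
    ∃ x : M, ∀ᶠ k in Uf, rp x k < rp b k ∧ P (rp x k) (rp c k) (rp d k) (rp e k) (rp e' k) :=
  hL.choose hP b (psh c (psh d (psh e (fun _ => e')))) h

theorem Los.isPA : IsPAMinusExp S where
  add_assoc := fun x y z => by
    rw [hL.eq]
    filter_upwards [hL.add x y, hL.add (S.add x y) z, hL.add y z,
      hL.add x (S.add y z)] with k h1 h2 h3 h4
    rw [h2, h1, h4, h3, _root_.add_assoc]
  add_comm := fun x y => by
    rw [hL.eq]
    filter_upwards [hL.add x y, hL.add y x] with k h1 h2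
    rw [h1, h2, _root_.add_comm]
  add_zero := fun x => by
    rw [hL.eq]
    filter_upwards [hL.add x S.zero, hL.zero] with k h1 h2
    rw [h1, h2, _root_.add_zero]
  mul_assoc := fun x y z => by
    rw [hL.eq]
    filter_upwards [hL.mul x y, hL.mul (S.mul x y) z, hL.mul y z,
      hL.mul x (S.mul y z)] with k h1 h2 h3 h4
    rw [h2, h1, h4, h3, _root_.mul_assoc]
  mul_comm := fun x y => by
    rw [hL.eq]
    filter_upwards [hL.mul x y, hL.mul y x] with k h1 h2
    rw [h1, h2, _root_.mul_comm]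
  mul_one := fun x => by
    rw [hL.eq]
    filter_upwards [hL.mul x S.one, hL.one] with k h1 h2
    rw [h1, h2, _root_.mul_one]
  mul_zero := fun x => by
    rw [hL.eq]
    filter_upwards [hL.mul x S.zero, hL.zero] with k h1 h2
    rw [h1, h2, Nat.mul_zero]
  distrib := fun x y z => by
    rw [hL.eq]
    filter_upwards [hL.add y z, hL.mul x (S.add y z), hL.mul x y,
      hL.mul x z, hL.add (S.mul x y) (S.mul x z)] with k h1 h2 h3 h4 h5
    rw [h2, h1, h5, h3, h4, mul_add]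
  lt_irrefl := fun x h => by
    rw [hL.lt] at h
    obtain ⟨k, hk⟩ := ev_exists h
    exact _root_.lt_irrefl _ hk
  lt_trans := fun x y z h1 h2 => by
    rw [hL.lt] at h1 h2 ⊢
    filter_upwards [h1, h2] with k h1 h2
    exact _root_.lt_trans h1 h2
  lt_total := fun x y => by
    have h : ∀ᶠ k in Uf, rp x k < rp y k ∨ rp x k = rp y k ∨ rp y k < rp x k :=
      Eventually.of_forall fun k => lt_trichotomy _ _
    rw [ev_or, ev_or] at h
    rw [hL.lt, hL.eq, hL.lt]
    exact h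
  add_lt := fun x y z h => by
    rw [hL.lt] at h ⊢
    filter_upwards [h, hL.add x z, hL.add y z] with k h1 h2 h3
    rw [h2, h3]; omega
  mul_lt := fun x y z hz h => by
    rw [hL.lt] at h hz ⊢
    filter_upwards [h, hL.mul x z, hL.mul y z, hz, hL.zero] with k h1 h2 h3 h4 h5
    rw [h2, h3]
    rw [h5] at h4
    exact Nat.mul_lt_mul_of_pos_right h1 h4
  sub := fun x y h => by
    rw [hL.lt] at h
    have h1 : ∀ᶠ k in Uf, ∃ z, z < rp (S.add y S.one) k ∧ rp x k + z = rp y k := by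
      filter_upwards [h, hL.add y S.one, hL.one] with k h1 h2 h3
      exact ⟨rp y k - rp x k, by rw [h2, h3]; omega, by omega⟩
    obtain ⟨z, hz⟩ := hL.choose2 (P := fun z x y => x + z = y) inferInstance (S.add y S.one) x y h1
    refine ⟨z, ?_⟩
    rw [hL.eq]
    filter_upwards [hz, hL.add x z] with k h1 h2
    rw [h2]; exact h1.2
  zero_lt_one := by
    rw [hL.lt]
    filter_upwards [hL.zero, hL.one] with k h1 h2
    rw [h1, h2]; omega
  discrete := fun x h h' => by
    rw [hL.lt] at h h'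
    obtain ⟨k, hk⟩ := ev_exists ((h.and h').and (hL.zero.and hL.one))
    obtain ⟨⟨h1, h2⟩, h3, h4⟩ := hk
    omega
  zero_le := fun x h => by
    rw [hL.lt] at h
    obtain ⟨k, hk, hk'⟩ := ev_exists (h.and hL.zero)
    omega
  pow_zero := by
    rw [hL.eq]
    filter_upwards [hL.zero, hL.one, hL.pow S.zero] with k h1 h2 h3
    rw [h3, h1, h2, _root_.pow_zero]
  pow_succ := fun x => by
    rw [hL.eq]
    filter_upwards [hL.one, hL.pow x, hL.add x S.one,
      hL.pow (S.add x S.one), hL.add (S.pow x) (S.pow x)]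
      with k h1 h2 h3 h4 h5
    rw [h4, h3, h1, h5, h2, _root_.pow_succ]; omega

theorem Los.iDelta0 : IDelta0 S := by
  intro f c h0 hstep x
  by_contra hx
  rw [hL.psh1, ← ev_not] at hx
  have h0' : ∀ᶠ k in Uf, f.holds natS (psh 0 (fun i => rp (c i) k)) := by
    rw [hL.psh1] at h0
    filter_upwards [h0, hL.zero] with k h1 h2
    rwa [h2] at h1
  have h1 : ∀ᶠ k in Uf, ∃ y, y < rp (S.add x S.one) k ∧
      (fun v : ℕ → ℕ => f.holds natS (psh (v 0) (fun i => v (i + 1))) ∧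
        ¬ f.holds natS (psh (v 0 + 1) (fun i => v (i + 1)))) (psh y (fun i => rp (c i) k)) := by
    filter_upwards [hx, h0', hL.add x S.one, hL.one] with k hk h0 h3 h4
    by_contra hc
    simp only [psh] at hc
    push Not at hc
    have h2 : ∀ y, y ≤ rp x k → f.holds natS (psh y (fun i => rp (c i) k)) := by
      intro y
      induction y with
      | zero => intro _; exact h0
      | succ y ih => intro hy; exact hc y (by omega) (ih (by omega))
    exact hk (h2 _ le_rfl)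
  have hD : D0 (fun v : ℕ → ℕ => f.holds natS (psh (v 0) (fun i => v (i + 1))) ∧
        ¬ f.holds natS (psh (v 0 + 1) (fun i => v (i + 1)))) := by
    have e1 : D0 (fun v : ℕ → ℕ => f.holds natS v) := ⟨⟨f, fun _ => Iff.rfl⟩⟩
    have e2 : D0 (fun v : ℕ → ℕ => f.holds natS (psh (v 0) (fun i => v (i + 1)))) := by
      refine D0.congr (D0.sub e1 (g := fun i v => v i) (fun i => dt_var i)) fun v => ?_
      have : (fun i => v i) = psh (v 0) (fun i => v (i + 1)) := by
        funext i; cases i <;> rfl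
      rw [← this]
    have e3 : D0 (fun v : ℕ → ℕ => f.holds natS (psh (v 0 + 1) (fun i => v (i + 1)))) := by
      refine D0.congr (D0.sub e1 (g := fun i v => psh (v 0 + 1) (fun i => v (i + 1)) i) (fun i => ?_))
        fun v => Iff.rfl
      cases i with
      | zero => exact inferInstanceAs (DT (fun v => v 0 + 1))
      | succ i => exact dt_var _
    exact @d0_and _ _ e2 (@d0_not _ e3)
  obtain ⟨y, hy⟩ := hL.choose hD (S.add x S.one) c h1
  have h3 := hstep y (by
    rw [hL.psh1]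
    exact hy.mono fun _ h => h.2.1)
  rw [hL.psh1] at h3
  obtain ⟨k, ⟨h4, h5⟩, h6, h7⟩ := ev_exists ((h3.and hy).and ((hL.add y S.one).and hL.one))
  rw [h6, h7] at h4
  exact h5.2.2 h4

/-- Elements of coded sets. -/
theorem Los.elt (x a : M) : Elt S x a ↔ ∀ᶠ k in Uf, Bt (rp a k) (rp x k) := by
  constructor
  · rintro ⟨q, r, hr, ha⟩
    have hr' := (hL.lt _ _).1 hr
    have h1 := (hL.eq _ _).1 ha
    filter_upwards [hr', h1, hL.pow x, hL.add q q, hL.one,
      hL.add (S.add q q) S.one, hL.mul (S.add (S.add q q) S.one) (S.pow x),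
      hL.add (S.mul (S.add (S.add q q) S.one) (S.pow x)) r]
      with k h1 h2 h3 h4 h5 h6 h7 h8
    rw [h8, h7, h6, h5, h4, h3] at h2
    rw [h3] at h1
    refine ⟨rp q k, ?_, rp r k, h1, h2⟩
    rw [h2]
    have : 1 ≤ 2 ^ rp x k := Nat.one_le_two_pow
    nlinarith
  · intro h
    have h1 : ∀ᶠ k in Uf, ∃ q, q < rp (S.add a S.one) k ∧ ∃ r, r < 2 ^ rp x k ∧
        rp a k = (q + q + 1) * 2 ^ rp x k + r := by
      filter_upwards [h, hL.add a S.one, hL.one] with k hk h2 h3
      obtain ⟨q, hq, r, hr, h4⟩ := hk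
      exact ⟨q, by rw [h2, h3]; omega, r, hr, h4⟩
    obtain ⟨q, hq⟩ := hL.choose2 (P := fun q a x => ∃ r, r < 2 ^ x ∧ a = (q + q + 1) * 2 ^ x + r)
      inferInstance (S.add a S.one) a x h1
    have h2 : ∀ᶠ k in Uf, ∃ r, r < rp (S.pow x) k ∧
        rp a k = (rp q k + rp q k + 1) * 2 ^ rp x k + r := by
      filter_upwards [hq, hL.pow x] with k hk h2
      obtain ⟨-, r, hr, h3⟩ := hk
      exact ⟨r, by rw [h2]; exact hr, h3⟩
    obtain ⟨r, hr⟩ := hL.choose3 (P := fun r q a x => a = (q + q + 1) * 2 ^ x + r)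
      inferInstance (S.pow x) q a x h2
    refine ⟨q, r, ?_, ?_⟩
    · rw [hL.lt]
      exact hr.mono fun _ h => h.1
    · rw [hL.eq]
      filter_upwards [hr, hL.pow x, hL.add q q, hL.one,
        hL.add (S.add q q) S.one, hL.mul (S.add (S.add q q) S.one) (S.pow x),
        hL.add (S.mul (S.add (S.add q q) S.one) (S.pow x)) r]
        with k h2 h3 h4 h5 h6 h7 h8
      rw [h8, h7, h6, h5, h4, h3]
      exact h2.2

theorem Los.dir : Dir S := by
  intro x y
  refine ⟨S.add (S.add x y) S.one, ?_, ?_⟩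
  · rw [hL.lt]
    filter_upwards [hL.add (S.add x y) S.one, hL.add x y, hL.one] with k h1 h2 h3
    rw [h1, h2, h3]; omega
  · rw [hL.lt]
    filter_upwards [hL.add (S.add x y) S.one, hL.add x y, hL.one] with k h1 h2 h3
    rw [h1, h2, h3]; omega

end los

end Pool.Agent.BSig.Neg
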