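import Pool.Agent.Work.MP_510745_lc.Neg.FinG
import Pool.Agent.Work.MP_510745_lc.Neg.Step

/-!
The germ level statement: there is a hull over which no c.e. set is a minimal cover of the cut.
-/

namespace Pool.Agent.BSig.Neg

open Filter Pool.Agent.BSig

theorem final_germ : ∃ H : Set (ℕ → ℕ), Hull H ∧ Cnt H ∧ NoMin H :=
  final_step fun _ hH hc => step hH hc

end Pool.Agent.BSig.Neg
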