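import Pool.Agent.Work.MP_510745_lc.Neg.PP
import Pool.Agent.Work.MP_510745_lc.Neg.Base

/-!
Hulls: sets of functions on the naturals closed under primitive recursive functions, and the
substructures `MH H` of the ultrapower segment which they define.
-/

namespace Pool.Agent.BSig.Neg

open Filter Pool.Agent.BSig Pool.MinCover

/-- A hull. -/
structure Hull (H : Set (ℕ → ℕ)) : Prop where
  ae : ∀ {h h' : ℕ → ℕ}, h ∈ H → (∀ᶠ k in Uf, h k = h' k) → h' ∈ H
  idm : (fun k => k) ∈ H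
  comp : ∀ {F : ℕ → ℕ}, Primrec F → ∀ {h : ℕ → ℕ}, h ∈ H → (fun k => F (h k)) ∈ H
  pair : ∀ {h h' : ℕ → ℕ}, h ∈ H → h' ∈ H → (fun k => Nat.pair (h k) (h' k)) ∈ H

/-- Countable modulo the ultrafilter. -/
def Cnt (H : Set (ℕ → ℕ)) : Prop :=
  ∃ e : ℕ → ℕ → ℕ, (∀ i, e i ∈ H) ∧ ∀ h ∈ H, ∃ i, ∀ᶠ k in Uf, h k = e i k

theorem ns_id : Ns (fun k => k) := fun n => ev_ge n

theorem Ns.mono {ν μ : ℕ → ℕ} (h : Ns ν) (h' : ∀ᶠ k in Uf, ν k ≤ μ k) : Ns μ := fun n => by
  filter_upwards [h n, h'] with k h1 h2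
  omega

theorem ev_ex_lt {P : ℕ → ℕ → Prop} : ∀ N : ℕ, (∀ᶠ k in Uf, ∃ n, n < N ∧ P n k) →
    ∃ n, n < N ∧ ∀ᶠ k in Uf, P n k
  | 0, h => by
    obtain ⟨k, n, hn, _⟩ := ev_exists h
    omega
  | (N + 1), h => by
    have h1 : ∀ᶠ k in Uf, (∃ n, n < N ∧ P n k) ∨ P N k := by
      filter_upwards [h] with k hk
      obtain ⟨n, hn, h2⟩ := hk
      by_cases h3 : n < N
      · exact Or.inl ⟨n, h3, h2⟩
      · have : n = N := by omega
        subst this
        exact Or.inr h2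
    rcases ev_or.1 h1 with h2 | h2
    · obtain ⟨n, hn, h3⟩ := ev_ex_lt N h2
      exact ⟨n, by omega, h3⟩
    · exact ⟨N, by omega, h2⟩

theorem ev_all_lt {P : ℕ → ℕ → Prop} (m : ℕ) (h : ∀ i, i < m → ∀ᶠ k in Uf, P i k) :
    ∀ᶠ k in Uf, ∀ i, i < m → P i k := by
  have : ∀ᶠ k in Uf, ∀ i ∈ Finset.range m, P i k :=
    (Finset.eventually_all _).2 fun i hi => h i (Finset.mem_range.1 hi)
  filter_upwards [this] with k hk i hi
  exact hk i (Finset.mem_range.2 hi)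

/-- A function is standard or nonstandard. -/
theorem std_of_not_ns {x : ℕ → ℕ} (h : ¬ Ns x) : ∃ n : ℕ, ∀ᶠ k in Uf, x k = n := by
  unfold Ns at h
  push Not at h
  obtain ⟨N, hN⟩ := h
  have h1 : ∀ᶠ k in Uf, x k < N := hN
  obtain ⟨n, _, h2⟩ := ev_ex_lt (P := fun n k => x k = n) N
    (h1.mono fun k hk => ⟨x k, by omega, rfl⟩)
  exact ⟨n, h2⟩

theorem not_ns_of_le {x : ℕ → ℕ} {n : ℕ} (h : ∀ᶠ k in Uf, x k ≤ n) : ¬ Ns x := fun h1 => by
  obtain ⟨k, h2, h3⟩ := ev_exists (h.and (h1 (n + 1)))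
  omega

theorem not_ns_iff {x : ℕ → ℕ} : ¬ Ns x ↔ ∃ n : ℕ, ∀ᶠ k in Uf, x k ≤ n :=
  ⟨fun h => by
    obtain ⟨n, hn⟩ := std_of_not_ns h
    exact ⟨n, hn.mono fun k hk => hk.le⟩, fun ⟨_, hn⟩ => not_ns_of_le hn⟩

/-! ### Tuples -/

/-- Code of the first `m` entries. -/
def tup : ℕ → (ℕ → ℕ) → ℕ
  | 0, _ => 0
  | (m + 1), v => Nat.pair (v 0) (tup m (fun i => v (i + 1)))

/-- Entries of a coded tuple. -/
def prj : ℕ → ℕ → ℕ
  | n, 0 => n.unpair.1
  | n, (i + 1) => prj n.unpair.2 i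

theorem prj_tup : ∀ (m : ℕ) (v : ℕ → ℕ) (i : ℕ), i < m → prj (tup m v) i = v i
  | 0, _, i, hi => by omega
  | (m + 1), v, 0, _ => by simp [tup, prj]
  | (m + 1), v, (i + 1), hi => by
    simp only [tup, prj, Nat.unpair_pair]
    exact prj_tup m (fun i => v (i + 1)) i (by omega)

theorem primrec_prj : ∀ i : ℕ, Primrec fun n => prj n i
  | 0 => (Primrec.fst.comp Primrec.unpair).of_eq fun _ => rfl
  | (i + 1) => ((primrec_prj i).comp (Primrec.snd.comp Primrec.unpair)).of_eq fun _ => rfl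

/-- A list of functions as an assignment. -/
def asF : List (ℕ → ℕ) → ℕ → ℕ → ℕ
  | [], _ => fun _ => 0
  | (g :: _), 0 => g
  | (_ :: l), (i + 1) => asF l i

section hull

variable {H : Set (ℕ → ℕ)}

theorem Hull.const (hH : Hull H) (n : ℕ) : (fun _ => n) ∈ H :=
  hH.comp (F := fun _ => n) (Primrec.const n) hH.idm

theorem Hull.tup (hH : Hull H) : ∀ (m : ℕ) (v : ℕ → ℕ → ℕ), (∀ i, v i ∈ H) →
    (fun k => tup m (fun i => v i k)) ∈ H
  | 0, _, _ => hH.const 0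
  | (m + 1), v, hv => hH.pair (hv 0) (hH.tup m (fun i => v (i + 1)) (fun i => hv (i + 1)))

/-- Closure under primitive recursive functions of assignments. -/
theorem Hull.pt (hH : Hull H) {g : (ℕ → ℕ) → ℕ} (hg : PT g) {v : ℕ → ℕ → ℕ} (hv : ∀ i, v i ∈ H) :
    (fun k => g (fun i => v i k)) ∈ H := by
  obtain ⟨m, hm⟩ := hg.fin
  have h1 : Primrec fun n => g (prj n) := hg.pr prj primrec_prj
  have h2 := hH.comp h1 (hH.tup m v hv)
  have h3 : (fun k => g (fun i => v i k)) = fun k => g (prj (Neg.tup m (fun i => v i k))) := by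
    funext k
    exact hm _ _ fun i hi => (prj_tup m (fun i => v i k) i hi).symm
  rw [h3]
  exact h2

theorem asF_mem (hH : Hull H) : ∀ l : List (ℕ → ℕ), (∀ x ∈ l, x ∈ H) → ∀ i, asF l i ∈ H
  | [], _, _ => hH.const 0
  | (g :: _), h, 0 => h g (by simp)
  | (_ :: l), h, (i + 1) => asF_mem hH l (fun x hx => h x (by simp [hx])) i

theorem psh_mem {t : ℕ → ℕ} (ht : t ∈ H) {v : ℕ → ℕ → ℕ} (hv : ∀ i, v i ∈ H) :
    ∀ i, psh t v i ∈ H := by
  intro i
  cases i with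
  | zero => exact ht
  | succ i => exact hv i

/-- Bounded Skolem functions, with least witnesses. -/
theorem Hull.sk (hH : Hull H) {R : (ℕ → ℕ) → Prop} (hR : PP R) {v : ℕ → ℕ → ℕ}
    (hv : ∀ i, v i ∈ H) {t : ℕ → ℕ} (ht : t ∈ H)
    (h : ∀ᶠ k in Uf, ∃ x, x < t k ∧ R (psh x (fun i => v i k))) :
    ∃ x ∈ H, ∀ᶠ k in Uf, x k < t k ∧ R (psh (x k) (fun i => v i k)) ∧
      ∀ y, y < x k → ¬ R (psh y (fun i => v i k)) := by
  have h1 : PP (fun u : ℕ → ℕ => (fun (x : ℕ) (w : ℕ → ℕ) => R (psh x (fun i => w (i + 1)))) (u 0)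
      (fun i => u (i + 1))) := by
    have h2 : ∀ i, PT (fun u : ℕ → ℕ => psh (u 0) (fun i => u (i + 2)) i) := by
      intro i
      cases i with
      | zero => exact pt_var 0
      | succ i => exact pt_var (i + 2)
    exact PP.sub hR h2
  have h2 : PT (fun w : ℕ → ℕ => lw (fun x => R (psh x (fun i => w (i + 1)))) (w 0)) :=
    pt_lw (R := fun (x : ℕ) (w : ℕ → ℕ) => R (psh x (fun i => w (i + 1)))) (g := fun w => w 0)
  have h3 := hH.pt h2 (psh_mem ht hv)
  refine ⟨_, h3, ?_⟩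
  filter_upwards [h] with k hk
  exact lw_spec hk

/-- Bounded Skolem functions, one parameter. -/
theorem Hull.sk1 (hH : Hull H) {R : ℕ → ℕ → Prop} (hR : PP (fun v => R (v 0) (v 1)))
    {a t : ℕ → ℕ} (ha : a ∈ H) (ht : t ∈ H) (h : ∀ᶠ k in Uf, ∃ x, x < t k ∧ R x (a k)) :
    ∃ x ∈ H, ∀ᶠ k in Uf, x k < t k ∧ R (x k) (a k) ∧ ∀ y, y < x k → ¬ R y (a k) :=
  hH.sk hR (v := asF [a]) (asF_mem hH _ (by simp [*])) ht h

theorem Hull.sk2 (hH : Hull H) {R : ℕ → ℕ → ℕ → Prop} (hR : PP (fun v => R (v 0) (v 1) (v 2)))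
    {a b t : ℕ → ℕ} (ha : a ∈ H) (hb : b ∈ H) (ht : t ∈ H)
    (h : ∀ᶠ k in Uf, ∃ x, x < t k ∧ R x (a k) (b k)) :
    ∃ x ∈ H, ∀ᶠ k in Uf, x k < t k ∧ R (x k) (a k) (b k) ∧ ∀ y, y < x k → ¬ R y (a k) (b k) :=
  hH.sk hR (v := asF [a, b]) (asF_mem hH _ (by simp [*])) ht h

theorem Hull.sk3 (hH : Hull H) {R : ℕ → ℕ → ℕ → ℕ → Prop}
    (hR : PP (fun v => R (v 0) (v 1) (v 2) (v 3)))
    {a b c t : ℕ → ℕ} (ha : a ∈ H) (hb : b ∈ H) (hc : c ∈ H) (ht : t ∈ H)
    (h : ∀ᶠ k in Uf, ∃ x, x < t k ∧ R x (a k) (b k) (c k)) :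
    ∃ x ∈ H, ∀ᶠ k in Uf, x k < t k ∧ R (x k) (a k) (b k) (c k) ∧
      ∀ y, y < x k → ¬ R y (a k) (b k) (c k) :=
  hH.sk hR (v := asF [a, b, c]) (asF_mem hH _ (by simp [*])) ht h

theorem Hull.sk4 (hH : Hull H) {R : ℕ → ℕ → ℕ → ℕ → ℕ → Prop}
    (hR : PP (fun v => R (v 0) (v 1) (v 2) (v 3) (v 4)))
    {a b c d t : ℕ → ℕ} (ha : a ∈ H) (hb : b ∈ H) (hc : c ∈ H) (hd : d ∈ H) (ht : t ∈ H)
    (h : ∀ᶠ k in Uf, ∃ x, x < t k ∧ R x (a k) (b k) (c k) (d k)) :
    ∃ x ∈ H, ∀ᶠ k in Uf, x k < t k ∧ R (x k) (a k) (b k) (c k) (d k) ∧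
      ∀ y, y < x k → ¬ R y (a k) (b k) (c k) (d k) :=
  hH.sk hR (v := asF [a, b, c, d]) (asF_mem hH _ (by simp [*])) ht h

theorem Hull.sk5 (hH : Hull H) {R : ℕ → ℕ → ℕ → ℕ → ℕ → ℕ → Prop}
    (hR : PP (fun v => R (v 0) (v 1) (v 2) (v 3) (v 4) (v 5)))
    {a b c d e t : ℕ → ℕ} (ha : a ∈ H) (hb : b ∈ H) (hc : c ∈ H) (hd : d ∈ H) (he : e ∈ H)
    (ht : t ∈ H) (h : ∀ᶠ k in Uf, ∃ x, x < t k ∧ R x (a k) (b k) (c k) (d k) (e k)) :
    ∃ x ∈ H, ∀ᶠ k in Uf, x k < t k ∧ R (x k) (a k) (b k) (c k) (d k) (e k) ∧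
      ∀ y, y < x k → ¬ R y (a k) (b k) (c k) (d k) (e k) :=
  hH.sk hR (v := asF [a, b, c, d, e]) (asF_mem hH _ (by simp [*])) ht h

/-- Closure under a primitive recursive function, small arities. -/
theorem Hull.pt1 (hH : Hull H) {f : ℕ → ℕ} (hf : PT (fun v => f (v 0))) {a : ℕ → ℕ} (ha : a ∈ H) :
    (fun k => f (a k)) ∈ H :=
  hH.pt hf (v := asF [a]) (asF_mem hH _ (by simp [*]))

theorem Hull.pt2 (hH : Hull H) {f : ℕ → ℕ → ℕ} (hf : PT (fun v => f (v 0) (v 1)))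
    {a b : ℕ → ℕ} (ha : a ∈ H) (hb : b ∈ H) : (fun k => f (a k) (b k)) ∈ H :=
  hH.pt hf (v := asF [a, b]) (asF_mem hH _ (by simp [*]))

theorem Hull.pt3 (hH : Hull H) {f : ℕ → ℕ → ℕ → ℕ} (hf : PT (fun v => f (v 0) (v 1) (v 2)))
    {a b c : ℕ → ℕ} (ha : a ∈ H) (hb : b ∈ H) (hc : c ∈ H) : (fun k => f (a k) (b k) (c k)) ∈ H :=
  hH.pt hf (v := asF [a, b, c]) (asF_mem hH _ (by simp [*]))

theorem Hull.pt4 (hH : Hull H) {f : ℕ → ℕ → ℕ → ℕ → ℕ}
    (hf : PT (fun v => f (v 0) (v 1) (v 2) (v 3)))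
    {a b c d : ℕ → ℕ} (ha : a ∈ H) (hb : b ∈ H) (hc : c ∈ H) (hd : d ∈ H) :
    (fun k => f (a k) (b k) (c k) (d k)) ∈ H :=
  hH.pt hf (v := asF [a, b, c, d]) (asF_mem hH _ (by simp [*]))

theorem Hull.pt5 (hH : Hull H) {f : ℕ → ℕ → ℕ → ℕ → ℕ → ℕ}
    (hf : PT (fun v => f (v 0) (v 1) (v 2) (v 3) (v 4)))
    {a b c d e : ℕ → ℕ} (ha : a ∈ H) (hb : b ∈ H) (hc : c ∈ H) (hd : d ∈ H) (he : e ∈ H) :
    (fun k => f (a k) (b k) (c k) (d k) (e k)) ∈ H :=
  hH.pt hf (v := asF [a, b, c, d, e]) (asF_mem hH _ (by simp [*]))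

theorem Hull.add (hH : Hull H) {a b : ℕ → ℕ} (ha : a ∈ H) (hb : b ∈ H) :
    (fun k => a k + b k) ∈ H := hH.pt2 (f := fun a b => a + b) inferInstance ha hb
theorem Hull.mul (hH : Hull H) {a b : ℕ → ℕ} (ha : a ∈ H) (hb : b ∈ H) :
    (fun k => a k * b k) ∈ H := hH.pt2 (f := fun a b => a * b) inferInstance ha hb
theorem Hull.sub (hH : Hull H) {a b : ℕ → ℕ} (ha : a ∈ H) (hb : b ∈ H) :
    (fun k => a k - b k) ∈ H := hH.pt2 (f := fun a b => a - b) inferInstance ha hb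
theorem Hull.pow (hH : Hull H) {a : ℕ → ℕ} (ha : a ∈ H) :
    (fun k => 2 ^ a k) ∈ H :=
  hH.pt1 (f := fun a => 2 ^ a) (pt_pow (f := fun _ => 2) (g := fun v => v 0)) ha
theorem Hull.pr (hH : Hull H) {a b : ℕ → ℕ} (ha : a ∈ H) (hb : b ∈ H) :
    (fun k => BSig.pr (a k) (b k)) ∈ H := hH.pt2 (f := fun a b => BSig.pr a b) inferInstance ha hb
theorem Hull.tow (hH : Hull H) {a b : ℕ → ℕ} (ha : a ∈ H) (hb : b ∈ H) :
    (fun k => BSig.tow (a k) (b k)) ∈ H := hH.pt2 (f := fun a b => BSig.tow a b) inferInstance ha hb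

/-- Overspill inside a hull. -/
theorem Hull.over (hH : Hull H) {R : ℕ → (ℕ → ℕ) → Prop}
    (hR : PP (fun v => R (v 0) (fun i => v (i + 1)))) {v : ℕ → ℕ → ℕ} (hv : ∀ i, v i ∈ H)
    (h : ∀ n : ℕ, ∀ᶠ k in Uf, R n (fun i => v i k)) :
    ∃ ν ∈ H, Ns ν ∧ (∀ᶠ k in Uf, ν k ≤ k) ∧
      ∀ᶠ k in Uf, ∀ m, m ≤ ν k → R m (fun i => v i k) := by
  have h1 : PP (fun u : ℕ → ℕ => u 0 = u 1 ∨ ¬ R (u 0 + 1) (fun i => u (i + 2))) := by
    have h2 : ∀ i, PT (fun u : ℕ → ℕ => psh (u 0 + 1) (fun i => u (i + 2)) i) := by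
      intro i
      cases i with
      | zero => exact pt_add (f := fun u => u 0) (g := fun _ => 1)
      | succ i => exact pt_var (i + 2)
    have h3 : PP (fun u : ℕ → ℕ => R (u 0 + 1) (fun i => u (i + 2))) := PP.sub hR h2
    infer_instance
  have h2 : ∀ᶠ k in Uf, ∃ x, x < k + 1 ∧ (fun u : ℕ → ℕ => u 0 = u 1 ∨
      ¬ R (u 0 + 1) (fun i => u (i + 2))) (psh x (fun i => psh (fun k => k) v i k)) :=
    Eventually.of_forall fun k => ⟨k, by omega, Or.inl rfl⟩
  obtain ⟨ν, hν, h3⟩ := hH.sk h1 (psh_mem hH.idm hv) (hH.add hH.idm (hH.const 1)) h2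
  have h4 : ∀ᶠ k in Uf, ∀ m, m ≤ ν k → R m (fun i => v i k) := by
    filter_upwards [h3, h 0] with k h5 h0 m hm
    cases m with
    | zero => exact h0
    | succ m =>
      have h6 := h5.2.2 m (by omega)
      by_contra h7
      exact h6 (Or.inr h7)
  refine ⟨ν, hν, fun n => ?_, h3.mono fun k hk => by omega, h4⟩
  have h5 : ∀ᶠ k in Uf, ∀ m, m < n + 1 → R m (fun i => v i k) := ev_all_lt _ fun i _ => h i
  filter_upwards [h3, h5, ev_ge n] with k h6 h7 h8
  by_contra h9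
  rcases h6.2.1 with h10 | h10
  · have h11 : ν k = k := h10
    omega
  · exact h10 (h7 (ν k + 1) (by omega))

/-- Overspill inside a hull, one parameter. -/
theorem Hull.over1 (hH : Hull H) {R : ℕ → ℕ → Prop} (hR : PP (fun v => R (v 0) (v 1)))
    {a : ℕ → ℕ} (ha : a ∈ H) (h : ∀ n : ℕ, ∀ᶠ k in Uf, R n (a k)) :
    ∃ ν ∈ H, Ns ν ∧ (∀ᶠ k in Uf, ν k ≤ k) ∧ ∀ᶠ k in Uf, ∀ m, m ≤ ν k → R m (a k) :=
  hH.over (R := fun n v => R n (v 0)) hR (v := asF [a]) (asF_mem hH _ (by simp [*])) h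

theorem Hull.over2 (hH : Hull H) {R : ℕ → ℕ → ℕ → Prop}
    (hR : PP (fun v => R (v 0) (v 1) (v 2)))
    {a b : ℕ → ℕ} (ha : a ∈ H) (hb : b ∈ H) (h : ∀ n : ℕ, ∀ᶠ k in Uf, R n (a k) (b k)) :
    ∃ ν ∈ H, Ns ν ∧ (∀ᶠ k in Uf, ν k ≤ k) ∧ ∀ᶠ k in Uf, ∀ m, m ≤ ν k → R m (a k) (b k) :=
  hH.over (R := fun n v => R n (v 0) (v 1)) hR (v := asF [a, b])
    (asF_mem hH _ (by simp [*])) h

theorem Hull.over3 (hH : Hull H) {R : ℕ → ℕ → ℕ → ℕ → Prop}
    (hR : PP (fun v => R (v 0) (v 1) (v 2) (v 3)))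
    {a b c : ℕ → ℕ} (ha : a ∈ H) (hb : b ∈ H) (hc : c ∈ H)
    (h : ∀ n : ℕ, ∀ᶠ k in Uf, R n (a k) (b k) (c k)) :
    ∃ ν ∈ H, Ns ν ∧ (∀ᶠ k in Uf, ν k ≤ k) ∧ ∀ᶠ k in Uf, ∀ m, m ≤ ν k → R m (a k) (b k) (c k) :=
  hH.over (R := fun n v => R n (v 0) (v 1) (v 2)) hR (v := asF [a, b, c])
    (asF_mem hH _ (by simp [*])) h

theorem Hull.over4 (hH : Hull H) {R : ℕ → ℕ → ℕ → ℕ → ℕ → Prop}
    (hR : PP (fun v => R (v 0) (v 1) (v 2) (v 3) (v 4)))
    {a b c d : ℕ → ℕ} (ha : a ∈ H) (hb : b ∈ H) (hc : c ∈ H) (hd : d ∈ H)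
    (h : ∀ n : ℕ, ∀ᶠ k in Uf, R n (a k) (b k) (c k) (d k)) :
    ∃ ν ∈ H, Ns ν ∧ (∀ᶠ k in Uf, ν k ≤ k) ∧
      ∀ᶠ k in Uf, ∀ m, m ≤ ν k → R m (a k) (b k) (c k) (d k) :=
  hH.over (R := fun n v => R n (v 0) (v 1) (v 2) (v 3)) hR (v := asF [a, b, c, d])
    (asF_mem hH _ (by simp [*])) h

end hull

/-! ### Codes of sets -/

open Classical in
/-- The code of `{z < b : P z}`. -/
noncomputable def cds (P : ℕ → Prop) (b : ℕ) : ℕ := cd ((Finset.range b).filter P)

theorem bt_cds {P : ℕ → Prop} {b z : ℕ} : Bt (cds P b) z ↔ z < b ∧ P z := by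
  classical
  rw [bt_iff, ← mem_bs, cds, bs_cd, Finset.mem_filter, Finset.mem_range]

theorem cds_lt (P : ℕ → Prop) (b : ℕ) : cds P b < 2 ^ b := by
  classical
  rw [cds, cd_lt_iff]
  intro i hi
  exact Finset.mem_range.1 (Finset.mem_filter.1 hi).1

theorem cds_congr {P Q : ℕ → Prop} {b : ℕ} (h : ∀ z, z < b → (P z ↔ Q z)) :
    cds P b = cds Q b := by
  apply bt_ext
  intro z
  rw [bt_cds, bt_cds]
  exact and_congr_right fun hz => h z hz

open Classical in
instance pt_cds {g : (ℕ → ℕ) → ℕ} {R : ℕ → (ℕ → ℕ) → Prop} [hg : PT g]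
    [hR : PP (fun v => R (v 0) (fun i => v (i + 1)))] :
    PT (fun v => cds (fun x => R x v) (g v)) := by
  obtain ⟨⟨m, hm⟩, h⟩ := hg
  obtain ⟨⟨m', hm'⟩, h'⟩ := hR
  refine ⟨⟨max m m', fun v w hvw => ?_⟩, fun {α} _ w hw => ?_⟩
  · rw [hm v w (fun i hi => hvw i (lt_of_lt_of_le hi (le_max_left _ _)))]
    congr 1
    funext x
    apply propext
    have h1 := hm' (psh x v) (psh x w) (fun i hi => by
      cases i with
      | zero => rfl
      | succ i => exact hvw i (by have := le_max_right m m'; omega))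
    exact h1
  · have h1 : PrimrecRel fun (a : α) (x : ℕ) => R x (w a) := by
      have h2 := h' (α := α × ℕ) (fun p => psh p.2 (w p.1)) (fun i => by
        cases i with
        | zero => exact Primrec.snd
        | succ i => exact (hw i).comp Primrec.fst)
      exact h2
    have h3 : PrS fun a : α => Finset.range (g (w a)) := PrS.range (h w hw)
    have h4 := PrS.filter h3 h1
    have h5 : (fun a => cds (fun x => R x (w a)) (g (w a))) =
        fun a => cd ({x ∈ Finset.range (g (w a)) | R x (w a)}) := by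
      funext a
      unfold cds
      congr!
    rw [h5]
    exact h4

/-! ### The model -/

/-- The substructure given by a hull. -/
def MH (H : Set (ℕ → ℕ)) : Type := {x : MM st // rep x ∈ H}

/-- The representative. -/
noncomputable def rp {H : Set (ℕ → ℕ)} (x : MH H) : ℕ → ℕ := rep x.1

section model

variable {H : Set (ℕ → ℕ)}

theorem rp_mem (x : MH H) : rp x ∈ H := x.2

theorem rp_bd (x : MH H) : Bd st (rp x) := rep_bd x.1

theorem ext_rp {x y : MH H} (h : ∀ᶠ k in Uf, rp x k = rp y k) : x = y :=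
  Subtype.ext (ext_rep h)

/-- The element given by a function. -/
def mkH (hH : Hull H) (f : ℕ → ℕ) (hf : f ∈ H) (hb : Bd st f) : MH H :=
  ⟨mk f hb, hH.ae hf ((rep_mk f hb).mono fun _ h => h.symm)⟩

theorem rp_mkH (hH : Hull H) (f : ℕ → ℕ) (hf : f ∈ H) (hb : Bd st f) :
    ∀ᶠ k in Uf, rp (mkH hH f hf hb) k = f k := rep_mk f hb

/-- The structure. -/
noncomputable def SH (hH : Hull H) : AStr (MH H) where
  zero := mkH hH (fun _ => 0) (hH.const 0) (Bd.const grst 0)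
  one := mkH hH (fun _ => 1) (hH.const 1) (Bd.const grst 1)
  add x y := mkH hH (fun k => rp x k + rp y k) (hH.add x.2 y.2) ((rp_bd x).add grst (rp_bd y))
  mul x y := mkH hH (fun k => rp x k * rp y k) (hH.mul x.2 y.2) ((rp_bd x).mul grst (rp_bd y))
  pow x := mkH hH (fun k => 2 ^ rp x k) (hH.pow x.2) ((rp_bd x).pow grst)
  lt x y := ∀ᶠ k in Uf, rp x k < rp y k

variable (hH : Hull H)

theorem rp_zero : ∀ᶠ k in Uf, rp (SH hH).zero k = 0 := rep_mk _ _
theorem rp_one : ∀ᶠ k in Uf, rp (SH hH).one k = 1 := rep_mk _ _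
theorem rp_add (x y : MH H) : ∀ᶠ k in Uf, rp ((SH hH).add x y) k = rp x k + rp y k := rep_mk _ _
theorem rp_mul (x y : MH H) : ∀ᶠ k in Uf, rp ((SH hH).mul x y) k = rp x k * rp y k := rep_mk _ _
theorem rp_pow (x : MH H) : ∀ᶠ k in Uf, rp ((SH hH).pow x) k = 2 ^ rp x k := rep_mk _ _

theorem val_H (t : Tm) (v : ℕ → MH H) :
    (t.val (SH hH) v).1 = t.val (SS grst) (fun i => (v i).1) := by
  induction t with
  | var i => rfl
  | zero => rfl
  | one => rfl
  | add s t hs ht =>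
    simp only [Tm.val]
    rw [← hs, ← ht]; rfl
  | mul s t hs ht =>
    simp only [Tm.val]
    rw [← hs, ← ht]; rfl
  | pow s hs =>
    simp only [Tm.val]
    rw [← hs]; rfl

theorem psh_H (x : MH H) (v : ℕ → MH H) :
    (fun i => (psh x v i).1) = psh x.1 (fun i => (v i).1) := by
  funext i
  cases i <;> rfl

theorem los_sub (f : Fm) : ∀ v : ℕ → MH H,
    f.holds (SH hH) v ↔ f.holds (SS grst) (fun i => (v i).1) := by
  induction f with
  | eq a b =>
    intro v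
    simp only [Fm.holds]
    rw [← val_H hH, ← val_H hH]
    exact ⟨fun h => by rw [h], fun h => Subtype.ext h⟩
  | lt a b =>
    intro v
    simp only [Fm.holds]
    rw [← val_H hH, ← val_H hH]
    exact Iff.rfl
  | neg f ih =>
    intro v
    simp only [Fm.holds]
    rw [ih]
  | and f g ihf ihg =>
    intro v
    simp only [Fm.holds]
    rw [ihf, ihg]
  | all t f ih =>
    intro v
    simp only [Fm.holds]
    rw [← val_H hH]
    constructor
    · intro h x hx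
      by_contra hc
      have hc' : ¬ ∀ᶠ k in Uf, f.holds natS (fun i => rep (psh x (fun i => (v i).1) i) k) := by
        rwa [← los]
      rw [← ev_not] at hc'
      have h1 : ∀ᶠ k in Uf, ∃ x, x < rp (t.val (SH hH) v) k ∧
          ¬ f.holds natS (psh x (fun i => rp (v i) k)) := by
        have hx' : ∀ᶠ k in Uf, rep x k < rep (t.val (SH hH) v).1 k := hx
        filter_upwards [hc', hx'] with k h2 h3
        rw [psh_rep] at h2
        exact ⟨_, h3, h2⟩
      have hP : PP (fun u : ℕ → ℕ => ¬ f.holds natS u) := by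
        have := pp_holds f
        infer_instance
      obtain ⟨y, hy, h2⟩ := hH.sk hP (v := fun i => rp (v i)) (fun i => (v i).2)
        (t := rp (t.val (SH hH) v)) (t.val (SH hH) v).2 h1
      have hb : Bd st y := (rp_bd (t.val (SH hH) v)).mono (h2.mono fun k hk => hk.1.le)
      have h3 := h (mkH hH y hy hb) (by
        change ∀ᶠ k in Uf, _
        filter_upwards [h2, rp_mkH hH y hy hb] with k h4 h5
        rw [h5]; exact h4.1)
      rw [ih, psh_H, los] at h3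
      obtain ⟨k, h4, h5, h6⟩ := ev_exists (h3.and (h2.and (rp_mkH hH y hy hb)))
      rw [psh_rep] at h4
      have h7 : rep (mkH hH y hy hb).1 k = y k := h6
      rw [h7] at h4
      exact h5.2.1 h4
    · intro h x hx
      rw [ih, psh_H]
      exact h x.1 hx

/-- The theorem of Los for the substructure. -/
theorem losH (f : Fm) (v : ℕ → MH H) :
    f.holds (SH hH) v ↔ ∀ᶠ k in Uf, f.holds natS (fun i => rp (v i) k) := by
  rw [los_sub, los]; rfl

theorem psh_rp (x : MH H) (v : ℕ → MH H) (k : ℕ) :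
    (fun i => rp (psh x v i) k) = psh (rp x k) (fun i => rp (v i) k) := by
  funext i
  cases i <;> rfl

theorem losH1 (f : Fm) (x : MH H) (v : ℕ → MH H) :
    f.holds (SH hH) (psh x v) ↔
      ∀ᶠ k in Uf, f.holds natS (psh (rp x k) (fun i => rp (v i) k)) := by
  rw [losH]
  simp only [psh_rp]

theorem losH2 (f : Fm) (x y : MH H) (v : ℕ → MH H) :
    f.holds (SH hH) (psh x (psh y v)) ↔
      ∀ᶠ k in Uf, f.holds natS (psh (rp x k) (psh (rp y k) (fun i => rp (v i) k))) := by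
  rw [losH]
  simp only [psh_rp]

theorem losH3 (f : Fm) (x y z : MH H) (v : ℕ → MH H) :
    f.holds (SH hH) (psh x (psh y (psh z v))) ↔
      ∀ᶠ k in Uf, f.holds natS (psh (rp x k) (psh (rp y k) (psh (rp z k)
        (fun i => rp (v i) k)))) := by
  rw [losH]
  simp only [psh_rp]

theorem losH5 (f : Fm) (x1 x2 x3 x4 x5 : MH H) (v : ℕ → MH H) :
    f.holds (SH hH) (psh x1 (psh x2 (psh x3 (psh x4 (psh x5 v))))) ↔
      ∀ᶠ k in Uf, f.holds natS (psh (rp x1 k) (psh (rp x2 k) (psh (rp x3 k)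
        (psh (rp x4 k) (psh (rp x5 k) (fun i => rp (v i) k)))))) := by
  rw [losH]
  simp only [psh_rp]

theorem isPA_H : IsPAMinusExp (SH hH) := by
  have h := isPA grst
  exact
  { add_assoc := fun x y z => Subtype.ext (h.add_assoc x.1 y.1 z.1)
    add_comm := fun x y => Subtype.ext (h.add_comm x.1 y.1)
    add_zero := fun x => Subtype.ext (h.add_zero x.1)
    mul_assoc := fun x y z => Subtype.ext (h.mul_assoc x.1 y.1 z.1)
    mul_comm := fun x y => Subtype.ext (h.mul_comm x.1 y.1)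
    mul_one := fun x => Subtype.ext (h.mul_one x.1)
    mul_zero := fun x => Subtype.ext (h.mul_zero x.1)
    distrib := fun x y z => Subtype.ext (h.distrib x.1 y.1 z.1)
    lt_irrefl := fun x => h.lt_irrefl x.1
    lt_trans := fun x y z => h.lt_trans x.1 y.1 z.1
    lt_total := fun x y => by
      rcases h.lt_total x.1 y.1 with h1 | h1 | h1
      · exact Or.inl h1
      · exact Or.inr (Or.inl (Subtype.ext h1))
      · exact Or.inr (Or.inr h1)
    add_lt := fun x y z => h.add_lt x.1 y.1 z.1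
    mul_lt := fun x y z => h.mul_lt x.1 y.1 z.1
    sub := fun x y hxy => by
      have hb : Bd st (fun k => rp y k - rp x k) :=
        (rp_bd y).mono (Eventually.of_forall fun k => Nat.sub_le _ _)
      refine ⟨mkH hH (fun k => rp y k - rp x k) (hH.sub y.2 x.2) hb, ext_rp ?_⟩
      have hxy' : ∀ᶠ k in Uf, rp x k < rp y k := hxy
      filter_upwards [hxy', rp_mkH hH (fun k => rp y k - rp x k) (hH.sub y.2 x.2) hb,
        rp_add hH x (mkH hH (fun k => rp y k - rp x k) (hH.sub y.2 x.2) hb)] with k h1 h2 h3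
      rw [h3, h2]; omega
    zero_lt_one := h.zero_lt_one
    discrete := fun x => h.discrete x.1
    zero_le := fun x => h.zero_le x.1
    pow_zero := Subtype.ext h.pow_zero
    pow_succ := fun x => Subtype.ext (h.pow_succ x.1) }

include hH in
/-- Choice of a bounded witness with internal parameters. -/
theorem choose_H {R : (ℕ → ℕ) → Prop} (hR : PP R) (v : ℕ → ℕ → ℕ) (hv : ∀ i, v i ∈ H)
    {t : ℕ → ℕ} (ht : t ∈ H) (hb : Bd st t)
    (h : ∀ᶠ k in Uf, ∃ x, x < t k ∧ R (psh x (fun i => v i k))) :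
    ∃ x : MH H, ∀ᶠ k in Uf, rp x k < t k ∧ R (psh (rp x k) (fun i => v i k)) := by
  obtain ⟨x, hx, h1⟩ := hH.sk hR hv ht h
  have hb' : Bd st x := hb.mono (h1.mono fun k hk => hk.1.le)
  refine ⟨mkH hH x hx hb', ?_⟩
  filter_upwards [h1, rp_mkH hH x hx hb'] with k h2 h3
  rw [h3]; exact ⟨h2.1, h2.2.1⟩

theorem iDelta0_H : IDelta0 (SH hH) := by
  intro f c h0 hstep x
  by_contra hx
  rw [losH1, ← ev_not] at hx
  have hP : PP (fun u : ℕ → ℕ => ¬ f.holds natS u) := by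
    have := pp_holds f
    infer_instance
  obtain ⟨y, hy, h1⟩ := hH.sk hP (v := fun i => rp (c i)) (fun i => (c i).2)
    (t := fun k => rp x k + 1) (hH.add x.2 (hH.const 1))
    (hx.mono fun k hk => ⟨rp x k, by omega, hk⟩)
  have hyb : Bd st (fun k => y k - 1) :=
    (rp_bd x).mono (h1.mono fun k hk => by omega)
  have hym : (fun k => y k - 1) ∈ H := hH.sub hy (hH.const 1)
  rw [losH1] at h0
  have h2 := hstep (mkH hH _ hym hyb) (by
    rw [losH1]
    filter_upwards [h1, h0, rp_mkH hH _ hym hyb, rp_zero hH] with k h3 h4 h5 h6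
    rw [h5]
    rw [h6] at h4
    by_contra h7
    by_cases h8 : y k = 0
    · rw [h8] at h7; exact h7 h4
    · exact h3.2.2 (y k - 1) (by omega) h7)
  rw [losH1] at h2
  obtain ⟨k, ⟨h3, h4⟩, ⟨h5, h6⟩, h7, h8⟩ := ev_exists ((h2.and h1).and
    (((rp_add hH (mkH hH _ hym hyb) (SH hH).one).and (rp_one hH)).and
      ((rp_mkH hH _ hym hyb).and (h0.and (rp_zero hH)))))
  rw [h5, h6, h7] at h3
  by_cases h9 : y k = 0
  · rw [h8.2] at h8
    rw [h9] at h4
    exact h4.2.1 h8.1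
  · have h10 : y k - 1 + 1 = y k := by omega
    rw [h10] at h3
    exact h4.2.1 h3

theorem bSigma1_H : BSigma1 (SH hH) := by
  intro f c a h
  by_contra hc
  push Not at hc
  have hR : PP (fun u : ℕ → ℕ => (fun (n : ℕ) (w : ℕ → ℕ) => ∃ x, x < w 0 ∧ ∀ y, y < tow n (w 1) →
      ∀ z, z < tow n (w 1) → ¬ f.holds natS (psh z (psh y (psh x (fun i => w (i + 2))))))
      (u 0) (fun i => u (i + 1))) := by
    have hf : PP (fun u : ℕ → ℕ => f.holds natS
        (psh (u 0) (psh (u 1) (psh (u 2) (fun i => u (i + 6)))))) := by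
      refine PP.sub (pp_holds f) (g := fun i u => psh (u 0) (psh (u 1) (psh (u 2)
        (fun i => u (i + 6)))) i) (fun i => ?_)
      match i with
      | 0 => exact pt_var 0
      | 1 => exact pt_var 1
      | 2 => exact pt_var 2
      | (i + 3) => exact pt_var (i + 6)
    infer_instance
  have h1 : ∀ n : ℕ, ∀ᶠ k in Uf, (fun (n : ℕ) (w : ℕ → ℕ) => ∃ x, x < w 0 ∧
      ∀ y, y < tow n (w 1) → ∀ z, z < tow n (w 1) →
      ¬ f.holds natS (psh z (psh y (psh x (fun i => w (i + 2)))))) n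
      (fun i => psh (rp a) (psh (fun k => k) (fun i => rp (c i))) i k) := by
    intro n
    have hB : Bd st (fun k => tow n k) := ⟨n, Eventually.of_forall fun _ => le_rfl⟩
    have hm : (fun k => tow n k) ∈ H := hH.tow (hH.const n) hH.idm
    obtain ⟨x, hxa, hx⟩ := hc (mkH hH _ hm hB)
    by_contra h2
    rw [← ev_not] at h2
    have hP : PP (fun u : ℕ → ℕ => ∃ z, z < u 1 ∧
        f.holds natS (psh z (psh (u 0) (fun i => u (i + 2))))) := by
      have hf : PP (fun u : ℕ → ℕ => f.holds natS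
          (psh (u 0) (psh (u 1) (fun i => u (i + 3))))) := by
        refine PP.sub (pp_holds f) (g := fun i u => psh (u 0) (psh (u 1)
          (fun i => u (i + 3))) i) (fun i => ?_)
        match i with
        | 0 => exact pt_var 0
        | 1 => exact pt_var 1
        | (i + 2) => exact pt_var (i + 3)
      infer_instance
    have h3 : ∀ᶠ k in Uf, ∃ y, y < tow n k ∧ (fun u : ℕ → ℕ => ∃ z, z < u 1 ∧
        f.holds natS (psh z (psh (u 0) (fun i => u (i + 2))))) (psh y (fun i =>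
          psh (fun k => tow n k) (psh (rp x) (fun i => rp (c i))) i k)) := by
      have hxa' : ∀ᶠ k in Uf, rp x k < rp a k := hxa
      filter_upwards [h2, hxa'] with k hk hxk
      have hk' : ¬ ∃ x, x < rp a k ∧ ∀ y, y < tow n k → ∀ z, z < tow n k →
          ¬ f.holds natS (psh z (psh y (psh x (fun i => rp (c i) k)))) := hk
      push Not at hk'
      obtain ⟨y, hy, z, hz, h4⟩ := hk' (rp x k) hxk
      refine ⟨y, hy, z, hz, ?_⟩
      have e : (fun i => psh y (fun i => psh (fun k => tow n k) (psh (rp x)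
          (fun i => rp (c i))) i k) (i + 2)) = psh (rp x k) (fun i => rp (c i) k) := by
        funext i
        cases i <;> rfl
      simp only [e]
      exact h4
    have hv : ∀ i, psh (fun k => tow n k) (psh (rp x) (fun i => rp (c i))) i ∈ H :=
      psh_mem hm (psh_mem x.2 (fun i => (c i).2))
    obtain ⟨y, hy⟩ := choose_H hH hP _ hv hm hB h3
    have h5 : ∀ᶠ k in Uf, ∃ z, z < tow n k ∧ f.holds natS (psh z (fun i =>
        psh (rp y) (psh (rp x) (fun i => rp (c i))) i k)) := by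
      filter_upwards [hy] with k hk
      obtain ⟨-, z, hz, h6⟩ := hk
      refine ⟨z, hz, ?_⟩
      have e : (fun i => psh (rp y) (psh (rp x) (fun i => rp (c i))) i k) =
          psh (rp y k) (psh (rp x k) (fun i => rp (c i) k)) := by
        funext i
        match i with
        | 0 => rfl
        | 1 => rfl
        | (i + 2) => rfl
      have e' : (fun i => psh (rp y k) (fun i => psh (fun k => tow n k) (psh (rp x)
          (fun i => rp (c i))) i k) (i + 2)) = psh (rp x k) (fun i => rp (c i) k) := by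
        funext i
        cases i <;> rfl
      rw [e]
      simp only [e'] at h6
      exact h6
    obtain ⟨z, hz⟩ := choose_H hH (pp_holds f) (psh (rp y) (psh (rp x) (fun i => rp (c i))))
      (psh_mem y.2 (psh_mem x.2 (fun i => (c i).2))) hm hB h5
    refine hx y ?_ z ?_
    · change ∀ᶠ k in Uf, _
      filter_upwards [hy, rp_mkH hH _ hm hB] with k hk h6
      rw [h6]; exact hk.1
    · rw [losH3]
      filter_upwards [hz] with k hk
      have e : (fun i => psh (rp y) (psh (rp x) (fun i => rp (c i))) i k) =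
          psh (rp y k) (psh (rp x k) (fun i => rp (c i) k)) := by
        funext i
        match i with
        | 0 => rfl
        | 1 => rfl
        | (i + 2) => rfl
      rw [e] at hk
      exact hk.2
  obtain ⟨ν, hν, hν1, _, hν3⟩ := hH.over (R := fun (n : ℕ) (w : ℕ → ℕ) => ∃ x, x < w 0 ∧
    ∀ y, y < tow n (w 1) → ∀ z, z < tow n (w 1) →
      ¬ f.holds natS (psh z (psh y (psh x (fun i => w (i + 2)))))) hR (v := psh (rp a) (psh (fun k => k)
    (fun i => rp (c i)))) (psh_mem a.2 (psh_mem hH.idm (fun i => (c i).2))) h1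
  have hP : PP (fun u : ℕ → ℕ => ∀ y, y < u 1 → ∀ z, z < u 1 →
      ¬ f.holds natS (psh z (psh y (psh (u 0) (fun i => u (i + 2)))))) := by
    have hf : PP (fun u : ℕ → ℕ => f.holds natS
        (psh (u 0) (psh (u 1) (psh (u 2) (fun i => u (i + 4)))))) := by
      refine PP.sub (pp_holds f) (g := fun i u => psh (u 0) (psh (u 1) (psh (u 2)
        (fun i => u (i + 4)))) i) (fun i => ?_)
      match i with
      | 0 => exact pt_var 0
      | 1 => exact pt_var 1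
      | 2 => exact pt_var 2
      | (i + 3) => exact pt_var (i + 4)
    infer_instance
  have hT : (fun k => tow (ν k) k) ∈ H := hH.tow hν hH.idm
  obtain ⟨x, hx⟩ := choose_H hH hP (psh (fun k => tow (ν k) k) (fun i => rp (c i)))
    (psh_mem hT (fun i => (c i).2)) a.2 (rp_bd a) (hν3.mono fun k hk => by
      obtain ⟨x, hx, h2⟩ := hk (ν k) le_rfl
      exact ⟨x, hx, h2⟩)
  obtain ⟨y, z, hyz⟩ := h x (hx.mono fun _ h => h.1)
  rw [losH3] at hyz
  obtain ⟨n, hn⟩ := (rp_bd y)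
  obtain ⟨m, hm⟩ := (rp_bd z)
  obtain ⟨k, ⟨⟨a1, a2⟩, a3, a4⟩, a7, a8⟩ := ev_exists (((hyz.and hx).and (hn.and hm)).and
    ((hν1 (n + 1)).and (hν1 (m + 1))))
  have b1 : tow n k < tow (n + 1) k := Nat.lt_two_pow_self
  have b2 : tow m k < tow (m + 1) k := Nat.lt_two_pow_self
  have b3 := tow_mono_left a7 k
  have b4 := tow_mono_left a8 k
  have a3' : rp y k ≤ tow n k := a3
  have a4' : rp z k ≤ tow m k := a4
  exact a2.2 (rp y k) (lt_of_le_of_lt a3' (lt_of_lt_of_le b1 b3)) (rp z k)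
    (lt_of_le_of_lt a4' (lt_of_lt_of_le b2 b4)) a1

/-- Elements of coded sets. -/
theorem elt_H (x a : MH H) : Elt (SH hH) x a ↔ ∀ᶠ k in Uf, Bt (rp a k) (rp x k) := by
  constructor
  · rintro ⟨q, r, hr, ha⟩
    exact (elt_iff grst x.1 a.1).1 ⟨q.1, r.1, hr, congrArg Subtype.val ha⟩
  · intro h
    have hP1 : PP (fun u : ℕ → ℕ => ∃ r, r < 2 ^ u 1 ∧ u 2 = (u 0 + u 0 + 1) * 2 ^ u 1 + r) :=
      inferInstance
    have h1 : ∀ᶠ k in Uf, ∃ q, q < rp a k + 1 ∧ (fun u : ℕ → ℕ => ∃ r, r < 2 ^ u 1 ∧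
        u 2 = (u 0 + u 0 + 1) * 2 ^ u 1 + r) (psh q (fun i => asF [rp x, rp a] i k)) := by
      filter_upwards [h] with k hk
      obtain ⟨q, hq, r, hr, h2⟩ := hk
      exact ⟨q, hq, r, hr, h2⟩
    obtain ⟨q, hq⟩ := choose_H hH hP1 _ (asF_mem hH [rp x, rp a] (by
      simp only [List.mem_cons, List.not_mem_nil, or_false]
      rintro y (rfl | rfl)
      · exact x.2
      · exact a.2)) (hH.add a.2 (hH.const 1)) ((rp_bd a).add grst (Bd.const grst 1)) h1
    have hP2 : PP (fun u : ℕ → ℕ => u 3 = (u 1 + u 1 + 1) * 2 ^ u 2 + u 0) := inferInstance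
    have h2 : ∀ᶠ k in Uf, ∃ r, r < 2 ^ rp x k ∧ (fun u : ℕ → ℕ =>
        u 3 = (u 1 + u 1 + 1) * 2 ^ u 2 + u 0) (psh r (fun i => asF [rp q, rp x, rp a] i k)) := by
      filter_upwards [hq] with k hk
      obtain ⟨-, r, hr, h3⟩ := hk
      exact ⟨r, hr, h3⟩
    obtain ⟨r, hr⟩ := choose_H hH hP2 _ (asF_mem hH [rp q, rp x, rp a] (by
      simp only [List.mem_cons, List.not_mem_nil, or_false]
      rintro y (rfl | rfl | rfl)
      · exact q.2
      · exact x.2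
      · exact a.2)) (hH.pow x.2) ((rp_bd x).pow grst) h2
    refine ⟨q, r, ?_, ext_rp ?_⟩
    · change ∀ᶠ k in Uf, _
      filter_upwards [hr, rp_pow hH x] with k h3 h4
      rw [h4]; exact h3.1
    · filter_upwards [hr, rp_pow hH x, rp_add hH q q, rp_one hH,
        rp_add hH ((SH hH).add q q) (SH hH).one,
        rp_mul hH ((SH hH).add ((SH hH).add q q) (SH hH).one) ((SH hH).pow x),
        rp_add hH ((SH hH).mul ((SH hH).add ((SH hH).add q q) (SH hH).one) ((SH hH).pow x)) r]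
        with k h2 h3 h4 h5 h6 h7 h8
      rw [h8, h7, h6, h5, h4, h3]
      exact h2.2

end model

end Pool.Agent.BSig.Neg
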