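import Pool.Agent.Work.MP_510745_lc.Neg.Next
import Pool.Agent.Work.MP_510745_lc.Neg.Bridge

/-!
The structure `SH hH` is the model given by the hull `H`.
-/

namespace Pool.Agent.BSig.Neg

open Filter Pool.Agent.BSig

theorem isMod_H {H : Set (ℕ → ℕ)} (hH : Hull H) : IsMod (SH hH) (rp (H := H)) H where
  ger := ger_H hH
  mem := rp_mem
  bd := rp_bd
  ex := fun h hh hb => ⟨mkH hH h hh hb, rp_mkH hH h hh hb⟩
  a := ⟨aH hH, rp_aH hH⟩

end Pool.Agent.BSig.Neg
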