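import Pool.Agent.Work.MP_510745_lc.Neg.GerSig
import Pool.Agent.Work.MP_510745_lc.Univ2

/-!
# Coding finitely many parameters into one
-/

namespace Pool.Agent.BSig.Neg

open Filter

/-- The code of `c 0, …, c m`. -/
def pk : ℕ → (ℕ → ℕ) → ℕ
  | 0, c => c 0
  | m + 1, c => pr (c 0) (pk m (fun i => c (i + 1)))

theorem pack {P : (ℕ → ℕ) → Prop} (hP : D0 P) : ∀ (m j : ℕ), ∃ P' : (ℕ → ℕ) → Prop, D0 P' ∧
    ∀ (w c : ℕ → ℕ), P' (fun i => if i < j then w i else pk m c) ↔
      P (fun i => if i < j then w i else c (min (i - j) m)) := by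
  intro m
  induction m with
  | zero =>
    intro j
    exact ⟨P, hP, fun w c => by simp only [pk, Nat.min_zero]⟩
  | succ m ih =>
    intro j
    obtain ⟨P'', hP'', h⟩ := ih (j + 1)
    refine ⟨fun v => ∃ x, x < v j + 1 ∧ ∃ y, y < v j + 1 ∧ (v j = pr x y ∧
      P'' (fun i => if i < j then v i else if i = j then x else y)), ?_, ?_⟩
    · have h1 : D0 (fun v : ℕ → ℕ => P'' (fun i => if i < j then v (i + 2) else
          if i = j then v 1 else v 0)) := by
        refine D0.sub hP'' (g := fun i v => if i < j then v (i + 2) else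
          if i = j then v 1 else v 0) (fun i => ?_)
        by_cases h1 : i < j
        · simp only [if_pos h1]; exact dt_var _
        · by_cases h2 : i = j
          · simp only [if_neg h1, if_pos h2]; exact dt_var _
          · simp only [if_neg h1, if_neg h2]; exact dt_var _
      refine @d0_ex (fun v => v j + 1) (fun x v => ∃ y, y < v j + 1 ∧ (v j = pr x y ∧
        P'' (fun i => if i < j then v i else if i = j then x else y))) _ ?_
      refine @d0_ex (fun v => v (j + 1) + 1) (fun y v => (v (j + 1) = pr (v 0) y ∧
        P'' (fun i => if i < j then v (i + 1) else if i = j then v 0 else y))) _ ?_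
      exact @d0_and _ _ inferInstance h1
    · intro w c
      have e0 : (if j < j then w j else pk (m + 1) c) = pr (c 0) (pk m (fun i => c (i + 1))) := by
        rw [if_neg (_root_.lt_irrefl j)]; rfl
      have key : (fun i => if i < j then w i else if i = j then c 0
          else pk m (fun i => c (i + 1))) = fun i => if i < j + 1 then
            (if i < j then w i else c 0) else pk m (fun i => c (i + 1)) := by
        funext i
        by_cases h1 : i < j
        · rw [if_pos h1, if_pos (by omega : i < j + 1), if_pos h1]
        · by_cases h2 : i = j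
          · rw [if_neg h1, if_pos h2, if_pos (by omega : i < j + 1), if_neg h1]
          · rw [if_neg h1, if_neg h2, if_neg (by omega : ¬ i < j + 1)]
      have key2 : (fun i => if i < j + 1 then (if i < j then w i else c 0) else
          (fun i => c (i + 1)) (min (i - (j + 1)) m)) =
          fun i => if i < j then w i else c (min (i - j) (m + 1)) := by
        funext i
        by_cases h1 : i < j
        · rw [if_pos (by omega : i < j + 1), if_pos h1, if_pos h1]
        · by_cases h2 : i = j
          · rw [if_pos (by omega : i < j + 1), if_neg h1, if_neg h1]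
            congr 1; omega
          · rw [if_neg (by omega : ¬ i < j + 1), if_neg h1]
            change c (min (i - (j + 1)) m + 1) = _
            congr 1; omega
      have hh := h (fun i => if i < j then w i else c 0) (fun i => c (i + 1))
      rw [key2] at hh
      rw [← hh]
      have e1 : (fun i => if i < j then (if i < j then w i else pk (m + 1) c) else
          if i = j then c 0 else pk m (fun i => c (i + 1))) = fun i => if i < j then w i else
          if i = j then c 0 else pk m (fun i => c (i + 1)) := by
        funext i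
        by_cases h1 : i < j
        · simp only [if_pos h1]
        · simp only [if_neg h1]
      constructor
      · rintro ⟨x, _, y, _, h1, h2⟩
        obtain ⟨rfl, rfl⟩ := pr_inj (e0.symm.trans h1)
        beta_reduce at h2
        rw [e1, key] at h2
        exact h2
      · intro h2
        refine ⟨c 0, ?_, pk m (fun i => c (i + 1)), ?_, e0, ?_⟩
        · beta_reduce
          rw [e0]; have := le_pr_left (c 0) (pk m (fun i => c (i + 1))); omega
        · beta_reduce
          rw [e0]; have := le_pr_right (c 0) (pk m (fun i => c (i + 1))); omega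
        · beta_reduce
          rw [e1, key]; exact h2

theorem tm_congr {M : Type} (S : AStr M) {m : ℕ} {v w : ℕ → M} (h : ∀ i, i < m → v i = w i) :
    ∀ t : Tm, t.vlt m → t.val S v = t.val S w
  | .var i, hi => h i hi
  | .zero, _ => rfl
  | .one, _ => rfl
  | .add s t, hi => by simp only [Tm.val, tm_congr S h s hi.1, tm_congr S h t hi.2]
  | .mul s t, hi => by simp only [Tm.val, tm_congr S h s hi.1, tm_congr S h t hi.2]
  | .pow s, hi => by simp only [Tm.val, tm_congr S h s hi]

theorem fm_congr {M : Type} (S : AStr M) {m : ℕ} (f : Fm) : ∀ {v w : ℕ → M},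
    (∀ i, i < m → v i = w i) → f.vlt m → (f.holds S v ↔ f.holds S w) := by
  induction f with
  | eq s t => intro v w h hi; simp only [Fm.holds, tm_congr S h s hi.1, tm_congr S h t hi.2]
  | lt s t => intro v w h hi; simp only [Fm.holds, tm_congr S h s hi.1, tm_congr S h t hi.2]
  | neg f ih => intro v w h hi; simp only [Fm.holds, ih h hi]
  | and f g ihf ihg => intro v w h hi; simp only [Fm.holds, ihf h hi.1, ihg h hi.2]
  | all t f ih =>
    intro v w h hi
    simp only [Fm.holds, tm_congr S h t hi.1]
    refine forall_congr' fun x => imp_congr_right fun _ => ih ?_ hi.2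
    intro i hi'
    cases i with
    | zero => rfl
    | succ i => exact h i (by omega)

/-- The pairing term in a structure. -/
def prS {M : Type} (S : AStr M) (x y : M) : M := S.add (S.mul (S.add x y) (S.add x y)) x

/-- The code of `c 0, …, c m` in a structure. -/
def pkS {M : Type} (S : AStr M) : ℕ → (ℕ → M) → M
  | 0, c => c 0
  | m + 1, c => prS S (c 0) (pkS S m (fun i => c (i + 1)))

variable {M : Type} {S : AStr M} {rp : M → ℕ → ℕ}

theorem rp_prS (hL : Los S rp) (x y : M) : ∀ᶠ k in Uf, rp (prS S x y) k = pr (rp x k) (rp y k) := by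
  filter_upwards [hL.add x y, hL.mul (S.add x y) (S.add x y),
    hL.add (S.mul (S.add x y) (S.add x y)) x] with k h1 h2 h3
  unfold prS
  rw [h3, h2, h1]; rfl

theorem rp_pkS (hL : Los S rp) : ∀ (m : ℕ) (c : ℕ → M),
    ∀ᶠ k in Uf, rp (pkS S m c) k = pk m (fun i => rp (c i) k) := by
  intro m
  induction m with
  | zero => intro c; exact Eventually.of_forall fun k => rfl
  | succ m ih =>
    intro c
    filter_upwards [ih (fun i => c (i + 1)), rp_prS hL (c 0) (pkS S m (fun i => c (i + 1)))]
      with k h1 h2
    simp only [pkS, pk]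
    rw [h2, h1]

/-- Finitely many parameters of a bounded formula are coded into one. The first `j` variables are
free, the others are parameters. -/
theorem one_param (hL : Los S rp) (f : Fm) (c : ℕ → M) (j : ℕ) :
    ∃ (P : (ℕ → ℕ) → Prop) (p : M), D0 P ∧ ∀ᶠ k in Uf, ∀ w : ℕ → ℕ,
      (P (fun i => if i < j then w i else rp p k) ↔
        f.holds natS (fun i => if i < j then w i else rp (c (i - j)) k)) := by
  obtain ⟨m, hm⟩ := Fm.ex_vlt f
  have e1 : D0 (fun v : ℕ → ℕ => f.holds natS v) := ⟨⟨f, fun _ => Iff.rfl⟩⟩
  obtain ⟨P, hP, h⟩ := pack e1 m j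
  refine ⟨P, pkS S m c, hP, ?_⟩
  filter_upwards [rp_pkS hL m c] with k hk w
  rw [hk, h w (fun i => rp (c i) k)]
  refine fm_congr natS f (fun i hi => ?_) hm
  by_cases h1 : i < j
  · rw [if_pos h1, if_pos h1]
  · rw [if_neg h1, if_neg h1]
    congr 2
    omega

/-- `Σ₁` sets with one parameter. -/
theorem one_param2 (hL : Los S rp) (f : Fm) (c : ℕ → M) :
    ∃ (R : ℕ → ℕ → ℕ → Prop) (p : M), D0 (fun v => R (v 0) (v 1) (v 2)) ∧
      ∀ᶠ k in Uf, ∀ y x, (R y x (rp p k) ↔
        f.holds natS (psh y (psh x (fun i => rp (c i) k)))) := by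
  obtain ⟨P, p, hP, h⟩ := one_param hL f c 2
  refine ⟨fun y x p => P (psh y (psh x (fun _ => p))), p, ?_, ?_⟩
  · refine D0.congr (D0.sub hP (g := fun i v => v (min i 2)) (fun i => dt_var _)) fun v => ?_
    have : (fun i => v (min i 2)) = psh (v 0) (psh (v 1) (fun _ => v 2)) := by
      funext i
      match i with
      | 0 => rfl
      | 1 => rfl
      | i + 2 => simp [psh]
    beta_reduce
    rw [← this]
  · filter_upwards [h] with k hk y x
    have h1 := hk (psh y (fun _ => x))
    have e1 : (fun i => if i < 2 then psh y (fun _ => x) i else rp p k) =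
        psh y (psh x (fun _ => rp p k)) := by
      funext i
      match i with
      | 0 => rfl
      | 1 => rfl
      | i + 2 => simp [psh]
    have e2 : (fun i => if i < 2 then psh y (fun _ => x) i else rp (c (i - 2)) k) =
        psh y (psh x (fun i => rp (c i) k)) := by
      funext i
      match i with
      | 0 => rfl
      | 1 => rfl
      | i + 2 => simp [psh]
    rw [e1, e2] at h1
    exact h1

/-- `Σ₁` relations in four variables with one parameter. -/
theorem one_param5 (hL : Los S rp) (f : Fm) (c : ℕ → M) :
    ∃ (R : ℕ → ℕ → ℕ → ℕ → ℕ → ℕ → Prop) (p : M),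
      D0 (fun v => R (v 0) (v 1) (v 2) (v 3) (v 4) (v 5)) ∧
      ∀ᶠ k in Uf, ∀ y x1 x2 x3 x4, (R y x1 x2 x3 x4 (rp p k) ↔
        f.holds natS (psh y (psh x1 (psh x2 (psh x3 (psh x4 (fun i => rp (c i) k))))))) := by
  obtain ⟨P, p, hP, h⟩ := one_param hL f c 5
  refine ⟨fun y x1 x2 x3 x4 p => P (psh y (psh x1 (psh x2 (psh x3 (psh x4 (fun _ => p)))))), p,
    ?_, ?_⟩
  · refine D0.congr (D0.sub hP (g := fun i v => v (min i 5)) (fun i => dt_var _)) fun v => ?_
    have : (fun i => v (min i 5)) =
        psh (v 0) (psh (v 1) (psh (v 2) (psh (v 3) (psh (v 4) (fun _ => v 5))))) := by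
      funext i
      match i with
      | 0 => rfl
      | 1 => rfl
      | 2 => rfl
      | 3 => rfl
      | 4 => rfl
      | i + 5 => simp [psh]
    beta_reduce
    rw [← this]
  · filter_upwards [h] with k hk y x1 x2 x3 x4
    have h1 := hk (psh y (psh x1 (psh x2 (psh x3 (fun _ => x4)))))
    have e1 : (fun i => if i < 5 then psh y (psh x1 (psh x2 (psh x3 (fun _ => x4)))) i
        else rp p k) = psh y (psh x1 (psh x2 (psh x3 (psh x4 (fun _ => rp p k))))) := by
      funext i
      match i with
      | 0 => rfl
      | 1 => rfl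
      | 2 => rfl
      | 3 => rfl
      | 4 => rfl
      | i + 5 => simp [psh]
    have e2 : (fun i => if i < 5 then psh y (psh x1 (psh x2 (psh x3 (fun _ => x4)))) i
        else rp (c (i - 5)) k) =
        psh y (psh x1 (psh x2 (psh x3 (psh x4 (fun i => rp (c i) k))))) := by
      funext i
      match i with
      | 0 => rfl
      | 1 => rfl
      | 2 => rfl
      | 3 => rfl
      | 4 => rfl
      | i + 5 => simp [psh]
    rw [e1, e2] at h1
    exact h1

end Pool.Agent.BSig.Neg
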