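import Pool.Agent.Work.MP_510745_lc.Model
import Pool.Agent.Work.MP_510745_lc.Univ3
import Pool.Agent.Work.MP_510745_lc.MC.Bits

/-!
Primitive recursive functions and relations of assignments, as type classes, and hulls: sets of
functions on the naturals closed under primitive recursive functions.
-/

namespace Pool.Agent.BSig.Neg

open Filter Pool.Agent.BSig Pool.MinCover

/-- `g` is a primitive recursive function of finitely many variables. -/
class PT (g : (ℕ → ℕ) → ℕ) : Prop where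
  fin : ∃ m, ∀ v w : ℕ → ℕ, (∀ i, i < m → v i = w i) → g v = g w
  pr : ∀ {α : Type} [Primcodable α] (w : α → ℕ → ℕ), (∀ i, Primrec fun a => w a i) →
    Primrec fun a => g (w a)

/-- `R` is a primitive recursive relation of finitely many variables. -/
class PP (R : (ℕ → ℕ) → Prop) : Prop where
  fin : ∃ m, ∀ v w : ℕ → ℕ, (∀ i, i < m → v i = w i) → (R v ↔ R w)
  pr : ∀ {α : Type} [Primcodable α] (w : α → ℕ → ℕ), (∀ i, Primrec fun a => w a i) →
    PrimrecPred fun a => R (w a)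

instance pt_var (i : ℕ) : PT (fun v => v i) :=
  ⟨⟨i + 1, fun v w h => h i (by omega)⟩, fun w hw => hw i⟩

instance pt_const (n : ℕ) : PT (fun _ => n) :=
  ⟨⟨0, fun _ _ _ => rfl⟩, fun _ _ => Primrec.const n⟩

/-- Composition with a primitive recursive function of one variable. -/
theorem PT.comp1 {F : ℕ → ℕ} (hF : Primrec F) {f : (ℕ → ℕ) → ℕ} [hf : PT f] :
    PT (fun v => F (f v)) := by
  obtain ⟨⟨m, hm⟩, h⟩ := hf
  exact ⟨⟨m, fun v w hvw => by rw [hm v w hvw]⟩, fun w hw => hF.comp (h w hw)⟩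

/-- Composition with a primitive recursive function of two variables. -/
theorem PT.comp2 {F : ℕ → ℕ → ℕ} (hF : Primrec₂ F) {f g : (ℕ → ℕ) → ℕ} [hf : PT f] [hg : PT g] :
    PT (fun v => F (f v) (g v)) := by
  obtain ⟨⟨m, hm⟩, h⟩ := hf
  obtain ⟨⟨m', hm'⟩, h'⟩ := hg
  refine ⟨⟨max m m', fun v w hvw => ?_⟩, fun w hw => hF.comp (h w hw) (h' w hw)⟩
  rw [hm v w (fun i hi => hvw i (lt_of_lt_of_le hi (le_max_left _ _))),
    hm' v w (fun i hi => hvw i (lt_of_lt_of_le hi (le_max_right _ _)))]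

/-- Composition with a primitive recursive relation of two variables. -/
theorem PP.comp2 {F : ℕ → ℕ → Prop} (hF : PrimrecRel F) {f g : (ℕ → ℕ) → ℕ} [hf : PT f]
    [hg : PT g] : PP (fun v => F (f v) (g v)) := by
  obtain ⟨⟨m, hm⟩, h⟩ := hf
  obtain ⟨⟨m', hm'⟩, h'⟩ := hg
  refine ⟨⟨max m m', fun v w hvw => ?_⟩, fun w hw => hF.comp (h w hw) (h' w hw)⟩
  rw [hm v w (fun i hi => hvw i (lt_of_lt_of_le hi (le_max_left _ _))),
    hm' v w (fun i hi => hvw i (lt_of_lt_of_le hi (le_max_right _ _)))]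

section
variable {f g : (ℕ → ℕ) → ℕ} [hf : PT f] [hg : PT g]

instance pt_add : PT (fun v => f v + g v) := PT.comp2 Primrec.nat_add
instance pt_mul : PT (fun v => f v * g v) := PT.comp2 Primrec.nat_mul
instance pt_sub : PT (fun v => f v - g v) := PT.comp2 Primrec.nat_sub
instance pt_pow : PT (fun v => f v ^ g v) :=
  PT.comp2 (F := fun a b : ℕ => a ^ b) (Primrec₂.unpaired'.1 Nat.Primrec.pow)
instance pt_npair : PT (fun v => Nat.pair (f v) (g v)) := PT.comp2 Primrec₂.natPair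

instance pt_pr : PT (fun v => pr (f v) (g v)) := by
  unfold BSig.pr; infer_instance

theorem primrec_tow : Primrec₂ tow := by
  have h1 : Primrec₂ fun (y n : ℕ) => (Nat.rec (motive := fun _ => ℕ) y
      (fun _ IH => 2 ^ IH) n : ℕ) :=
    Primrec.nat_rec (f := fun y : ℕ => y) (g := fun (_ : ℕ) (p : ℕ × ℕ) => 2 ^ p.2)
      Primrec.id (Pr.pow (Primrec.const 2) (Primrec.snd.comp Primrec.snd))
  have h2 : ∀ n y : ℕ, (Nat.rec (motive := fun _ => ℕ) y (fun _ IH => 2 ^ IH) n : ℕ) =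
      tow n y := by
    intro n y
    induction n with
    | zero => rfl
    | succ n ih => simp only [tow]; rw [← ih]
  exact (h1.swap).of_eq h2

instance pt_tow : PT (fun v => tow (f v) (g v)) := PT.comp2 primrec_tow

instance pp_eq : PP (fun v => f v = g v) :=
  PP.comp2 (F := fun a b : ℕ => a = b) Primrec.eq
instance pp_lt : PP (fun v => f v < g v) :=
  PP.comp2 (F := fun a b : ℕ => a < b) Primrec.nat_lt
instance pp_le : PP (fun v => f v ≤ g v) :=
  PP.comp2 (F := fun a b : ℕ => a ≤ b) Primrec.nat_le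

end

theorem PP.congr {P Q : (ℕ → ℕ) → Prop} (hP : PP P) (h : ∀ v, P v ↔ Q v) : PP Q := by
  have : P = Q := funext fun v => propext (h v)
  rwa [← this]

section
variable {P Q : (ℕ → ℕ) → Prop} [hP : PP P] [hQ : PP Q]

instance pp_not : PP (fun v => ¬ P v) := by
  obtain ⟨⟨m, hm⟩, h⟩ := hP
  exact ⟨⟨m, fun v w hvw => not_congr (hm v w hvw)⟩, fun w hw => (h w hw).not⟩

instance pp_and : PP (fun v => P v ∧ Q v) := by
  obtain ⟨⟨m, hm⟩, h⟩ := hP
  obtain ⟨⟨m', hm'⟩, h'⟩ := hQ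
  exact ⟨⟨max m m', fun v w hvw => and_congr
    (hm v w (fun i hi => hvw i (lt_of_lt_of_le hi (le_max_left _ _))))
    (hm' v w (fun i hi => hvw i (lt_of_lt_of_le hi (le_max_right _ _))))⟩,
    fun w hw => (h w hw).and (h' w hw)⟩

instance pp_or : PP (fun v => P v ∨ Q v) :=
  PP.congr (P := fun v => ¬ (¬ P v ∧ ¬ Q v)) inferInstance (fun v => by tauto)

instance pp_imp : PP (fun v => (P v → Q v)) :=
  PP.congr (P := fun v => ¬ (P v ∧ ¬ Q v)) inferInstance (fun v => by tauto)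

instance pp_iff : PP (fun v => (P v ↔ Q v)) :=
  PP.congr (P := fun v => (P v → Q v) ∧ (Q v → P v)) inferInstance (fun v => by tauto)

end

instance pp_const (P : Prop) : PP (fun _ => P) :=
  ⟨⟨0, fun _ _ _ => Iff.rfl⟩, fun _ _ => Pr.const P⟩

instance pp_all {g : (ℕ → ℕ) → ℕ} {R : ℕ → (ℕ → ℕ) → Prop} [hg : PT g]
    [hR : PP (fun v => R (v 0) (fun i => v (i + 1)))] : PP (fun v => ∀ x, x < g v → R x v) := by
  obtain ⟨⟨m, hm⟩, h⟩ := hg
  obtain ⟨⟨m', hm'⟩, h'⟩ := hR
  refine ⟨⟨max m m', fun v w hvw => ?_⟩, fun {α} _ w hw => ?_⟩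
  · rw [hm v w (fun i hi => hvw i (lt_of_lt_of_le hi (le_max_left _ _)))]
    refine forall_congr' fun x => imp_congr_right fun _ => ?_
    have h1 := hm' (psh x v) (psh x w) (fun i hi => by
      cases i with
      | zero => rfl
      | succ i => exact hvw i (by have := le_max_right m m'; omega))
    exact h1
  · have h1 : PrimrecRel fun (a : α) (x : ℕ) => R x (w a) := by
      have h2 := h' (α := α × ℕ) (fun p => psh p.2 (w p.1)) (fun i => by
        cases i with
        | zero => exact Primrec.snd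
        | succ i => exact (hw i).comp Primrec.fst)
      exact h2
    exact Pr.all_lt (h w hw) h1

instance pp_ex {g : (ℕ → ℕ) → ℕ} {R : ℕ → (ℕ → ℕ) → Prop} [hg : PT g]
    [hR : PP (fun v => R (v 0) (fun i => v (i + 1)))] : PP (fun v => ∃ x, x < g v ∧ R x v) :=
  PP.congr (P := fun v => ¬ ∀ x, x < g v → ¬ R x v) inferInstance (fun v => by
    simp only [not_forall, not_not, exists_prop])

instance pp_all_le {g : (ℕ → ℕ) → ℕ} {R : ℕ → (ℕ → ℕ) → Prop} [hg : PT g]
    [hR : PP (fun v => R (v 0) (fun i => v (i + 1)))] : PP (fun v => ∀ x, x ≤ g v → R x v) :=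
  PP.congr (P := fun v => ∀ x, x < g v + 1 → R x v) inferInstance (fun v => by
    simp only [Nat.lt_succ_iff])

instance pp_ex_le {g : (ℕ → ℕ) → ℕ} {R : ℕ → (ℕ → ℕ) → Prop} [hg : PT g]
    [hR : PP (fun v => R (v 0) (fun i => v (i + 1)))] : PP (fun v => ∃ x, x ≤ g v ∧ R x v) :=
  PP.congr (P := fun v => ∃ x, x < g v + 1 ∧ R x v) inferInstance (fun v => by
    simp only [Nat.lt_succ_iff])

/-- Substitution. -/
theorem PP.sub {R : (ℕ → ℕ) → Prop} (hR : PP R) {g : ℕ → (ℕ → ℕ) → ℕ} (hg : ∀ i, PT (g i)) :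
    PP (fun v => R (fun i => g i v)) := by
  obtain ⟨⟨m, hm⟩, h⟩ := hR
  have h1 : ∀ j, ∃ M, ∀ v w : ℕ → ℕ, (∀ i, i < M → v i = w i) → ∀ i, i < j → g i v = g i w := by
    intro j
    induction j with
    | zero => exact ⟨0, fun v w _ i hi => by omega⟩
    | succ j ih =>
      obtain ⟨M, hM⟩ := ih
      obtain ⟨M', hM'⟩ := (hg j).fin
      refine ⟨max M M', fun v w hvw i hi => ?_⟩
      by_cases hij : i < j
      · exact hM v w (fun i hi => hvw i (lt_of_lt_of_le hi (le_max_left _ _))) i hij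
      · have : i = j := by omega
        subst this
        exact hM' v w (fun i hi => hvw i (lt_of_lt_of_le hi (le_max_right _ _)))
  obtain ⟨M, hM⟩ := h1 m
  exact ⟨⟨M, fun v w hvw => hm _ _ (hM v w hvw)⟩, fun w hw =>
    h (fun a i => g i (w a)) (fun i => (hg i).pr w hw)⟩

theorem PT.sub {f : (ℕ → ℕ) → ℕ} (hf : PT f) {g : ℕ → (ℕ → ℕ) → ℕ} (hg : ∀ i, PT (g i)) :
    PT (fun v => f (fun i => g i v)) := by
  obtain ⟨⟨m, hm⟩, h⟩ := hf
  have h1 : ∀ j, ∃ M, ∀ v w : ℕ → ℕ, (∀ i, i < M → v i = w i) → ∀ i, i < j → g i v = g i w := by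
    intro j
    induction j with
    | zero => exact ⟨0, fun v w _ i hi => by omega⟩
    | succ j ih =>
      obtain ⟨M, hM⟩ := ih
      obtain ⟨M', hM'⟩ := (hg j).fin
      refine ⟨max M M', fun v w hvw i hi => ?_⟩
      by_cases hij : i < j
      · exact hM v w (fun i hi => hvw i (lt_of_lt_of_le hi (le_max_left _ _))) i hij
      · have : i = j := by omega
        subst this
        exact hM' v w (fun i hi => hvw i (lt_of_lt_of_le hi (le_max_right _ _)))
  obtain ⟨M, hM⟩ := h1 m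
  exact ⟨⟨M, fun v w hvw => hm _ _ (hM v w hvw)⟩, fun w hw =>
    h (fun a i => g i (w a)) (fun i => (hg i).pr w hw)⟩

/-- A list of functions as an assignment. -/
theorem asg_pt : ∀ (l : List ((ℕ → ℕ) → ℕ)), (∀ g ∈ l, PT g) → ∀ i, PT (asg l i)
  | [], _, _ => pt_const 0
  | (g :: _), h, 0 => h g (by simp)
  | (_ :: l), h, (i + 1) => asg_pt l (fun g hg => h g (by simp [hg])) i

section subs
variable {g0 g1 g2 g3 g4 g5 g6 g7 g8 g9 : (ℕ → ℕ) → ℕ} [h0 : PT g0] [h1 : PT g1] [h2 : PT g2]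
  [h3 : PT g3] [h4 : PT g4] [h5 : PT g5] [h6 : PT g6] [h7 : PT g7] [h8 : PT g8] [h9 : PT g9]

include h0 in
theorem PP.s1 {P : ℕ → Prop} (h : PP (fun v => P (v 0))) : PP (fun v => P (g0 v)) :=
  PP.sub h (g := asg [g0]) (asg_pt _ (by simp [*]))

include h0 h1 in
theorem PP.s2 {P : ℕ → ℕ → Prop} (h : PP (fun v => P (v 0) (v 1))) :
    PP (fun v => P (g0 v) (g1 v)) :=
  PP.sub h (g := asg [g0, g1]) (asg_pt _ (by simp [*]))

include h0 h1 h2 in
theorem PP.s3 {P : ℕ → ℕ → ℕ → Prop} (h : PP (fun v => P (v 0) (v 1) (v 2))) :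
    PP (fun v => P (g0 v) (g1 v) (g2 v)) :=
  PP.sub h (g := asg [g0, g1, g2]) (asg_pt _ (by simp [*]))

include h0 h1 h2 h3 in
theorem PP.s4 {P : ℕ → ℕ → ℕ → ℕ → Prop} (h : PP (fun v => P (v 0) (v 1) (v 2) (v 3))) :
    PP (fun v => P (g0 v) (g1 v) (g2 v) (g3 v)) :=
  PP.sub h (g := asg [g0, g1, g2, g3]) (asg_pt _ (by simp [*]))

include h0 h1 h2 h3 h4 in
theorem PP.s5 {P : ℕ → ℕ → ℕ → ℕ → ℕ → Prop}
    (h : PP (fun v => P (v 0) (v 1) (v 2) (v 3) (v 4))) :
    PP (fun v => P (g0 v) (g1 v) (g2 v) (g3 v) (g4 v)) :=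
  PP.sub h (g := asg [g0, g1, g2, g3, g4]) (asg_pt _ (by simp [*]))

include h0 h1 h2 h3 h4 h5 in
theorem PP.s6 {P : ℕ → ℕ → ℕ → ℕ → ℕ → ℕ → Prop}
    (h : PP (fun v => P (v 0) (v 1) (v 2) (v 3) (v 4) (v 5))) :
    PP (fun v => P (g0 v) (g1 v) (g2 v) (g3 v) (g4 v) (g5 v)) :=
  PP.sub h (g := asg [g0, g1, g2, g3, g4, g5]) (asg_pt _ (by simp [*]))

include h0 h1 h2 h3 h4 h5 h6 in
theorem PP.s7 {P : ℕ → ℕ → ℕ → ℕ → ℕ → ℕ → ℕ → Prop}
    (h : PP (fun v => P (v 0) (v 1) (v 2) (v 3) (v 4) (v 5) (v 6))) :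
    PP (fun v => P (g0 v) (g1 v) (g2 v) (g3 v) (g4 v) (g5 v) (g6 v)) :=
  PP.sub h (g := asg [g0, g1, g2, g3, g4, g5, g6]) (asg_pt _ (by simp [*]))

include h0 h1 h2 h3 h4 h5 h6 h7 in
theorem PP.s8 {P : ℕ → ℕ → ℕ → ℕ → ℕ → ℕ → ℕ → ℕ → Prop}
    (h : PP (fun v => P (v 0) (v 1) (v 2) (v 3) (v 4) (v 5) (v 6) (v 7))) :
    PP (fun v => P (g0 v) (g1 v) (g2 v) (g3 v) (g4 v) (g5 v) (g6 v) (g7 v)) :=
  PP.sub h (g := asg [g0, g1, g2, g3, g4, g5, g6, g7]) (asg_pt _ (by simp [*]))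

include h0 h1 in
theorem PT.s2 {P : ℕ → ℕ → ℕ} (h : PT (fun v => P (v 0) (v 1))) :
    PT (fun v => P (g0 v) (g1 v)) :=
  PT.sub h (g := asg [g0, g1]) (asg_pt _ (by simp [*]))

instance pp_bt : PP (fun v => Bt (g0 v) (g1 v)) := by
  apply PP.s2
  unfold Bt
  infer_instance

end subs

/-! ### Bounded formulas -/

theorem dt_pt {g : (ℕ → ℕ) → ℕ} (hg : DT g) : PT g := by
  obtain ⟨t, ht⟩ := hg.ex
  have key : ∀ t : Tm, PT (fun v => t.val natS v) := by
    intro t
    induction t with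
    | var i => exact pt_var i
    | zero => exact pt_const 0
    | one => exact pt_const 1
    | add s t hs ht => exact pt_add (f := fun v => s.val natS v) (g := fun v => t.val natS v)
    | mul s t hs ht => exact pt_mul (f := fun v => s.val natS v) (g := fun v => t.val natS v)
    | pow s hs => exact pt_pow (f := fun _ => 2) (g := fun v => s.val natS v)
  have : g = fun v => t.val natS v := funext fun v => (ht v).symm
  rw [this]; exact key t

theorem pt_val (t : Tm) : PT (fun v => t.val natS v) := dt_pt ⟨⟨t, fun _ => rfl⟩⟩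

theorem pp_holds (f : Fm) : PP (fun v => f.holds natS v) := by
  induction f with
  | eq s t =>
    have := pt_val s
    have := pt_val t
    exact pp_eq (f := fun v => s.val natS v) (g := fun v => t.val natS v)
  | lt s t =>
    have := pt_val s
    have := pt_val t
    exact pp_lt (f := fun v => s.val natS v) (g := fun v => t.val natS v)
  | neg f ih => exact pp_not (P := fun v => f.holds natS v)
  | and f g ihf ihg => exact pp_and (P := fun v => f.holds natS v) (Q := fun v => g.holds natS v)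
  | all t f ih =>
    have := pt_val t
    have h2 : PP (fun v => (fun (x : ℕ) (v : ℕ → ℕ) => f.holds natS (psh x v)) (v 0)
        (fun i => v (i + 1))) := by
      refine PP.congr ih fun v => ?_
      have : psh (v 0) (fun i => v (i + 1)) = v := by
        funext i; cases i <;> rfl
      simp only [this]
    exact pp_all (g := fun v => t.val natS v) (R := fun x v => f.holds natS (psh x v))

theorem d0_pp {R : (ℕ → ℕ) → Prop} (hR : D0 R) : PP R := by
  obtain ⟨f, hf⟩ := hR.ex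
  exact PP.congr (pp_holds f) hf

/-! ### Least witnesses -/

open Classical in
/-- The least `x < t` with `P x`, or `0`. -/
noncomputable def lw (P : ℕ → Prop) (t : ℕ) : ℕ :=
  if h : ∃ x, x < t ∧ P x then Nat.find h else 0

theorem lw_spec {P : ℕ → Prop} {t : ℕ} (h : ∃ x, x < t ∧ P x) :
    lw P t < t ∧ P (lw P t) ∧ ∀ y, y < lw P t → ¬ P y := by
  classical
  have h1 : lw P t = Nat.find h := by
    unfold lw
    rw [dif_pos h]
  rw [h1]
  refine ⟨(Nat.find_spec h).1, (Nat.find_spec h).2, fun y hy hP => ?_⟩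
  exact Nat.find_min h hy ⟨lt_trans hy (Nat.find_spec h).1, hP⟩

theorem lw_eq_iff {P : ℕ → Prop} {t y : ℕ} : lw P t = y ↔
    (y < t ∧ P y ∧ ∀ z, z < y → ¬ P z) ∨ (y = 0 ∧ ∀ x, x < t → ¬ P x) := by
  by_cases h : ∃ x, x < t ∧ P x
  · obtain ⟨h1, h2, h3⟩ := lw_spec h
    constructor
    · rintro rfl; exact Or.inl ⟨h1, h2, h3⟩
    · rintro (⟨h4, h5, h6⟩ | ⟨_, h4⟩)
      · rcases lt_trichotomy (lw P t) y with h7 | h7 | h7
        · exact absurd h2 (h6 _ h7)
        · exact h7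
        · exact absurd h5 (h3 _ h7)
      · obtain ⟨x, hx, hP⟩ := h
        exact absurd hP (h4 x hx)
  · have h1 : lw P t = 0 := by
      unfold lw
      rw [dif_neg h]
    rw [h1]
    push Not at h
    constructor
    · rintro rfl; exact Or.inr ⟨rfl, h⟩
    · rintro (⟨h4, h5, h6⟩ | ⟨h4, _⟩)
      · exact absurd h5 (h _ h4)
      · exact h4.symm

theorem lw_le (P : ℕ → Prop) (t : ℕ) : lw P t ≤ t := by
  by_cases h : ∃ x, x < t ∧ P x
  · exact (lw_spec h).1.le
  · have h1 : lw P t = 0 := by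
      unfold lw
      rw [dif_neg h]
    omega

instance pt_lw {g : (ℕ → ℕ) → ℕ} {R : ℕ → (ℕ → ℕ) → Prop} [hg : PT g]
    [hR : PP (fun v => R (v 0) (fun i => v (i + 1)))] : PT (fun v => lw (fun x => R x v) (g v)) := by
  obtain ⟨⟨m, hm⟩, h⟩ := hg
  obtain ⟨⟨m', hm'⟩, h'⟩ := hR
  refine ⟨⟨max m m', fun v w hvw => ?_⟩, fun {α} _ w hw => ?_⟩
  · rw [hm v w (fun i hi => hvw i (lt_of_lt_of_le hi (le_max_left _ _)))]
    congr 1
    funext x
    apply propext
    have h1 := hm' (psh x v) (psh x w) (fun i hi => by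
      cases i with
      | zero => rfl
      | succ i => exact hvw i (by have := le_max_right m m'; omega))
    exact h1
  · have h1 : PrimrecRel fun (a : α) (x : ℕ) => R x (w a) := by
      have h2 := h' (α := α × ℕ) (fun p => psh p.2 (w p.1)) (fun i => by
        cases i with
        | zero => exact Primrec.snd
        | succ i => exact (hw i).comp Primrec.fst)
      exact h2
    refine Pr.of_graph (h w hw) (fun a => lw_le _ _) ?_
    have h3 : PrimrecRel fun (a : α) (y : ℕ) => (y < g (w a) ∧ (R y (w a) ∧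
        ∀ z < y, ¬ R z (w a))) ∨ (y = 0 ∧ ∀ x < g (w a), ¬ R x (w a)) := by
      apply PrimrecPred.or
      · apply PrimrecPred.and
        · exact Pr.lt Primrec.snd ((h w hw).comp Primrec.fst)
        · exact Pr.least h1
      · apply PrimrecPred.and
        · exact Pr.eq Primrec.snd (Primrec.const 0)
        · apply Pr.all_lt ((h w hw).comp Primrec.fst)
          exact (h1.comp (Primrec.fst.comp Primrec.fst) Primrec.snd).not
    exact h3.of_eq fun p y =>
      (lw_eq_iff (P := fun x => R x (w p)) (t := g (w p)) (y := y)).symm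

end Pool.Agent.BSig.Neg
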