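import Pool.Agent.Work.MP_510745_lc.Neg.BAt
import Pool.Agent.Work.MP_510745_lc.Neg.Hull

/-!
The relation of section 5: its bounded definition, and its meaning on the tower.
-/

namespace Pool.Agent.BSig.Neg

open Filter

/-! ### `Bh`: monotonicity and bounded definition -/

theorem Bh.mono {R : ℕ → ℕ → ℕ → Prop} {p a d F n n' w w' x : ℕ} (h : Bh R p a d F n w x)
    (hn : n ≤ n') (hw : w ≤ w') : Bh R p a d F n' w' x := by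
  rcases h with h | ⟨r, hr, y, hy, hx, ⟨hF, h1⟩ | ⟨hF, m, hm, h1, h2⟩⟩
  · exact Or.inl (by omega)
  · exact Or.inr ⟨r, by omega, y, hy, hx, Or.inl ⟨hF, h1.mono hw⟩⟩
  · exact Or.inr ⟨r, by omega, y, hy, hx, Or.inr ⟨hF, m, by omega, h1, h2.mono le_rfl hw⟩⟩

/-- The formal version of `Bh`; `U` codes the stages of `A` in the rows of `F`. -/
def BhD (R : ℕ → ℕ → ℕ → Prop) (W p d F n w U x : ℕ) : Prop :=
  x < w ∨ ∃ r, r < n ∧ ∃ t, t < W ∧ (Bt W (pr r t) ∧ ∃ y, y < t ∧ (x = t + y ∧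
    ((Bt F r ∧ ∃ u, u < w + 1 ∧ Bt U (pr u y)) ∨
      (¬ Bt F r ∧ ∃ m, m < n ∧ ∃ s, s < W ∧ (Bt W (pr m s) ∧ y < s ∧
        (∃ z, z < s ∧ R z y p) ∧ Lo d r m w)))))

theorem BhD.mono {R : ℕ → ℕ → ℕ → Prop} {W p d F n w w' U x : ℕ} (h : BhD R W p d F n w U x)
    (hw : w ≤ w') : BhD R W p d F n w' U x := by
  rcases h with h | ⟨r, hr, t, ht, hb, y, hy, hx, ⟨hF, u, hu, h1⟩ | ⟨hF, m, hm, s, hs, h1, h2, h3,
    h4⟩⟩
  · exact Or.inl (by omega)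
  · exact Or.inr ⟨r, hr, t, ht, hb, y, hy, hx, Or.inl ⟨hF, u, by omega, h1⟩⟩
  · exact Or.inr ⟨r, hr, t, ht, hb, y, hy, hx, Or.inr ⟨hF, m, hm, s, hs, h1, h2, h3,
      h4.mono le_rfl hw⟩⟩

/-- `U` codes the stages of `R` up to `a`, in the rows below `N`. -/
def StT (R : ℕ → ℕ → ℕ → Prop) (p a N U : ℕ) : Prop :=
  ∀ u y, Bt U (pr u y) ↔ u ≤ a ∧ y < tow N a ∧ St R p a u y

theorem bhD_iff {R : ℕ → ℕ → ℕ → Prop} {W p a d F n w N U x : ℕ} (hW : TwS a n W)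
    (hU : StT R p a N U) (hF : ∀ r, Bt F r → r < N) (hw : w ≤ a) :
    BhD R W p d F n w U x ↔ Bh R p a d F n w x := by
  unfold BhD Bh
  refine or_congr Iff.rfl ⟨?_, ?_⟩
  · rintro ⟨r, hr, t, ht, hb, y, hy, hx, h⟩
    have h1 := (hW.iff hr.le t).1 hb
    subst h1
    refine ⟨r, hr, y, hy, hx, ?_⟩
    rcases h with ⟨hFr, u, hu, h2⟩ | ⟨hFr, m, hm, s, hs, hb2, hys, hz, hl⟩
    · exact Or.inl ⟨hFr, ((hU u y).1 h2).2.2.mono (by omega)⟩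
    · have h2 := (hW.iff hm.le s).1 hb2
      subst h2
      exact Or.inr ⟨hFr, m, hm, ⟨hys, hz⟩, hl⟩
  · rintro ⟨r, hr, y, hy, hx, h⟩
    refine ⟨r, hr, _, hW.tow_lt hr.le, hW.has r hr.le, y, hy, hx, ?_⟩
    rcases h with ⟨hFr, h2⟩ | ⟨hFr, m, hm, ⟨hys, hz⟩, hl⟩
    · exact Or.inl ⟨hFr, w, by omega, (hU w y).2 ⟨hw, lt_of_lt_of_le hy
        (tow_mono (hF r hFr).le a), h2⟩⟩
    · exact Or.inr ⟨hFr, m, hm, _, hW.tow_lt hm.le, hW.has m hm.le, hys, hz, hl⟩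

theorem pp_St5 {R : ℕ → ℕ → ℕ → Prop} (hR : D0 (fun v => R (v 0) (v 1) (v 2)))
    (g0 g1 g2 g3 : (ℕ → ℕ) → ℕ) [PT g0] [PT g1] [PT g2] [PT g3] :
    PP (fun v => St R (g0 v) (g1 v) (g2 v) (g3 v)) := by
  have hR' : ∀ (g0 g1 g2 : (ℕ → ℕ) → ℕ) [PT g0] [PT g1] [PT g2],
      PP (fun v => R (g0 v) (g1 v) (g2 v)) := fun g0 g1 g2 _ _ _ => PP.s3 (d0_pp hR)
  apply PP.s4
  unfold St
  infer_instance

/-- Bounds. -/
theorem bd_pr5 {f g : ℕ → ℕ} (hf : Bd st f) (hg : Bd st g) : Bd st (fun k => BSig.pr (f k) (g k)) :=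
  ((hf.add grst hg).mul grst (hf.add grst hg)).add grst hf

/-- Codes of the stages exist. -/
theorem ex_StT {H : Set (ℕ → ℕ)} (hH : Hull H) {R : ℕ → ℕ → ℕ → Prop}
    (hR : D0 (fun v => R (v 0) (v 1) (v 2))) {p : ℕ → ℕ} (hp : p ∈ H) (N : ℕ) :
    ∃ U ∈ H, Bd st U ∧ ∀ k, StT R (p k) k N (U k) := by
  have hSt : ∀ (g0 g1 g2 g3 : (ℕ → ℕ) → ℕ) [PT g0] [PT g1] [PT g2] [PT g3],
      PP (fun v => St R (g0 v) (g1 v) (g2 v) (g3 v)) := fun g0 g1 g2 g3 _ _ _ _ =>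
    pp_St5 hR g0 g1 g2 g3
  have hP : PT (fun v : ℕ → ℕ => cds (fun z => ∃ u, u < v 1 + 1 ∧ ∃ y, y < tow N (v 1) ∧
      (z = BSig.pr u y ∧ St R (v 0) (v 1) u y)) (BSig.pr (v 1) (tow N (v 1)) + 1)) := by
    infer_instance
  refine ⟨_, hH.pt hP (v := asF [p, fun k => k]) (asF_mem hH _ (by
    intro x hx
    simp only [List.mem_cons, List.not_mem_nil, or_false] at hx
    rcases hx with rfl | rfl
    · exact hp
    · exact hH.idm)), ?_, ?_⟩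
  · have b1 : Bd st (fun k => k) := ⟨0, Eventually.of_forall fun _ => le_rfl⟩
    have b3 : Bd st (fun k => tow N k) := ⟨N, Eventually.of_forall fun _ => le_rfl⟩
    have b4 := (((bd_pr5 b1 b3).add grst (Bd.const grst 1)).pow grst)
    exact b4.mono (Eventually.of_forall fun k => (cds_lt _ _).le)
  · intro k u y
    change Bt (cds _ _) (BSig.pr u y) ↔ _
    rw [bt_cds]
    change _ ∧ (∃ u', u' < k + 1 ∧ ∃ y', y' < tow N k ∧ (BSig.pr u y = BSig.pr u' y' ∧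
      St R (p k) k u' y')) ↔ _
    constructor
    · rintro ⟨-, u', hu, y', hy, h1, h2⟩
      obtain ⟨rfl, rfl⟩ := pr_inj h1
      exact ⟨by omega, hy, h2⟩
    · rintro ⟨hu, hy, h1⟩
      refine ⟨?_, u, by omega, y, hy, rfl, h1⟩
      have := pr_mono hu hy.le
      change BSig.pr u y < BSig.pr k (tow N k) + 1
      omega

/-! ### The relation of section 5 -/

/-- The relation of section 5. `F0` is the set of promised rows, the parameter is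
`h = pr (pr p a) (pr g U)`, where `g` codes the graph of the parameter of the functional. -/
def R5 (A : Ce) (Θ : Fn) (F0 S n G K Q w d h : ℕ) : Prop :=
  G = F0 ∧ Q = Q ∧ ∃ p, p < h + 1 ∧ ∃ a, a < h + 1 ∧ ∃ g, g < h + 1 ∧ ∃ U, U < h + 1 ∧
    (h = pr (pr p a) (pr g U) ∧ w < a + 1 ∧ ∃ e, e < g ∧ (Bt g (pr d e) ∧ K < S ∧
    ∃ P, P < S ∧ ∃ Z, Z < S ∧ ((∃ y, y < S ∧ Θ.R y K P Z e) ∧
    ∃ W, W < 2 ^ 2 ^ 2 ^ 2 ^ S ∧ (TwS a n W ∧ (∀ z, z < P → (Bt P z → BStD A.R W p d n z)) ∧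
      ∀ z, z < Z → (Bt Z z → ¬ BhD A.R W p d F0 n w U z)))))

theorem d0_BhD {R : ℕ → ℕ → ℕ → Prop} (hR : D0 (fun v => R (v 0) (v 1) (v 2))) :
    D0 (fun v => BhD R (v 0) (v 1) (v 2) (v 3) (v 4) (v 5) (v 6) (v 7)) := by
  have hR' : ∀ (g0 g1 g2 : (ℕ → ℕ) → ℕ) [DT g0] [DT g1] [DT g2],
      D0 (fun v => R (g0 v) (g1 v) (g2 v)) := fun g0 g1 g2 _ _ _ => D0.s3 hR
  unfold BhD
  infer_instance

theorem d0_R5 (A : Ce) (Θ : Fn) (F0 : ℕ) :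
    D0 (fun v => R5 A Θ F0 (v 0) (v 1) (v 2) (v 3) (v 4) (v 5) (v 6) (v 7)) := by
  have h1 : ∀ (g0 g1 g2 g3 g4 : (ℕ → ℕ) → ℕ) [DT g0] [DT g1] [DT g2] [DT g3] [DT g4],
      D0 (fun v => BStD A.R (g0 v) (g1 v) (g2 v) (g3 v) (g4 v)) :=
    fun g0 g1 g2 g3 g4 _ _ _ _ _ => D0.s5 (d0_BStD A.d0)
  have h2 : ∀ (g0 g1 g2 g3 g4 g5 g6 g7 : (ℕ → ℕ) → ℕ) [DT g0] [DT g1] [DT g2] [DT g3] [DT g4]
      [DT g5] [DT g6] [DT g7],
      D0 (fun v => BhD A.R (g0 v) (g1 v) (g2 v) (g3 v) (g4 v) (g5 v) (g6 v) (g7 v)) :=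
    fun g0 g1 g2 g3 g4 g5 g6 g7 _ _ _ _ _ _ _ _ => D0.s8 (d0_BhD A.d0)
  have h3 : ∀ (g0 g1 g2 g3 g4 : (ℕ → ℕ) → ℕ) [DT g0] [DT g1] [DT g2] [DT g3] [DT g4],
      D0 (fun v => Θ.R (g0 v) (g1 v) (g2 v) (g3 v) (g4 v)) :=
    fun g0 g1 g2 g3 g4 _ _ _ _ _ => D0.s5 Θ.d0
  unfold R5
  infer_instance

theorem R5.anti {A : Ce} {Θ : Fn} {F0 S n G K Q w w' d h : ℕ} (hw : w' ≤ w)
    (hR : R5 A Θ F0 S n G K Q w d h) : R5 A Θ F0 S n G K Q w' d h := by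
  obtain ⟨h0, hQ, p, hp, a, ha, g, hg, U, hU, h1, h2, e, he, h3, hK, P, hP, Z, hZ, h4, W, hW, h5,
    h6, h7⟩ := hR
  exact ⟨h0, hQ, p, hp, a, ha, g, hg, U, hU, h1, by omega, e, he, h3, hK, P, hP, Z, hZ, h4, W, hW,
    h5, h6, fun z hz hb hh => h7 z hz hb (hh.mono hw)⟩

/-- The meaning of the relation. -/
theorem r5_iff {A : Ce} {Θ : Fn} {F0 n G K Q w d p a g U N : ℕ} (ha : 6 ≤ a)
    (hU : StT A.R p a N U) (hF : ∀ r, Bt F0 r → r < N) :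
    R5 A Θ F0 (tow n a) n G K Q w d (pr (pr p a) (pr g U)) ↔
      G = F0 ∧ w ≤ a ∧ ∃ e, Bt g (pr d e) ∧ ∃ P Z, Θ.cl e a n K P Z ∧
        (∀ z, Bt P z → BSt A.R p a d n z) ∧ ∀ z, Bt Z z → ¬ Bh A.R p a d F0 n w z := by
  constructor
  · rintro ⟨h0, -, p', hp, a', ha', g', hg, U', hU', h1, h2, e, he, h3, hK, P, hP, Z, hZ, h4, W, hW,
      h5, h6, h7⟩
    obtain ⟨h8, h9⟩ := pr_inj h1
    obtain ⟨rfl, rfl⟩ := pr_inj h8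
    obtain ⟨rfl, rfl⟩ := pr_inj h9
    refine ⟨h0, by omega, e, h3, P, Z, ⟨hK, hP, hZ, h4⟩, fun z hz => ?_, fun z hz hb => ?_⟩
    · exact (bStD_iff h5).1 (h6 z hz.lt hz)
    · exact h7 z hz.lt hz ((bhD_iff h5 hU hF (by omega)).2 hb)
  · rintro ⟨h0, hw, e, h3, P, Z, ⟨hK, hP, hZ, h4⟩, h6, h7⟩
    obtain ⟨W, hW, h5⟩ := ex_TwS' a n (le_trans ha (le_tow n a))
    refine ⟨h0, rfl, p, ?_, a, ?_, g, ?_, U, ?_, rfl, by omega, e, (bt_pr_lt h3).2, h3, hK, P, hP,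
      Z, hZ, h4, W, hW, h5, fun z _ hz => (bStD_iff h5).2 (h6 z hz), fun z _ hz hb =>
      h7 z hz ((bhD_iff h5 hU hF hw).1 hb)⟩
    · exact Nat.lt_succ_of_le (le_trans (le_pr_left p a) (le_pr_left _ _))
    · exact Nat.lt_succ_of_le (le_trans (le_pr_right p a) (le_pr_left _ _))
    · exact Nat.lt_succ_of_le (le_trans (le_pr_left g U) (le_pr_right _ _))
    · exact Nat.lt_succ_of_le (le_trans (le_pr_right g U) (le_pr_right _ _))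

end Pool.Agent.BSig.Neg
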