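import Pool.Agent.Work.MP_510745_lc.Neg.Next
import Pool.Agent.Work.MP_510745_lc.Neg.Wr
import Pool.Agent.Work.MP_510745_lc.Neg.Graph

/-!
Section 7: a reduction of `X` to `Y` over the hull of a generic comes from one over `H`: soundness
and completeness of the forcing relation.
-/

namespace Pool.Agent.BSig.Neg

open Filter Pool.Agent.BSig

/-- The matrix; `h = pr g (Y.p)`, where `g` codes the graph of the parameter. -/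
def R7 (Y : Ce) (Θ : Fn) (S K Q d h : ℕ) : Prop :=
  ∃ g, g < h + 1 ∧ ∃ y, y < h + 1 ∧ (h = pr g y ∧ ∃ e, e < g ∧ (Gv g d e ∧
    ∃ P, P < S ∧ ∃ Q', Q' < S ∧ (K < S ∧ (∃ t, t < S ∧ Θ.R t K P Q' e) ∧
      (∀ z, z < P → (Bt P z → (z < S ∧ ∃ t, t < S ∧ Y.R t z y))) ∧
      ∀ z, z < Q' → (Bt Q' z → Bt Q z))))

theorem d0_R7 (Y : Ce) (Θ : Fn) : D0 (fun v => R7 Y Θ (v 0) (v 1) (v 2) (v 3) (v 4)) := by
  unfold R7
  infer_instance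

/-- The same with the parameters decoded. -/
theorem r7_iff {Y : Ce} {Θ : Fn} {k n K Q d g : ℕ} : R7 Y Θ (tow n k) K Q d (pr g (Y.p k)) ↔
    ∃ e, Gv g d e ∧ ∃ P Q', Θ.cl e k n K P Q' ∧ (∀ z, Bt P z → Y.at k n z) ∧
      ∀ z, Bt Q' z → Bt Q z := by
  constructor
  · rintro ⟨g', _, y', _, h1, e, _, h2, P, hP, Q', hQ', hK, h3, h4, h5⟩
    obtain ⟨rfl, rfl⟩ := pr_inj h1
    exact ⟨e, h2, P, Q', ⟨hK, hP, hQ', h3⟩, fun z hz => h4 z hz.lt hz, fun z hz => h5 z hz.lt hz⟩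
  · rintro ⟨e, h2, P, Q', ⟨hK, hP, hQ', h3⟩, h4, h5⟩
    exact ⟨g, Nat.lt_succ_of_le (le_pr_left _ _), _, Nat.lt_succ_of_le (le_pr_right _ _), rfl, e,
      lt_of_le_of_lt (le_pr_right _ _) (Bt.lt h2), h2, P, hP, Q', hQ', hK, h3,
      fun z _ hz => h4 z hz, fun z _ hz => h5 z hz⟩

variable {H : Set (ℕ → ℕ)}

/-- Soundness. -/
theorem r7_snd (hH : Hull H) {X Y : Ce} (hY : Y.p ∈ H) {Θ : Fn} {F : ℕ → ℕ} (hF : Primrec F)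
    {h g : ℕ → ℕ} (hh : h ∈ H)
    (hgr : ∀ k d e, Gv (g k) d e → e = F (Nat.pair (h k) d)) {p' : Cond H}
    (hp' : p' ∉ Wr (nxt H) (fun d => ¬ Sound (nxt H d) Θ (ed F h d) X Y))
    {K Q : ℕ → ℕ} (hK : K ∈ H) (hQ : Q ∈ H) (hd : Y.dis Q)
    (hR : ∀ᶠ k in Uf, ∀ d, Bt (p'.q k) d →
      R7 Y Θ (tow p'.n k) (K k) (Q k) d (pr (g k) (Y.p k))) : X.dis K := by
  have hp2 : ∃ d G, Gen H (nxt H d) d G ∧ (∃ i, Ext (G i) p') ∧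
      Sound (nxt H d) Θ (ed F h d) X Y := by
    by_contra hc
    apply hp'
    intro d G h1 h2 h3
    exact hc ⟨d, G, h1, h2, h3⟩
  obtain ⟨d, G, hG, ⟨i, hi⟩, hS⟩ := hp2
  have hN := hull_nxt hH d
  have hdq : ∀ᶠ k in Uf, Bt (p'.q k) (d k) := by
    filter_upwards [hG.mem i, hi.2.2] with k h1 h2
    exact sub_iff.1 h2 _ h1
  have he : ed F h d ∈ nxt H d := ⟨F, hF, h, hh, Eventually.of_forall fun _ => rfl⟩
  have hT : (fun k => tow p'.n k) ∈ nxt H d := hN.tow (hN.const _) hN.idm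
  have h1 : ∀ᶠ k in Uf, ∃ P Q', Θ.cl (ed F h d k) k p'.n (K k) P Q' ∧
      (∀ z, Bt P z → Y.at k p'.n z) ∧ ∀ z, Bt Q' z → Bt (Q k) z := by
    filter_upwards [hR, hdq] with k h1 h2
    obtain ⟨e, h3, P, Q', h4, h5, h6⟩ := r7_iff.1 (h1 _ h2)
    have h7 : e = ed F h d k := hgr _ _ _ h3
    subst h7
    exact ⟨P, Q', h4, h5, h6⟩
  obtain ⟨P, hP, h2⟩ := hN.sk5 (R := fun P K Q e y S => ∃ Q', Q' < S ∧ (K < S ∧ P < S ∧
      (∃ t, t < S ∧ Θ.R t K P Q' e) ∧ (∀ z, z < P → (Bt P z → (z < S ∧ ∃ t, t < S ∧ Y.R t z y))) ∧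
      ∀ z, z < Q' → (Bt Q' z → Bt Q z))) (d0_pp inferInstance)
    (sub_nxt hK) (sub_nxt hQ) he (sub_nxt hY) hT hT (by
    filter_upwards [h1] with k hk
    obtain ⟨P, Q', ⟨h4, h5, h6, h7⟩, h8, h9⟩ := hk
    exact ⟨P, h5, Q', h6, h4, h5, h7, fun z _ hz => h8 z hz, fun z _ hz => h9 z hz⟩)
  obtain ⟨Q', hQ', h3⟩ := hN.sk5 (R := fun Q' K Q e P S => K < S ∧ P < S ∧
      (∃ t, t < S ∧ Θ.R t K P Q' e) ∧ ∀ z, z < Q' → (Bt Q' z → Bt Q z)) (d0_pp inferInstance)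
    (sub_nxt hK) (sub_nxt hQ) he hP hT hT (by
    filter_upwards [h2] with k hk
    obtain ⟨-, ⟨Q', h6, h4, h5, h7, h8, h9⟩, -⟩ := hk
    exact ⟨Q', h6, h4, h5, h7, h9⟩)
  refine hS K (sub_nxt hK) P hP Q' hQ' p'.n ?_ ⟨p'.n, ?_⟩ ?_
  · filter_upwards [h3] with k hk
    exact ⟨hk.2.1.1, hk.2.1.2.1, hk.1, hk.2.1.2.2.1⟩
  · filter_upwards [h2] with k hk z hz
    obtain ⟨-, ⟨Q', h6, h4, h5, h7, h8, h9⟩, -⟩ := hk
    exact h8 z hz.lt hz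
  · intro n
    filter_upwards [h3, hd n] with k hk h4 z hz
    exact h4 z (hk.2.1.2.2.2 z hz.lt hz)

/-- Overspill for disjointness. -/
theorem dis_over (hH : Hull H) {Y : Ce} (hY : Y.p ∈ H) {Q : ℕ → ℕ} (hQ : Q ∈ H) (hd : Y.dis Q) :
    ∃ ν ∈ H, Ns ν ∧ (∀ᶠ k in Uf, ν k ≤ k) ∧
      ∀ᶠ k in Uf, ∀ z, Bt (Q k) z → ¬ Y.at k (ν k) z := by
  obtain ⟨ν, hν, h1, h2, h3⟩ := hH.over3 (R := fun n k Q y => ∀ z, z < Q → (Bt Q z →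
      ¬ (z < tow n k ∧ ∃ t, t < tow n k ∧ Y.R t z y))) (by
    have : ∀ (g0 g1 g2 : (ℕ → ℕ) → ℕ) [PT g0] [PT g1] [PT g2],
      PP (fun v => Y.R (g0 v) (g1 v) (g2 v)) := fun g0 g1 g2 _ _ _ => PP.s3 (d0_pp Y.d0)
    infer_instance)
    hH.idm hQ hY (fun n => by
      filter_upwards [hd n] with k hk z _ hz
      exact hk z hz)
  refine ⟨ν, hν, h1, h2, ?_⟩
  filter_upwards [h3] with k hk z hz
  exact hk (ν k) le_rfl z hz.lt hz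

/-- Completeness. -/
theorem r7_cmp (hH : Hull H) {X Y : Ce} (hY : Y.p ∈ H) {Θ : Fn} {F : ℕ → ℕ}
    {h g : ℕ → ℕ} (hg : g ∈ H) {d : ℕ → ℕ} {G : ℕ → Cond H}
    (hG : Gen H (nxt H d) d G) (hgr : ∀ᶠ k in Uf, Gv (g k) (d k) (ed F h d k))
    (hC : Compl (nxt H d) Θ (ed F h d) X Y) (i0 : ℕ) {K : ℕ → ℕ} (hK : K ∈ H) (hKb : Bd st K)
    (hKd : X.dis K) : ∃ p' : Cond H, Ext p' (G i0) ∧ ∃ Q ∈ H, Bd st Q ∧ Y.dis Q ∧
      ∀ᶠ k in Uf, ∀ d, Bt (p'.q k) d →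
        R7 Y Θ (tow p'.n k) (K k) (Q k) d (pr (g k) (Y.p k)) := by
  have hN := hull_nxt hH d
  obtain ⟨P, hP, Q', hQ', n0, h1, ⟨n1, h2⟩, h3⟩ := hC K (sub_nxt hK) hKb hKd
  obtain ⟨ν', hν', h4, -, h5⟩ := dis_over hN (sub_nxt hY) hQ' h3
  obtain ⟨ν, hν, h6, h7⟩ := hG.coi ν' hν' h4
  set N := max n0 n1 with hNdef
  have hYP : ∀ (g0 g1 g2 : (ℕ → ℕ) → ℕ) [PT g0] [PT g1] [PT g2],
      PP (fun v => Y.R (g0 v) (g1 v) (g2 v)) := fun g0 g1 g2 _ _ _ => PP.s3 (d0_pp Y.d0)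
  have hQm : (fun k => cds (fun z => ¬ Y.at k (ν k) z) (tow N k)) ∈ H :=
    hH.pt3 (f := fun k n y => cds (fun z => ¬ (z < tow n k ∧ ∃ t, t < tow n k ∧ Y.R t z y))
      (tow N k)) inferInstance hH.idm hν hY
  have hQb : Bd st (fun k => cds (fun z => ¬ Y.at k (ν k) z) (tow N k)) :=
    ⟨N + 1, Eventually.of_forall fun k => (cds_lt _ _).le⟩
  have hQd : Y.dis (fun k => cds (fun z => ¬ Y.at k (ν k) z) (tow N k)) := by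
    refine Ce.dis_of_ns h6 (Eventually.of_forall fun k z hz => ?_)
    exact (bt_cds.1 hz).2
  have hR7 : ∀ᶠ k in Uf, R7 Y Θ (tow N k) (K k)
      (cds (fun z => ¬ Y.at k (ν k) z) (tow N k)) (d k) (pr (g k) (Y.p k)) := by
    filter_upwards [h1, h2, h5, h7, hgr] with k a1 a2 a3 a4 a5
    rw [r7_iff]
    refine ⟨_, a5, P k, Q' k, a1.mono (le_max_left _ _), fun z hz =>
      (a2 z hz).mono (le_max_right _ _), fun z hz => bt_cds.2 ⟨?_, fun h => a3 z hz (h.mono a4)⟩⟩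
    exact lt_trans hz.lt (lt_of_lt_of_le a1.2.2.1 (tow_mono (le_max_left _ _) k))
  have hq : (fun k => cds (fun d' => R7 Y Θ (tow N k) (K k)
      (cds (fun z => ¬ Y.at k (ν k) z) (tow N k)) d' (pr (g k) (Y.p k)))
      (2 ^ pr (pr k k) k)) ∈ H := by
    have hR : ∀ (g0 g1 g2 g3 g4 : (ℕ → ℕ) → ℕ) [PT g0] [PT g1] [PT g2] [PT g3] [PT g4],
        PP (fun v => R7 Y Θ (g0 v) (g1 v) (g2 v) (g3 v) (g4 v)) :=
      fun g0 g1 g2 g3 g4 _ _ _ _ _ => PP.s5 (d0_pp (d0_R7 Y Θ))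
    have h1 : PP (fun v : ℕ → ℕ => R7 Y Θ (tow N (v 1)) (v 2) (v 3) (v 0) (pr (v 4) (v 5))) :=
      hR _ _ _ _ _
    have h2 : PT (fun v : ℕ → ℕ => 2 ^ pr (pr (v 0) (v 0)) (v 0)) := by infer_instance
    exact hH.pt5 (f := fun k K Q g y => cds (fun d' => R7 Y Θ (tow N k) K Q d' (pr g y))
      (2 ^ pr (pr k k) k)) (@pt_cds _ (fun d' v => R7 Y Θ (tow N (v 0)) (v 1) (v 2) d'
        (pr (v 3) (v 4))) h2 h1) hH.idm hK hQm hg hY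
  obtain ⟨i, hi⟩ := hG.dec _ hq
  have hmem : ∀ᶠ k in Uf, Bt (cds (fun d' => R7 Y Θ (tow N k) (K k)
      (cds (fun z => ¬ Y.at k (ν k) z) (tow N k)) d' (pr (g k) (Y.p k)))
      (2 ^ pr (pr k k) k)) (d k) := by
    filter_upwards [hR7, (G 0).cod, hG.mem 0] with k a1 a2 a3
    exact bt_cds.2 ⟨a2 _ a3, a1⟩
  have hi' : ∀ᶠ k in Uf, Sub ((G i).q k) (cds (fun d' => R7 Y Θ (tow N k) (K k)
      (cds (fun z => ¬ Y.at k (ν k) z) (tow N k)) d' (pr (g k) (Y.p k)))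
      (2 ^ pr (pr k k) k)) := by
    rcases hi with hi | hi
    · exact hi
    · exfalso
      obtain ⟨k, ⟨a1, a2⟩, a3⟩ := ev_exists ((hi.and (hG.mem i)).and hmem)
      exact a1 _ a2 a3
  obtain ⟨l, hl⟩ := hG.dom N
  set j := max i0 (max i l) with hj
  have e1 : Ext (G j) (G i0) := hG.anti _ _ (le_max_left _ _)
  have e2 : Ext (G j) (G i) := hG.anti _ _ (le_trans (le_max_left _ _) (le_max_right _ _))
  have e3 : Ext (G j) (G l) := hG.anti _ _ (le_trans (le_max_right _ _) (le_max_right _ _))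
  refine ⟨G j, e1, _, hQm, hQb, hQd, ?_⟩
  filter_upwards [hi', e2.2.2] with k a1 a2 d' hd'
  have a3 := (bt_cds.1 (sub_iff.1 a1 _ (sub_iff.1 a2 _ hd'))).2
  rw [r7_iff] at a3 ⊢
  obtain ⟨e, b1, P, Q', b2, b3, b4⟩ := a3
  have hNj : N ≤ (G j).n := le_trans hl e3.1
  exact ⟨e, b1, P, Q', b2.mono hNj, fun z hz => (b3 z hz).mono hNj, b4⟩

end Pool.Agent.BSig.Neg
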