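import Pool.Agent.Work.MP_510745_lc.Neg.R5
import Pool.Agent.Work.MP_510745_lc.Neg.Wr
import Pool.Agent.Work.MP_510745_lc.Neg.Next

/-!
Section 5, second half: a coded set disjoint from `A` is recognized by the relation `R5`.
-/

namespace Pool.Agent.BSig.Neg

open Filter

variable {H : Set (ℕ → ℕ)}

/-- The values of the generic in the promised rows are standard. -/
theorem Gen.lo {nx : Set (ℕ → ℕ)} {d : ℕ → ℕ} {G : ℕ → Cond H} (hG : Gen H nx d G) (i j : ℕ) :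
    ∃ b, ∀ᶠ k in Uf, ∀ r, Bt (G i).F r → Lo (d k) r j b := by
  obtain ⟨l, hl⟩ := hG.dom (j + 1)
  have hl' : j + 1 ≤ (G (max i l)).n := le_trans hl (hG.anti l _ (le_max_right _ _)).1
  obtain ⟨b, hb⟩ := (G (max i l)).std
  refine ⟨b + 1, ?_⟩
  filter_upwards [hb, hG.mem (max i l)] with k h1 h2 r hr j' hj'
  obtain ⟨v, hv, h3⟩ := h1 (d k) h2 r ((hG.anti i _ (le_max_left _ _)).2.1 r hr) j' (by omega)
  exact ⟨v, by omega, h3⟩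

/-- A set disjoint from `B` is disjoint from every upper approximation at a standard stage. -/
theorem not_bh {nx : Set (ℕ → ℕ)} {A : Ce} {d : ℕ → ℕ} {G : ℕ → Cond H} (hG : Gen H nx d G)
    (i : ℕ) {Z : ℕ → ℕ} (hZ : (cB A d).dis Z) (j : ℕ) :
    ∀ᶠ k in Uf, ∀ z, Bt (Z k) z → ¬ Bh A.R (A.p k) k (d k) (G i).F j j z := by
  obtain ⟨b, hb⟩ := hG.lo i j
  filter_upwards [hZ (max (j + 1) b + 5), hb, ev_ge 6] with k h1 h2 h3 z hz h4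
  apply h1 z hz
  refine cB_of (n := max (j + 1) b) h3 le_rfl ?_
  rcases h4 with h4 | ⟨r, hr, y, hy, hx, ⟨hF, h5⟩ | ⟨hF, m, hm, h5, h6⟩⟩
  · exact Or.inl (by omega)
  · exact Or.inr ⟨r, by omega, y, hy, hx, j, by omega, h5, (h2 r hF).mono le_rfl (by omega)⟩
  · exact Or.inr ⟨r, by omega, y, hy, hx, m, by omega, h5, h6.mono le_rfl (by omega)⟩

/-! ### Primitive recursive relations -/

theorem pp_Lo5 (g0 g1 g2 g3 : (ℕ → ℕ) → ℕ) [PT g0] [PT g1] [PT g2] [PT g3] :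
    PP (fun v => Lo (g0 v) (g1 v) (g2 v) (g3 v)) := by
  apply PP.s4
  exact d0_pp inferInstance

theorem pp_BSt5 {R : ℕ → ℕ → ℕ → Prop} (hR : D0 (fun v => R (v 0) (v 1) (v 2)))
    (g0 g1 g2 g3 g4 : (ℕ → ℕ) → ℕ) [PT g0] [PT g1] [PT g2] [PT g3] [PT g4] :
    PP (fun v => BSt R (g0 v) (g1 v) (g2 v) (g3 v) (g4 v)) := by
  have h1 : ∀ (g0 g1 g2 g3 : (ℕ → ℕ) → ℕ) [PT g0] [PT g1] [PT g2] [PT g3],
      PP (fun v => St R (g0 v) (g1 v) (g2 v) (g3 v)) := fun g0 g1 g2 g3 _ _ _ _ =>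
    pp_St5 hR g0 g1 g2 g3
  have h2 := pp_Lo5
  apply PP.s5
  unfold BSt
  infer_instance

theorem pp_Bh5 {R : ℕ → ℕ → ℕ → Prop} (hR : D0 (fun v => R (v 0) (v 1) (v 2)))
    (g0 g1 g2 g3 g4 g5 g6 : (ℕ → ℕ) → ℕ) [PT g0] [PT g1] [PT g2] [PT g3] [PT g4] [PT g5]
    [PT g6] :
    PP (fun v => Bh R (g0 v) (g1 v) (g2 v) (g3 v) (g4 v) (g5 v) (g6 v)) := by
  have h1 : ∀ (g0 g1 g2 g3 : (ℕ → ℕ) → ℕ) [PT g0] [PT g1] [PT g2] [PT g3],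
      PP (fun v => St R (g0 v) (g1 v) (g2 v) (g3 v)) := fun g0 g1 g2 g3 _ _ _ _ =>
    pp_St5 hR g0 g1 g2 g3
  have h2 := pp_Lo5
  have h3 : PP (fun v => (fun p a d F n w x (_ : ℕ) => Bh R p a d F n w x)
      (v 0) (v 1) (v 2) (v 3) (v 4) (v 5) (v 6) (v 7)) := by
    unfold Bh
    infer_instance
  exact PP.s8 (P := fun p a d F n w x (_ : ℕ) => Bh R p a d F n w x) (g7 := fun _ => 0) h3

theorem pp_cl5 (Θ : Fn) (g0 g1 g2 g3 g4 g5 : (ℕ → ℕ) → ℕ) [PT g0] [PT g1] [PT g2] [PT g3]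
    [PT g4] [PT g5] :
    PP (fun v => Θ.cl (g0 v) (g1 v) (g2 v) (g3 v) (g4 v) (g5 v)) := by
  have h3 : ∀ (g0 g1 g2 g3 g4 : (ℕ → ℕ) → ℕ) [PT g0] [PT g1] [PT g2] [PT g3] [PT g4],
      PP (fun v => Θ.R (g0 v) (g1 v) (g2 v) (g3 v) (g4 v)) :=
    fun g0 g1 g2 g3 g4 _ _ _ _ _ => PP.s5 (d0_pp Θ.d0)
  apply PP.s6
  unfold Fn.cl
  infer_instance

/-! ### The set of good arrays -/

/-- Completeness: a coded set disjoint from `A` is recognized. -/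
theorem sec5_cmp (hH : Hull H) {d : ℕ → ℕ} {G : ℕ → Cond H} (hG : Gen H (nxt H d) d G)
    {A : Ce} (hA : A.over H) {Θ : Fn} {F : ℕ → ℕ} (hF : Primrec F) {h : ℕ → ℕ} (hh : h ∈ H)
    (hC : Compl (nxt H d) Θ (ed F h d) A (cB A d)) (i : ℕ) {m : ℕ}
    (hm : ∀ᶠ k in Uf, ed F h d k < tow m k) {g U : ℕ → ℕ}
    (hg : ∀ k d e, Bt (g k) (pr d e) ↔ d < 2 ^ pr (pr k k) k ∧ e < tow m k ∧
      e = F (Nat.pair (h k) d)) {N : ℕ} (hU : ∀ k, StT A.R (A.p k) k N (U k))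
    (hN : ∀ r, Bt (G i).F r → r < N) {K : ℕ → ℕ} (hK : K ∈ H) (hKb : Bd st K) (hd : A.dis K) :
    ∃ p' : Cond H, Ext p' (G i) ∧ ∃ Q ∈ H, ∃ w ∈ H, Bd st Q ∧ Ns w ∧ (∀ᶠ k in Uf, w k ≤ k) ∧
      cI.dis Q ∧ ∀ᶠ k in Uf, ∀ d', Bt (p'.q k) d' →
        R5 A Θ (G i).F (tow p'.n k) p'.n p'.F (K k) (Q k) (w k) d'
          (pr (pr (A.p k) k) (pr (g k) (U k))) := by
  obtain ⟨P, hP, Z, hZ, n0, hcl, hsub, hdis⟩ := hC K (sub_nxt hK) hKb hd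
  obtain ⟨n1, hn1⟩ := hsub
  have hH' := hull_nxt hH d
  have i1 : ∀ (g0 g1 g2 g3 g4 : (ℕ → ℕ) → ℕ) [PT g0] [PT g1] [PT g2] [PT g3] [PT g4],
      PP (fun v => BSt A.R (g0 v) (g1 v) (g2 v) (g3 v) (g4 v)) :=
    fun g0 g1 g2 g3 g4 _ _ _ _ _ => pp_BSt5 A.d0 g0 g1 g2 g3 g4
  have i2 : ∀ (g0 g1 g2 g3 g4 g5 g6 : (ℕ → ℕ) → ℕ) [PT g0] [PT g1] [PT g2] [PT g3] [PT g4]
      [PT g5] [PT g6], PP (fun v => Bh A.R (g0 v) (g1 v) (g2 v) (g3 v) (g4 v) (g5 v) (g6 v)) :=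
    fun g0 g1 g2 g3 g4 g5 g6 _ _ _ _ _ _ _ => pp_Bh5 A.d0 g0 g1 g2 g3 g4 g5 g6
  have i3 := pp_cl5 Θ
  have i4 : ∀ (f : (ℕ → ℕ) → ℕ) [PT f], PT (fun v => F (f v)) := fun f _ => PT.comp1 hF
  -- overspill
  obtain ⟨ν, hν, hν1, hν2, hν3⟩ := hH'.over4 (R := fun j Z p a d => ∀ z, z < Z → (Bt Z z →
      ¬ Bh A.R p a d (G i).F j j z)) (by infer_instance) hZ (sub_nxt hA.1) hH'.idm
      (self_nxt hH d) (fun j => (not_bh hG i hdis j).mono fun k hk z _ hz => hk z hz)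
  obtain ⟨w, hw, hw1, hw2⟩ := hG.coi ν hν hν1
  -- the set of good arrays
  have hqs : (fun k => cds (fun d' => F (Nat.pair (h k) d') < tow m k ∧
      ∃ P, P < tow n0 k ∧ ∃ Z, Z < tow n0 k ∧ (Θ.cl (F (Nat.pair (h k) d')) k n0 (K k) P Z ∧
        (∀ z, z < P → (Bt P z → BSt A.R (A.p k) k d' n1 z)) ∧
        ∀ z, z < Z → (Bt Z z → ¬ Bh A.R (A.p k) k d' (G i).F (w k) (w k) z)))
      (2 ^ pr (pr k k) k)) ∈ H := by
    have h1 : PT (fun v : ℕ → ℕ => cds (fun d' => F (Nat.pair (v 0) d') < tow m (v 1) ∧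
      ∃ P, P < tow n0 (v 1) ∧ ∃ Z, Z < tow n0 (v 1) ∧
        (Θ.cl (F (Nat.pair (v 0) d')) (v 1) n0 (v 2) P Z ∧
        (∀ z, z < P → (Bt P z → BSt A.R (v 3) (v 1) d' n1 z)) ∧
        ∀ z, z < Z → (Bt Z z → ¬ Bh A.R (v 3) (v 1) d' (G i).F (v 4) (v 4) z)))
      (2 ^ pr (pr (v 1) (v 1)) (v 1))) := by
      infer_instance
    exact hH.pt h1 (v := asF [h, fun k => k, K, A.p, w]) (asF_mem hH _ (by
      intro x hx
      simp only [List.mem_cons, List.not_mem_nil, or_false] at hx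
      rcases hx with rfl | rfl | rfl | rfl | rfl
      · exact hh
      · exact hH.idm
      · exact hK
      · exact hA.1
      · exact hw))
  obtain ⟨i5, hi5⟩ := hG.dec _ hqs
  have hdq : ∀ᶠ k in Uf, Bt (cds (fun d' => F (Nat.pair (h k) d') < tow m k ∧
      ∃ P, P < tow n0 k ∧ ∃ Z, Z < tow n0 k ∧ (Θ.cl (F (Nat.pair (h k) d')) k n0 (K k) P Z ∧
        (∀ z, z < P → (Bt P z → BSt A.R (A.p k) k d' n1 z)) ∧
        ∀ z, z < Z → (Bt Z z → ¬ Bh A.R (A.p k) k d' (G i).F (w k) (w k) z)))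
      (2 ^ pr (pr k k) k)) (d k) := by
    filter_upwards [hcl, hn1, hν3, hw2, hm, (G 0).cod, hG.mem 0] with k h1 h2 h3 h4 h5 h6 h7
    rw [bt_cds]
    refine ⟨h6 _ h7, h5, P k, h1.2.1, Z k, h1.2.2.1, h1, fun z _ hz => cB_to (h2 z hz),
      fun z hz hb hbh => h3 (ν k) le_rfl z hz hb (hbh.mono h4 h4)⟩
  have hsub5 : ∀ᶠ k in Uf, Sub ((G i5).q k) (cds (fun d' => F (Nat.pair (h k) d') < tow m k ∧
      ∃ P, P < tow n0 k ∧ ∃ Z, Z < tow n0 k ∧ (Θ.cl (F (Nat.pair (h k) d')) k n0 (K k) P Z ∧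
        (∀ z, z < P → (Bt P z → BSt A.R (A.p k) k d' n1 z)) ∧
        ∀ z, z < Z → (Bt Z z → ¬ Bh A.R (A.p k) k d' (G i).F (w k) (w k) z)))
      (2 ^ pr (pr k k) k)) := by
    rcases hi5 with h1 | h1
    · exact h1
    · exfalso
      obtain ⟨k, h2, h3, h4⟩ := ev_exists (h1.and (hdq.and (hG.mem i5)))
      exact h2 _ h4 h3
  obtain ⟨l, hl⟩ := hG.dom (max n0 n1)
  set j := max i (max i5 l) with hj
  have e1 : Ext (G j) (G i) := hG.anti i j (le_max_left _ _)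
  have e2 : Ext (G j) (G i5) := hG.anti i5 j (le_trans (le_max_left _ _) (le_max_right _ _))
  have e3 : max n0 n1 ≤ (G j).n :=
    le_trans hl (hG.anti l j (le_trans (le_max_right _ _) (le_max_right _ _))).1
  have hstd : ∃ b, ∀ᶠ k in Uf, ∀ d, Bt ((G j).q k) d → ∀ r, Bt (G i).F r → ∀ j', j' < (G j).n →
      ∃ v, v ≤ b ∧ VL d r j' v := by
    obtain ⟨b, hb⟩ := (G j).std
    exact ⟨b, hb.mono fun k h1 d hd r hr j' hj' => h1 d hd r (e1.2.1 r hr) j' hj'⟩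
  refine ⟨⟨(G j).n, (G i).F, (G j).q, (G j).hq, fun r hr => lt_of_lt_of_le ((G i).hF r hr) e1.1,
    (G j).arr, (G j).cod, (G j).agr, (G j).big, hstd⟩, ⟨e1.1, fun _ h => h, e1.2.2⟩,
    fun _ => 0, hH.const 0, w, hw, Bd.const grst 0, hw1, ?_, ?_, ?_⟩
  · filter_upwards [hw2, hν2] with k h1 h2
    omega
  · intro n
    exact Eventually.of_forall fun k z hz => absurd hz.lt (Nat.not_lt_zero z)
  · filter_upwards [hsub5, e2.2.2, (G j).cod, ev_ge 6, hw2, hν2, hw1 (G j).n] with k h1 h2 h3 h4 h5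
      h6 h7 d' hd'
    have h8 := (sub_iff.1 h1) d' ((sub_iff.1 h2) d' hd')
    rw [bt_cds] at h8
    obtain ⟨h9, h10, P', -, Z', -, h11, h12, h13⟩ := h8
    refine (r5_iff h4 (hU k) hN).2 ⟨rfl, by omega, F (Nat.pair (h k) d'),
      (hg k d' _).2 ⟨h9, h10, rfl⟩, P', Z', h11.mono (by omega), fun z hz =>
      (h12 z hz.lt hz).mono (by omega), fun z hz hb => h13 z hz.lt hz (hb.mono h7 le_rfl)⟩

end Pool.Agent.BSig.Neg
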