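import Pool.Agent.Work.MP_510745_lc.Neg.Next
import Pool.Agent.Work.MP_510745_lc.Neg.CondExt
import Pool.Agent.Work.MP_510745_lc.Neg.BAt
import Pool.Agent.Work.MP_510745_lc.Neg.Wr

/-!
Section 5, soundness: a wrong claim made by a condition is made by all generics through an
extension of the condition.
-/

namespace Pool.Agent.BSig.Neg

open Filter Pool.Agent.BSig

variable {H : Set (ℕ → ℕ)}

section pp

variable {g0 g1 g2 g3 g4 g5 g6 g7 : (ℕ → ℕ) → ℕ} [h0 : PT g0] [h1 : PT g1] [h2 : PT g2]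
  [h3 : PT g3] [h4 : PT g4] [h5 : PT g5] [h6 : PT g6] [h7 : PT g7]

instance pp5_ce (A : Ce) : PP (fun v => A.R (g0 v) (g1 v) (g2 v)) := PP.s3 (d0_pp A.d0)

instance pp5_fn (Θ : Fn) : PP (fun v => Θ.R (g0 v) (g1 v) (g2 v) (g3 v) (g4 v)) :=
  PP.s5 (d0_pp Θ.d0)

instance pp5_Lo : PP (fun v => Lo (g0 v) (g1 v) (g2 v) (g3 v)) :=
  PP.s4 (d0_pp inferInstance)

instance pp5_St (A : Ce) : PP (fun v => St A.R (g0 v) (g1 v) (g2 v) (g3 v)) := by
  apply PP.s4 (P := fun a b c d => St A.R a b c d)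
  unfold St
  infer_instance

instance pp5_BSt (A : Ce) : PP (fun v => BSt A.R (g0 v) (g1 v) (g2 v) (g3 v) (g4 v)) := by
  apply PP.s5 (P := fun a b c d e => BSt A.R a b c d e)
  unfold BSt
  infer_instance

instance pp5_Bh (A : Ce) :
    PP (fun v => Bh A.R (g0 v) (g1 v) (g2 v) (g3 v) (g4 v) (g5 v) (g6 v)) := by
  apply PP.s7 (P := fun a b c d e f g => Bh A.R a b c d e f g)
  unfold Bh
  infer_instance

instance pp5_cl (Θ : Fn) : PP (fun v => Θ.cl (g0 v) (g1 v) (g2 v) (g3 v) (g4 v) (g5 v)) := by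
  apply PP.s6 (P := fun a b c d e f => Θ.cl a b c d e f)
  unfold Fn.cl
  infer_instance

end pp

/-- The condition satisfied by a pair `P`, `Z` at the array `d`. -/
def C5 (Θ : Fn) (A : Ce) (n F0 P Z K e a p d w : ℕ) : Prop :=
  Θ.cl e a n K P Z ∧ (∀ z, z < P → (Bt P z → BSt A.R p a d n z)) ∧
    ∀ z, z < Z → (Bt Z z → ¬ Bh A.R p a d F0 n w z)

/-- Section 5, the sound part. -/
theorem snd5 (hH : Hull H) {A : Ce} (hA : A.over H) {Θ : Fn} {F : ℕ → ℕ} (hF : Primrec F)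
    {h : ℕ → ℕ} (hh : h ∈ H) (p' : Cond H) {K w : ℕ → ℕ} (hK : K ∈ H) (hwH : w ∈ H) (hw : Ns w)
    (hW : ∀ p'' : Cond H, Ext p'' p' → p'' ∉ Wr (nxt H)
      (fun d' => ¬ Sound (nxt H d') Θ (ed F h d') A (cB A d')))
    (hR : ∀ᶠ k in Uf, ∀ d, Bt (p'.q k) d → ∃ P Z, Θ.cl (F (Nat.pair (h k) d)) k p'.n (K k) P Z ∧
      (∀ z, Bt P z → BSt A.R (A.p k) k d p'.n z) ∧
      ∀ z, Bt Z z → ¬ Bh A.R (A.p k) k d p'.F p'.n (w k) z) : A.dis K := by
  by_contra hc
  obtain ⟨u, huH, hu, -, hB⟩ := p'.ex_big hH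
  have hv : (fun k => u k - 1) ∈ H := hH.sub huH (hH.const 1)
  have hvn : ∀ N, ∀ᶠ k in Uf, N ≤ u k - 1 := fun N => (hu (N + 1)).mono fun k hk => by omega
  obtain ⟨p'', -, -, hE, hv1, -, -⟩ := p'.freeze hH (hH.const 0) hu hv
    ((hu 1).mono fun k hk => by omega) hB
  apply hW p'' hE
  rintro d G hG ⟨i, hi⟩ hS
  apply hc
  have hmem : ∀ᶠ k in Uf, Bt (p''.q k) (d k) := by
    filter_upwards [hG.mem i, hi.2.2] with k h1 h2
    exact sub_iff.1 h2 _ h1
  have hmem' : ∀ᶠ k in Uf, Bt (p'.q k) (d k) := by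
    filter_upwards [hmem, hE.2.2] with k h1 h2
    exact sub_iff.1 h2 _ h1
  have hN := hull_nxt hH d
  have he : ed F h d ∈ nxt H d := ⟨F, hF, h, hh, Eventually.of_forall fun _ => rfl⟩
  have hdd : d ∈ nxt H d := self_nxt hH d
  have hid : (fun k => k) ∈ nxt H d := hN.idm
  have hAp : A.p ∈ nxt H d := sub_nxt hA.1
  have hKN : K ∈ nxt H d := sub_nxt hK
  have hwN : w ∈ nxt H d := sub_nxt hwH
  have ht : (fun k => tow p'.n k) ∈ nxt H d := hN.tow (hN.const _) hid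
  set n := p'.n with hn
  set F0 := p'.F with hF0
  have key : ∀ᶠ k in Uf, ∃ P, P < tow n k ∧ ∃ Z, Z < tow n k ∧
      C5 Θ A n F0 P Z (K k) (ed F h d k) k (A.p k) (d k) (w k) := by
    filter_upwards [hR, hmem'] with k h1 h2
    obtain ⟨P, Z, h3, h4, h5⟩ := h1 _ h2
    exact ⟨P, h3.2.1, Z, h3.2.2.1, h3, fun z _ hz => h4 z hz, fun z _ hz => h5 z hz⟩
  obtain ⟨P, hP, hP1⟩ := hN.sk (R := fun u => ∃ Z, Z < tow n (u 3) ∧
      C5 Θ A n F0 (u 0) Z (u 1) (u 2) (u 3) (u 4) (u 5) (u 6)) (by unfold C5; infer_instance)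
    (v := asF [K, ed F h d, fun k => k, A.p, d, w]) (asF_mem hN _ (by
      intro x hx
      simp only [List.mem_cons, List.not_mem_nil, or_false] at hx
      rcases hx with rfl | rfl | rfl | rfl | rfl | rfl <;> assumption)) ht key
  obtain ⟨Z, hZ, hZ1⟩ := hN.sk (R := fun u =>
      C5 Θ A n F0 (u 1) (u 0) (u 2) (u 3) (u 4) (u 5) (u 6) (u 7)) (by unfold C5; infer_instance)
    (v := asF [P, K, ed F h d, fun k => k, A.p, d, w]) (asF_mem hN _ (by
      intro x hx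
      simp only [List.mem_cons, List.not_mem_nil, or_false] at hx
      rcases hx with rfl | rfl | rfl | rfl | rfl | rfl | rfl <;> assumption)) ht
    (hP1.mono fun k hk => hk.2.1)
  have hC : ∀ᶠ k in Uf, Z k < tow n k ∧
      C5 Θ A n F0 (P k) (Z k) (K k) (ed F h d k) k (A.p k) (d k) (w k) :=
    hZ1.mono fun k hk => ⟨hk.1, hk.2.1⟩
  refine hS K hKN P hP Z hZ n (hC.mono fun k hk => hk.2.1) ?_ ?_
  · refine ⟨n + 5, ?_⟩
    filter_upwards [hC, ev_ge 6] with k h1 h2 z hz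
    exact cB_of h2 le_rfl (h1.2.2.1 z hz.lt hz)
  · intro N
    filter_upwards [hC, ev_ge 1, hw N, hvn N, hmem] with k h1 h2 h3 h4 h5 z hz hat
    refine h1.2.2.2 z hz.lt hz ?_
    rcases cB_to hat with h6 | ⟨r, hr, y, hy, hx, m, hm, h6, h7⟩
    · exact Or.inl (by omega)
    · have hrn : r < n := by
        have h8 : tow r k < tow n k := by
          have := hz.lt
          omega
        exact tow_lt_iff.1 h8
      refine Or.inr ⟨r, hrn, y, hy, hx, ?_⟩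
      by_cases hFr : Bt F0 r
      · exact Or.inl ⟨hFr, h6.mono (by omega)⟩
      · refine Or.inr ⟨hFr, m, ?_, h6, h7.mono le_rfl h3⟩
        by_contra hmn
        obtain ⟨v', hv', h8⟩ := h7 n (by omega)
        have h9 := hv1 k (d k) h5 r hrn hFr
        have := h8.uniq h9
        omega

end Pool.Agent.BSig.Neg
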